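import Mathlib

/-!
# Definitions (EveryTuple)

`f i` are monic polynomials with integral coefficients, `a` is a vector of integers, and
`∏ f i ^ a i = Ap f a / Ap f (-a)`.
-/

open scoped BigOperators Polynomial
open Polynomial

namespace Pool.Agent.ETU

/-- the product of the `f i ^ a i` over the `i` with `0 < a i` -/
noncomputable def Ap {r : ℕ} (f : Fin r → ℤ[X]) (a : Fin r → ℤ) : ℤ[X] :=
  ∏ i, f i ^ (a i).toNat

/-- `∏ f i * ∑ a i * f i' / f i` -/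
noncomputable def Np {r : ℕ} (f : Fin r → ℤ[X]) (a : Fin r → ℤ) : ℤ[X] :=
  ∑ i, C (a i) * derivative (f i) * ∏ j ∈ Finset.univ.erase i, f j

/-- primitive vectors -/
def Prim {r : ℕ} (a : Fin r → ℤ) : Prop := ∀ q : ℕ, q.Prime → ∃ i, ¬ (q : ℤ) ∣ a i

/-- non constant monic polynomials whose product is squarefree modulo `p` -/
structure Fam (p : ℕ) {r : ℕ} (f : Fin r → ℤ[X]) : Prop where
  mon : ∀ i, (f i).Monic
  pos : ∀ i, 0 < (f i).natDegree
  sqf : Squarefree ((∏ i, f i).map (Int.castRingHom (ZMod p)))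

/-- at the zeros of `P` the product of the `f i ^ a i` is a root of unity -/
def Rel {r : ℕ} (f : Fin r → ℤ[X]) (a : Fin r → ℤ) (P : ℚ[X]) : Prop :=
  ∃ n : ℕ, 0 < n ∧ P ∣ ((Ap f a) ^ n - (Ap f (-a)) ^ n).map (Int.castRingHom ℚ)

/-- the value at `(α, w)` of a polynomial in two variables -/
noncomputable def ev2 {M : Type} [Field M] [CharZero M] (α w : M) : ℚ[X][X] →+* M :=
  eval₂RingHom (aeval α : ℚ[X] →ₐ[ℚ] M).toRingHom w

/-- a non archimedean normed field in which `p` is small -/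
structure NA (p : ℕ) (M : Type) [NormedField M] : Prop where
  na : ∀ x y : M, ‖x + y‖ ≤ max ‖x‖ ‖y‖
  pp : ‖(p : M)‖ < 1

/-- a group of automorphisms which behaves like an `m`-Sylow subgroup of the inertia group -/
structure TameG (p m : ℕ) (M : Type) [NormedField M] (G : Subgroup (M ≃+* M)) : Prop where
  na : NA p M
  iner : ∀ σ ∈ G, ∀ t : M, ‖t‖ ≤ 1 → ‖σ t - t‖ < 1
  ord : ∀ σ ∈ G, ∀ t : M, ∃ j : ℕ, (σ ^ m ^ j) t = t
  val : ∀ t : M, t ≠ 0 → (∀ σ ∈ G, σ t = t) →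
    ∃ N : ℕ, ¬ m ∣ N ∧ ∃ k : ℤ, ‖t‖ ^ N = ‖(p : M)‖ ^ k

/-- good points -/
def Good {r : ℕ} (f : Fin r → ℤ[X]) (a : Fin r → ℤ) {M : Type} [NormedField M] (α : M) : Prop :=
  ‖α‖ = 1 ∧ ‖aeval α (Np f a)‖ = 1

/-- over the circle `‖α‖ = 1` the roots of `E(α, Y)` have valuations with denominator `m` -/
def Ram (p m : ℕ) [Fact p.Prime] (E : ℚ[X][X]) : Prop :=
  ∀ α w : PadicAlgCl p, ‖α‖ = 1 → ev2 α w E = 0 →
    ∃ h : ℤ, ¬ (m : ℤ) ∣ h ∧ ‖w‖ ^ m = ‖((p : ℕ) : PadicAlgCl p)‖ ^ h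

/-- the pole weights of the equation -/
structure Wts (m : ℕ) (E : ℚ[X][X]) : Prop where
  mon : E.Monic
  deg : E.natDegree = m
  zero : ¬ m ∣ (E.coeff 0).natDegree
  lt : ∀ b, 0 < b → b < m → E.coeff b ≠ 0 →
    m * (E.coeff b).natDegree + b * (E.coeff 0).natDegree < m * (E.coeff 0).natDegree

end Pool.Agent.ETU
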