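import Pool.Agent.ETU.Defs
import Pool.Agent.CS2.RatB

/-!
# The place over `P` is unique

`X` and `w` are integral at a place `O` over `P`. The kernel of `ℚ[X][Y] → k(O)` consists of the `Q` such that `P` divides the
coefficients of `Q %ₘ E`: the minimal polynomial over `ℚ[X] / (P)` of the residue of `w` has a root `w'` in `M`, and `H` applies
to `Q %ₘ E`. So every element of `K` is a power of `P(X)` times an element which is a unit at `O` and at `O'`.
-/

open scoped BigOperators Polynomial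
open Polynomial

namespace Pool.Agent.ETU

open Pool.Agent.CST

private theorem unq_int {K : Type} [Field K] (O : ValuationSubring K) {x : K} {q : K[X]}
    (hq : q.Monic) (hc : ∀ i, i < q.natDegree → q.coeff i ∈ O) (h : q.eval x ∈ O) : x ∈ O ∨ q.natDegree = 0 := by
  by_cases hn : q.natDegree = 0
  · exact Or.inr hn
  refine Or.inl ?_
  rw [← O.valuation_le_one_iff]
  by_contra hcon
  have h1 : 1 < O.valuation x := not_le.1 hcon
  have h0 : O.valuation x ≠ 0 := (zero_lt_one.trans h1).ne'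
  have h2 : q.eval x = ∑ i ∈ Finset.range q.natDegree, q.coeff i * x ^ i + x ^ q.natDegree := by
    rw [eval_eq_sum_range, Finset.sum_range_succ, hq.coeff_natDegree, one_mul]
  have h3 : x ^ q.natDegree =
      q.eval x - ∑ i ∈ Finset.range q.natDegree, q.coeff i * x ^ i := by
    rw [h2]; ring
  have h4 : O.valuation (∑ i ∈ Finset.range q.natDegree, q.coeff i * x ^ i) <
      O.valuation x ^ q.natDegree := by
    apply Valuation.map_sum_lt _ (pow_ne_zero _ h0)
    intro i hi
    rw [map_mul, map_pow]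
    have h5 : O.valuation (q.coeff i) ≤ 1 :=
      (O.valuation_le_one_iff _).2 (hc i (Finset.mem_range.1 hi))
    calc O.valuation (q.coeff i) * O.valuation x ^ i ≤ 1 * O.valuation x ^ i :=
          mul_le_mul_left h5 _
      _ = O.valuation x ^ i := one_mul _
      _ < O.valuation x ^ q.natDegree := pow_lt_pow_right₀ h1 (Finset.mem_range.1 hi)
  have h5 : O.valuation (q.eval x) < O.valuation x ^ q.natDegree := by
    calc O.valuation (q.eval x) ≤ 1 := (O.valuation_le_one_iff _).2 h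
      _ < O.valuation x ^ q.natDegree := one_lt_pow₀ h1 hn
  have h6 : O.valuation (x ^ q.natDegree) < O.valuation x ^ q.natDegree := by
    rw [h3]
    exact Valuation.map_sub_lt _ h5 h4
  rw [map_pow] at h6
  exact lt_irrefl _ h6

private theorem unq_aeval {K : Type} [Field K] [CharZero K] {O : ValuationSubring K}
    (hO : ∀ q : ℚ, (q : K) ∈ O) {x : K} (hx : x ∈ O) (a : ℚ[X]) : aeval x a ∈ O := by
  rw [aeval_eq_sum_range]
  refine sum_mem fun i _ => ?_
  rw [Algebra.smul_def, eq_ratCast]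
  exact mul_mem (hO _) (pow_mem hx _)

private theorem unq_ev2_C {M : Type} [Field M] [CharZero M] (α w : M) (a : ℚ[X]) :
    ev2 α w (C a) = aeval α a := by
  unfold ev2
  rw [coe_eval₂RingHom, eval₂_C]
  rfl

private theorem unq_ev2_X {M : Type} [Field M] [CharZero M] (α w : M) :
    ev2 α w X = w := by
  unfold ev2
  rw [coe_eval₂RingHom, eval₂_X]

private theorem unq_mem {K : Type} [Field K] [CharZero K] {O : ValuationSubring K}
    (hO : ∀ q : ℚ, (q : K) ∈ O) {x w : K} (hx : x ∈ O) (hw : w ∈ O) (Q : ℚ[X][X]) :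
    ev2 x w Q ∈ O := by
  unfold ev2
  rw [coe_eval₂RingHom, eval₂_eq_sum_range]
  exact sum_mem fun i _ => mul_mem (unq_aeval hO hx _) (pow_mem hw _)

private theorem unq_x {K : Type} [Field K] [CharZero K] {O : ValuationSubring K}
    (hO : ∀ q : ℚ, (q : K) ∈ O) {x : K} {P : ℚ[X]} (hP : P.Monic) (hP' : Irreducible P)
    (hv : O.valuation (aeval x P) < 1) : x ∈ O := by
  have h1 : (P.map (algebraMap ℚ K)).Monic := hP.map _
  rcases unq_int O (x := x) h1 (fun i _ => by rw [coeff_map, eq_ratCast]; exact hO _) (by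
    rw [eval_map_algebraMap]
    exact (O.valuation_le_one_iff _).1 hv.le) with h | h
  · exact h
  · rw [natDegree_map] at h
    exact absurd h hP'.natDegree_pos.ne'

private theorem unq_w {K : Type} [Field K] [CharZero K] {O : ValuationSubring K}
    (hO : ∀ q : ℚ, (q : K) ∈ O) {x w : K} (hx : x ∈ O) {E : ℚ[X][X]} (hE : E.Monic)
    (hm : 0 < E.natDegree) (hEw : ev2 x w E = 0) : w ∈ O := by
  have h1 : (E.map (aeval x : ℚ[X] →ₐ[ℚ] K).toRingHom).Monic := hE.map _
  rcases unq_int O (x := w) h1 (fun i _ => by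
    rw [coeff_map]
    exact unq_aeval hO hx _) (by
    rw [eval_map]
    unfold ev2 at hEw
    rw [coe_eval₂RingHom] at hEw
    rw [hEw]
    exact zero_mem _) with h | h
  · exact h
  · rw [hE.natDegree_map] at h
    exact absurd h hm.ne'

private theorem unq_root {L M : Type} [Field L] [Field M] [CharZero M] [IsAlgClosed M]
    {P : ℚ[X]} (hP' : Irreducible P) {α : M} (hα : aeval α P = 0) (ρ : ℚ[X][X] →+* L)
    (hρ : ρ (C P) = 0) {E R : ℚ[X][X]} (hE : E.Monic) (hρE : ρ E = 0) (hρR : ρ R = 0) :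
    ∃ w' : M, ev2 α w' E = 0 ∧ ev2 α w' R = 0 := by
  have hmax : (Ideal.span {P}).IsMaximal :=
    PrincipalIdealRing.isMaximal_of_irreducible hP'
  letI : Field (ℚ[X] ⧸ Ideal.span {P}) := Ideal.Quotient.field _
  have hL : ∀ a ∈ Ideal.span {P}, (ρ.comp C) a = 0 := by
    intro a ha
    obtain ⟨b, rfl⟩ := Ideal.mem_span_singleton'.1 ha
    rw [map_mul, RingHom.comp_apply, RingHom.comp_apply, hρ, mul_zero]
  have hM : ∀ a ∈ Ideal.span {P}, (aeval α : ℚ[X] →ₐ[ℚ] M).toRingHom a = 0 := by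
    intro a ha
    obtain ⟨b, rfl⟩ := Ideal.mem_span_singleton'.1 ha
    change aeval α (b * P) = 0
    rw [map_mul, hα, mul_zero]
  letI algL : Algebra (ℚ[X] ⧸ Ideal.span {P}) L :=
    (Ideal.Quotient.lift (Ideal.span {P}) (ρ.comp C) hL).toAlgebra
  letI algM : Algebra (ℚ[X] ⧸ Ideal.span {P}) M :=
    (Ideal.Quotient.lift (Ideal.span {P}) (aeval α : ℚ[X] →ₐ[ℚ] M).toRingHom hM).toAlgebra
  have h1 : ∀ Q : ℚ[X][X], aeval (ρ X) (Q.map (Ideal.Quotient.mk (Ideal.span {P}))) = ρ Q := by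
    intro Q
    have h : ((aeval (ρ X) : (ℚ[X] ⧸ Ideal.span {P})[X] →ₐ[_] L).toRingHom.comp
        (mapRingHom (Ideal.Quotient.mk (Ideal.span {P})))) = ρ := by
      refine Polynomial.ringHom_ext' ?_ ?_
      · refine RingHom.ext fun a => ?_
        change aeval (ρ X) ((C a : ℚ[X][X]).map (Ideal.Quotient.mk (Ideal.span {P}))) = ρ (C a)
        rw [map_C, aeval_C]
        rfl
      · change aeval (ρ X) ((X : ℚ[X][X]).map (Ideal.Quotient.mk (Ideal.span {P}))) = ρ X
        rw [map_X, aeval_X]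
    exact congrArg (fun f : ℚ[X][X] →+* L => f Q) h
  have h2 : ∀ (w' : M) (Q : ℚ[X][X]),
      aeval w' (Q.map (Ideal.Quotient.mk (Ideal.span {P}))) = ev2 α w' Q := by
    intro w' Q
    have h : ((aeval w' : (ℚ[X] ⧸ Ideal.span {P})[X] →ₐ[_] M).toRingHom.comp
        (mapRingHom (Ideal.Quotient.mk (Ideal.span {P})))) = ev2 α w' := by
      refine Polynomial.ringHom_ext' ?_ ?_
      · refine RingHom.ext fun a => ?_
        change aeval w' ((C a : ℚ[X][X]).map (Ideal.Quotient.mk (Ideal.span {P}))) =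
          ev2 α w' (C a)
        rw [map_C, aeval_C, unq_ev2_C]
        rfl
      · change aeval w' ((X : ℚ[X][X]).map (Ideal.Quotient.mk (Ideal.span {P}))) = ev2 α w' X
        rw [map_X, aeval_X, unq_ev2_X]
    exact congrArg (fun f : ℚ[X][X] →+* M => f Q) h
  have hint : IsIntegral (ℚ[X] ⧸ Ideal.span {P}) (ρ X) := by
    refine ⟨E.map (Ideal.Quotient.mk (Ideal.span {P})), hE.map _, ?_⟩
    have := h1 E
    rw [hρE] at this
    exact this
  obtain ⟨w', hw'⟩ := IsAlgClosed.exists_aeval_eq_zero M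
    (minpoly (ℚ[X] ⧸ Ideal.span {P}) (ρ X)) (minpoly.degree_pos hint).ne'
  have h3 : ∀ Q : ℚ[X][X], ρ Q = 0 → ev2 α w' Q = 0 := by
    intro Q hQ
    rw [← h2]
    obtain ⟨c, hc⟩ := minpoly.dvd (ℚ[X] ⧸ Ideal.span {P}) (ρ X) ((h1 Q).trans hQ)
    rw [hc, map_mul, hw', zero_mul]
  exact ⟨w', h3 E hρE, h3 R hρR⟩

private theorem unq_crit {K : Type} [Field K] [CharZero K] {X' w : K}
    {E : ℚ[X][X]} {m : ℕ} (hE : E.Monic) (hd : E.natDegree = m) (hEw : ev2 X' w E = 0)
    {P : ℚ[X]} (hP : P.Monic)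
    (hP' : Irreducible P) {M : Type} [Field M] [CharZero M] [IsAlgClosed M] {α : M}
    (hα : aeval α P = 0)
    (H : ∀ R : ℚ[X][X], R.natDegree < m → ∀ w' : M, ev2 α w' E = 0 → ev2 α w' R = 0 →
      ∀ i, P ∣ R.coeff i)
    {O : ValuationSubring K} (hO : ∀ q : ℚ, (q : K) ∈ O)
    (hv : O.valuation (aeval X' P) < 1) (Q : ℚ[X][X]) :
    ev2 X' w Q ∈ O ∧ (O.valuation (ev2 X' w Q) < 1 ↔ ∀ i, P ∣ (Q %ₘ E).coeff i) := by
  have hE1 : E ≠ 1 := by
    rintro rfl
    rw [map_one] at hEw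
    exact one_ne_zero hEw
  have hm : 0 < E.natDegree := by
    rcases Nat.eq_zero_or_pos E.natDegree with h | h
    · exact absurd (hE.natDegree_eq_zero.1 h) hE1
    · exact h
  have hx : X' ∈ O := unq_x hO hP hP' hv
  have hw : w ∈ O := unq_w hO hx hE hm hEw
  refine ⟨unq_mem hO hx hw Q, ?_⟩
  have hR : ev2 X' w Q = ev2 X' w (Q %ₘ E) := by
    conv_lhs => rw [← modByMonic_add_div Q E]
    rw [map_add, map_mul, hEw, zero_mul, add_zero]
  rw [hR]
  constructor
  · intro hlt
    obtain ⟨ψ, hψ⟩ : ∃ ψ : ℚ[X][X] →+* O, ∀ Q, (ψ Q : K) = ev2 X' w Q :=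
      ⟨(ev2 X' w).codRestrict O (unq_mem hO hx hw), fun Q => rfl⟩
    have hz : ∀ Q : ℚ[X][X], O.valuation (ev2 X' w Q) < 1 →
        ((IsLocalRing.residue O).comp ψ) Q = 0 := by
      intro Q hQ
      rw [RingHom.comp_apply, IsLocalRing.residue_eq_zero_iff, O.valuation_lt_one_iff, hψ]
      exact hQ
    obtain ⟨w', h1, h2⟩ := unq_root (M := M) hP' hα ((IsLocalRing.residue O).comp ψ)
      (hz _ (by rw [unq_ev2_C]; exact hv)) hE (hz _ (by rw [hEw, map_zero]; exact zero_lt_one))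
      (hz _ hlt)
    refine H _ ?_ w' h1 h2
    rw [← hd]
    exact natDegree_modByMonic_lt _ hE hE1
  · intro h
    obtain ⟨R', hR'⟩ := C_dvd_iff_dvd_coeff _ _ |>.2 h
    rw [hR', map_mul, unq_ev2_C, map_mul]
    calc O.valuation (aeval X' P) * O.valuation (ev2 X' w R') ≤
          O.valuation (aeval X' P) * 1 :=
          mul_le_mul_right ((O.valuation_le_one_iff _).2 (unq_mem hO hx hw R')) _
      _ < 1 := by rw [mul_one]; exact hv

private theorem unq_adj {K : Type} [Field K] [CharZero K] {X' w : K} {x : K}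
    (hx : x ∈ Algebra.adjoin ℚ {X', w}) : ∃ Q : ℚ[X][X], ev2 X' w Q = x := by
  induction hx using Algebra.adjoin_induction with
  | mem x hx =>
    rcases hx with rfl | hx
    · exact ⟨C X, by rw [unq_ev2_C, aeval_X]⟩
    · rw [Set.mem_singleton_iff] at hx
      subst hx
      exact ⟨X, unq_ev2_X _ _⟩
  | algebraMap r => exact ⟨C (C r), by rw [unq_ev2_C, aeval_C]⟩
  | add x y _ _ hx hy =>
    obtain ⟨Q, rfl⟩ := hx
    obtain ⟨R, rfl⟩ := hy
    exact ⟨Q + R, map_add _ _ _⟩
  | mul x y _ _ hx hy =>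
    obtain ⟨Q, rfl⟩ := hx
    obtain ⟨R, rfl⟩ := hy
    exact ⟨Q * R, map_mul _ _ _⟩

theorem place_eq {K : Type} [Field K] [CharZero K] {X' w : K} (hX : Transcendental ℚ X')
    {E : ℚ[X][X]} {m : ℕ} (hE : E.Monic) (hd : E.natDegree = m) (hEw : ev2 X' w E = 0)
    (hgen : IntermediateField.adjoin ℚ {X', w} = ⊤) {P : ℚ[X]} (hP : P.Monic)
    (hP' : Irreducible P) {M : Type} [Field M] [CharZero M] [IsAlgClosed M] {α : M}
    (hα : aeval α P = 0)
    (H : ∀ R : ℚ[X][X], R.natDegree < m → ∀ w' : M, ev2 α w' E = 0 → ev2 α w' R = 0 →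
      ∀ i, P ∣ R.coeff i)
    {O O' : ValuationSubring K} (hO : IsPl O) (hO' : IsPl O')
    (hv : O.valuation (aeval X' P) < 1) (hv' : O'.valuation (aeval X' P) < 1) : O = O' := by
  have hc := unq_crit hE hd hEw hP hP' hα H hO.2 hv
  have hc' := unq_crit hE hd hEw hP hP' hα H hO'.2 hv'
  have hP0 : aeval X' P ≠ 0 := by
    intro h
    exact hX ⟨P, hP.ne_zero, h⟩
  obtain ⟨π, hπ⟩ : ∃ π : Kˣ, (π : K) = aeval X' P := ⟨Units.mk0 _ hP0, rfl⟩
  have hπ1 : 0 < vo O π := (vo_pos_iff hO π).2 (by rw [hπ]; exact hv)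
  have hun : ∀ (N : ℕ) (Q : ℚ[X][X]) (t : Kˣ), (t : K) = ev2 X' w Q → vo O t ≤ N →
      ∃ (n : ℕ) (u : K), O.valuation u = 1 ∧ O'.valuation u = 1 ∧
        (t : K) = aeval X' P ^ n * u := by
    intro N
    induction N with
    | zero =>
      intro Q t ht hN
      have h0 : ¬ O.valuation (t : K) < 1 := by
        rw [← vo_pos_iff hO t]
        push_cast at hN
        omega
      rw [ht] at h0
      have h0' : ¬ O'.valuation (ev2 X' w Q) < 1 := by
        rw [(hc' Q).2, ← (hc Q).2]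
        exact h0
      refine ⟨0, t, ?_, ?_, by rw [pow_zero, one_mul]⟩
      · rw [ht]
        exact le_antisymm ((O.valuation_le_one_iff _).2 (hc Q).1) (not_lt.1 h0)
      · rw [ht]
        exact le_antisymm ((O'.valuation_le_one_iff _).2 (hc' Q).1) (not_lt.1 h0')
    | succ N ih =>
      intro Q t ht hN
      by_cases h0 : O.valuation (ev2 X' w Q) < 1
      · have h1 := (hc Q).2.1 h0
        obtain ⟨R', hR'⟩ := C_dvd_iff_dvd_coeff _ _ |>.2 h1
        have h2 : (t : K) = aeval X' P * ev2 X' w R' := by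
          rw [ht]
          conv_lhs => rw [← modByMonic_add_div Q E]
          rw [map_add, map_mul, hEw, zero_mul, add_zero, hR', map_mul, unq_ev2_C]
        have h3 : ev2 X' w R' ≠ 0 := by
          intro h
          rw [h, mul_zero] at h2
          exact t.ne_zero h2
        obtain ⟨s, hs⟩ : ∃ s : Kˣ, (s : K) = ev2 X' w R' := ⟨Units.mk0 _ h3, rfl⟩
        have h4 : t = π * s := by
          apply Units.ext
          rw [Units.val_mul, hπ, hs, h2]
        have h5 : vo O t = vo O π + vo O s := by rw [h4, vo_mul]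
        obtain ⟨n, u, hu, hu', he⟩ := ih R' s hs (by push_cast at hN; omega)
        refine ⟨n + 1, u, hu, hu', ?_⟩
        rw [h2, ← hs, he, pow_succ]
        ring
      · have h0' : ¬ O'.valuation (ev2 X' w Q) < 1 := by
          rw [(hc' Q).2, ← (hc Q).2]
          exact h0
        refine ⟨0, t, ?_, ?_, by rw [pow_zero, one_mul]⟩
        · rw [ht]
          exact le_antisymm ((O.valuation_le_one_iff _).2 (hc Q).1) (not_lt.1 h0)
        · rw [ht]
          exact le_antisymm ((O'.valuation_le_one_iff _).2 (hc' Q).1) (not_lt.1 h0')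
  have hun' : ∀ (Q : ℚ[X][X]), ev2 X' w Q ≠ 0 →
      ∃ (n : ℕ) (u : K), O.valuation u = 1 ∧ O'.valuation u = 1 ∧
        ev2 X' w Q = aeval X' P ^ n * u := by
    intro Q hQ
    exact hun (vo O (Units.mk0 _ hQ)).toNat Q (Units.mk0 _ hQ) rfl (Int.self_le_toNat _)
  have hall : ∀ x : K, x ≠ 0 → ∃ (n : ℤ) (u : K), O.valuation u = 1 ∧ O'.valuation u = 1 ∧
      x = aeval X' P ^ n * u := by
    intro x hx
    have hx1 : x ∈ IntermediateField.adjoin ℚ {X', w} := by
      rw [hgen]
      exact IntermediateField.mem_top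
    obtain ⟨r, hr, s, hs, hxe⟩ := IntermediateField.mem_adjoin_iff_div.1 hx1
    obtain ⟨Q, rfl⟩ := unq_adj hr
    obtain ⟨R, rfl⟩ := unq_adj hs
    have hQ0 : ev2 X' w Q ≠ 0 := by
      intro h
      rw [h, zero_div] at hxe
      exact hx hxe
    have hR0 : ev2 X' w R ≠ 0 := by
      intro h
      rw [h, div_zero] at hxe
      exact hx hxe
    obtain ⟨a, u, hu, hu', hQe⟩ := hun' Q hQ0
    obtain ⟨b, v, hv1, hv1', hRe⟩ := hun' R hR0
    have hv0 : v ≠ 0 := by
      rintro rfl
      rw [map_zero] at hv1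
      exact zero_ne_one hv1
    refine ⟨(a : ℤ) - b, u / v, ?_, ?_, ?_⟩
    · rw [map_div₀, hu, hv1, div_one]
    · rw [map_div₀, hu', hv1', div_one]
    · rw [hxe, hQe, hRe, zpow_sub₀ hP0, zpow_natCast, zpow_natCast]
      field_simp
  have hkey : ∀ (A : ValuationSubring K), A.valuation (aeval X' P) < 1 → ∀ (n : ℤ) (u : K),
      A.valuation u = 1 → (aeval X' P ^ n * u ∈ A ↔ 0 ≤ n) := by
    intro A hA n u hu
    have hA0 : 0 < A.valuation (aeval X' P) := by
      rw [zero_lt_iff]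
      exact (A.valuation.ne_zero_iff).2 hP0
    rw [← A.valuation_le_one_iff, map_mul, hu, mul_one, map_zpow₀]
    constructor
    · intro h
      by_contra hn
      have h1 : 1 < A.valuation (aeval X' P) ^ n := by
        have h2 : n = -((-n).toNat : ℤ) := by omega
        rw [h2, zpow_neg, zpow_natCast]
        rw [one_lt_inv₀ (pow_pos hA0 _)]
        exact pow_lt_one₀ zero_le' hA (by omega)
      exact absurd h (not_le.2 h1)
    · intro hn
      obtain ⟨k, rfl⟩ := Int.eq_ofNat_of_zero_le hn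
      rw [zpow_natCast]
      exact pow_le_one₀ zero_le' hA.le
  ext x
  by_cases hx : x = 0
  · subst hx
    exact ⟨fun _ => zero_mem _, fun _ => zero_mem _⟩
  · obtain ⟨n, u, hu, hu', rfl⟩ := hall x hx
    rw [hkey O hv n u hu, hkey O' hv' n u hu']

end Pool.Agent.ETU
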