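import Pool.Agent.ETU.Hgt

/-!
# MODULE EVT-HgB : complex lower bound for `f_i(z)`

`f_i(z)` is bounded below when `|a_i|` is maximal and the values satisfy a multiplicative relation with
exponents `a_j`: outside of a large disc this is clear; inside of it the values `f_j(z)`, `j ≠ i`, are bounded
below (Bezout) and above, and the relation bounds `f_i(z)`.
-/

open scoped BigOperators Polynomial
open Polynomial

namespace Pool.Agent.ETU

variable {r : ℕ}

private theorem hgb_core (g : Fin r → ℝ) (c C : ℝ) (hc0 : 0 < c) (hc : c ≤ 1) (hC : 1 ≤ C)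
    (hg0 : ∀ j, 0 < g j) (hg : ∀ j, g j ≤ C) (i : Fin r) (a : Fin r → ℤ) (ha : 0 < a i)
    (hi : ∀ j, (a j).natAbs ≤ (a i).natAbs) (hj : ∀ j, j ≠ i → c ≤ g j)
    (hrel : ∏ j, g j ^ (a j).toNat = ∏ j, g j ^ (-a j).toNat) : (c / C) ^ r ≤ g i := by
  classical
  obtain ⟨N, hN⟩ : ∃ N : ℕ, N = (a i).natAbs := ⟨_, rfl⟩
  have hN0 : N ≠ 0 := by omega
  have hC0 : 0 < C := by linarith
  have h1 : ∏ j, g j ^ (a j).toNat ≤ g i ^ N * (C ^ N) ^ r := by
    calc ∏ j, g j ^ (a j).toNat ≤ ∏ j, ((if j = i then g i ^ N else 1) * C ^ N) := by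
          refine Finset.prod_le_prod (fun j _ => (pow_pos (hg0 j) _).le) fun j _ => ?_
          split_ifs with h
          · subst h
            have : (a j).toNat = N := by omega
            rw [this]
            exact le_mul_of_one_le_right (pow_pos (hg0 j) _).le (one_le_pow₀ hC)
          · rw [one_mul]
            have h2 : (a j).toNat ≤ N := by have := hi j; omega
            calc g j ^ (a j).toNat ≤ C ^ (a j).toNat := pow_le_pow_left₀ (hg0 j).le (hg j) _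
              _ ≤ C ^ N := pow_le_pow_right₀ hC h2
      _ = g i ^ N * (C ^ N) ^ r := by
          rw [Finset.prod_mul_distrib]
          simp
  have h2 : (c ^ N) ^ r ≤ ∏ j, g j ^ (-a j).toNat := by
    calc (c ^ N) ^ r = ∏ _j : Fin r, c ^ N := by simp
      _ ≤ ∏ j, g j ^ (-a j).toNat := by
          refine Finset.prod_le_prod (fun j _ => (pow_pos hc0 _).le) fun j _ => ?_
          by_cases h : j = i
          · subst h
            have : (-a j).toNat = 0 := by omega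
            rw [this, pow_zero]
            exact pow_le_one₀ hc0.le hc
          · have h3 : (-a j).toNat ≤ N := by have := hi j; omega
            calc c ^ N ≤ c ^ (-a j).toNat := pow_le_pow_of_le_one hc0.le hc h3
              _ ≤ g j ^ (-a j).toNat := pow_le_pow_left₀ hc0.le (hj j h) _
  have h3 : (c ^ N) ^ r ≤ g i ^ N * (C ^ N) ^ r := h2.trans (hrel ▸ h1)
  have h4 : ((c / C) ^ r) ^ N ≤ g i ^ N := by
    have e : ((c / C) ^ r) ^ N = (c ^ N) ^ r / (C ^ N) ^ r := by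
      rw [← pow_mul, ← pow_mul, ← pow_mul, mul_comm r N, div_pow]
    rw [e, div_le_iff₀ (by positivity)]
    exact h3
  exact le_of_pow_le_pow_left₀ hN0 (hg0 i).le h4

private theorem hgb_out (f : Fin r → ℤ[X]) (hmon : ∀ i, (f i).Monic)
    (hpos : ∀ i, 0 < (f i).natDegree) :
    ∃ R : ℝ, ∀ i, ∀ z : ℂ, R < ‖z‖ → 1 ≤ ‖aeval z (f i)‖ := by
  have h1 : ∀ i, ∃ R : ℝ, ∀ z : ℂ, R < ‖z‖ → 1 ≤ ‖aeval z (f i)‖ := by
    intro i
    have ht : Filter.Tendsto (fun z : ℂ => ‖eval z ((f i).map (Int.castRingHom ℂ))‖)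
        (Filter.cocompact ℂ) Filter.atTop := by
      refine Polynomial.tendsto_norm_atTop _ ?_ (tendsto_norm_cocompact_atTop (E := ℂ))
      rw [Monic.degree_map (hmon i)]
      exact natDegree_pos_iff_degree_pos.1 (hpos i)
    have h2 := ht.eventually_ge_atTop 1
    rw [Filter.Eventually, Metric.mem_cocompact_iff_closedBall_compl_subset (0 : ℂ)] at h2
    obtain ⟨R, hR⟩ := h2
    refine ⟨R, fun z hz => ?_⟩
    have h3 : z ∈ (Metric.closedBall (0 : ℂ) R)ᶜ := by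
      simp only [Set.mem_compl_iff, Metric.mem_closedBall, dist_zero_right, not_le]
      exact hz
    have h4 := hR h3
    simp only [Set.mem_ofPred_eq] at h4
    have e : aeval z (f i) = eval z ((f i).map (Int.castRingHom ℂ)) := by
      rw [eval_map, aeval_def]
      rfl
    rw [e]
    exact h4
  choose R hR using h1
  obtain ⟨B, hB⟩ := (Set.finite_range R).bddAbove
  exact ⟨B, fun i z hz => hR i z (lt_of_le_of_lt (hB ⟨i, rfl⟩) hz)⟩

private theorem hgb_bd (P : ℤ[X]) (R : ℝ) : ∃ C : ℝ, ∀ z : ℂ, ‖z‖ ≤ R → ‖aeval z P‖ ≤ C := by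
  have hcont : Continuous (fun z : ℂ => aeval z P) := P.continuous_aeval
  obtain ⟨C, hC⟩ := (isCompact_closedBall (0 : ℂ) R).exists_bound_of_continuousOn
    hcont.continuousOn
  exact ⟨C, fun z hz => hC z (by simpa using hz)⟩

private theorem hgb_bd' {ι : Type} [Finite ι] (P : ι → ℤ[X]) (R : ℝ) :
    ∃ C : ℝ, ∀ i, ∀ z : ℂ, ‖z‖ ≤ R → ‖aeval z (P i)‖ ≤ C := by
  have h : ∀ i, ∃ C : ℝ, ∀ z : ℂ, ‖z‖ ≤ R → ‖aeval z (P i)‖ ≤ C := fun i => hgb_bd (P i) R
  choose C hC using h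
  obtain ⟨B, hB⟩ := (Set.finite_range C).bddAbove
  exact ⟨B, fun i z hz => (hC i z hz).trans (hB ⟨i, rfl⟩)⟩

theorem complex_ge {f : Fin r → ℤ[X]} (hmon : ∀ i, (f i).Monic) (hpos : ∀ i, 0 < (f i).natDegree)
    {ρ : ℤ} (hρ : Bez f ρ) :
    ∃ c : ℝ, 0 < c ∧ ∀ (a : Fin r → ℤ) (i : Fin r), a i ≠ 0 →
      (∀ j, (a j).natAbs ≤ (a i).natAbs) → ∀ (z : ℂ), (∀ j, aeval z (f j) ≠ 0) → ∀ n : ℕ, 0 < n →
      (aeval z (Ap f a)) ^ n = (aeval z (Ap f (-a))) ^ n → c ≤ ‖aeval z (f i)‖ := by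
  classical
  obtain ⟨hρ0, hB⟩ := hρ
  have hB' : ∀ q : Fin r × Fin r, ∃ U V : ℤ[X], q.1 ≠ q.2 → U * f q.1 + V * f q.2 = C ρ := by
    intro q
    by_cases h : q.1 = q.2
    · exact ⟨0, 0, fun h' => absurd h h'⟩
    · obtain ⟨U, V, hUV⟩ := hB q.1 q.2 h
      exact ⟨U, V, fun _ => hUV⟩
  choose U V hUV using hB'
  obtain ⟨R, hR⟩ := hgb_out f hmon hpos
  obtain ⟨C1, hC1⟩ := hgb_bd' f R
  obtain ⟨C2, hC2⟩ := hgb_bd' U R
  obtain ⟨C3, hC3⟩ := hgb_bd' V R
  obtain ⟨K, hK⟩ : ∃ K : ℝ, K = max (max C1 C2) (max C3 1) := ⟨_, rfl⟩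
  have hK1 : C1 ≤ K := by rw [hK]; exact (le_max_left _ _).trans (le_max_left _ _)
  have hK2 : C2 ≤ K := by rw [hK]; exact (le_max_right _ _).trans (le_max_left _ _)
  have hK3 : C3 ≤ K := by rw [hK]; exact (le_max_left _ _).trans (le_max_right _ _)
  have hK4 : 1 ≤ K := by rw [hK]; exact (le_max_right _ _).trans (le_max_right _ _)
  have hK0 : 0 < K := by linarith
  obtain ⟨c, hc⟩ : ∃ c : ℝ, c = 1 / (2 * K) := ⟨_, rfl⟩
  have hc0 : 0 < c := by rw [hc]; positivity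
  have hKc : K * c = 1 / 2 := by rw [hc]; field_simp
  have hc1 : c ≤ 1 := by nlinarith
  refine ⟨(c / K) ^ r, by positivity, ?_⟩
  intro a i ha hi z h0 n hn hrel
  have hr : r ≠ 0 := by
    have := i.isLt
    omega
  by_contra hcon
  rw [not_le] at hcon
  have hcK : (c / K) ^ r ≤ c := by
    have h1 : c / K ≤ c := div_le_self hc0.le hK4
    have h2 : 0 ≤ c / K := by positivity
    exact (pow_le_of_le_one h2 (h1.trans hc1) hr).trans h1
  have hlt : ‖aeval z (f i)‖ < c := lt_of_lt_of_le hcon hcK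
  have hz : ‖z‖ ≤ R := by
    by_contra hzR
    rw [not_le] at hzR
    have := hR i z hzR
    linarith
  have hg : ∀ j, ‖aeval z (f j)‖ ≤ K := fun j => (hC1 j z hz).trans hK1
  have hg0 : ∀ j, 0 < ‖aeval z (f j)‖ := fun j => norm_pos_iff.2 (h0 j)
  have hρ1 : (1 : ℝ) ≤ ‖(ρ : ℂ)‖ := by
    rw [Complex.norm_intCast]
    exact_mod_cast Int.one_le_abs hρ0
  have hj : ∀ j, j ≠ i → c ≤ ‖aeval z (f j)‖ := by
    intro j hji
    have h1 := hUV (i, j) (Ne.symm hji)
    have h2 : aeval z (U (i, j)) * aeval z (f i) + aeval z (V (i, j)) * aeval z (f j) =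
        (ρ : ℂ) := by
      rw [← map_mul, ← map_mul, ← map_add, h1]
      simp
    have h3 : ‖(ρ : ℂ)‖ ≤ ‖aeval z (U (i, j))‖ * ‖aeval z (f i)‖ +
        ‖aeval z (V (i, j))‖ * ‖aeval z (f j)‖ := by
      rw [← h2, ← norm_mul, ← norm_mul]
      exact norm_add_le _ _
    have h4 : ‖aeval z (U (i, j))‖ * ‖aeval z (f i)‖ ≤ K * c :=
      mul_le_mul ((hC2 _ z hz).trans hK2) hlt.le (norm_nonneg _) hK0.le
    have h5 : ‖aeval z (V (i, j))‖ * ‖aeval z (f j)‖ ≤ K * ‖aeval z (f j)‖ :=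
      mul_le_mul_of_nonneg_right ((hC3 _ z hz).trans hK3) (norm_nonneg _)
    have h6 : K * c ≤ K * ‖aeval z (f j)‖ := by linarith
    exact le_of_mul_le_mul_left h6 hK0
  have hprod : ∀ b : Fin r → ℤ, ‖aeval z (Ap f b)‖ = ∏ j, ‖aeval z (f j)‖ ^ (b j).toNat := by
    intro b
    simp [Ap, map_prod]
  have hv : ∏ j, ‖aeval z (f j)‖ ^ (a j).toNat = ∏ j, ‖aeval z (f j)‖ ^ (-a j).toNat := by
    have h1 : ‖aeval z (Ap f a)‖ ^ n = ‖aeval z (Ap f (-a))‖ ^ n := by
      rw [← norm_pow, ← norm_pow, hrel]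
    rw [pow_left_inj₀ (norm_nonneg _) (norm_nonneg _) hn.ne', hprod, hprod] at h1
    simpa using h1
  refine absurd hcon (not_lt.2 ?_)
  rcases lt_or_gt_of_ne ha with hneg | hpos'
  · refine hgb_core (fun j => ‖aeval z (f j)‖) c K hc0 hc1 hK4 hg0 hg i (fun j => - a j)
      (by simpa using hneg) (by simpa using hi) hj ?_
    simpa using hv.symm
  · exact hgb_core (fun j => ‖aeval z (f j)‖) c K hc0 hc1 hK4 hg0 hg i a hpos' hi hj hv

end Pool.Agent.ETU
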