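import Pool.Agent.ETU.HgA
import Pool.Agent.ETU.HgB

/-!
# MODULE EVT-HgC : finiteness

If `α` is a root of `P` and `|a_i|` is maximal, then `δ = ρ ^ r / f_i(α)` is an algebraic integer of bounded degree with
bounded conjugates, so there are finitely many `δ`, and `α` is a root of one of finitely many polynomials.
-/

open scoped BigOperators Polynomial IntermediateField
open Polynomial

namespace Pool.Agent.ETU

variable {r : ℕ}

/-- algebraic integers of bounded degree with bounded conjugates -/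
theorem finite_int (B : ℕ) (C' : ℝ) :
    {δ : ℂ | IsIntegral ℤ δ ∧ (minpoly ℤ δ).natDegree ≤ B ∧
      ∀ δ' : ℂ, aeval δ' (minpoly ℤ δ) = 0 → ‖δ'‖ ≤ C'}.Finite := by
  classical
  let C0 := Nat.ceil (max C' 1 ^ B * B.choose (B / 2))
  have h0 := bUnion_roots_finite (algebraMap ℤ ℂ) B (Set.finite_Icc (-C0 : ℤ) C0)
  refine h0.subset fun δ hδ => ?_
  simp_rw [Set.mem_iUnion]
  refine ⟨minpoly ℤ δ, ⟨hδ.2.1, fun i => ?_⟩,
    mem_rootSet.2 ⟨minpoly.ne_zero hδ.1, minpoly.aeval ℤ δ⟩⟩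
  rw [Set.mem_Icc, ← abs_le, ← @Int.cast_le ℝ]
  refine (Eq.trans_le ?_ <| coeff_bdd_of_roots_le (algebraMap ℤ ℂ) (minpoly.monic hδ.1)
    (IsAlgClosed.splits _) hδ.2.1 (fun z hz => ?_) i).trans (Nat.le_ceil _)
  · rw [coeff_map, eq_intCast, Complex.norm_intCast, Int.cast_abs]
  · refine hδ.2.2 z ?_
    rw [mem_roots', IsRoot.def, eval_map] at hz
    rw [aeval_def]
    exact hz.2

private theorem hgc_factors {F : ℚ[X]} (hF : F ≠ 0) :
    {P : ℚ[X] | P.Monic ∧ Irreducible P ∧ P ∣ F}.Finite := by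
  classical
  refine ((UniqueFactorizationMonoid.normalizedFactors F).toFinset.finite_toSet).subset ?_
  rintro P ⟨h1, h2, h3⟩
  rw [Finset.mem_coe, Multiset.mem_toFinset,
    UniqueFactorizationMonoid.mem_normalizedFactors_iff' hF]
  exact ⟨h2, h1.normalize_eq_self, h3⟩

private theorem hgc_rel {f : Fin r → ℤ[X]} {a : Fin r → ℤ} {P : ℚ[X]} {n : ℕ}
    (h : P ∣ ((Ap f a) ^ n - (Ap f (-a)) ^ n).map (Int.castRingHom ℚ)) {L : Type} [Field L]
    [CharZero L] {α : L} (hα : aeval α P = 0) :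
    (aeval α (Ap f a)) ^ n = (aeval α (Ap f (-a))) ^ n := by
  obtain ⟨Q, hQ⟩ := h
  have h1 : aeval α (((Ap f a) ^ n - (Ap f (-a)) ^ n).map (Int.castRingHom ℚ)) = 0 := by
    rw [hQ, map_mul, hα, zero_mul]
  have h2 : aeval α ((Ap f a) ^ n - (Ap f (-a)) ^ n) = 0 := by
    rw [← h1, ← algebraMap_int_eq, aeval_map_algebraMap]
  rw [map_sub, map_pow, map_pow] at h2
  exact sub_eq_zero.1 h2

theorem height_fin {f : Fin r → ℤ[X]} (hmon : ∀ i, (f i).Monic)
    (hpos : ∀ i, 0 < (f i).natDegree)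
    (hc : ∀ i j, i ≠ j → IsCoprime ((f i).map (Int.castRingHom ℚ)) ((f j).map (Int.castRingHom ℚ)))
    (B : ℕ) :
    {P : ℚ[X] | P.Monic ∧ Irreducible P ∧ P.natDegree ≤ B ∧
      ∃ a : Fin r → ℤ, a ≠ 0 ∧ Rel f a P}.Finite := by
  classical
  obtain ⟨ρ, hρ⟩ := exists_Bez f hc
  obtain ⟨c, hc0, hc1⟩ := complex_ge hmon hpos hρ
  let Δ : Set ℂ := {δ : ℂ | IsIntegral ℤ δ ∧ (minpoly ℤ δ).natDegree ≤ B ∧
      ∀ δ' : ℂ, aeval δ' (minpoly ℤ δ) = 0 → ‖δ'‖ ≤ ‖(ρ : ℂ) ^ r‖ / c}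
  have hΔ : Δ.Finite := finite_int B _
  let A : Set ℂ := ⋃ i : Fin r, ⋃ δ ∈ Δ,
    (((f i).map (Int.castRingHom ℂ) - C ((ρ : ℂ) ^ r / δ)).roots.toFinset : Set ℂ)
  have hA : A.Finite := Set.finite_iUnion fun i => hΔ.biUnion fun δ _ => Finset.finite_toSet _
  let S1 : Set ℚ[X] := ⋃ i : Fin r, {P : ℚ[X] | P.Monic ∧ Irreducible P ∧
    P ∣ (f i).map (Int.castRingHom ℚ)}
  have hS1 : S1.Finite := Set.finite_iUnion fun i => hgc_factors ((hmon i).map _).ne_zero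
  refine (hS1.union (hA.image fun α => minpoly ℚ α)).subset ?_
  rintro P ⟨hP1, hP2, hP3, a, ha, n, hn, hdvd⟩
  by_cases hex : ∃ j, P ∣ (f j).map (Int.castRingHom ℚ)
  · obtain ⟨j, hj⟩ := hex
    exact Or.inl (Set.mem_iUnion.2 ⟨j, hP1, hP2, hj⟩)
  right
  push Not at hex
  have hroot : ∀ {α : ℂ}, aeval α P = 0 → P = minpoly ℚ α := fun hα =>
    minpoly.eq_of_irreducible_of_monic hP2 hα hP1
  have hne : ∀ {α : ℂ}, aeval α P = 0 → ∀ j, aeval α (f j) ≠ 0 := by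
    intro α hα j h0
    refine hex j ?_
    rw [hroot hα]
    refine minpoly.dvd ℚ α ?_
    rw [← algebraMap_int_eq, aeval_map_algebraMap]
    exact h0
  have hrel : ∀ {α : ℂ}, aeval α P = 0 → (aeval α (Ap f a)) ^ n = (aeval α (Ap f (-a))) ^ n :=
    fun hα => hgc_rel hdvd hα
  obtain ⟨j0, hj0⟩ : ∃ j, a j ≠ 0 := by
    by_contra h
    push Not at h
    exact ha (funext h)
  obtain ⟨i, -, hi⟩ := Finset.exists_max_image Finset.univ (fun j => (a j).natAbs)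
    ⟨j0, Finset.mem_univ _⟩
  have hi' : ∀ j, (a j).natAbs ≤ (a i).natAbs := fun j => hi j (Finset.mem_univ _)
  have hai : a i ≠ 0 := by
    intro h
    have h1 := hi' j0
    rw [h, Int.natAbs_zero, Nat.le_zero, Int.natAbs_eq_zero] at h1
    exact hj0 h1
  obtain ⟨α, hα⟩ := IsAlgClosed.exists_aeval_eq_zero ℂ P
    (degree_pos_of_irreducible hP2).ne'
  refine ⟨α, ?_, (hroot hα).symm⟩
  have hfne : aeval α (f i) ≠ 0 := hne hα i
  have hρ0 : (ρ : ℂ) ^ r ≠ 0 := pow_ne_zero _ (by exact_mod_cast hρ.1)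
  obtain ⟨δ, hδ⟩ : ∃ δ : ℂ, δ = (ρ : ℂ) ^ r / aeval α (f i) := ⟨_, rfl⟩
  have hδ0 : δ ≠ 0 := by rw [hδ]; exact div_ne_zero hρ0 hfne
  have hδf : aeval α (f i) = (ρ : ℂ) ^ r / δ := by
    rw [hδ, div_div_cancel₀ hρ0]
  have hint : IsIntegral ℤ δ := by
    rw [hδ]
    exact int_inv hmon hpos hρ hai hi' (hne hα) hn (hrel hα)
  have hmap : minpoly ℚ δ = (minpoly ℤ δ).map (algebraMap ℤ ℚ) :=
    minpoly.isIntegrallyClosed_eq_field_fractions' ℚ hint
  have hdeg : (minpoly ℚ δ).natDegree = (minpoly ℤ δ).natDegree := by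
    rw [hmap, (minpoly.monic hint).natDegree_map]
  have hαint : IsIntegral ℚ α := ⟨P, hP1, hα⟩
  have hPα : P = minpoly ℚ α := hroot hα
  have hfd : FiniteDimensional ℚ ℚ⟮α⟯ := IntermediateField.adjoin.finiteDimensional hαint
  let g : ℚ⟮α⟯ := IntermediateField.AdjoinSimple.gen ℚ α
  let x : ℚ⟮α⟯ := (ρ : ℚ⟮α⟯) ^ r / aeval g (f i)
  have hg : algebraMap ℚ⟮α⟯ ℂ g = α := IntermediateField.AdjoinSimple.algebraMap_gen ℚ α
  have hx : algebraMap ℚ⟮α⟯ ℂ x = δ := by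
    rw [hδ, map_div₀, map_pow, map_intCast, ← aeval_algebraMap_apply, hg]
  have hxm : minpoly ℚ x = minpoly ℚ δ := by
    rw [← hx]
    exact (minpoly.algebraMap_eq (algebraMap ℚ⟮α⟯ ℂ).injective x).symm
  have hfin : Module.finrank ℚ ℚ⟮α⟯ = P.natDegree := by
    rw [hPα]; exact IntermediateField.adjoin.finrank hαint
  have hδΔ : δ ∈ Δ := by
    refine ⟨hint, ?_, ?_⟩
    · rw [← hdeg, ← hxm]
      exact ((minpoly.natDegree_le x).trans hfin.le).trans hP3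
    · intro δ' hδ'
      have h1 : δ' ∈ (minpoly ℚ x).rootSet ℂ := by
        rw [mem_rootSet]
        refine ⟨minpoly.ne_zero (Algebra.IsIntegral.isIntegral x), ?_⟩
        rw [hxm, hmap, aeval_map_algebraMap]
        exact hδ'
      rw [← Algebra.IsAlgebraic.range_eval_eq_rootSet_minpoly ℂ x] at h1
      obtain ⟨φ, hφ⟩ := h1
      have hφ' : φ x = δ' := hφ
      have hφg : aeval (φ g) P = 0 := by
        rw [aeval_algHom_apply]
        have : aeval g P = 0 := by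
          rw [hPα]
          exact IntermediateField.aeval_gen_minpoly ℚ α
        rw [this, map_zero]
      have h2 : δ' = (ρ : ℂ) ^ r / aeval (φ g) (f i) := by
        rw [← hφ', map_div₀, map_pow, map_intCast]
        congr 1
        have := aeval_algHom_apply (φ.restrictScalars ℤ) g (f i)
        exact this.symm
      have h3 := hc1 a i hai hi' (φ g) (hne hφg) n hn (hrel hφg)
      rw [h2, norm_div]
      exact div_le_div_of_nonneg_left (norm_nonneg _) hc0 h3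
  refine Set.mem_iUnion.2 ⟨i, Set.mem_iUnion₂.2 ⟨δ, hδΔ, ?_⟩⟩
  rw [Finset.mem_coe, Multiset.mem_toFinset, mem_roots']
  refine ⟨?_, ?_⟩
  · refine (Monic.sub_of_left ((hmon i).map _) ?_).ne_zero
    refine lt_of_le_of_lt degree_C_le ?_
    rw [(hmon i).degree_map]
    exact natDegree_pos_iff_degree_pos.1 (hpos i)
  · rw [IsRoot.def, eval_sub, eval_C, eval_map, sub_eq_zero, ← hδf, aeval_def]
    rfl

end Pool.Agent.ETU
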