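import Pool.Agent.CS2.RatB

/-!
# Correction at one place over each point

As in `rat_absorb` (CS2.RatA), for several functions `u i` (polynomials in `x`): a positive multiple
of a combination of symbols `{u i, h}` and of symbols of polynomials in `x` is
`∑ i, {u i, h i} + β`, where the `h i` have order `0` at a chosen place over each closed point of the
affine line and `β` is a combination of symbols of polynomials in `x`.
-/

open scoped BigOperators Polynomial
open Polynomial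

namespace Pool.Agent.ETU

open Pool.Agent.CST Pool.Agent.Helper11 Pool.Agent.ISI

private theorem Cor_tr {K : Type} [Field K] [CharZero K] {g : K} (hg : Transcendental ℚ g)
    {π : ℚ[X]} (hπ : 0 < π.natDegree) : Transcendental ℚ (aeval g π) := by
  rw [transcendental_iff] at hg ⊢
  intro p hp
  have h1 : aeval g (p.comp π) = 0 := by rw [aeval_comp, hp]
  have h2 := hg _ h1
  by_contra hp0
  have h3 : (p.comp π).natDegree = p.natDegree * π.natDegree := natDegree_comp
  rw [h2, natDegree_zero] at h3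
  have h4 : p.natDegree = 0 := by
    rcases Nat.mul_eq_zero.1 h3.symm with h | h
    · exact h
    · omega
  obtain ⟨c, rfl⟩ : ∃ c, p = C c := ⟨_, eq_C_of_natDegree_eq_zero h4⟩
  rw [C_comp] at h2
  exact hp0 h2

private theorem Cor_place {K : Type} [Field K] [CharZero K] {g : K} (hg : Transcendental ℚ g)
    (hK : FiniteDimensional (IntermediateField.adjoin ℚ {g}) K) {π : ℚ[X]} (hm : π.Monic)
    (hi : Irreducible π) :
    ∃ O : ValuationSubring K, IsPl O ∧ O.valuation (aeval g π) < 1 ∧ g ∈ O := by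
  have h1 : 0 < π.natDegree := hi.natDegree_pos
  have h2 := Cor_tr hg h1
  obtain ⟨O, hO, h3⟩ := exists_zero h2 (finite_of_transcendental hK h2)
  refine ⟨O, hO, h3, ?_⟩
  by_contra hgO
  have h : 1 < O.valuation g := by
    rw [← not_le]
    exact fun h => hgO ((O.valuation_le_one_iff _).1 h)
  have h4 : O.valuation (aeval g π) = O.valuation g ^ π.natDegree := by
    have h5 : aeval g π = g ^ π.natDegree + ∑ i ∈ Finset.range π.natDegree,
        ((π.coeff i : ℚ) : K) * g ^ i := by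
      rw [aeval_eq_sum_range, Finset.sum_range_succ, add_comm]
      congr 1
      · rw [coeff_natDegree, hm.leadingCoeff, one_smul]
      · refine Finset.sum_congr rfl fun i _ => ?_
        rw [Algebra.smul_def, eq_ratCast]
    have h6 : O.valuation (∑ i ∈ Finset.range π.natDegree,
        ((π.coeff i : ℚ) : K) * g ^ i) < O.valuation g ^ π.natDegree := by
      refine Valuation.map_sum_lt _ (pow_ne_zero _ (by
        intro h0
        rw [h0] at h
        exact not_lt_bot h)) fun i hi => ?_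
      rw [map_mul, map_pow]
      have h7 := (O.valuation_le_one_iff _).2 (hO.2 (π.coeff i))
      exact (mul_le_of_le_one_left' h7).trans_lt
        (pow_lt_pow_right₀ h (Finset.mem_range.1 hi))
    rw [h5, Valuation.map_add_eq_of_lt_left, map_pow]
    rwa [map_pow]
  rw [h4] at h3
  exact absurd h3 (not_lt.2 (one_le_pow₀ h.le))

private theorem Cor_unit {K : Type} [Field K] [CharZero K] {g : K} (hg : Transcendental ℚ g)
    {O : ValuationSubring K} (hO : IsPl O) (hgO : g ∈ O) {π π' : ℚ[X]} (hm : π.Monic)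
    (hi : Irreducible π) (hm' : π'.Monic) (hi' : Irreducible π') (hne : π ≠ π')
    (hv : O.valuation (aeval g π) < 1) : vo O (pq g π') = 0 := by
  rw [vo_eq_zero_iff hO, pq_val hg hm'.ne_zero]
  have h1 : aeval g π' ∈ O := by
    rw [aeval_eq_sum_range]
    refine sum_mem fun i _ => ?_
    rw [Algebra.smul_def, eq_ratCast]
    exact mul_mem (hO.2 _) (pow_mem hgO _)
  refine le_antisymm ((O.valuation_le_one_iff _).2 h1) ?_
  by_contra h2
  push Not at h2
  exact hne (Pool.Agent.CSG.cyk_unique (k := ℚ) inferInstance hO hgO hm hi hm' hi' hv h2)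

/-- clearing denominators for several slices -/
private theorem Cor_clear {K : Type} [Field K] [CharZero K] {r : ℕ} {u : Fin r → Kˣ} {s : KMQ K 2}
    (hs : s ∈ ⨆ i, slM (u i)) :
    ∃ (M : ℕ) (h : Fin r → Kˣ), 0 < M ∧ (M : ℚ) • s = ∑ i, sy (u i) (h i) := by
  classical
  obtain ⟨f, hf, hsum⟩ := (Submodule.mem_iSup_iff_exists_finsupp _ _).1 hs
  choose m h hm hsh using fun i => clear_denominators (hf i)
  refine ⟨∏ i, m i, fun i => h i ^ (∏ j ∈ Finset.univ.erase i, m j),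
    Finset.prod_pos fun i _ => hm i, ?_⟩
  have h1 : s = ∑ i, f i := by
    rw [← hsum]
    exact Finsupp.sum_fintype _ _ fun _ => rfl
  rw [h1, Finset.smul_sum]
  refine Finset.sum_congr rfl fun i _ => ?_
  have h2 : ∏ j, m j = (∏ j ∈ Finset.univ.erase i, m j) * m i :=
    (Finset.prod_erase_mul _ _ (Finset.mem_univ i)).symm
  rw [h2, Nat.cast_mul, mul_smul, hsh i]
  change _ = sy (u i) (h i ^ (∏ j ∈ Finset.univ.erase i, m j))
  rw [← zpow_natCast (h i), sy_zpow_right, Int.cast_natCast]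

theorem correct {K : Type} [Field K] [CharZero K] {x : K} (hx : Transcendental ℚ x)
    (hK : FiniteDimensional (IntermediateField.adjoin ℚ {x}) K) {r : ℕ} {u : Fin r → Kˣ}
    {g : Fin r → ℚ[X]} (hg : ∀ i, g i ≠ 0) (hu : ∀ i, (u i : K) = aeval x (g i)) {z : KMQ K 2}
    (hz : z ∈ (⨆ i, slM (u i)) ⊔ LP x) :
    ∃ (N : ℕ) (h : Fin r → Kˣ) (β : KMQ K 2) (Q : ℚ[X] → ValuationSubring K), 0 < N ∧ β ∈ LP x ∧
      (N : ℚ) • z = ∑ i, sy (u i) (h i) + β ∧
      ∀ P : ℚ[X], P.Monic → Irreducible P → IsPl (Q P) ∧ x ∈ Q P ∧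
        (Q P).valuation (aeval x P) < 1 ∧ ∀ i, vo (Q P) (h i) = 0 := by
  classical
  obtain ⟨s, hs, β, hβ, rfl⟩ := Submodule.mem_sup.1 hz
  obtain ⟨M, h, hM, hsh⟩ := Cor_clear hs
  choose! Q hQ1 hQ2 hQ3 using fun (π : ℚ[X]) (hπ : π.Monic ∧ Irreducible π) =>
    Cor_place hx hK hπ.1 hπ.2
  have hinj : ∀ π π' : ℚ[X], (π.Monic ∧ Irreducible π) → (π'.Monic ∧ Irreducible π') →
      Q π = Q π' → π = π' := by
    intro π π' hπ hπ' he
    by_contra hne
    have h1 := Cor_unit hx (hQ1 π hπ) (hQ3 π hπ) hπ.1 hπ.2 hπ'.1 hπ'.2 hne (hQ2 π hπ)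
    rw [vo_eq_zero_iff (hQ1 π hπ), pq_val hx hπ'.1.ne_zero, he] at h1
    exact absurd (hQ2 π' hπ') (by rw [h1]; exact lt_irrefl _)
  have hfin : ∀ i, {π : ℚ[X] | (π.Monic ∧ Irreducible π) ∧ vo (Q π) (h i) ≠ 0}.Finite := by
    intro i
    have h1 := Pool.Agent.CSG.finite_suppK hK (h i).ne_zero
    refine Set.Finite.of_finite_image (f := Q) (h1.subset ?_) ?_
    · rintro _ ⟨π, hπ, rfl⟩
      refine ⟨hQ1 π hπ.1, fun h2 => hπ.2 ((vo_eq_zero_iff (hQ1 π hπ.1) (h i)).2 h2)⟩
    · intro π hπ π' hπ' he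
      exact hinj π π' hπ.1 hπ'.1 he
  have hfin' : (⋃ i, {π : ℚ[X] | (π.Monic ∧ Irreducible π) ∧ vo (Q π) (h i) ≠ 0}).Finite :=
    Set.finite_iUnion hfin
  let P : Finset ℚ[X] := hfin'.toFinset
  have hP : ∀ π, π ∈ P ↔ (π.Monic ∧ Irreducible π) ∧ ∃ i, vo (Q π) (h i) ≠ 0 := fun π => by
    simp only [P, Set.Finite.mem_toFinset, Set.mem_iUnion, Set.mem_setOf_eq, exists_and_left]
  let e : ℚ[X] → ℤ := fun π => vo (Q π) (pq x π)
  have he : ∀ π ∈ P, 0 < e π := by
    intro π hπ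
    have h1 := ((hP π).1 hπ).1
    exact (vo_pos_iff (hQ1 π h1) _).2 (by rw [pq_val hx h1.1.ne_zero]; exact hQ2 π h1)
  let N : ℤ := ∏ π ∈ P, e π
  have hN : 0 < N := Finset.prod_pos he
  let c : Fin r → ℚ[X] → ℤ := fun i π => -(vo (Q π) (h i) * (N / e π))
  have hce : ∀ i, ∀ π ∈ P, c i π * e π = -(N * vo (Q π) (h i)) := by
    intro i π hπ
    have h1 : N / e π * e π = N := Int.ediv_mul_cancel (Finset.dvd_prod_of_mem e hπ)
    change -(vo (Q π) (h i) * (N / e π)) * e π = _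
    linear_combination -(vo (Q π) (h i)) * h1
  let w : Fin r → Kˣ := fun i => h i ^ N * ∏ π ∈ P, pq x π ^ c i π
  have hw : ∀ i, ∀ π : ℚ[X], π.Monic ∧ Irreducible π → vo (Q π) (w i) = 0 := by
    intro i π hπ
    have h1 : vo (Q π) (w i) = N * vo (Q π) (h i) +
        ∑ π' ∈ P, c i π' * vo (Q π) (pq x π') := by
      change vo (Q π) (h i ^ N * ∏ π ∈ P, pq x π ^ c i π) = _
      rw [vo_mul, vo_zpow, vo_prod]
      congr 1
      exact Finset.sum_congr rfl fun π' _ => vo_zpow _ _ _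
    have h2 : ∀ π' ∈ P, π' ≠ π → c i π' * vo (Q π) (pq x π') = 0 := by
      intro π' hπ' hne
      have h3 := ((hP π').1 hπ').1
      rw [Cor_unit hx (hQ1 π hπ) (hQ3 π hπ) hπ.1 hπ.2 h3.1 h3.2 hne.symm (hQ2 π hπ), mul_zero]
    by_cases hπP : π ∈ P
    · rw [h1, Finset.sum_eq_single_of_mem π hπP h2]
      have h3 := hce i π hπP
      change c i π * vo (Q π) (pq x π) = _ at h3
      rw [h3]
      ring
    · have h3 : vo (Q π) (h i) = 0 := by
        by_contra h4
        exact hπP ((hP π).2 ⟨hπ, i, h4⟩)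
      rw [h1, h3, mul_zero, zero_add]
      refine Finset.sum_eq_zero fun π' hπ' => h2 π' hπ' ?_
      rintro rfl
      exact hπP hπ'
  have hug : ∀ i, u i = pq x (g i) := by
    intro i
    apply Units.ext
    rw [hu i, pq_val hx (hg i)]
  have hsyw : ∀ i, sy (u i) (w i) = (N : ℚ) • sy (u i) (h i) +
      ∑ π ∈ P, (c i π : ℚ) • sy (u i) (pq x π) := by
    intro i
    change sy (u i) (h i ^ N * ∏ π ∈ P, pq x π ^ c i π) = _
    rw [sy_mul_right, sy_zpow_right, sy_prod_right]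
    congr 1
    exact Finset.sum_congr rfl fun π _ => sy_zpow_right _ _ _
  have hNn : ((N.toNat * M : ℕ) : ℚ) = (N : ℚ) * M := by
    rw [Nat.cast_mul]
    congr 1
    have h1 : ((N.toNat : ℤ) : ℚ) = (N : ℚ) := by rw [Int.toNat_of_nonneg hN.le]
    rw [← h1, Int.cast_natCast]
  refine ⟨N.toNat * M, w, ((N : ℚ) * M) • β - ∑ i, ∑ π ∈ P, (c i π : ℚ) • sy (u i) (pq x π), Q,
    Nat.mul_pos (by omega) hM, ?_, ?_, ?_⟩
  · refine Submodule.sub_mem _ (Submodule.smul_mem _ _ hβ) (Submodule.sum_mem _ fun i _ =>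
      Submodule.sum_mem _ fun π hπ => Submodule.smul_mem _ _ ?_)
    rw [hug i]
    exact Submodule.subset_span ⟨g i, π, hg i, ((hP π).1 hπ).1.1.ne_zero, rfl⟩
  · rw [hNn, smul_add, mul_smul (N : ℚ) (M : ℚ) s, hsh, Finset.smul_sum,
      Finset.sum_congr rfl fun i _ => hsyw i, Finset.sum_add_distrib]
    abel
  · intro P h1 h2
    exact ⟨hQ1 P ⟨h1, h2⟩, hQ3 P ⟨h1, h2⟩, hQ2 P ⟨h1, h2⟩, fun i => hw i P ⟨h1, h2⟩⟩

end Pool.Agent.ETU
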