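import Pool.Agent.CS2.RatB

/-!
# Unramified elements of `K₂(ℚ(X))` at two places over the same point

An element of `K₂(ℚ(x)) ⊗ ℚ` which is unramified at one place over a closed point of the line is
unramified at every place over this point: up to symbols of polynomials prime to `P` it is a multiple
of `{P, g₁/g₂}`; the tame symbol shows that `P` divides `g₁^M - g₂^M` for some `M ≥ 1`, and the
Steinberg relation does the rest.
-/

open scoped BigOperators Polynomial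
open Polynomial

namespace Pool.Agent.ETU

open Pool.Agent.CST Pool.Agent.Helper11 Pool.Agent.ISI

section

variable {K : Type} [Field K] [CharZero K] {x : K}

private lemma trn_mem (O : ValuationSubring K) (hQ : ∀ r : ℚ, (r : K) ∈ O) (hxO : x ∈ O)
    (p : ℚ[X]) : aeval x p ∈ O := by
  rw [aeval_eq_sum_range]
  refine O.toSubring.sum_mem fun i _ => ?_
  rw [Algebra.smul_def, eq_ratCast]
  exact O.mul_mem _ _ (hQ _) (O.toSubring.pow_mem hxO i)

private lemma trn_unit (O : ValuationSubring K) (hQ : ∀ r : ℚ, (r : K) ∈ O) (hxO : x ∈ O)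
    {π : ℚ[X]} (hirr : Irreducible π) (hπ : O.valuation (aeval x π) < 1) {p : ℚ[X]}
    (hp : ¬ π ∣ p) : O.valuation (aeval x p) = 1 := by
  have hle : ∀ q : ℚ[X], O.valuation (aeval x q) ≤ 1 := fun q =>
    (O.valuation_le_one_iff _).2 (trn_mem O hQ hxO q)
  refine le_antisymm (hle p) ?_
  by_contra hcon
  push Not at hcon
  obtain ⟨a, b, hab⟩ := (hirr.coprime_iff_not_dvd.2 hp)
  have h1 : aeval x a * aeval x π + aeval x b * aeval x p = 1 := by
    rw [← map_mul, ← map_mul, ← map_add, hab, map_one]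
  have h2 : O.valuation (aeval x a * aeval x π + aeval x b * aeval x p) < 1 := by
    apply Valuation.map_add_lt
    · rw [map_mul]
      exact mul_lt_one_of_nonneg_of_lt_one_right (hle a) zero_le hπ
    · rw [map_mul]
      exact mul_lt_one_of_nonneg_of_lt_one_right (hle b) zero_le hcon
  rw [h1, map_one] at h2
  exact lt_irrefl _ h2

private lemma trn_pqunit (hx : Transcendental ℚ x) (O : ValuationSubring K)
    (hQ : ∀ r : ℚ, (r : K) ∈ O) (hxO : x ∈ O)
    {π : ℚ[X]} (hirr : Irreducible π) (hπ : O.valuation (aeval x π) < 1) {p : ℚ[X]} (hp0 : p ≠ 0)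
    (hp : ¬ π ∣ p) : pq x p ∈ O.unitGroup := by
  rw [ValuationSubring.mem_unitGroup_iff, pq_val hx hp0]
  exact trn_unit O hQ hxO hirr hπ hp

/-- symbols of polynomials prime to `P` -/
private noncomputable def trnL (x : K) (P : ℚ[X]) : Submodule ℚ (KMQ K 2) :=
  Submodule.span ℚ {z | ∃ a b : ℚ[X], a ≠ 0 ∧ b ≠ 0 ∧ ¬ P ∣ a ∧ ¬ P ∣ b ∧
    z = sy (pq x a) (pq x b)}

/-- quotients of polynomials prime to `P` -/
private def TrnG (x : K) (P : ℚ[X]) (u : Kˣ) : Prop :=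
  ∃ a b : ℚ[X], a ≠ 0 ∧ b ≠ 0 ∧ ¬ P ∣ a ∧ ¬ P ∣ b ∧ u = pq x a / pq x b

private lemma trn_one (hx : Transcendental ℚ x) : pq x (1 : ℚ[X]) = 1 := by
  apply Units.ext
  rw [pq_val hx one_ne_zero, map_one, Units.val_one]

private lemma trnG_one (hx : Transcendental ℚ x) {P : ℚ[X]} (hP : Irreducible P) :
    TrnG x P 1 := by
  refine ⟨1, 1, one_ne_zero, one_ne_zero, hP.not_dvd_one, hP.not_dvd_one, ?_⟩
  rw [div_self']

private lemma trnG_mul (hx : Transcendental ℚ x) {P : ℚ[X]} (hP : Irreducible P) {u v : Kˣ}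
    (hu : TrnG x P u) (hv : TrnG x P v) : TrnG x P (u * v) := by
  obtain ⟨a, b, ha, hb, hPa, hPb, rfl⟩ := hu
  obtain ⟨c, d, hc, hd, hPc, hPd, rfl⟩ := hv
  refine ⟨a * c, b * d, mul_ne_zero ha hc, mul_ne_zero hb hd, ?_, ?_, ?_⟩
  · exact fun h => (hP.prime.dvd_or_dvd h).elim hPa hPc
  · exact fun h => (hP.prime.dvd_or_dvd h).elim hPb hPd
  · rw [pq_mul hx ha hc, pq_mul hx hb hd, div_mul_div_comm]

private lemma trnG_inv {P : ℚ[X]} {u : Kˣ} (hu : TrnG x P u) : TrnG x P u⁻¹ := by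
  obtain ⟨a, b, ha, hb, hPa, hPb, rfl⟩ := hu
  exact ⟨b, a, hb, ha, hPb, hPa, inv_div _ _⟩

private lemma trnG_pow (hx : Transcendental ℚ x) {P : ℚ[X]} (hP : Irreducible P) {u : Kˣ}
    (hu : TrnG x P u) (n : ℕ) : TrnG x P (u ^ n) := by
  induction n with
  | zero => rw [pow_zero]; exact trnG_one hx hP
  | succ n ih => rw [pow_succ]; exact trnG_mul hx hP ih hu

private lemma trnG_zpow (hx : Transcendental ℚ x) {P : ℚ[X]} (hP : Irreducible P) {u : Kˣ}
    (hu : TrnG x P u) (n : ℤ) : TrnG x P (u ^ n) := by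
  rcases n with n | n
  · rw [Int.ofNat_eq_natCast, zpow_natCast]
    exact trnG_pow hx hP hu n
  · rw [zpow_negSucc]
    exact trnG_inv (trnG_pow hx hP hu _)

private lemma trn_poly (hx : Transcendental ℚ x) {P : ℚ[X]} (hP : Irreducible P) {a : ℚ[X]}
    (ha : a ≠ 0) : ∃ (n : ℕ) (b : ℚ[X]), b ≠ 0 ∧ ¬ P ∣ b ∧ pq x a = pq x P ^ n * pq x b := by
  obtain ⟨n, b, hb, rfl⟩ := WfDvdMonoid.max_power_factor ha hP
  have hb0 : b ≠ 0 := by
    rintro rfl
    exact ha (mul_zero _)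
  refine ⟨n, b, hb0, hb, ?_⟩
  rw [pq_mul hx (pow_ne_zero n hP.ne_zero) hb0, pq_pow hx hP.ne_zero]

private lemma sy_pow_left' (u v : Kˣ) (n : ℕ) : sy (v ^ n) u = (n : ℚ) • sy v u := by
  have h := sy_zpow_left u v n
  rwa [zpow_natCast, Int.cast_natCast] at h

private lemma sy_pow_right' (u v : Kˣ) (n : ℕ) : sy u (v ^ n) = (n : ℚ) • sy u v := by
  have h := sy_zpow_right u v n
  rwa [zpow_natCast, Int.cast_natCast] at h

private lemma trn_normal (hx : Transcendental ℚ x) {P : ℚ[X]} (hP : Irreducible P)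
    {β : KMQ K 2} (hβ : β ∈ LP x) :
    ∃ N : ℕ, N ≠ 0 ∧ ∃ u, TrnG x P u ∧ (N : ℚ) • β - sy (pq x P) u ∈ trnL x P := by
  unfold LP at hβ
  induction hβ using Submodule.span_induction with
  | mem y hy =>
    obtain ⟨a, b, ha, hb, rfl⟩ := hy
    obtain ⟨i, a', ha0, haP, ha'⟩ := trn_poly hx hP ha
    obtain ⟨j, b', hb0, hbP, hb'⟩ := trn_poly hx hP hb
    have h1 : ∀ c : ℚ[X], c ≠ 0 → ¬ P ∣ c → TrnG x P (pq x c) := fun c hc hc' =>
      ⟨c, 1, hc, one_ne_zero, hc', hP.not_dvd_one, by rw [trn_one hx, div_one]⟩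
    refine ⟨1, one_ne_zero, pq x b' ^ i * (pq x a' ^ j)⁻¹, ?_, ?_⟩
    · exact trnG_mul hx hP (trnG_pow hx hP (h1 b' hb0 hbP) i)
        (trnG_inv (trnG_pow hx hP (h1 a' ha0 haP) j))
    · have h2 : (((1 : ℕ) : ℚ)) • sy (pq x a) (pq x b) -
          sy (pq x P) (pq x b' ^ i * (pq x a' ^ j)⁻¹) = sy (pq x a') (pq x b') := by
        rw [Nat.cast_one, one_smul, ha', hb', sy_mul_left, sy_mul_right, sy_mul_right,
          sy_pow_left', sy_pow_left', sy_pow_right', sy_pow_right', sy_self, sy_mul_right,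
          sy_inv_right, sy_pow_right', sy_pow_right', sy_anti (pq x a') (pq x P)]
        module
      rw [h2]
      exact Submodule.subset_span ⟨a', b', ha0, hb0, haP, hbP, rfl⟩
  | zero =>
    refine ⟨1, one_ne_zero, 1, trnG_one hx hP, ?_⟩
    rw [smul_zero, sy_one_right, sub_zero]
    exact Submodule.zero_mem _
  | add a b _ _ ha hb =>
    obtain ⟨N, hN, u, hu, h1⟩ := ha
    obtain ⟨N', hN', u', hu', h2⟩ := hb
    refine ⟨N * N', mul_ne_zero hN hN', u ^ N' * u' ^ N,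
      trnG_mul hx hP (trnG_pow hx hP hu _) (trnG_pow hx hP hu' _), ?_⟩
    have h3 : ((N * N' : ℕ) : ℚ) • (a + b) - sy (pq x P) (u ^ N' * u' ^ N) =
        (N' : ℚ) • ((N : ℚ) • a - sy (pq x P) u) + (N : ℚ) • ((N' : ℚ) • b - sy (pq x P) u') := by
      rw [sy_mul_right, sy_pow_right', sy_pow_right']
      push_cast
      module
    rw [h3]
    exact Submodule.add_mem _ (Submodule.smul_mem _ _ h1) (Submodule.smul_mem _ _ h2)
  | smul c a _ ha =>
    obtain ⟨N, hN, u, hu, h1⟩ := ha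
    refine ⟨N * c.den, mul_ne_zero hN c.den_nz, u ^ c.num, trnG_zpow hx hP hu _, ?_⟩
    have hc : (c.den : ℚ) * c = c.num := Rat.den_mul_eq_num c
    have h3 : ((N * c.den : ℕ) : ℚ) • (c • a) - sy (pq x P) (u ^ c.num) =
        (c.num : ℚ) • ((N : ℚ) • a - sy (pq x P) u) := by
      rw [sy_zpow_right, smul_smul, smul_sub, smul_smul]
      congr 2
      push_cast
      rw [mul_assoc, hc, mul_comm]
    rw [h3]
    exact Submodule.smul_mem _ _ h1

private lemma trn_sy_mem {O : ValuationSubring K} {u v : Kˣ} (hu : u ∈ O.unitGroup)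
    (hv : v ∈ O.unitGroup) : sy u v ∈ unrM O 2 := by
  refine Submodule.subset_span ⟨![u, v], fun i => ?_, rfl⟩
  fin_cases i
  · exact hu
  · exact hv

private lemma trnL_le (hx : Transcendental ℚ x) (O : ValuationSubring K)
    (hQ : ∀ r : ℚ, (r : K) ∈ O) (hxO : x ∈ O)
    {P : ℚ[X]} (hirr : Irreducible P) (hP : O.valuation (aeval x P) < 1) :
    trnL x P ≤ unrM O 2 := by
  unfold trnL
  rw [Submodule.span_le]
  rintro z ⟨a, b, ha, hb, haP, hbP, rfl⟩
  exact trn_sy_mem (trn_pqunit hx O hQ hxO hirr hP ha haP) (trn_pqunit hx O hQ hxO hirr hP hb hbP)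

private lemma trn_of_smul {W : Submodule ℚ (KMQ K 2)} {m : ℚ} (hm : m ≠ 0) {z : KMQ K 2}
    (h : m • z ∈ W) : z ∈ W := by
  have h1 := W.smul_mem m⁻¹ h
  rwa [smul_smul, inv_mul_cancel₀ hm, one_smul] at h1

/-- the tame symbol at `O` -/
private lemma trn_tame (hx : Transcendental ℚ x) (O : ValuationSubring K)
    [IsDiscreteValuationRing O] (hQ : ∀ r : ℚ, (r : K) ∈ O) (hxO : x ∈ O)
    {P : ℚ[X]} (hirr : Irreducible P) (hP : O.valuation (aeval x P) < 1) {g₁ g₂ : ℚ[X]}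
    (h₁ : g₁ ≠ 0) (h₂ : g₂ ≠ 0) (h₁' : ¬ P ∣ g₁) (h₂' : ¬ P ∣ g₂)
    (h : sy (pq x P) (pq x g₁ / pq x g₂) ∈ unrM O 2) :
    ∃ m : ℕ, m ≠ 0 ∧ P ∣ g₁ ^ m - g₂ ^ m := by
  obtain ⟨V, _, _, χ, τ, ord, p, H, t1, t2, t3⟩ := exists_tameT O
  have hu1 := trn_pqunit hx O hQ hxO hirr hP h₁ h₁'
  have hu2 := trn_pqunit hx O hQ hxO hirr hP h₂ h₂'
  have hu : pq x g₁ / pq x g₂ ∈ O.unitGroup := O.unitGroup.div_mem hu1 hu2
  have h1 := t2 _ h
  rw [t1 _ _ hu] at h1
  have hord : 0 < ord (pq x P) := by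
    rw [← H.lt_one_iff, pq_val hx hirr.ne_zero]
    exact hP
  have h2 : χ (pq x g₁ / pq x g₂) = 0 := by
    have h3 : (ord (pq x P) : ℚ) ≠ 0 := by exact_mod_cast hord.ne'
    have h4 := congrArg (fun w => (ord (pq x P) : ℚ)⁻¹ • w) h1
    simp only [smul_smul, inv_mul_cancel₀ h3, one_smul, smul_zero] at h4
    exact h4
  obtain ⟨m, hm, hmv⟩ := t3 _ hu h2
  refine ⟨m, hm, ?_⟩
  by_contra hcon
  have h4 := trn_unit O hQ hxO hirr hP hcon
  have hv2 : O.valuation (aeval x g₂) = 1 := trn_unit O hQ hxO hirr hP h₂'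
  have hne : aeval x g₂ ≠ 0 := aeval_ne hx h₂
  have h5 : aeval x (g₁ ^ m - g₂ ^ m) =
      ((((pq x g₁ / pq x g₂ : Kˣ) : K)) ^ m - 1) * aeval x g₂ ^ m := by
    rw [Units.val_div_eq_div_val, pq_val hx h₁, pq_val hx h₂, map_sub, map_pow, map_pow, sub_mul,
      one_mul, div_pow, div_mul_cancel₀ _ (pow_ne_zero m hne)]
  rw [h5, map_mul, map_pow, hv2, one_pow, mul_one] at h4
  rw [h4] at hmv
  exact lt_irrefl _ hmv

/-- the Steinberg relation -/
private lemma trn_stein (hx : Transcendental ℚ x) (O : ValuationSubring K)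
    (hQ : ∀ r : ℚ, (r : K) ∈ O) (hxO : x ∈ O)
    {P : ℚ[X]} (hirr : Irreducible P) (hP : O.valuation (aeval x P) < 1) {g₁ g₂ : ℚ[X]}
    (h₁ : g₁ ≠ 0) (h₂ : g₂ ≠ 0) (h₁' : ¬ P ∣ g₁) (h₂' : ¬ P ∣ g₂) {m : ℕ} (hm : m ≠ 0)
    (hdvd : P ∣ g₁ ^ m - g₂ ^ m) :
    sy (pq x P) (pq x g₁ / pq x g₂) ∈ unrM O 2 := by
  have hmq : (m : ℚ) ≠ 0 := by exact_mod_cast hm
  apply trn_of_smul hmq
  rw [← sy_pow_right', div_pow]
  by_cases heq : g₁ ^ m - g₂ ^ m = 0
  · rw [← pq_pow hx h₁, ← pq_pow hx h₂, sub_eq_zero.1 heq, div_self', sy_one_right]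
    exact Submodule.zero_mem _
  · obtain ⟨k, s, hs, hks⟩ := WfDvdMonoid.max_power_factor heq hirr
    have hs0 : s ≠ 0 := by
      rintro rfl
      rw [mul_zero] at hks
      exact heq hks
    have hk : k ≠ 0 := by
      rintro rfl
      rw [pow_zero, one_mul] at hks
      rw [hks] at hdvd
      exact hs hdvd
    have hns0 : -s ≠ 0 := neg_ne_zero.2 hs0
    have hns : ¬ P ∣ -s := fun h => hs ((dvd_neg).1 h)
    have hu1 := O.unitGroup.pow_mem (trn_pqunit hx O hQ hxO hirr hP h₁ h₁') m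
    have hu2 := O.unitGroup.pow_mem (trn_pqunit hx O hQ hxO hirr hP h₂ h₂') m
    have hus := trn_pqunit hx O hQ hxO hirr hP hns0 hns
    have hst : sy (pq x P ^ k * (pq x (-s) / pq x g₂ ^ m)) (pq x g₁ ^ m / pq x g₂ ^ m) = 0 := by
      apply sy_steinberg
      have hne : aeval x g₂ ≠ 0 := aeval_ne hx h₂
      have h3 : aeval x g₁ ^ m - aeval x g₂ ^ m = aeval x P ^ k * aeval x s := by
        rw [← map_pow, ← map_pow, ← map_sub, hks, map_mul, map_pow]
      push_cast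
      rw [pq_val hx h₁, pq_val hx h₂, pq_val hx hns0, pq_val hx hirr.ne_zero, map_neg]
      have hne' : aeval x g₂ ^ m ≠ 0 := pow_ne_zero m hne
      field_simp
      linear_combination h3
    rw [sy_mul_left, sy_pow_left'] at hst
    have h5 : (k : ℚ) • sy (pq x P) (pq x g₁ ^ m / pq x g₂ ^ m) ∈ unrM O 2 := by
      rw [eq_neg_of_add_eq_zero_left hst]
      exact Submodule.neg_mem _ (trn_sy_mem (O.unitGroup.div_mem hus hu2)
        (O.unitGroup.div_mem hu1 hu2))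
    exact trn_of_smul (by exact_mod_cast hk) h5

end

theorem unr_transfer {K : Type} [Field K] [CharZero K] {x : K} (hx : Transcendental ℚ x) {P : ℚ[X]}
    (hP : P.Monic) (hP' : Irreducible P) {O O' : ValuationSubring K} (hO : IsPl O) (hO' : IsPl O')
    (hxO : x ∈ O) (hxO' : x ∈ O') (hv : O.valuation (aeval x P) < 1)
    (hv' : O'.valuation (aeval x P) < 1) {β : KMQ K 2} (hβ : β ∈ LP x) (h : β ∈ unrM O 2) :
    β ∈ unrM O' 2 := by
  haveI := hO.1
  obtain ⟨N, hN, u, ⟨g₁, g₂, h₁, h₂, h₁', h₂', rfl⟩, hmem⟩ := trn_normal hx hP' hβ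
  have h1 := trnL_le hx O hO.2 hxO hP' hv hmem
  have h1' := trnL_le hx O' hO'.2 hxO' hP' hv' hmem
  have h2 : sy (pq x P) (pq x g₁ / pq x g₂) ∈ unrM O 2 := by
    have h3 := Submodule.sub_mem _ (Submodule.smul_mem _ (N : ℚ) h) h1
    rwa [sub_sub_cancel] at h3
  obtain ⟨m, hm, hdvd⟩ := trn_tame hx O hO.2 hxO hP' hv h₁ h₂ h₁' h₂' h2
  have h3 := trn_stein hx O' hO'.2 hxO' hP' hv' h₁ h₂ h₁' h₂' hm hdvd
  have h4 := Submodule.add_mem _ h1' h3
  rw [sub_add_cancel] at h4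
  exact trn_of_smul (by exact_mod_cast hN) h4

end Pool.Agent.ETU
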