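import Pool.Agent.ETU.Defs

/-!
# MODULE EVT-Res : the residue field

The ring of integers of a non archimedean normed field is the subring `‖x‖ ≤ 1`, its maximal
ideal is `‖x‖ < 1`, and the residue field is the quotient.
-/

open scoped BigOperators Polynomial
open Polynomial

namespace Pool.Agent.ETU

/-- the ring of integers -/
private def resR {p : ℕ} {M : Type} [NormedField M] (h : NA p M) : Subring M where
  carrier := {x | ‖x‖ ≤ 1}
  mul_mem' := by
    intro a b ha hb
    simp only [Set.mem_setOf_eq] at ha hb ⊢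
    rw [norm_mul]
    exact mul_le_one₀ ha (norm_nonneg _) hb
  one_mem' := by simp
  add_mem' := by
    intro a b ha hb
    exact (h.na a b).trans (max_le ha hb)
  zero_mem' := by simp
  neg_mem' := by
    intro a ha
    simpa using ha

/-- the maximal ideal -/
private def resI {p : ℕ} {M : Type} [NormedField M] (h : NA p M) : Ideal (resR h) where
  carrier := {x | ‖(x : M)‖ < 1}
  add_mem' := by
    intro a b ha hb
    exact (h.na (a : M) (b : M)).trans_lt (max_lt ha hb)
  zero_mem' := by simp
  smul_mem' := by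
    intro c x hx
    have hc : ‖(c : M)‖ ≤ 1 := c.2
    have hx' : ‖(x : M)‖ < 1 := hx
    change ‖((c * x : resR h) : M)‖ < 1
    rw [Subring.coe_mul, norm_mul]
    calc ‖(c : M)‖ * ‖(x : M)‖ ≤ 1 * ‖(x : M)‖ :=
          mul_le_mul_of_nonneg_right hc (norm_nonneg _)
      _ < 1 := by rw [one_mul]; exact hx'

private lemma resI_max {p : ℕ} {M : Type} [NormedField M] (h : NA p M) :
    (resI h).IsMaximal := by
  rw [Ideal.isMaximal_iff]
  refine ⟨?_, ?_⟩
  · intro h1
    have h2 : ‖((1 : resR h) : M)‖ < 1 := h1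
    simp at h2
  · intro J x _ hx hxJ
    have h1 : ¬ ‖(x : M)‖ < 1 := hx
    have h2 : ‖(x : M)‖ = 1 := le_antisymm x.2 (not_lt.mp h1)
    have h3 : (x : M) ≠ 0 := by
      intro h4
      rw [h4, norm_zero] at h2
      exact zero_ne_one h2
    have h5 : ((x : M)⁻¹) ∈ resR h := by
      change ‖(x : M)⁻¹‖ ≤ 1
      rw [norm_inv, h2, inv_one]
    have h6 : (⟨(x : M)⁻¹, h5⟩ : resR h) * x = 1 := by
      apply Subtype.ext
      change (x : M)⁻¹ * (x : M) = 1
      exact inv_mul_cancel₀ h3
    rw [← h6]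
    exact J.mul_mem_left _ hxJ

/-- the ring of integers and the residue field of a non archimedean field -/
theorem exists_residue {p : ℕ} (hp : p.Prime) {M : Type} [NormedField M] (h : NA p M) :
    ∃ (R : Subring M) (κ : Type) (_ : Field κ) (_ : CharP κ p) (φ : R →+* κ),
      (∀ x : M, x ∈ R ↔ ‖x‖ ≤ 1) ∧ (∀ x : R, φ x = 0 ↔ ‖(x : M)‖ < 1) ∧
      Function.Surjective φ := by
  haveI := resI_max h
  letI : Field (resR h ⧸ resI h) := Ideal.Quotient.field (resI h)
  have hp0 : ((p : ℕ) : resR h ⧸ resI h) = 0 := by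
    have h1 : Ideal.Quotient.mk (resI h) (p : resR h) = 0 := by
      rw [Ideal.Quotient.eq_zero_iff_mem]
      change ‖(((p : ℕ) : resR h) : M)‖ < 1
      rw [Subring.coe_natCast]
      exact h.pp
    rw [map_natCast] at h1
    exact h1
  refine ⟨resR h, resR h ⧸ resI h, inferInstance,
    (CharP.charP_iff_prime_eq_zero hp).mpr hp0, Ideal.Quotient.mk (resI h), ?_, ?_, ?_⟩
  · intro x
    exact Iff.rfl
  · intro x
    rw [Ideal.Quotient.eq_zero_iff_mem]
    exact Iff.rfl
  · exact Ideal.Quotient.mk_surjective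

/-- the value of an integral polynomial reduces to the value of the reduction -/
theorem aeval_residue {M : Type} [NormedField M] {R : Subring M} {κ : Type} [Field κ] {p : ℕ}
    [CharP κ p] (φ : R →+* κ) (x : R) (q : ℤ[X]) :
    ∃ y : R, (y : M) = aeval (x : M) q ∧
      φ y = (q.map (Int.castRingHom (ZMod p))).eval₂ (ZMod.castHom (dvd_refl p) κ) (φ x) := by
  refine ⟨aeval x q, ?_, ?_⟩
  · have h1 := aeval_algHom_apply (R := ℤ) (R.subtype.toIntAlgHom) x q
    exact h1.symm
  · have h1 := aeval_algHom_apply (R := ℤ) (φ.toIntAlgHom) x q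
    have h2 : φ (aeval x q) = aeval (φ x) q := h1.symm
    rw [h2, aeval_def, eval₂_map]
    congr 1
    exact RingHom.ext_int _ _

end Pool.Agent.ETU
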