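import Pool.Agent.ETU.Pol
import Pool.Agent.ETU.Res

/-!
# MODULE EVT-CnI : number of solutions near infinity

The zeros `t`, `‖t‖ > 1`, of `Ap f a - ζ * Ap f (-a)`: the reversed polynomial has the zeros `1/t`, which
reduce to `0`, so the reduction of `Ap f a - ζ * Ap f (-a)` has small degree; compare degrees in `Ap_log`.
-/

open scoped BigOperators Polynomial
open Polynomial

namespace Pool.Agent.ETU

variable {r : ℕ}

/-- a polynomial with many zeros in the kernel reduces to a multiple of a power of `X` -/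
private theorem cni_dvd {R : Type*} [CommRing R] [IsDomain R] {κ : Type*} [Field κ]
    (φ : R →+* κ) (P : R[X]) (S : Finset R) (h0 : ∀ s ∈ S, P.eval s = 0)
    (h1 : ∀ s ∈ S, φ s = 0) : (X : κ[X]) ^ S.card ∣ P.map φ := by
  by_cases hP : P = 0
  · simp [hP]
  · have hle : S.val ≤ P.roots := by
      rw [Multiset.le_iff_subset S.nodup]
      intro s hs
      exact (mem_roots hP).2 (h0 s hs)
    have hd := (Multiset.prod_X_sub_C_dvd_iff_le_roots hP S.val).2 hle
    have hd2 : (∏ s ∈ S, (X - C s)) ∣ P := hd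
    have hd3 := Polynomial.map_dvd φ hd2
    rw [Polynomial.map_prod] at hd3
    have he : ∏ s ∈ S, (X - C s : R[X]).map φ = (X : κ[X]) ^ S.card := by
      rw [← Finset.prod_const]
      refine Finset.prod_congr rfl fun s hs => ?_
      simp [h1 s hs]
    rwa [he] at hd3

/-- the degree of the Wronskian -/
private theorem cni_wr {κ : Type*} [Field κ] {H B : κ[X]} (hH : H ≠ 0) (hB : B ≠ 0)
    (hW : derivative H * B - H * derivative B ≠ 0) :
    (derivative H * B - H * derivative B).natDegree < H.natDegree + B.natDegree := by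
  rw [Polynomial.natDegree_lt_iff_degree_lt hW]
  have hHB : ((H.natDegree + B.natDegree : ℕ) : WithBot ℕ) = H.degree + B.degree := by
    rw [Polynomial.degree_eq_natDegree hH, Polynomial.degree_eq_natDegree hB]
    push_cast
    rfl
  rw [hHB]
  refine lt_of_le_of_lt (Polynomial.degree_sub_le _ _) (max_lt ?_ ?_)
  · rw [Polynomial.degree_mul]
    exact WithBot.add_lt_add_right (by rwa [Ne, Polynomial.degree_eq_bot])
      (Polynomial.degree_derivative_lt hH)
  · rw [Polynomial.degree_mul]
    exact WithBot.add_lt_add_left (by rwa [Ne, Polynomial.degree_eq_bot])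
      (Polynomial.degree_derivative_lt hB)

/-- the norm of the value of a monic integral polynomial outside the unit disc -/
private theorem cni_norm {p : ℕ} {M : Type} [NormedField M] {R : Subring M} {κ : Type}
    [Field κ] [CharP κ p] (φ : R →+* κ) (hR : ∀ x : M, x ∈ R ↔ ‖x‖ ≤ 1)
    (hφ : ∀ x : R, φ x = 0 ↔ ‖(x : M)‖ < 1) (A : ℤ[X]) (hA : A.Monic) (t : M) (ht : 1 < ‖t‖) :
    ‖aeval t A‖ = ‖t‖ ^ A.natDegree := by
  have ht0 : t ≠ 0 := by
    rintro rfl
    simp at ht
    exact absurd ht (by norm_num)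
  have hs : t⁻¹ ∈ R := by
    rw [hR, norm_inv]
    exact inv_le_one_of_one_le₀ ht.le
  have hs0 : φ ⟨t⁻¹, hs⟩ = 0 := by
    rw [hφ]
    change ‖t⁻¹‖ < 1
    rw [norm_inv]
    exact inv_lt_one_of_one_lt₀ ht
  obtain ⟨y, hy1, hy2⟩ := aeval_residue (p := p) φ ⟨t⁻¹, hs⟩ A.reverse
  rw [hs0] at hy2
  have hy3 : φ y = 1 := by
    rw [hy2, Polynomial.eval₂_at_zero, Polynomial.coeff_map, Polynomial.coeff_zero_reverse,
      hA.leadingCoeff]
    simp
  have hy4 : ‖(y : M)‖ = 1 := by
    apply le_antisymm ((hR _).1 y.2)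
    by_contra hlt
    rw [not_le] at hlt
    have := (hφ y).2 hlt
    rw [hy3] at this
    exact one_ne_zero this
  have : Invertible t := invertibleOfNonzero ht0
  have h5 := Polynomial.eval₂_reverse_mul_pow (algebraMap ℤ M) t A
  have h6 : (⅟t : M) = t⁻¹ := invOf_eq_inv t
  rw [h6] at h5
  have h7 : aeval t A = (y : M) * t ^ A.natDegree := by
    rw [hy1]
    exact h5.symm
  rw [h7, norm_mul, hy4, one_mul, norm_pow]

theorem count_inf {p : ℕ} (hp : p.Prime) {M : Type} [NormedField M] [CharZero M] (hna : NA p M)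
    {f : Fin r → ℤ[X]} (hf : Fam p f) {a : Fin r → ℤ} (ha : ∃ i, ¬ (p : ℤ) ∣ a i) {ζ : M}
    (hζ : ‖ζ‖ = 1) (T : Finset M) (h1 : ∀ t ∈ T, 1 < ‖t‖)
    (h2 : ∀ t ∈ T, aeval t (Ap f a) = ζ * aeval t (Ap f (-a))) :
    T.card ≤ ∑ i, (f i).natDegree := by
  classical
  rcases T.eq_empty_or_nonempty with rfl | ⟨t₀, ht₀⟩
  · simp
  obtain ⟨R, κ, hκ, hch, φ, hR, hφ, -⟩ := exists_residue hp hna
  have hAm : (Ap f a).Monic := Ap_monic hf a
  have hBm : (Ap f (-a)).Monic := Ap_monic hf (-a)
  -- equal degrees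
  have hdeg : (Ap f a).natDegree = (Ap f (-a)).natDegree := by
    have e1 := cni_norm (p := p) φ hR hφ _ hAm t₀ (h1 t₀ ht₀)
    have e2 := cni_norm (p := p) φ hR hφ _ hBm t₀ (h1 t₀ ht₀)
    have e3 : ‖aeval t₀ (Ap f a)‖ = ‖aeval t₀ (Ap f (-a))‖ := by
      rw [h2 t₀ ht₀, norm_mul, hζ, one_mul]
    rw [e1, e2] at e3
    exact (pow_right_injective₀ (zero_lt_one.trans (h1 t₀ ht₀)) (h1 t₀ ht₀).ne') e3
  set A := Ap f a with hA
  set B := Ap f (-a) with hB
  set δ := B.natDegree with hδ
  have hζR : ζ ∈ R := (hR ζ).2 hζ.le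
  let z : R := ⟨ζ, hζR⟩
  let H : R[X] := A.map (Int.castRingHom R) - C z * B.map (Int.castRingHom R)
  have hHd : H.natDegree ≤ δ := by
    refine (Polynomial.natDegree_sub_le _ _).trans (max_le ?_ ?_)
    · exact (Polynomial.natDegree_map_le).trans hdeg.le
    · exact (Polynomial.natDegree_C_mul_le _ _).trans Polynomial.natDegree_map_le
  -- the zeros
  have hin : ∀ t ∈ T, t⁻¹ ∈ R := by
    intro t ht
    rw [hR, norm_inv]
    exact inv_le_one_of_one_le₀ (h1 t ht).le
  let S : Finset R := T.attach.image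
    (fun t : {x // x ∈ T} => (⟨(t : M)⁻¹, hin t t.2⟩ : R))
  have hScard : S.card = T.card := by
    rw [Finset.card_image_of_injective _ ?_, Finset.card_attach]
    intro t t' htt
    have : (t : M)⁻¹ = (t' : M)⁻¹ := congrArg Subtype.val htt
    exact Subtype.ext (inv_injective this)
  have hcomp : (R.subtype.comp (Int.castRingHom R)) = algebraMap ℤ M := RingHom.ext_int _ _
  have hSe : ∀ s ∈ S, (reflect δ H).eval s = 0 := by
    intro s hs
    obtain ⟨t, -, rfl⟩ := Finset.mem_image.1 hs
    have ht0 : (t : M) ≠ 0 := by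
      intro h0
      have := h1 t t.2
      rw [h0, norm_zero] at this
      exact absurd this (by norm_num)
    have : Invertible (t : M) := invertibleOfNonzero ht0
    have e1 := Polynomial.eval₂_reflect_mul_pow R.subtype (t : M) δ H hHd
    have e2 : eval₂ R.subtype (t : M) H = 0 := by
      change eval₂ R.subtype (t : M)
        (A.map (Int.castRingHom R) - C z * B.map (Int.castRingHom R)) = 0
      rw [Polynomial.eval₂_sub, Polynomial.eval₂_mul, Polynomial.eval₂_C,
        Polynomial.eval₂_map, Polynomial.eval₂_map, hcomp]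
      have := h2 t t.2
      rw [Polynomial.aeval_def, Polynomial.aeval_def] at this
      rw [this]
      exact sub_self _
    rw [e2, invOf_eq_inv] at e1
    have e3 : eval₂ R.subtype ((t : M)⁻¹) (reflect δ H) = 0 := by
      rcases mul_eq_zero.1 e1 with h | h
      · exact h
      · exact absurd h (pow_ne_zero _ ht0)
    have e4 := Polynomial.eval₂_at_apply (p := reflect δ H) R.subtype
      (⟨(t : M)⁻¹, hin t t.2⟩ : R)
    have e5 : R.subtype (⟨(t : M)⁻¹, hin t t.2⟩ : R) = (t : M)⁻¹ := rfl
    rw [e5, e3] at e4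
    apply Subtype.ext
    exact e4.symm
  have hSφ : ∀ s ∈ S, φ s = 0 := by
    intro s hs
    obtain ⟨t, -, rfl⟩ := Finset.mem_image.1 hs
    rw [hφ]
    change ‖(t : M)⁻¹‖ < 1
    rw [norm_inv]
    exact inv_lt_one_of_one_lt₀ (h1 t t.2)
  have hdvd := cni_dvd φ (reflect δ H) S hSe hSφ
  rw [hScard, Polynomial.X_pow_dvd_iff] at hdvd
  -- the reduction
  set Hb : κ[X] := H.map φ with hHb
  have hHbd : Hb.natDegree ≤ δ := Polynomial.natDegree_map_le.trans hHd
  have hco : ∀ k, δ < k + T.card → Hb.coeff k = 0 := by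
    intro k hk
    by_cases hkδ : δ < k
    · exact Polynomial.coeff_eq_zero_of_natDegree_lt (hHbd.trans_lt hkδ)
    · rw [not_lt] at hkδ
      have hi := hdvd (δ - k) (by omega)
      rw [Polynomial.coeff_map, Polynomial.coeff_reflect, Polynomial.revAt_le (by omega)] at hi
      rw [hHb, Polynomial.coeff_map]
      have : δ - (δ - k) = k := by omega
      rwa [this] at hi
  set Ab : κ[X] := A.map (Int.castRingHom κ) with hAb
  set Bb : κ[X] := B.map (Int.castRingHom κ) with hBb
  have hHe : Hb = Ab - C (φ z) * Bb := by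
    rw [hHb]
    change (A.map (Int.castRingHom R) - C z * B.map (Int.castRingHom R)).map φ = _
    rw [Polynomial.map_sub, Polynomial.map_mul, Polynomial.map_C, Polynomial.map_map,
      Polynomial.map_map, RingHom.ext_int (φ.comp (Int.castRingHom R)) (Int.castRingHom κ)]
  have hAbm : Ab.Monic := hAm.map _
  have hBbm : Bb.Monic := hBm.map _
  have hPm : (∏ i, f i).Monic := Polynomial.monic_prod_of_monic _ _ fun i _ => hf.mon i
  set Pb : κ[X] := (∏ i, f i).map (Int.castRingHom κ) with hPb
  have hPbm : Pb.Monic := hPm.map _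
  set Nb : κ[X] := (Np f a).map (Int.castRingHom κ) with hNb
  have hNb0 : Nb ≠ 0 := by
    have h := Np_ne hp hf ha
    have : Fact p.Prime := ⟨hp⟩
    have hc : (ZMod.castHom (dvd_refl p) κ).comp (Int.castRingHom (ZMod p)) =
        Int.castRingHom κ := RingHom.ext_int _ _
    rw [hNb, ← hc, ← Polynomial.map_map]
    exact (Polynomial.map_ne_zero_iff (RingHom.injective _)).2 h
  have hlog : (derivative Ab * Bb - Ab * derivative Bb) * Pb = Ab * Bb * Nb := by
    have h := congrArg (Polynomial.map (Int.castRingHom κ)) (Ap_log f a)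
    rw [Polynomial.map_mul, Polynomial.map_sub, Polynomial.map_mul, Polynomial.map_mul,
      Polynomial.map_mul, Polynomial.map_mul, ← Polynomial.derivative_map,
      ← Polynomial.derivative_map] at h
    exact h
  have hWe : derivative Hb * Bb - Hb * derivative Bb =
      derivative Ab * Bb - Ab * derivative Bb := by
    rw [hHe]
    simp only [Polynomial.derivative_sub, Polynomial.derivative_mul, Polynomial.derivative_C]
    ring
  have hRne : Ab * Bb * Nb ≠ 0 :=
    mul_ne_zero (mul_ne_zero hAbm.ne_zero hBbm.ne_zero) hNb0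
  have hWne : derivative Hb * Bb - Hb * derivative Bb ≠ 0 := by
    intro h0
    rw [hWe] at h0
    rw [h0, zero_mul] at hlog
    exact hRne hlog.symm
  have hHne : Hb ≠ 0 := by
    intro h0
    apply hWne
    rw [h0]
    simp
  have hdH : Hb.natDegree + T.card ≤ δ := by
    by_contra hlt
    rw [not_le] at hlt
    have := hco _ hlt
    rw [Polynomial.coeff_natDegree, Polynomial.leadingCoeff_eq_zero] at this
    exact hHne this
  have hBd : Bb.natDegree = δ := hBm.natDegree_map _
  have hAd : Ab.natDegree = δ := (hAm.natDegree_map _).trans hdeg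
  have hPd : Pb.natDegree = ∑ i, (f i).natDegree := by
    rw [hPb, hPm.natDegree_map, Polynomial.natDegree_prod_of_monic _ _ fun i _ => hf.mon i]
  have hWd := cni_wr hHne hBbm.ne_zero hWne
  rw [hWe] at hWd hWne
  have hL := congrArg Polynomial.natDegree hlog
  rw [Polynomial.natDegree_mul hWne hPbm.ne_zero,
    Polynomial.natDegree_mul (mul_ne_zero hAbm.ne_zero hBbm.ne_zero) hNb0,
    Polynomial.natDegree_mul hAbm.ne_zero hBbm.ne_zero, hAd, hBd, hPd] at hL
  rw [hBd] at hWd
  omega

end Pool.Agent.ETU
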