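import Pool.Agent.ETU.Pol
import Pool.Agent.ETU.Res

/-!
# Number of solutions in a residue disc

`H = A - ζ B` over the ring of integers; `c` distinct roots of `H` in the disc of `β` give
`(X - β) ^ c ∣ H` over the residue field, so `(X - β) ^ (c - 1)` divides `A' B - A B'`, hence `A B N`
and `N`, whose degree is less than the sum of the degrees of the `f i`.
-/

open scoped BigOperators Polynomial
open Polynomial

namespace Pool.Agent.ETU

variable {r : ℕ}

private theorem cnt_key {κ : Type} [Field κ] {A B N P H : κ[X]} {β ζ : κ} {c : ℕ}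
    (hlog : (derivative A * B - A * derivative B) * P = A * B * N) (hcop : IsCoprime A B)
    (hH : H = A - C ζ * B) (hζ : ζ ≠ 0) (hN : N ≠ 0) (hc : 0 < c) (hd : (X - C β) ^ c ∣ H) :
    c - 1 ≤ N.natDegree := by
  have hroot : A.eval β = ζ * B.eval β := by
    have h1 : (X - C β) ∣ H := (dvd_pow_self _ hc.ne').trans hd
    have h2 : H.eval β = 0 := dvd_iff_isRoot.1 h1
    rw [hH] at h2
    simpa [sub_eq_zero] using h2
  have hBne : B.eval β ≠ 0 := by
    intro h0
    obtain ⟨u, v, huv⟩ := hcop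
    have h3 := congrArg (eval β) huv
    simp [hroot, h0] at h3
  have hAne : A.eval β ≠ 0 := by
    rw [hroot]
    exact mul_ne_zero hζ hBne
  have hcopX : ∀ Q : κ[X], Q.eval β ≠ 0 → IsCoprime (X - C β) Q := by
    intro Q hQ
    refine (Irreducible.coprime_iff_not_dvd (irreducible_X_sub_C β)).2 ?_
    intro h
    exact hQ (dvd_iff_isRoot.1 h)
  have hdH : (X - C β) ^ (c - 1) ∣ derivative H :=
    pow_sub_one_dvd_derivative_of_pow_dvd hd
  have hdH0 : (X - C β) ^ (c - 1) ∣ H := (pow_dvd_pow _ (Nat.sub_le c 1)).trans hd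
  have hdW : (X - C β) ^ (c - 1) ∣ derivative A * B - A * derivative B := by
    have : derivative A * B - A * derivative B = derivative H * B - H * derivative B := by
      rw [hH]
      simp only [derivative_sub, derivative_mul, derivative_C, zero_mul, zero_add]
      ring
    rw [this]
    exact dvd_sub (hdH.mul_right _) (hdH0.mul_right _)
  have hdN : (X - C β) ^ (c - 1) ∣ A * B * N := by
    rw [← hlog]
    exact hdW.mul_right _
  have hcopAB : IsCoprime ((X - C β) ^ (c - 1)) (A * B) :=
    ((hcopX A hAne).mul_right (hcopX B hBne)).pow_left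
  have hdN' : (X - C β) ^ (c - 1) ∣ N := hcopAB.dvd_of_dvd_mul_left hdN
  have := natDegree_le_of_dvd hdN' hN
  simpa [natDegree_pow] using this

theorem count_fin {p : ℕ} (hp : p.Prime) {M : Type} [NormedField M] [CharZero M] (hna : NA p M)
    {f : Fin r → ℤ[X]} (hf : Fam p f) {a : Fin r → ℤ} (ha : ∃ i, ¬ (p : ℤ) ∣ a i) {ζ : M}
    (hζ : ‖ζ‖ = 1) (T : Finset M) (h1 : ∀ t ∈ T, ‖t‖ ≤ 1)
    (h2 : ∀ t ∈ T, aeval t (Ap f a) = ζ * aeval t (Ap f (-a)))
    (h3 : ∀ t ∈ T, ∀ t' ∈ T, ‖t - t'‖ < 1) : T.card ≤ ∑ i, (f i).natDegree := by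
  classical
  haveI : Fact p.Prime := ⟨hp⟩
  rcases T.eq_empty_or_nonempty with hT | ⟨t0, ht0⟩
  · subst hT; simp
  obtain ⟨R, κ, iF, iC, φ, hR, hφ, -⟩ := exists_residue hp hna
  have hr : 0 < ∑ i, (f i).natDegree := by
    obtain ⟨i, -⟩ := ha
    exact Finset.sum_pos (fun i _ => hf.pos i) ⟨i, Finset.mem_univ _⟩
  -- the finite set in the ring of integers
  let em : {x // x ∈ T} ↪ R :=
    ⟨fun t => ⟨t.1, (hR _).2 (h1 _ t.2)⟩, fun s t h => Subtype.ext (congrArg (fun z : R => (z : M)) h)⟩
  set T' : Finset R := T.attach.map em with hT'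
  have hcard : T'.card = T.card := by rw [hT', Finset.card_map, Finset.card_attach]
  have hmem : ∀ x ∈ T', (x : M) ∈ T := by
    intro x hx
    rw [hT', Finset.mem_map] at hx
    obtain ⟨t, -, rfl⟩ := hx
    exact t.2
  have hβ : ∀ x ∈ T', φ x = φ ⟨t0, (hR _).2 (h1 _ ht0)⟩ := by
    intro x hx
    rw [← sub_eq_zero, ← map_sub, hφ]
    simpa using h3 _ (hmem x hx) _ ht0
  set β : κ := φ ⟨t0, (hR _).2 (h1 _ ht0)⟩ with hβd
  let zR : R := ⟨ζ, (hR _).2 hζ.le⟩
  set HR : R[X] := (Ap f a).map (Int.castRingHom R) -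
    C zR * (Ap f (-a)).map (Int.castRingHom R) with hHR
  have hcast : ∀ (x : R) (q : ℤ[X]),
      ((eval x (q.map (Int.castRingHom R)) : R) : M) = aeval (x : M) q := by
    intro x q
    have e1 : R.subtype (eval₂ (Int.castRingHom R) x q) =
        eval₂ (R.subtype.comp (Int.castRingHom R)) (R.subtype x) q := hom_eval₂ _ _ _ _
    rw [eval_map, aeval_def]
    have e2 : R.subtype.comp (Int.castRingHom R) = algebraMap ℤ M := RingHom.ext_int _ _
    rw [e2] at e1
    exact e1
  have hroot : ∀ x ∈ T', eval x HR = 0 := by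
    intro x hx
    have hx' := h2 _ (hmem x hx)
    apply Subtype.ext
    rw [hHR]
    simp only [eval_sub, eval_mul, eval_C]
    push_cast
    rw [hcast, hcast, hx']
    simp [zR]
  have hdvd : (T'.val.map (fun x => X - C x)).prod ∣ HR := by
    by_cases h0 : HR = 0
    · rw [h0]; exact dvd_zero _
    · refine (Multiset.prod_X_sub_C_dvd_iff_le_roots h0 _).2 ?_
      refine (Multiset.le_iff_subset T'.nodup).2 ?_
      intro x hx
      exact (mem_roots h0).2 (hroot x hx)
  have hdvd2 : (X - C β) ^ T'.card ∣ HR.map φ := by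
    have h4 := Polynomial.map_dvd φ hdvd
    have h5 : (T'.val.map (fun x => X - C x)).prod.map φ = (X - C β) ^ T'.card := by
      have : (T'.val.map (fun x => X - C x)).prod = ∏ x ∈ T', (X - C x) := rfl
      rw [this, Polynomial.map_prod, Finset.prod_congr rfl (g := fun _ => X - C β), Finset.prod_const]
      intro x hx
      simp [hβ x hx]
    rwa [h5] at h4
  have hcomp : φ.comp (Int.castRingHom R) = Int.castRingHom κ := RingHom.ext_int _ _
  have hHmap : HR.map φ = (Ap f a).map (Int.castRingHom κ) -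
      C (φ zR) * (Ap f (-a)).map (Int.castRingHom κ) := by
    rw [hHR, Polynomial.map_sub, Polynomial.map_mul, map_C, map_map, map_map, hcomp]
  have hcomp2 : (ZMod.castHom (dvd_refl p) κ).comp (Int.castRingHom (ZMod p)) =
      Int.castRingHom κ := RingHom.ext_int _ _
  have hlog := congrArg (Polynomial.map (Int.castRingHom κ)) (Ap_log f a)
  simp only [Polynomial.map_mul, Polynomial.map_sub, ← derivative_map] at hlog
  have hcop : IsCoprime ((Ap f a).map (Int.castRingHom κ))
      ((Ap f (-a)).map (Int.castRingHom κ)) := by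
    have h6 := (Ap_coprime hp hf a).map (mapRingHom (ZMod.castHom (dvd_refl p) κ))
    simpa only [coe_mapRingHom, map_map, hcomp2] using h6
  have hN : (Np f a).map (Int.castRingHom κ) ≠ 0 := by
    rw [← hcomp2, ← map_map]
    exact (Polynomial.map_ne_zero_iff (ZMod.castHom (dvd_refl p) κ).injective).2 (Np_ne hp hf ha)
  have hz : φ zR ≠ 0 := by
    intro h
    have := (hφ zR).1 h
    simp only [zR] at this
    rw [hζ] at this
    exact lt_irrefl _ this
  have hc : 0 < T'.card := by rw [hcard]; exact Finset.card_pos.2 ⟨t0, ht0⟩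
  have hfin := cnt_key hlog hcop hHmap hz hN hc hdvd2
  have hdeg : ((Np f a).map (Int.castRingHom κ)).natDegree < ∑ i, (f i).natDegree :=
    lt_of_le_of_lt natDegree_map_le (Np_natDegree f a hr)
  rw [← hcard]
  omega

end Pool.Agent.ETU
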