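import Pool.Agent.ETU.OrB
import Pool.Agent.ETU.Cnt
import Pool.Agent.ETU.CnI

/-!
# The degree of a point which is bad at two primes is bounded

At a bad point the product of the `f i ^ a i` is a root of unity of order dividing `E₁ p₁ ^ k` and `E₂ p₂ ^ l`, hence
`E₁ E₂`. For a given root of unity there are few bad points: they lie in the region `‖α‖ > 1` or in few residue
discs, and each of these contains few of them.
-/

open scoped BigOperators Polynomial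
open Polynomial

namespace Pool.Agent.ETU

variable {r : ℕ}

theorem gcd_dvd {p₁ p₂ E₁ E₂ k l : ℕ} (h₁ : p₁.Prime) (h₂ : p₂.Prime) (h : p₁ ≠ p₂) (hE₁ : 0 < E₁)
    (hE₂ : 0 < E₂) : Nat.gcd (E₁ * p₁ ^ k) (E₂ * p₂ ^ l) ∣ E₁ * E₂ := by
  have h3 : Nat.Coprime (p₁ ^ k) (p₂ ^ l) :=
    Nat.Coprime.pow _ _ ((Nat.coprime_primes h₁ h₂).2 h)
  have h4 : Nat.gcd (E₁ * p₁ ^ k) (p₂ ^ l) ∣ E₁ := by
    have h5 : Nat.gcd (E₁ * p₁ ^ k) (p₂ ^ l) = Nat.gcd E₁ (p₂ ^ l) :=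
      Nat.Coprime.gcd_mul_right_cancel E₁ h3
    rw [h5]
    exact Nat.gcd_dvd_left _ _
  have h6 : Nat.gcd (E₁ * p₁ ^ k) (E₂ * p₂ ^ l) ∣
      Nat.gcd (E₁ * p₁ ^ k) E₂ * Nat.gcd (E₁ * p₁ ^ k) (p₂ ^ l) :=
    Nat.gcd_mul_right_dvd_mul_gcd _ _ _
  refine h6.trans ?_
  rw [mul_comm E₁ E₂]
  exact Nat.mul_dvd_mul (Nat.gcd_dvd_right _ _) h4

private theorem Deg_pos {p : ℕ} {f : Fin r → ℤ[X]} (hf : Fam p f) {a : Fin r → ℤ}
    (ha : ∃ i, ¬ (p : ℤ) ∣ a i) : 0 < ∑ i, (f i).natDegree := by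
  obtain ⟨i, -⟩ := ha
  exact (hf.pos i).trans_le
    (Finset.single_le_sum (f := fun i => (f i).natDegree) (fun _ _ => Nat.zero_le _)
      (Finset.mem_univ i))

/-- the residue of a bad point -/
private theorem Deg_root {p : ℕ} [Fact p.Prime] {M : Type} [NormedField M] {R : Subring M}
    {κ : Type} [Field κ] [CharP κ p] (φ : R →+* κ) (h0 : ∀ x : R, φ x = 0 ↔ ‖(x : M)‖ < 1)
    (hR : ∀ x : M, x ∈ R ↔ ‖x‖ ≤ 1) {f : Fin r → ℤ[X]} {a : Fin r → ℤ} (t : R)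
    (ht : ¬ Good f a (t : M)) :
    (((X * Np f a).map (Int.castRingHom (ZMod p))).map (ZMod.castHom (dvd_refl p) κ)).eval (φ t)
      = 0 := by
  rw [eval_map, Polynomial.map_mul, Polynomial.map_X, eval₂_mul, eval₂_X]
  obtain ⟨y, hy, hy'⟩ := aeval_residue φ t (Np f a)
  rw [← hy', mul_eq_zero]
  by_cases h1 : ‖(t : M)‖ < 1
  · exact Or.inl ((h0 t).2 h1)
  · right
    have h2 : ‖(t : M)‖ = 1 := le_antisymm ((hR _).1 t.2) (not_lt.1 h1)
    refine (h0 y).2 (lt_of_le_of_ne ((hR _).1 y.2) fun h3 => ht ⟨h2, ?_⟩)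
    rw [← hy]
    exact h3

/-- the number of bad points with a given root of unity -/
theorem count_bad {p : ℕ} (hp : p.Prime) {M : Type} [NormedField M] [CharZero M] (hna : NA p M)
    {f : Fin r → ℤ[X]} (hf : Fam p f) {a : Fin r → ℤ} (ha : ∃ i, ¬ (p : ℤ) ∣ a i) {ζ : M}
    (hζ : ‖ζ‖ = 1) (T : Finset M) (h1 : ∀ t ∈ T, ¬ Good f a t)
    (h2 : ∀ t ∈ T, aeval t (Ap f a) = ζ * aeval t (Ap f (-a))) :
    T.card ≤ (∑ i, (f i).natDegree + 1) * ∑ i, (f i).natDegree := by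
  classical
  have : Fact p.Prime := ⟨hp⟩
  set D := ∑ i, (f i).natDegree with hD
  have hD0 : 0 < D := Deg_pos hf ha
  obtain ⟨R, κ, _, _, φ, hR, h0, -⟩ := exists_residue hp hna
  have hinf : (T.filter fun t => 1 < ‖t‖).card ≤ D :=
    count_inf hp hna hf ha hζ _ (fun t ht => (Finset.mem_filter.1 ht).2)
      fun t ht => h2 t (Finset.mem_filter.1 ht).1
  let q : κ[X] :=
    ((X * Np f a).map (Int.castRingHom (ZMod p))).map (ZMod.castHom (dvd_refl p) κ)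
  have hq0 : q ≠ 0 := by
    have h3 : (X * Np f a).map (Int.castRingHom (ZMod p)) ≠ 0 := by
      rw [Polynomial.map_mul, Polynomial.map_X]
      exact mul_ne_zero X_ne_zero (Np_ne hp hf ha)
    exact (Polynomial.map_ne_zero_iff (RingHom.injective _)).2 h3
  have hqd : q.natDegree ≤ D := by
    refine natDegree_map_le.trans (natDegree_map_le.trans ?_)
    refine natDegree_mul_le.trans ?_
    rw [natDegree_X]
    have := Np_natDegree f a hD0
    omega
  let ρ : M → κ := fun t => if h : ‖t‖ ≤ 1 then φ ⟨t, (hR t).2 h⟩ else 0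
  have hρ : ∀ (t : M) (h : ‖t‖ ≤ 1), ρ t = φ ⟨t, (hR t).2 h⟩ := fun t h => dif_pos h
  have hfin : (T.filter fun t => ¬ 1 < ‖t‖).card ≤ D * D := by
    have h3 : (T.filter fun t => ¬ 1 < ‖t‖).card ≤
        D * ((T.filter fun t => ¬ 1 < ‖t‖).image ρ).card := by
      refine Finset.card_le_mul_card_image _ _ fun b _ => ?_
      refine count_fin hp hna hf ha hζ _ (fun t ht => ?_) (fun t ht => ?_) fun t ht t' ht' => ?_
      · exact not_lt.1 (Finset.mem_filter.1 (Finset.mem_filter.1 ht).1).2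
      · exact h2 t (Finset.mem_filter.1 (Finset.mem_filter.1 ht).1).1
      · have h4 := not_lt.1 (Finset.mem_filter.1 (Finset.mem_filter.1 ht).1).2
        have h5 := not_lt.1 (Finset.mem_filter.1 (Finset.mem_filter.1 ht').1).2
        have h6 := (Finset.mem_filter.1 ht).2
        have h7 := (Finset.mem_filter.1 ht').2
        rw [hρ t h4] at h6
        rw [hρ t' h5] at h7
        have h8 : φ (⟨t, (hR t).2 h4⟩ - ⟨t', (hR t').2 h5⟩) = 0 := by
          rw [map_sub, h6, h7, sub_self]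
        exact (h0 _).1 h8
    refine h3.trans (Nat.mul_le_mul_left _ ?_)
    have h4 : (T.filter fun t => ¬ 1 < ‖t‖).image ρ ⊆ q.roots.toFinset := by
      intro b hb
      obtain ⟨t, ht, rfl⟩ := Finset.mem_image.1 hb
      have h5 := not_lt.1 (Finset.mem_filter.1 ht).2
      rw [Multiset.mem_toFinset, mem_roots hq0, hρ t h5]
      exact Deg_root φ h0 hR ⟨t, (hR t).2 h5⟩ (h1 t (Finset.mem_filter.1 ht).1)
    exact ((Finset.card_le_card h4).trans (Multiset.toFinset_card_le _)).trans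
      ((card_roots' q).trans hqd)
  have h3 := Finset.card_filter_add_card_filter_not (s := T) fun t => 1 < ‖t‖
  calc T.card = (T.filter fun t => 1 < ‖t‖).card + (T.filter fun t => ¬ 1 < ‖t‖).card := h3.symm
    _ ≤ D + D * D := Nat.add_le_add hinf hfin
    _ = (D + 1) * D := by ring

private theorem Deg_dvd {M : Type} [Field M] [Algebra ℚ M] {α : M} {P : ℚ[X]} (hP : P.Monic)
    (hi : Irreducible P) (hα : aeval α P = 0) {Q : ℤ[X]} (hQ : aeval α Q = 0) :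
    P ∣ Q.map (Int.castRingHom ℚ) := by
  rw [minpoly.eq_of_irreducible_of_monic hi hα hP]
  apply minpoly.dvd
  rw [← hQ, ← algebraMap_int_eq]
  exact aeval_map_algebraMap ℚ α Q

private theorem Deg_aeval {M : Type} [Field M] [Algebra ℚ M] {α : M} {P : ℚ[X]}
    (hα : aeval α P = 0) {Q : ℤ[X]} (hQ : P ∣ Q.map (Int.castRingHom ℚ)) : aeval α Q = 0 := by
  have h1 : aeval α (Q.map (Int.castRingHom ℚ)) = 0 := by
    obtain ⟨c, hc⟩ := hQ
    rw [hc, map_mul, hα, zero_mul]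
  rw [← algebraMap_int_eq] at h1
  rw [← h1]
  exact (aeval_map_algebraMap ℚ α Q).symm

private theorem Deg_core {p : ℕ} (hp : p.Prime) {M : Type} [NormedField M] [CharZero M]
    [Algebra ℚ M] [IsAlgClosed M] (hna : NA p M) {f : Fin r → ℤ[X]} (hf : Fam p f)
    {a : Fin r → ℤ} (ha : ∃ i, ¬ (p : ℤ) ∣ a i) {N : ℕ} (hN : 0 < N) {P : ℚ[X]}
    (hi : Irreducible P) (h1 : ∀ α : M, aeval α P = 0 → ¬ Good f a α)
    (h2 : ∀ α : M, aeval α P = 0 → (aeval α (Ap f a)) ^ N = (aeval α (Ap f (-a))) ^ N) :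
    P.natDegree ≤ (∑ i, (f i).natDegree + 1) * (∑ i, (f i).natDegree) * N := by
  classical
  have hP0 : P.map (algebraMap ℚ M) ≠ 0 :=
    (Polynomial.map_ne_zero_iff (RingHom.injective _)).2 hi.ne_zero
  set T : Finset M := (P.map (algebraMap ℚ M)).roots.toFinset with hT
  have hTm : ∀ t ∈ T, aeval t P = 0 := by
    intro t ht
    rw [hT, Multiset.mem_toFinset, mem_roots hP0, IsRoot.def, eval_map_algebraMap] at ht
    exact ht
  have hTc : T.card = P.natDegree := by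
    have h3 : (P.map (algebraMap ℚ M)).roots.Nodup := nodup_roots hi.separable.map
    have h4 := (IsAlgClosed.splits (P.map (algebraMap ℚ M))).natDegree_eq_card_roots
    rw [hT, Multiset.toFinset_card_of_nodup h3, ← h4, natDegree_map]
  let ζ : M → M := fun t => aeval t (Ap f a) / aeval t (Ap f (-a))
  have hB : ∀ t ∈ T, aeval t (Ap f (-a)) ≠ 0 := fun t ht =>
    (Ap_ne_zero hp hf a hN (h2 t (hTm t ht))).2
  have hζN : ∀ t ∈ T, ζ t ^ N = 1 := by
    intro t ht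
    show (aeval t (Ap f a) / aeval t (Ap f (-a))) ^ N = 1
    rw [div_pow, h2 t (hTm t ht), div_self (pow_ne_zero _ (hB t ht))]
  have h3 : T.card ≤ ((∑ i, (f i).natDegree + 1) * (∑ i, (f i).natDegree)) * (T.image ζ).card := by
    refine Finset.card_le_mul_card_image _ _ fun b hb => ?_
    obtain ⟨t₀, ht₀, rfl⟩ := Finset.mem_image.1 hb
    refine count_bad (ζ := ζ t₀) hp hna hf ha ?_ _ (fun t ht => ?_) fun t ht => ?_
    · have h4 := hζN t₀ ht₀
      have h5 : ‖ζ t₀‖ ^ N = 1 := by rw [← norm_pow, h4, norm_one]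
      exact (pow_eq_one_iff_of_nonneg (norm_nonneg _) hN.ne').1 h5
    · exact h1 t (hTm t (Finset.mem_filter.1 ht).1)
    · rw [← (Finset.mem_filter.1 ht).2]
      exact (div_mul_cancel₀ _ (hB t (Finset.mem_filter.1 ht).1)).symm
  have h4 : (T.image ζ).card ≤ N := by
    have h5 : T.image ζ ⊆ (nthRoots N (1 : M)).toFinset := by
      intro b hb
      obtain ⟨t, ht, rfl⟩ := Finset.mem_image.1 hb
      rw [Multiset.mem_toFinset, mem_nthRoots hN]
      exact hζN t ht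
    exact ((Finset.card_le_card h5).trans (Multiset.toFinset_card_le _)).trans
      (card_nthRoots N 1)
  rw [← hTc]
  exact h3.trans (Nat.mul_le_mul_left _ h4)

private theorem Deg_na (p : ℕ) [Fact p.Prime] : NA p (PadicAlgCl p) where
  na := PadicAlgCl.isNonarchimedean p
  pp := by
    have h1 : ((p : ℕ) : PadicAlgCl p) = ((p : ℚ_[p]) : PadicAlgCl p) :=
      (map_natCast (algebraMap ℚ_[p] (PadicAlgCl p)) p).symm
    rw [h1, PadicAlgCl.norm_extends]
    exact Padic.norm_p_lt_one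

private theorem Deg_Ebd {p : ℕ} (hp : p.Prime) (f : Fin r → ℤ[X]) : 0 < Ebd p f := by
  unfold Ebd
  have h1 : 1 < p ^ (∑ i, (f i).natDegree + 1).factorial :=
    Nat.one_lt_pow (Nat.factorial_pos _).ne' hp.one_lt
  omega

private theorem Deg_pow {M : Type} [Field M] {x y : M} (hy : y ≠ 0) {m n N : ℕ}
    (h1 : x ^ m = y ^ m) (h2 : x ^ n = y ^ n) (h : Nat.gcd m n ∣ N) : x ^ N = y ^ N := by
  have h5 : (x / y) ^ m = 1 := by rw [div_pow, h1, div_self (pow_ne_zero _ hy)]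
  have h6 : (x / y) ^ n = 1 := by rw [div_pow, h2, div_self (pow_ne_zero _ hy)]
  have h7 : orderOf (x / y) ∣ N :=
    (Nat.dvd_gcd (orderOf_dvd_of_pow_eq_one h5) (orderOf_dvd_of_pow_eq_one h6)).trans h
  have h8 := orderOf_dvd_iff_pow_eq_one.1 h7
  rwa [div_pow, div_eq_one_iff_eq (pow_ne_zero _ hy)] at h8

/-- the order of the root of unity, at one prime -/
private theorem Deg_one {p : ℕ} [Fact p.Prime] {f : Fin r → ℤ[X]} (hf : Fam p f)
    {a : Fin r → ℤ} (ha : Prim a) {P : ℚ[X]} (hP : P.Monic) (hi : Irreducible P)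
    (hr : Rel f a P) (h : ∀ α : PadicAlgCl p, aeval α P = 0 → ¬ Good f a α) :
    ∃ k : ℕ, P ∣ ((Ap f a) ^ (Ebd p f * p ^ k) -
      (Ap f (-a)) ^ (Ebd p f * p ^ k)).map (Int.castRingHom ℚ) := by
  have hp : p.Prime := Fact.out
  obtain ⟨n, hn, hd⟩ := hr
  obtain ⟨α, hα⟩ := IsAlgClosed.exists_aeval_eq_zero (PadicAlgCl p) P
    (degree_pos_of_irreducible hi).ne'
  have h1 := Deg_aeval hα hd
  rw [map_sub, map_pow, map_pow, sub_eq_zero] at h1
  obtain ⟨k, hk⟩ := order_bad hp (Deg_na p) hf (ha p hp) hn h1 (h α hα)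
  refine ⟨k, Deg_dvd hP hi hα ?_⟩
  rw [map_sub, map_pow, map_pow, sub_eq_zero]
  exact hk

theorem deg_bound {p₁ p₂ : ℕ} [Fact p₁.Prime] [Fact p₂.Prime] (h12 : p₁ ≠ p₂)
    {f : Fin r → ℤ[X]} (hf₁ : Fam p₁ f) (hf₂ : Fam p₂ f) :
    ∃ B : ℕ, ∀ a : Fin r → ℤ, Prim a → ∀ P : ℚ[X], P.Monic → Irreducible P → Rel f a P →
      (∀ α : PadicAlgCl p₁, aeval α P = 0 → ¬ Good f a α) →
      (∀ α : PadicAlgCl p₂, aeval α P = 0 → ¬ Good f a α) → P.natDegree ≤ B := by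
  have hp₁ : p₁.Prime := Fact.out
  have hp₂ : p₂.Prime := Fact.out
  refine ⟨(∑ i, (f i).natDegree + 1) * (∑ i, (f i).natDegree) * (Ebd p₁ f * Ebd p₂ f), ?_⟩
  intro a ha P hP hi hr h1 h2
  obtain ⟨k, hk⟩ := Deg_one hf₁ ha hP hi hr h1
  obtain ⟨l, hl⟩ := Deg_one hf₂ ha hP hi hr h2
  have hE₁ := Deg_Ebd hp₁ f
  have hE₂ := Deg_Ebd hp₂ f
  refine Deg_core hp₁ (Deg_na p₁) hf₁ (ha p₁ hp₁) (Nat.mul_pos hE₁ hE₂) hi h1 fun α hα => ?_
  have h3 := Deg_aeval hα hk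
  have h4 := Deg_aeval hα hl
  rw [map_sub, map_pow, map_pow, sub_eq_zero] at h3 h4
  have hn : 0 < Ebd p₁ f * p₁ ^ k := Nat.mul_pos hE₁ (pow_pos hp₁.pos _)
  exact Deg_pow (Ap_ne_zero hp₁ hf₁ a hn h3).2 h3 h4 (gcd_dvd hp₁ hp₂ h12 hE₁ hE₂)

end Pool.Agent.ETU
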