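import Pool.Agent.ETU.Defs

/-!
# MODULE EVT-Rts : roots of unity

`root_near`: `∑_{i<n} ξ^i = 0` if `ξ ≠ 1`, but it is congruent to `n`, of norm one.
`root_pow`: `n = p ^ k * n'`; `ξ ^ (p ^ k)` has order prime to `p` and is congruent to `1`, so it is `1`.
`tame_root`: the part of order prime to `p` is fixed by `root_near`; on the part of `p`-power order
`σ` acts by a power whose order is prime to `m` and divides a power of `m`.
-/

open scoped BigOperators Polynomial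
open Polynomial

namespace Pool.Agent.ETU

private theorem rts_one {p : ℕ} {M : Type} [NormedField M] (hna : NA p M)
    {ξ : M} (h : ‖ξ - 1‖ < 1) : ‖ξ‖ ≤ 1 := by
  have h1 := hna.na (ξ - 1) 1
  rw [sub_add_cancel, norm_one] at h1
  exact h1.trans (max_le h.le le_rfl)

private theorem rts_pow {p : ℕ} {M : Type} [NormedField M] (hna : NA p M)
    {ξ : M} (h : ‖ξ - 1‖ < 1) (i : ℕ) : ‖ξ ^ i - 1‖ < 1 := by
  induction i with
  | zero => simp
  | succ i ih =>
    have e : ξ ^ (i + 1) - 1 = ξ * (ξ ^ i - 1) + (ξ - 1) := by ring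
    rw [e]
    refine (hna.na _ _).trans_lt (max_lt ?_ h)
    rw [norm_mul]
    calc ‖ξ‖ * ‖ξ ^ i - 1‖ ≤ 1 * ‖ξ ^ i - 1‖ :=
          mul_le_mul_of_nonneg_right (rts_one hna h) (norm_nonneg _)
      _ < 1 := by rw [one_mul]; exact ih

private theorem rts_sum {p : ℕ} {M : Type} [NormedField M] (hna : NA p M)
    (f : ℕ → M) (n : ℕ) (h : ∀ i, ‖f i‖ < 1) : ‖∑ i ∈ Finset.range n, f i‖ < 1 := by
  induction n with
  | zero => simp
  | succ n ih =>
    rw [Finset.sum_range_succ]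
    exact (hna.na _ _).trans_lt (max_lt ih (h n))

private theorem rts_int {p : ℕ} {M : Type} [NormedField M] (hna : NA p M) (z : ℤ) :
    ‖(z : M)‖ ≤ 1 := by
  have : IsUltrametricDist M :=
    IsUltrametricDist.isUltrametricDist_of_forall_norm_add_le_max_norm hna.na
  exact IsUltrametricDist.norm_intCast_le_one M z

theorem root_near {p : ℕ} (hp : p.Prime) {M : Type} [NormedField M] [CharZero M] (hna : NA p M)
    {ξ : M} {n : ℕ} (hn : ¬ p ∣ n) (hξ : ξ ^ n = 1) (h : ‖ξ - 1‖ < 1) : ξ = 1 := by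
  by_contra hne
  have hsum : ∑ i ∈ Finset.range n, ξ ^ i = 0 := by
    rw [geom_sum_eq hne, hξ, sub_self, zero_div]
  have h1 : ‖(n : M)‖ < 1 := by
    have e : (n : M) = -∑ i ∈ Finset.range n, (ξ ^ i - 1) := by
      rw [Finset.sum_sub_distrib, hsum]; simp
    rw [e, norm_neg]
    exact rts_sum hna _ n (rts_pow hna h)
  have hco : IsCoprime (n : ℤ) (p : ℤ) := by
    rw [Nat.isCoprime_iff_coprime]
    exact ((Nat.Prime.coprime_iff_not_dvd hp).2 hn).symm
  obtain ⟨u, v, huv⟩ := hco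
  have e1 : (u : M) * (n : M) + (v : M) * (p : M) = 1 := by exact_mod_cast congrArg (Int.cast : ℤ → M) huv
  have h2 : ‖(u : M) * (n : M) + (v : M) * (p : M)‖ < 1 := by
    refine (hna.na _ _).trans_lt (max_lt ?_ ?_)
    · rw [norm_mul]
      calc ‖(u : M)‖ * ‖(n : M)‖ ≤ 1 * ‖(n : M)‖ :=
            mul_le_mul_of_nonneg_right (rts_int hna u) (norm_nonneg _)
        _ < 1 := by rw [one_mul]; exact h1
    · rw [norm_mul]
      calc ‖(v : M)‖ * ‖(p : M)‖ ≤ 1 * ‖(p : M)‖ :=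
            mul_le_mul_of_nonneg_right (rts_int hna v) (norm_nonneg _)
        _ < 1 := by rw [one_mul]; exact hna.pp
  rw [e1, norm_one] at h2
  exact lt_irrefl _ h2

theorem root_pow {p : ℕ} (hp : p.Prime) {M : Type} [NormedField M] [CharZero M] (hna : NA p M)
    {ξ : M} {n : ℕ} (hn : 0 < n) (hξ : ξ ^ n = 1) (h : ‖ξ - 1‖ < 1) : ∃ k : ℕ, ξ ^ p ^ k = 1 := by
  obtain ⟨k, n', hn', rfl⟩ := Nat.exists_eq_pow_mul_and_not_dvd hn.ne' p hp.ne_one
  refine ⟨k, root_near hp hna hn' ?_ (rts_pow hna h _)⟩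
  rw [← pow_mul]; exact hξ

private theorem rts_iter {M : Type} [Field M] (σ : M ≃+* M) {x : M} {b : ℕ} (h : σ x = x ^ b)
    (N : ℕ) : (σ ^ N) x = x ^ (b ^ N) := by
  induction N with
  | zero => simp
  | succ N ih =>
    rw [pow_succ', RingAut.mul_apply, ih, map_pow, h, ← pow_mul, pow_succ']

theorem tame_root {p m : ℕ} (hp : p.Prime) (hm : m.Prime) (hpm : ¬ m ∣ p * (p - 1)) {M : Type}
    [NormedField M] [CharZero M] {G : Subgroup (M ≃+* M)} (hT : TameG p m M G) {ζ : M} {n : ℕ}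
    (hn : 0 < n) (hζ : ζ ^ n = 1) {σ : M ≃+* M} (hσ : σ ∈ G) : σ ζ = ζ := by
  obtain ⟨k, n', hn', rfl⟩ := Nat.exists_eq_pow_mul_and_not_dvd hn.ne' p hp.ne_one
  have hn'0 : n' ≠ 0 := by rintro rfl; exact hn' (dvd_zero p)
  have hζ0 : ζ ≠ 0 := by
    rintro rfl
    rw [zero_pow hn.ne'] at hζ
    exact zero_ne_one hζ
  -- the part of order prime to `p`
  have h2 : σ (ζ ^ p ^ k) = ζ ^ p ^ k := by
    set y : M := ζ ^ p ^ k with hy
    have hy1 : y ^ n' = 1 := by rw [hy, ← pow_mul]; exact hζ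
    have hy0 : y ≠ 0 := pow_ne_zero _ hζ0
    have hny : ‖y‖ = 1 := by
      have h := congrArg norm hy1
      rw [norm_pow, norm_one] at h
      exact (pow_eq_one_iff_of_nonneg (norm_nonneg _) hn'0).1 h
    have h3 : σ y / y = 1 := by
      refine root_near hp hT.na hn' ?_ ?_
      · rw [div_pow, ← map_pow, hy1, map_one, div_one]
      · have e : σ y / y - 1 = (σ y - y) / y := by field_simp
        rw [e, norm_div, hny, div_one]
        exact hT.iner σ hσ y hny.le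
    exact (div_eq_one_iff_eq hy0).1 h3
  -- the part of `p`-power order
  have h1 : σ (ζ ^ n') = ζ ^ n' := by
    set x : M := ζ ^ n' with hx
    have hx1 : x ^ p ^ k = 1 := by rw [hx, ← pow_mul, mul_comm]; exact hζ
    obtain ⟨l, -, hl⟩ := (Nat.dvd_prime_pow hp).1 (orderOf_dvd_of_pow_eq_one hx1)
    have hprim : IsPrimitiveRoot x (p ^ l) := hl ▸ IsPrimitiveRoot.orderOf x
    have : NeZero (p ^ l) := ⟨pow_ne_zero _ hp.ne_zero⟩
    have hx0 : x ≠ 0 := pow_ne_zero _ hζ0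
    obtain ⟨b, -, hb⟩ := hprim.eq_pow_of_pow_eq_one (ξ := σ x) (by
      rw [← map_pow, hprim.pow_eq_one, map_one])
    obtain ⟨j, hj⟩ := hT.ord σ hσ x
    rw [rts_iter σ hb.symm] at hj
    have hmod : (b : ZMod (p ^ l)) ^ m ^ j = 1 := by
      have h4 : b ^ m ^ j ≡ 1 [MOD p ^ l] := by
        have h5 : x ^ (b ^ m ^ j) = x ^ 1 := by rw [pow_one]; exact hj
        have h6 : (Units.mk0 x hx0) ^ (b ^ m ^ j) = (Units.mk0 x hx0) ^ 1 := by
          ext; push_cast; exact h5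
        have h7 := pow_eq_pow_iff_modEq.1 h6
        rwa [← orderOf_units, Units.val_mk0, hl] at h7
      have h7 := (ZMod.natCast_eq_natCast_iff _ _ _).2 h4
      simpa using h7
    have hu : IsUnit (b : ZMod (p ^ l)) :=
      IsUnit.of_pow_eq_one hmod (pow_ne_zero _ hm.ne_zero)
    obtain ⟨u, hu⟩ := hu
    have hum : u ^ m ^ j = 1 := by
      ext; push_cast; rw [hu]; exact hmod
    have hut : u ^ Nat.totient (p ^ l) = 1 := ZMod.pow_totient u
    have hcop : Nat.Coprime (m ^ j) (Nat.totient (p ^ l)) := by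
      refine Nat.Coprime.pow_left _ ?_
      rw [Nat.Prime.coprime_iff_not_dvd hm]
      intro hd
      rcases Nat.eq_zero_or_pos l with rfl | hl0
      · rw [pow_zero, Nat.totient_one] at hd
        exact hm.one_lt.ne' (Nat.dvd_one.1 hd)
      · rw [Nat.totient_prime_pow hp hl0] at hd
        rcases (Nat.Prime.dvd_mul hm).1 hd with hd | hd
        · exact hpm (Dvd.dvd.mul_right (hm.dvd_of_dvd_pow hd) _)
        · exact hpm (Dvd.dvd.mul_left hd _)
    have hu1 : u = 1 := by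
      have h8 : orderOf u ∣ Nat.gcd (m ^ j) (Nat.totient (p ^ l)) :=
        Nat.dvd_gcd (orderOf_dvd_of_pow_eq_one hum) (orderOf_dvd_of_pow_eq_one hut)
      rw [hcop] at h8
      exact orderOf_eq_one_iff.1 (Nat.dvd_one.1 h8)
    have hb1 : b ≡ 1 [MOD p ^ l] := by
      rw [← ZMod.natCast_eq_natCast_iff, ← hu, hu1]; simp
    rw [← hb]
    rw [pow_eq_pow_of_modEq hb1 hprim.pow_eq_one, pow_one]
  -- Bezout
  have hco : IsCoprime ((p ^ k : ℕ) : ℤ) (n' : ℤ) := by
    rw [Nat.isCoprime_iff_coprime]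
    exact Nat.Coprime.pow_left _ ((Nat.Prime.coprime_iff_not_dvd hp).2 hn')
  obtain ⟨u, v, huv⟩ := hco
  have e : ζ = (ζ ^ p ^ k) ^ u * (ζ ^ n') ^ v := by
    rw [← zpow_natCast ζ (p ^ k), ← zpow_natCast ζ n', ← zpow_mul, ← zpow_mul, ← zpow_add₀ hζ0,
      mul_comm _ u, mul_comm _ v, huv, zpow_one]
  rw [e, map_mul, map_zpow₀, map_zpow₀, h1, h2]

end Pool.Agent.ETU
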