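import Pool.Agent.ETU.Pol
import Pool.Agent.ETU.Rts

/-!
# MODULE EVT-Fix : good points are fixed by the tame group

`A = Ap f a`, `B = Ap f (-a)`. All `f_i(α)` are units, so `ζ = A(α)/B(α)` is a root of unity fixed by `σ`. The polynomial
`H = A - ζ B` vanishes at `α` and at `σ α`, and `H'(α)` is a unit (logarithmic derivative). By Taylor `σ α = α`.
-/

open scoped BigOperators Polynomial
open Polynomial

namespace Pool.Agent.ETU

variable {r : ℕ}

/-- the valuation ring -/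
private def FixO {p : ℕ} {M : Type} [NormedField M] (hna : NA p M) : Subring M where
  carrier := {t | ‖t‖ ≤ 1}
  mul_mem' := by
    intro a b ha hb
    simp only [Set.mem_ofPred_eq, norm_mul] at *
    exact mul_le_one₀ ha (norm_nonneg _) hb
  one_mem' := by simp
  add_mem' := by
    intro a b ha hb
    simp only [Set.mem_ofPred_eq] at *
    exact (hna.na a b).trans (max_le ha hb)
  zero_mem' := by simp
  neg_mem' := by
    intro a ha
    simp only [Set.mem_ofPred_eq, norm_neg] at *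
    exact ha

private theorem Fix_sub {M : Type} [NormedField M] (O : Subring M) (x : O) (P : ℤ[X]) :
    ((aeval x P : O) : M) = aeval (x : M) P := by
  have h := Polynomial.hom_eval₂ P (Int.castRingHom O) O.subtype x
  have h1 : O.subtype.comp (Int.castRingHom O) = Int.castRingHom M := RingHom.ext_int _ _
  rw [h1] at h
  rw [Polynomial.aeval_def, Polynomial.aeval_def]
  exact h

private theorem Fix_int {p : ℕ} {M : Type} [NormedField M] (hna : NA p M) {α : M} (hα : ‖α‖ ≤ 1)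
    (P : ℤ[X]) : ‖aeval α P‖ ≤ 1 := by
  have h := Fix_sub (FixO hna) ⟨α, hα⟩ P
  have h2 : ‖((aeval (⟨α, hα⟩ : FixO hna) P : FixO hna) : M)‖ ≤ 1 := (aeval (⟨α, hα⟩ : FixO hna) P).2
  rw [h] at h2
  exact h2

private theorem Fix_sum {p : ℕ} {M : Type} [NormedField M] (hna : NA p M) {ι : Type} (s : Finset ι)
    (g : ι → M) (h : ∀ k ∈ s, ‖g k‖ < 1) : ‖∑ k ∈ s, g k‖ < 1 := by
  refine Finset.sum_induction g (fun t => ‖t‖ < 1) (fun a b ha hb => ?_) (by simp) h
  exact (hna.na a b).trans_lt (max_lt ha hb)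

private theorem Fix_prod_lt {M : Type} [NormedField M] {ι : Type} [DecidableEq ι] (s : Finset ι)
    (g : ι → M) (h : ∀ k ∈ s, ‖g k‖ ≤ 1) {i : ι} (hi : i ∈ s) (hlt : ‖g i‖ < 1) :
    ‖∏ k ∈ s, g k‖ < 1 := by
  rw [← Finset.mul_prod_erase s g hi, norm_mul]
  have h1 : ‖∏ k ∈ s.erase i, g k‖ ≤ 1 := by
    rw [norm_prod]
    exact Finset.prod_le_one (fun _ _ => norm_nonneg _)
      (fun k hk => h k (Finset.mem_of_mem_erase hk))
  exact mul_lt_one_of_nonneg_of_lt_one_left (norm_nonneg _) hlt h1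

private theorem Fix_prod_ge {M : Type} [NormedField M] {ι : Type} (s : Finset ι)
    (g : ι → M) (h : ∀ k ∈ s, ‖g k‖ ≤ 1) (hlt : ‖∏ k ∈ s, g k‖ < 1) : ∃ i ∈ s, ‖g i‖ < 1 := by
  by_contra hc
  push Not at hc
  have h1 : ‖∏ k ∈ s, g k‖ = 1 := by
    rw [norm_prod]
    exact Finset.prod_eq_one fun k hk => le_antisymm (h k hk) (hc k hk)
  rw [h1] at hlt
  exact lt_irrefl _ hlt

private theorem Fix_map {M : Type} [NormedField M] (σ : M ≃+* M) (α : M) (P : ℤ[X]) :
    aeval (σ α) P = σ (aeval α P) := by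
  have h := Polynomial.hom_eval₂ P (Int.castRingHom M) (σ : M →+* M) α
  have h1 : (σ : M →+* M).comp (Int.castRingHom M) = Int.castRingHom M := RingHom.ext_int _ _
  rw [h1] at h
  rw [Polynomial.aeval_def, Polynomial.aeval_def]
  exact h.symm

private theorem Fix_Ap {M : Type} [NormedField M] (f : Fin r → ℤ[X]) (a : Fin r → ℤ) (α : M) :
    aeval α (Ap f a) = ∏ i, (aeval α (f i)) ^ (a i).toNat := by
  unfold Ap
  rw [map_prod]
  exact Finset.prod_congr rfl fun i _ => by rw [map_pow]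

private theorem Fix_lt {p : ℕ} {M : Type} [NormedField M] (hna : NA p M) (f : Fin r → ℤ[X])
    (a : Fin r → ℤ) {α : M} (hα : ‖α‖ ≤ 1) {i : Fin r} (hi : ‖aeval α (f i)‖ < 1) (hai : 0 < a i) :
    ‖aeval α (Ap f a)‖ < 1 := by
  rw [Fix_Ap]
  refine Fix_prod_lt _ _ (fun k _ => ?_) (Finset.mem_univ i) ?_
  · rw [norm_pow]
    exact pow_le_one₀ (norm_nonneg _) (Fix_int hna hα _)
  · rw [norm_pow]
    exact pow_lt_one₀ (norm_nonneg _) hi (by omega)

private theorem Fix_ge {p : ℕ} {M : Type} [NormedField M] (hna : NA p M) (f : Fin r → ℤ[X])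
    (a : Fin r → ℤ) {α : M} (hα : ‖α‖ ≤ 1) (h : ‖aeval α (Ap f a)‖ < 1) :
    ∃ j, 0 < a j ∧ ‖aeval α (f j)‖ < 1 := by
  rw [Fix_Ap] at h
  obtain ⟨j, _, hj⟩ := Fix_prod_ge _ _ (fun k _ => by
    rw [norm_pow]
    exact pow_le_one₀ (norm_nonneg _) (Fix_int hna hα _)) h
  rw [norm_pow] at hj
  have hj0 : (a j).toNat ≠ 0 := by
    intro h0
    rw [h0, pow_zero] at hj
    exact lt_irrefl _ hj
  refine ⟨j, by omega, ?_⟩
  by_contra hc
  push Not at hc
  exact absurd hj (not_lt.2 (one_le_pow₀ hc))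

private theorem Fix_pw {x y : ℝ} {n : ℕ} (hn : 0 < n) (h : x ^ n = y ^ n) (hy : y < 1)
    (hy0 : 0 ≤ y) : x < 1 := by
  have h1 : y ^ n < 1 := pow_lt_one₀ hy0 hy hn.ne'
  by_contra hc
  push Not at hc
  have := one_le_pow₀ hc (n := n)
  linarith

private theorem Fix_one {p : ℕ} {M : Type} [NormedField M] (hna : NA p M) (f : Fin r → ℤ[X])
    (a : Fin r → ℤ) {α : M} {n : ℕ} (hn : 0 < n) (hα : ‖α‖ ≤ 1)
    (hrel : (aeval α (Ap f a)) ^ n = (aeval α (Ap f (-a))) ^ n) (hN : ‖aeval α (Np f a)‖ = 1)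
    (i : Fin r) : ‖aeval α (f i)‖ = 1 := by
  classical
  have hle : ∀ k, ‖aeval α (f k)‖ ≤ 1 := fun k => Fix_int hna hα _
  by_contra hne
  have hi : ‖aeval α (f i)‖ < 1 := lt_of_le_of_ne (hle i) hne
  have hreln : ‖aeval α (Ap f a)‖ ^ n = ‖aeval α (Ap f (-a))‖ ^ n := by
    rw [← norm_pow, ← norm_pow, hrel]
  have hj : a i ≠ 0 → ∃ j, j ≠ i ∧ ‖aeval α (f j)‖ < 1 := by
    intro h0
    rcases lt_or_gt_of_ne h0 with h1 | h1
    · have h2 : ‖aeval α (Ap f (-a))‖ < 1 := Fix_lt hna f (-a) hα hi (by simpa using h1)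
      have h3 : ‖aeval α (Ap f a)‖ < 1 := Fix_pw hn hreln h2 (norm_nonneg _)
      obtain ⟨j, hj1, hj2⟩ := Fix_ge hna f a hα h3
      exact ⟨j, by rintro rfl; omega, hj2⟩
    · have h2 : ‖aeval α (Ap f a)‖ < 1 := Fix_lt hna f a hα hi h1
      have h3 : ‖aeval α (Ap f (-a))‖ < 1 := Fix_pw hn hreln.symm h2 (norm_nonneg _)
      obtain ⟨j, hj1, hj2⟩ := Fix_ge hna f (-a) hα h3
      refine ⟨j, ?_, hj2⟩
      rintro rfl
      simp only [Pi.neg_apply] at hj1
      omega
  have hlt : ‖aeval α (Np f a)‖ < 1 := by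
    unfold Np
    rw [map_sum]
    refine Fix_sum hna _ _ fun k _ => ?_
    rw [map_mul, map_mul, map_prod]
    by_cases hk : k = i
    · subst hk
      by_cases h0 : a k = 0
      · rw [h0]
        simp
      · obtain ⟨j, hj1, hj2⟩ := hj h0
        have h1 : ‖∏ j ∈ Finset.univ.erase k, aeval α (f j)‖ < 1 :=
          Fix_prod_lt _ _ (fun k _ => hle k) (Finset.mem_erase.2 ⟨hj1, Finset.mem_univ j⟩) hj2
        have h2 : ‖aeval α (C (a k) : ℤ[X]) * aeval α (derivative (f k))‖ ≤ 1 := by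
          rw [← map_mul]
          exact Fix_int hna hα _
        rw [norm_mul]
        exact mul_lt_one_of_nonneg_of_lt_one_right h2 (norm_nonneg _) h1
    · have h1 : ‖∏ j ∈ Finset.univ.erase k, aeval α (f j)‖ < 1 :=
        Fix_prod_lt _ _ (fun k _ => hle k) (Finset.mem_erase.2 ⟨fun h => hk h.symm, Finset.mem_univ i⟩) hi
      have h2 : ‖aeval α (C (a k) : ℤ[X]) * aeval α (derivative (f k))‖ ≤ 1 := by
        rw [← map_mul]
        exact Fix_int hna hα _
      rw [norm_mul]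
      exact mul_lt_one_of_nonneg_of_lt_one_right h2 (norm_nonneg _) h1
  rw [hN] at hlt
  exact lt_irrefl _ hlt

private theorem Fix_unit {M : Type} [NormedField M] (f : Fin r → ℤ[X]) (a : Fin r → ℤ) {α : M}
    (h : ∀ i, ‖aeval α (f i)‖ = 1) : ‖aeval α (Ap f a)‖ = 1 := by
  rw [Fix_Ap, norm_prod]
  exact Finset.prod_eq_one fun i _ => by rw [norm_pow, h, one_pow]

/-- Taylor -/
private theorem Fix_tay {p : ℕ} {M : Type} [NormedField M] (hna : NA p M) (A B : ℤ[X]) {ζ α β : M}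
    (hζ : ‖ζ‖ ≤ 1) (hα : ‖α‖ ≤ 1) (hβ : ‖β - α‖ < 1) (h0 : aeval α A = ζ * aeval α B)
    (h1 : aeval β A = ζ * aeval β B)
    (h2 : ‖aeval α (derivative A) - ζ * aeval α (derivative B)‖ = 1) : β = α := by
  let O := FixO hna
  let x : O := ⟨α, hα⟩
  let y : O := ⟨β - α, hβ.le⟩
  let z : O := ⟨ζ, hζ⟩
  let H : O[X] := A.map (Int.castRingHom O) - C z * B.map (Int.castRingHom O)
  have hxy : ((x + y : O) : M) = β := by
    show α + (β - α) = β
    ring
  have hev : ∀ (u : O) (P : ℤ[X]), ((eval u (P.map (Int.castRingHom O)) : O) : M) = aeval (u : M) P := by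
    intro u P
    rw [← Fix_sub O u P, eval_map, Polynomial.aeval_def]
    rfl
  have hH : ∀ u : O, ((eval u H : O) : M) = aeval (u : M) A - ζ * aeval (u : M) B := by
    intro u
    show ((eval u (A.map (Int.castRingHom O) - C z * B.map (Int.castRingHom O)) : O) : M) = _
    rw [eval_sub, eval_mul, eval_C, AddSubgroupClass.coe_sub, Subring.coe_mul, hev, hev]
  have hH' : ((eval x (derivative H) : O) : M) =
      aeval α (derivative A) - ζ * aeval α (derivative B) := by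
    show ((eval x (derivative (A.map (Int.castRingHom O) - C z * B.map (Int.castRingHom O))) : O) : M) = _
    rw [derivative_sub, derivative_C_mul, derivative_map, derivative_map, eval_sub, eval_mul, eval_C,
      AddSubgroupClass.coe_sub, Subring.coe_mul, hev, hev]
  obtain ⟨k, hk⟩ := Polynomial.binomExpansion H x y
  have hk2 := congrArg (fun u : O => (u : M)) hk
  simp only [Subring.coe_add, Subring.coe_mul, Subring.coe_pow] at hk2
  rw [hH, hH, hH', hxy, h1, sub_self] at hk2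
  have hx : ((x : O) : M) = α := rfl
  have hy : ((y : O) : M) = β - α := rfl
  rw [hx, hy, h0, sub_self, zero_add] at hk2
  have hk3 : (β - α) * ((aeval α (derivative A) - ζ * aeval α (derivative B)) + (k : M) * (β - α)) = 0 := by
    rw [hk2]
    ring
  rcases mul_eq_zero.1 hk3 with h | h
  · exact sub_eq_zero.1 h
  · exfalso
    have h3 : aeval α (derivative A) - ζ * aeval α (derivative B) = -((k : M) * (β - α)) :=
      eq_neg_of_add_eq_zero_left h
    rw [h3, norm_neg, norm_mul] at h2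
    have h4 : ‖(k : M)‖ ≤ 1 := k.2
    have h5 : ‖(k : M)‖ * ‖β - α‖ < 1 := mul_lt_one_of_nonneg_of_lt_one_right h4 (norm_nonneg _) hβ
    rw [h2] at h5
    exact lt_irrefl _ h5

theorem tame_fix {p m : ℕ} (hp : p.Prime) (hm : m.Prime) (hpm : ¬ m ∣ p * (p - 1)) {M : Type}
    [NormedField M] [CharZero M] {G : Subgroup (M ≃+* M)} (hT : TameG p m M G)
    (f : Fin r → ℤ[X]) (a : Fin r → ℤ) {α : M} {n : ℕ} (hn : 0 < n)
    (hrel : (aeval α (Ap f a)) ^ n = (aeval α (Ap f (-a))) ^ n) (hg : Good f a α)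
    {σ : M ≃+* M} (hσ : σ ∈ G) : σ α = α := by
  obtain ⟨hα, hN⟩ := hg
  have hna := hT.na
  have h1 : ∀ i, ‖aeval α (f i)‖ = 1 := Fix_one hna f a hn hα.le hrel hN
  have hA : ‖aeval α (Ap f a)‖ = 1 := Fix_unit f a h1
  have hB : ‖aeval α (Ap f (-a))‖ = 1 := Fix_unit f (-a) h1
  have hB0 : aeval α (Ap f (-a)) ≠ 0 := by
    intro h0
    rw [h0, norm_zero] at hB
    exact zero_ne_one hB
  set ζ : M := aeval α (Ap f a) / aeval α (Ap f (-a)) with hζ
  have hζn : ζ ^ n = 1 := by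
    rw [hζ, div_pow, hrel, div_self (pow_ne_zero _ hB0)]
  have hσζ : σ ζ = ζ := tame_root hp hm hpm hT hn hζn hσ
  have hζ1 : ‖ζ‖ ≤ 1 := by
    rw [hζ, norm_div, hA, hB]
    norm_num
  have h0 : aeval α (Ap f a) = ζ * aeval α (Ap f (-a)) := by
    rw [hζ, div_mul_cancel₀ _ hB0]
  have h0' : aeval (σ α) (Ap f a) = ζ * aeval (σ α) (Ap f (-a)) := by
    rw [Fix_map, Fix_map, h0, map_mul, hσζ]
  refine Fix_tay hna (Ap f a) (Ap f (-a)) hζ1 hα.le (hT.iner σ hσ α hα.le) h0 h0' ?_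
  have hlog := congrArg (aeval α) (Ap_log f a)
  simp only [map_mul, map_sub, map_prod] at hlog
  have hlog2 := congrArg norm hlog
  rw [norm_mul, norm_mul, norm_mul, hA, hB, hN, norm_prod,
    Finset.prod_eq_one fun i _ => h1 i, mul_one, mul_one, mul_one] at hlog2
  have h3 : aeval α (derivative (Ap f a)) * aeval α (Ap f (-a)) -
      aeval α (Ap f a) * aeval α (derivative (Ap f (-a))) =
      (aeval α (derivative (Ap f a)) - ζ * aeval α (derivative (Ap f (-a)))) *
        aeval α (Ap f (-a)) := by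
    rw [h0]
    ring
  rw [h3, norm_mul, hB, mul_one] at hlog2
  exact hlog2

end Pool.Agent.ETU
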