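import Pool.Agent.ETU.Defs

/-!
# The polynomial `Np`

Logarithmic derivative of `Ap f a / Ap f (-a) = ∏ f_i ^ (a_i)`, degree of `Np` and its reduction
modulo `p`, coprimality of `Ap f a` and `Ap f (-a)` modulo `p` and of different `f_i` over `ℚ`.
-/

open scoped BigOperators Polynomial
open Polynomial

namespace Pool.Agent.ETU

variable {r : ℕ}

private theorem pol_term (f : Fin r → ℤ[X]) (n : Fin r → ℕ) (i : Fin r) :
    (∏ j ∈ Finset.univ.erase i, f j ^ n j) * derivative (f i ^ n i) * ∏ j, f j =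
      (∏ j, f j ^ n j) * (C (n i : ℤ) * derivative (f i) * ∏ j ∈ Finset.univ.erase i, f j) := by
  rw [← Finset.mul_prod_erase Finset.univ f (Finset.mem_univ i),
    ← Finset.mul_prod_erase Finset.univ (fun j => f j ^ n j) (Finset.mem_univ i),
    derivative_pow]
  rcases Nat.eq_zero_or_pos (n i) with h | h
  · simp [h]
  · obtain ⟨m, hm⟩ := Nat.exists_eq_succ_of_ne_zero h.ne'
    simp only [hm, Nat.succ_eq_add_one, Nat.add_sub_cancel, pow_succ]
    ring

private theorem pol_log (f : Fin r → ℤ[X]) (n : Fin r → ℕ) :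
    derivative (∏ j, f j ^ n j) * ∏ i, f i =
      (∏ j, f j ^ n j) * ∑ i, C (n i : ℤ) * derivative (f i) * ∏ j ∈ Finset.univ.erase i, f j := by
  rw [derivative_prod_finset, Finset.sum_mul, Finset.mul_sum]
  exact Finset.sum_congr rfl fun i _ => pol_term f n i

theorem Ap_log (f : Fin r → ℤ[X]) (a : Fin r → ℤ) :
    (derivative (Ap f a) * Ap f (-a) - Ap f a * derivative (Ap f (-a))) * ∏ i, f i =
      Ap f a * Ap f (-a) * Np f a := by
  have h1 := pol_log f (fun i => (a i).toNat)
  have h2 := pol_log f (fun i => ((-a) i).toNat)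
  have h3 : Np f a = (∑ i, C (((a i).toNat : ℕ) : ℤ) * derivative (f i) *
      ∏ j ∈ Finset.univ.erase i, f j) - ∑ i, C ((((-a) i).toNat : ℕ) : ℤ) * derivative (f i) *
      ∏ j ∈ Finset.univ.erase i, f j := by
    rw [Np, ← Finset.sum_sub_distrib]
    refine Finset.sum_congr rfl fun i _ => ?_
    rw [← sub_mul, ← sub_mul, ← C_sub]
    congr 3
    simp only [Pi.neg_apply]
    omega
  rw [h3]
  change derivative (Ap f a) * _ = Ap f a * _ at h1
  change derivative (Ap f (-a)) * _ = Ap f (-a) * _ at h2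
  linear_combination Ap f (-a) * h1 - Ap f a * h2

theorem Np_natDegree (f : Fin r → ℤ[X]) (a : Fin r → ℤ) (hr : 0 < ∑ i, (f i).natDegree) :
    (Np f a).natDegree < ∑ i, (f i).natDegree := by
  have h : (Np f a).natDegree ≤ (∑ i, (f i).natDegree) - 1 := by
    refine natDegree_sum_le_of_forall_le _ _ fun i _ => ?_
    rcases Nat.eq_zero_or_pos (f i).natDegree with h | h
    · rw [natDegree_eq_zero] at h
      obtain ⟨c, hc⟩ := h
      rw [← hc]
      simp
    · have h1 := natDegree_derivative_lt h.ne'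
      have h2 : (∏ j ∈ Finset.univ.erase i, f j).natDegree ≤
          ∑ j ∈ Finset.univ.erase i, (f j).natDegree := natDegree_prod_le _ _
      have h3 := Finset.add_sum_erase Finset.univ (fun j => (f j).natDegree) (Finset.mem_univ i)
      have h4 : (C (a i) * derivative (f i) * ∏ j ∈ Finset.univ.erase i, f j).natDegree ≤
          (C (a i) * derivative (f i)).natDegree +
          (∏ j ∈ Finset.univ.erase i, f j).natDegree := natDegree_mul_le
      have h5 : (C (a i) * derivative (f i)).natDegree ≤ (derivative (f i)).natDegree :=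
        natDegree_C_mul_le _ _
      omega
  omega

private theorem pol_dvd {p : ℕ} {f : Fin r → ℤ[X]} {i j : Fin r} (hij : i ≠ j) :
    (f i).map (Int.castRingHom (ZMod p)) * (f j).map (Int.castRingHom (ZMod p)) ∣
      (∏ i, f i).map (Int.castRingHom (ZMod p)) := by
  rw [← Polynomial.map_mul]
  apply Polynomial.map_dvd
  rw [← Finset.mul_prod_erase Finset.univ f (Finset.mem_univ i),
    ← Finset.mul_prod_erase (Finset.univ.erase i) f
      (Finset.mem_erase.2 ⟨hij.symm, Finset.mem_univ j⟩), ← mul_assoc]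
  exact dvd_mul_right _ _

private theorem pol_cop {p : ℕ} (hp : p.Prime) {f : Fin r → ℤ[X]} (hf : Fam p f) {i j : Fin r}
    (hij : i ≠ j) :
    IsCoprime ((f i).map (Int.castRingHom (ZMod p))) ((f j).map (Int.castRingHom (ZMod p))) := by
  have : Fact p.Prime := ⟨hp⟩
  have h := hf.sqf.squarefree_of_dvd (pol_dvd (p := p) (f := f) hij)
  rw [squarefree_mul_iff] at h
  exact h.1.isCoprime

theorem Np_ne {p : ℕ} (hp : p.Prime) {f : Fin r → ℤ[X]} (hf : Fam p f) {a : Fin r → ℤ}
    (ha : ∃ i, ¬ (p : ℤ) ∣ a i) : (Np f a).map (Int.castRingHom (ZMod p)) ≠ 0 := by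
  have : Fact p.Prime := ⟨hp⟩
  obtain ⟨i, hi⟩ := ha
  intro h0
  set F : Fin r → (ZMod p)[X] := fun j => (f j).map (Int.castRingHom (ZMod p)) with hF
  have h1 : (Np f a).map (Int.castRingHom (ZMod p)) =
      ∑ i, C ((a i : ZMod p)) * derivative (F i) * ∏ j ∈ Finset.univ.erase i, F j := by
    rw [Np, Polynomial.map_sum]
    refine Finset.sum_congr rfl fun i _ => ?_
    rw [Polynomial.map_mul, Polynomial.map_mul, map_C, Polynomial.map_prod, ← derivative_map]
    simp [hF]
  have h2 : F i ∣ C ((a i : ZMod p)) * derivative (F i) * ∏ j ∈ Finset.univ.erase i, F j := by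
    rw [h1, ← Finset.add_sum_erase Finset.univ _ (Finset.mem_univ i)] at h0
    have h3 : F i ∣ ∑ k ∈ Finset.univ.erase i,
        C ((a k : ZMod p)) * derivative (F k) * ∏ j ∈ Finset.univ.erase k, F j := by
      refine Finset.dvd_sum fun k hk => Dvd.dvd.mul_left (Finset.dvd_prod_of_mem F ?_) _
      exact Finset.mem_erase.2 ⟨(Finset.ne_of_mem_erase hk).symm, Finset.mem_univ i⟩
    have h4 := h3
    rw [← dvd_neg] at h4
    rwa [← eq_neg_of_add_eq_zero_left h0] at h4
  have h5 : IsCoprime (F i) (∏ j ∈ Finset.univ.erase i, F j) :=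
    IsCoprime.prod_right fun j hj => pol_cop hp hf (Finset.ne_of_mem_erase hj).symm
  have h6 := h5.dvd_of_dvd_mul_right h2
  have h7 : IsCoprime (F i) (C ((a i : ZMod p))) := by
    have hu : IsUnit (C ((a i : ZMod p))) := by
      rw [isUnit_C, isUnit_iff_ne_zero]
      intro h
      exact hi ((ZMod.intCast_zmod_eq_zero_iff_dvd _ _).1 h)
    exact (isCoprime_one_right (x := F i)).of_isCoprime_of_dvd_right (isUnit_iff_dvd_one.1 hu)
  have h8 := h7.dvd_of_dvd_mul_left h6
  have h9 : (F i).Separable := by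
    rw [PerfectField.separable_iff_squarefree]
    refine hf.sqf.squarefree_of_dvd ?_
    exact Polynomial.map_dvd _ (Finset.dvd_prod_of_mem f (Finset.mem_univ i))
  have h10 : IsUnit (F i) := IsCoprime.isUnit_of_dvd' h9 dvd_rfl h8
  have h11 := natDegree_eq_zero_of_isUnit h10
  rw [hF] at h11
  simp only at h11
  rw [(hf.mon i).natDegree_map] at h11
  exact (hf.pos i).ne' h11

theorem Ap_monic {p : ℕ} {f : Fin r → ℤ[X]} (hf : Fam p f) (a : Fin r → ℤ) : (Ap f a).Monic :=
  monic_prod_of_monic _ _ fun i _ => (hf.mon i).pow _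

/-- `Ap f a` and `Ap f (-a)` are coprime modulo `p` -/
theorem Ap_coprime {p : ℕ} (hp : p.Prime) {f : Fin r → ℤ[X]} (hf : Fam p f) (a : Fin r → ℤ) :
    IsCoprime ((Ap f a).map (Int.castRingHom (ZMod p)))
      ((Ap f (-a)).map (Int.castRingHom (ZMod p))) := by
  rw [Ap, Ap, Polynomial.map_prod, Polynomial.map_prod]
  refine IsCoprime.prod_left fun i _ => IsCoprime.prod_right fun j _ => ?_
  rw [Polynomial.map_pow, Polynomial.map_pow]
  by_cases hij : i = j
  · subst hij
    rcases le_total (a i) 0 with h | h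
    · rw [Int.toNat_of_nonpos h, pow_zero]
      exact isCoprime_one_left
    · rw [show ((-a) i).toNat = 0 from Int.toNat_of_nonpos (by simpa using h), pow_zero]
      exact isCoprime_one_right
  · exact (pol_cop hp hf hij).pow

/-- different `f i` are coprime over `ℚ` (they are so modulo `p`, and monic) -/
theorem fam_coprime {p : ℕ} (hp : p.Prime) {f : Fin r → ℤ[X]} (hf : Fam p f) {i j : Fin r}
    (hij : i ≠ j) :
    IsCoprime ((f i).map (Int.castRingHom ℚ)) ((f j).map (Int.castRingHom ℚ)) := by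
  have : Fact p.Prime := ⟨hp⟩
  have e : Int.castRingHom ℚ = algebraMap ℤ ℚ := rfl
  rw [e]
  by_contra hc
  have hi0 : (f i).map (algebraMap ℤ ℚ) ≠ 0 := ((hf.mon i).map _).ne_zero
  obtain ⟨g, hg, hgi, hgj⟩ : ∃ g : ℚ[X], Irreducible g ∧ g ∣ (f i).map (algebraMap ℤ ℚ) ∧
      g ∣ (f j).map (algebraMap ℤ ℚ) := by
    by_contra hno
    apply hc
    refine isCoprime_of_prime_dvd (fun h => hi0 h.1) fun z hz h1 h2 => hno ⟨z, hz.irreducible, h1, h2⟩
  obtain ⟨g', hg'⟩ := IsIntegrallyClosed.eq_map_mul_C_of_dvd ℚ (hf.mon i) hgi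
  have hl : g.leadingCoeff ≠ 0 := leadingCoeff_ne_zero.2 hg.ne_zero
  have hm : g'.Monic := by
    have h1 : (g'.map (algebraMap ℤ ℚ)).Monic := by
      have h2 := congrArg leadingCoeff hg'
      rw [leadingCoeff_mul, leadingCoeff_C] at h2
      exact mul_right_cancel₀ hl (by rw [h2, one_mul])
    exact monic_of_injective (algebraMap ℤ ℚ).injective_int h1
  have hass : g'.map (algebraMap ℤ ℚ) ∣ g := ⟨_, hg'.symm⟩
  have hdi : g' ∣ f i :=
    (Monic.dvd_iff_fraction_map_dvd_fraction_map (K := ℚ) (hf.mon i) hm).1 (hass.trans hgi)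
  have hdj : g' ∣ f j :=
    (Monic.dvd_iff_fraction_map_dvd_fraction_map (K := ℚ) (hf.mon j) hm).1 (hass.trans hgj)
  have hu : IsUnit (g'.map (Int.castRingHom (ZMod p))) :=
    (pol_cop hp hf hij).isUnit_of_dvd' (Polynomial.map_dvd _ hdi) (Polynomial.map_dvd _ hdj)
  have h11 := natDegree_eq_zero_of_isUnit hu
  rw [hm.natDegree_map] at h11
  have h12 : g.natDegree = 0 := by
    rw [← hg', natDegree_mul_C hl, hm.natDegree_map, h11]
  exact hg.not_isUnit (by
    rw [natDegree_eq_zero] at h12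
    obtain ⟨c, hc'⟩ := h12
    rw [← hc', isUnit_C, isUnit_iff_ne_zero]
    rintro rfl
    exact hg.ne_zero (by rw [← hc', C_0]))

end Pool.Agent.ETU
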