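import Pool.Agent.ETU.Defs

/-!
# Norms and degrees in `PadicAlgCl p`

Automorphisms over an intermediate field preserve the spectral norm, roots of a minimal
polynomial are conjugate, and the constant coefficient is, up to sign, the product of the roots.
-/

open scoped BigOperators Polynomial
open Polynomial

namespace Pool.Agent.ETU

variable {p : ℕ} [Fact p.Prime]

theorem norm_aut (L : IntermediateField ℚ_[p] (PadicAlgCl p))
    (σ : PadicAlgCl p ≃ₐ[L] PadicAlgCl p) (t : PadicAlgCl p) : ‖σ t‖ = ‖t‖ := by
  have h := spectralNorm_eq_of_equiv (K := ℚ_[p]) (L := PadicAlgCl p)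
    (σ.restrictScalars ℚ_[p]) t
  rw [PadicAlgCl.spectralNorm_eq, PadicAlgCl.spectralNorm_eq] at h
  exact h.symm

private theorem taA_alg (L : IntermediateField ℚ_[p] (PadicAlgCl p)) :
    Algebra.IsAlgebraic L (PadicAlgCl p) :=
  Algebra.IsAlgebraic.tower_top (K := ℚ_[p]) L

private theorem taA_closed : IsAlgClosed (PadicAlgCl p) := inferInstance

/-- two roots of the same minimal polynomial have the same norm -/
theorem norm_conj (L : IntermediateField ℚ_[p] (PadicAlgCl p)) {s t : PadicAlgCl p}
    (h : aeval t (minpoly L s) = 0) : ‖t‖ = ‖s‖ := by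
  have := taA_alg L
  have : IsAlgClosed (PadicAlgCl p) := taA_closed
  have : Normal L (PadicAlgCl p) := normal_iff.2 fun x =>
    ⟨(Algebra.IsAlgebraic.isAlgebraic (R := L) x).isIntegral, IsAlgClosed.splits _⟩
  obtain ⟨σ, hσ⟩ := minpoly.exists_algEquiv_of_root
    (Algebra.IsAlgebraic.isAlgebraic (R := L) s) h
  rw [← hσ]
  exact (norm_aut L σ t).symm

theorem norm_coeff_zero (L : IntermediateField ℚ_[p] (PadicAlgCl p)) (s : PadicAlgCl p) :
    ‖(((minpoly L s).coeff 0 : L) : PadicAlgCl p)‖ = ‖s‖ ^ (minpoly L s).natDegree := by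
  have := taA_alg L
  have : IsAlgClosed (PadicAlgCl p) := taA_closed
  have hint : IsIntegral L s := (Algebra.IsAlgebraic.isAlgebraic (R := L) s).isIntegral
  have hm : (minpoly L s).Monic := minpoly.monic hint
  set P : (PadicAlgCl p)[X] := (minpoly L s).map (algebraMap L (PadicAlgCl p)) with hP
  have hmP : P.Monic := hm.map _
  have hsp : P.Splits := IsAlgClosed.splits P
  have h0 := hsp.coeff_zero_eq_prod_roots_of_monic hmP
  have hc : P.coeff 0 = (((minpoly L s).coeff 0 : L) : PadicAlgCl p) := by
    rw [hP, coeff_map]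
    rfl
  have hd : P.natDegree = (minpoly L s).natDegree := hm.natDegree_map _
  have hr : ∀ z ∈ P.roots, ‖z‖ = ‖s‖ := by
    intro z hz
    apply norm_conj L
    have := (mem_roots hmP.ne_zero).1 hz
    rw [IsRoot.def, hP, eval_map] at this
    exact this
  have hcard : P.roots.card = P.natDegree := hsp.natDegree_eq_card_roots.symm
  have hprod : ‖P.roots.prod‖ = ‖s‖ ^ P.roots.card := by
    have h1 : ‖P.roots.prod‖ = (P.roots.map fun z => ‖z‖).prod := by
      have := Multiset.prod_hom P.roots (normHom : PadicAlgCl p →*₀ ℝ)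
      simpa using this.symm
    rw [h1, Multiset.map_congr rfl hr, Multiset.map_const', Multiset.prod_replicate]
  rw [← hc, h0, norm_mul, norm_pow, norm_neg, norm_one, one_pow, one_mul, hprod, hcard, hd]

end Pool.Agent.ETU
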