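import Pool.Agent.ETU.Deg
import Pool.Agent.ETU.HgC

/-!
# The exceptional points (assembled)
-/

open scoped BigOperators Polynomial
open Polynomial

namespace Pool.Agent.ETU

variable {r : ℕ}

theorem exc_finite {p₁ p₂ : ℕ} [Fact p₁.Prime] [Fact p₂.Prime] (h12 : p₁ ≠ p₂)
    {f : Fin r → ℤ[X]} (hf₁ : Fam p₁ f) (hf₂ : Fam p₂ f) :
    {P : ℚ[X] | P.Monic ∧ Irreducible P ∧ ∃ a : Fin r → ℤ, Prim a ∧ Rel f a P ∧
      (∀ α : PadicAlgCl p₁, aeval α P = 0 → ¬ Good f a α) ∧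
      (∀ α : PadicAlgCl p₂, aeval α P = 0 → ¬ Good f a α)}.Finite := by
  obtain ⟨B, hB⟩ := deg_bound h12 hf₁ hf₂
  refine (height_fin hf₁.mon hf₁.pos (fun i j h => fam_coprime (Fact.out) hf₁ h) B).subset ?_
  rintro P ⟨h1, h2, a, ha, hrel, h3, h4⟩
  refine ⟨h1, h2, hB a ha P h1 h2 hrel h3 h4, a, ?_, hrel⟩
  rintro rfl
  obtain ⟨i, hi⟩ := ha 2 Nat.prime_two
  exact hi (dvd_zero _)

end Pool.Agent.ETU
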