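import Pool.Agent.ETU.Hgt

/-!
# MODULE EVT-HgA : integrality of `ρ ^ r / f_i(α)`, `i` an index with `|a_i|` maximal

`val_ge`: `v` a valuation (non archimedean) with `v(n) ≤ 1` for all integers `n`. If `v(α) > 1`: `v(f_i(α)) = v(α)^deg ≥ 1 ≥ v(ρ)^r`. If `v(α) ≤ 1`: all
`v(f_j(α)) ≤ 1`. Suppose `v(f_i(α)) < v(ρ)`; then `v(f_j(α)) ≥ v(ρ)` for all `j ≠ i` (Bezout), and from
`∏ f_j(α)^{a_j n} = 1` (`hrel`), `v(f_i(α))^{|a_i| n} = ∏_{j≠i} v(f_j(α))^{∓a_j n} ≥ v(ρ)^{(r-1)|a_i| n}`, so `v(f_i(α)) ≥ v(ρ)^{r-1} ≥ v(ρ)^r`.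
`int_inv`: an element which is in every valuation ring containing `ℤ` is integral (Mathlib: `ValuationSubring`/`integralClosure`
`iInf`; e.g. `Subring.exists_le_valuationSubring_of_isIntegrallyClosedIn`, or `mem_integralClosure_iff_forall_valuationSubring`-like lemmas; or
use `LocalSubring.exists_le_valuationSubring` / Zorn: if `z` is not integral over `ℤ`, `z⁻¹` is not a unit of `ℤ[z⁻¹]`, so some valuation ring contains
`ℤ[z⁻¹]` with `z⁻¹` in the maximal ideal).
-/

open scoped BigOperators Polynomial
open Polynomial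

namespace Pool.Agent.ETU

variable {r : ℕ}

private theorem hga_core {Γ : Type*} [LinearOrderedCommGroupWithZero Γ] (g : Fin r → Γ) (c : Γ)
    (hc : c ≤ 1) (hg : ∀ j, g j ≤ 1) (i : Fin r) (a : Fin r → ℤ) (ha : 0 < a i)
    (hi : ∀ j, (a j).natAbs ≤ (a i).natAbs) (hj : ∀ j, j ≠ i → c ≤ g j)
    (hrel : ∏ j, g j ^ (a j).toNat = ∏ j, g j ^ (-a j).toNat) : c ^ r ≤ g i := by
  classical
  set N := (a i).natAbs with hN
  have hN0 : N ≠ 0 := by omega
  have h1 : ∏ j, g j ^ (a j).toNat ≤ g i ^ N := by
    calc ∏ j, g j ^ (a j).toNat ≤ ∏ j, (if j = i then g i ^ N else 1) := by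
          refine Finset.prod_le_prod' fun j _ => ?_
          split_ifs with h
          · subst h
            have : (a j).toNat = N := by omega
            rw [this]
          · exact pow_le_one' (hg j) _
      _ = g i ^ N := by simp
  have h2 : (c ^ r) ^ N ≤ ∏ j, g j ^ (-a j).toNat := by
    calc (c ^ r) ^ N = ∏ _j : Fin r, c ^ N := by
          simp [← pow_mul, mul_comm]
      _ ≤ ∏ j, g j ^ (-a j).toNat := by
          refine Finset.prod_le_prod' fun j _ => ?_
          by_cases h : j = i
          · subst h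
            have : (-a j).toNat = 0 := by omega
            rw [this, pow_zero]
            exact pow_le_one' hc _
          · have h3 : (-a j).toNat ≤ N := by have := hi j; omega
            calc c ^ N ≤ c ^ (-a j).toNat := pow_le_pow_right_of_le_one' hc h3
              _ ≤ g j ^ (-a j).toNat := pow_le_pow_left' (hj j h) _
  have h3 : (c ^ r) ^ N ≤ g i ^ N := h2.trans (hrel ▸ h1)
  exact le_of_not_gt fun hlt => absurd h3 (not_le.mpr (pow_lt_pow_left₀ hlt zero_le hN0))

private theorem hga_mem_of_all {L : Type} [Field L] {z : L}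
    (h : ∀ V : ValuationSubring L, z ∈ V) : IsIntegral ℤ z := by
  by_contra hz
  have hz' : z ∉ (integralClosure ℤ L).toSubring := hz
  have : IsIntegrallyClosedIn (integralClosure ℤ L).toSubring L := by
    infer_instance
  obtain ⟨V, -, hV⟩ := Subring.exists_le_valuationSubring_of_isIntegrallyClosedIn hz'
  exact hV (h V)

theorem int_inv {f : Fin r → ℤ[X]} (hmon : ∀ i, (f i).Monic) (hpos : ∀ i, 0 < (f i).natDegree)
    {ρ : ℤ} (hρ : Bez f ρ) {a : Fin r → ℤ} {i : Fin r} (ha : a i ≠ 0)
    (hi : ∀ j, (a j).natAbs ≤ (a i).natAbs) {L : Type} [Field L] [CharZero L] {α : L}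
    (h0 : ∀ j, aeval α (f j) ≠ 0) {n : ℕ} (hn : 0 < n)
    (hrel : (aeval α (Ap f a)) ^ n = (aeval α (Ap f (-a))) ^ n) :
    IsIntegral ℤ ((ρ : L) ^ r / aeval α (f i)) := by
  classical
  refine hga_mem_of_all fun V => ?_
  have hint : ∀ m : ℤ, (m : L) ∈ V := fun m => by
    have : (m : L) ∈ V.toSubring := intCast_mem V.toSubring m
    exact this
  have hc1 : V.valuation (ρ : L) ≤ 1 := (V.valuation_le_one_iff _).2 (hint ρ)
  have hFi : V.valuation (aeval α (f i)) ≠ 0 := (V.valuation.ne_zero_iff).2 (h0 i)
  rw [← V.valuation_le_one_iff, map_div₀, map_pow]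
  refine div_le_one_of_le₀ ?_ zero_le
  by_cases hα : α ∈ V
  · -- all values are `≤ 1`
    have hpol : ∀ P : ℤ[X], V.valuation (aeval α P) ≤ 1 := fun P => by
      rw [V.valuation_le_one_iff]
      have : aeval α P ∈ V.toSubring := by
        rw [aeval_eq_sum_range]
        refine Subring.sum_mem _ fun j _ => ?_
        rw [zsmul_eq_mul]
        exact V.toSubring.mul_mem (hint _) (V.toSubring.pow_mem hα _)
      exact this
    by_contra hlt
    rw [not_le] at hlt
    have hr : 0 < r := lt_of_le_of_lt (Nat.zero_le _) i.isLt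
    have hlt2 : V.valuation (aeval α (f i)) < V.valuation (ρ : L) :=
      lt_of_lt_of_le hlt (pow_le_of_le_one zero_le hc1 hr.ne')
    have hj : ∀ j, j ≠ i → V.valuation (ρ : L) ≤ V.valuation (aeval α (f j)) := by
      intro j hji
      obtain ⟨U, W, hUW⟩ := hρ.2 i j (Ne.symm hji)
      have h1 : aeval α U * aeval α (f i) + aeval α W * aeval α (f j) = (ρ : L) := by
        rw [← map_mul, ← map_mul, ← map_add, hUW]
        simp
      have h2 : V.valuation (ρ : L) ≤
          max (V.valuation (aeval α U * aeval α (f i))) (V.valuation (aeval α W * aeval α (f j))) := by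
        rw [← h1]; exact V.valuation.map_add _ _
      rcases le_max_iff.1 h2 with h3 | h3
      · exfalso
        rw [map_mul] at h3
        have h4 : V.valuation (aeval α U) * V.valuation (aeval α (f i)) ≤
            V.valuation (aeval α (f i)) := mul_le_of_le_one_left zero_le (hpol U)
        exact absurd (h3.trans h4) (not_le.mpr hlt2)
      · rw [map_mul] at h3
        exact h3.trans (mul_le_of_le_one_left zero_le (hpol W))
    have hprod : ∀ b : Fin r → ℤ, V.valuation (aeval α (Ap f b)) =
        ∏ j, V.valuation (aeval α (f j)) ^ (b j).toNat := by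
      intro b
      simp [Ap, map_prod]
    have hv : ∏ j, V.valuation (aeval α (f j)) ^ (a j).toNat =
        ∏ j, V.valuation (aeval α (f j)) ^ (-a j).toNat := by
      have h1 : V.valuation (aeval α (Ap f a)) ^ n = V.valuation (aeval α (Ap f (-a))) ^ n := by
        rw [← V.valuation.map_pow, ← V.valuation.map_pow, hrel]
      rw [hprod, hprod] at h1
      exact (pow_left_inj₀ zero_le zero_le hn.ne').1 (by simpa using h1)
    have hfin : V.valuation (ρ : L) ^ r ≤ V.valuation (aeval α (f i)) := by
      rcases lt_or_gt_of_ne ha with hneg | hpos'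
      · refine hga_core (fun j => V.valuation (aeval α (f j))) _ hc1 (fun j => hpol _) i
          (fun j => - a j) (by simpa using hneg) (by simpa using hi) hj ?_
        simpa using hv.symm
      · exact hga_core (fun j => V.valuation (aeval α (f j))) _ hc1 (fun j => hpol _) i a hpos' hi hj hv
    exact absurd hlt (not_lt.mpr hfin)
  · -- `α` is not in `V`
    have h1 : aeval α (f i) ∉ V := by
      intro hmem
      apply hα
      let y : V := ⟨aeval α (f i), hmem⟩
      have hint2 : IsIntegral V α := by
        refine ⟨(f i).map (Int.castRingHom V) - C y, ?_, ?_⟩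
        · refine Monic.sub_of_left ((hmon i).map _) ?_
          refine lt_of_le_of_lt degree_C_le ?_
          rw [Monic.degree_map (hmon i)]
          exact natDegree_pos_iff_degree_pos.1 (hpos i)
        · rw [eval₂_sub, eval₂_C, eval₂_map]
          have : (algebraMap V L).comp (Int.castRingHom V) = algebraMap ℤ L := by ext; simp
          rw [this, ← aeval_def]
          exact sub_self _
      obtain ⟨x, hx⟩ := IsIntegrallyClosed.isIntegral_iff.1 hint2
      rw [← hx]
      exact x.2
    have h2 : 1 < V.valuation (aeval α (f i)) := by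
      rw [← not_le, V.valuation_le_one_iff]; exact h1
    exact (pow_le_one' hc1 _).trans h2.le

end Pool.Agent.ETU
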