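import Pool.Agent.ETU.Defs

/-!
# Finitely many pairwise coprime polynomials: one common integer in all the Bezout relations

`IsCoprime` over `ℚ` gives `U f_i + V f_j = ρ` with `U, V ∈ ℤ[X]`, `ρ ∈ ℤ`, `ρ ≠ 0` (one `ρ` for all pairs).
-/

open scoped BigOperators Polynomial
open Polynomial

namespace Pool.Agent.ETU

variable {r : ℕ}

/-- a common denominator of the Bezout relations -/
def Bez (f : Fin r → ℤ[X]) (ρ : ℤ) : Prop :=
  ρ ≠ 0 ∧ ∀ i j, i ≠ j → ∃ U V : ℤ[X], U * f i + V * f j = C ρ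

private theorem hgt_denom (p : ℚ[X]) :
    ∃ (d : ℤ) (P : ℤ[X]), d ≠ 0 ∧ P.map (Int.castRingHom ℚ) = C (d : ℚ) * p := by
  obtain ⟨b, hb', hb⟩ := IsLocalization.integerNormalization_spec (nonZeroDivisors ℤ) p
  refine ⟨b, IsLocalization.integerNormalization (nonZeroDivisors ℤ) p,
    nonZeroDivisors.ne_zero hb', ?_⟩
  have h : (algebraMap ℤ ℚ) = Int.castRingHom ℚ := rfl
  rw [h] at hb
  rw [hb]
  ext n
  simp

private theorem hgt_pair (f g : ℤ[X])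
    (h : IsCoprime (f.map (Int.castRingHom ℚ)) (g.map (Int.castRingHom ℚ))) :
    ∃ ρ : ℤ, ρ ≠ 0 ∧ ∃ U V : ℤ[X], U * f + V * g = C ρ := by
  obtain ⟨a, b, hab⟩ := h
  obtain ⟨d, P, hd, hP⟩ := hgt_denom a
  obtain ⟨e, Q, he, hQ⟩ := hgt_denom b
  refine ⟨d * e, mul_ne_zero hd he, C e * P, C d * Q, ?_⟩
  apply Polynomial.map_injective (Int.castRingHom ℚ) Int.cast_injective
  rw [Polynomial.map_add, Polynomial.map_mul, Polynomial.map_mul, Polynomial.map_mul,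
    Polynomial.map_mul, Polynomial.map_C, Polynomial.map_C, Polynomial.map_C, hP, hQ]
  simp only [Int.coe_castRingHom, Int.cast_mul]
  calc C (e : ℚ) * (C (d : ℚ) * a) * f.map (Int.castRingHom ℚ) +
        C (d : ℚ) * (C (e : ℚ) * b) * g.map (Int.castRingHom ℚ)
      = C (d : ℚ) * C (e : ℚ) *
        (a * f.map (Int.castRingHom ℚ) + b * g.map (Int.castRingHom ℚ)) := by ring
    _ = C ((d : ℚ) * (e : ℚ)) := by rw [hab, mul_one, C_mul]

theorem exists_Bez (f : Fin r → ℤ[X])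
    (hc : ∀ i j, i ≠ j → IsCoprime ((f i).map (Int.castRingHom ℚ)) ((f j).map (Int.castRingHom ℚ))) :
    ∃ ρ : ℤ, Bez f ρ := by
  classical
  have h : ∀ i j, ∃ ρ : ℤ, ρ ≠ 0 ∧ (i ≠ j → ∃ U V : ℤ[X], U * f i + V * f j = C ρ) := by
    intro i j
    by_cases hij : i = j
    · exact ⟨1, one_ne_zero, fun h => absurd hij h⟩
    · obtain ⟨ρ, h1, h2⟩ := hgt_pair (f i) (f j) (hc i j hij)
      exact ⟨ρ, h1, fun _ => h2⟩
  choose ρ hρ h using h
  refine ⟨∏ i, ∏ j, ρ i j, ?_, ?_⟩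
  · exact Finset.prod_ne_zero_iff.2 fun i _ => Finset.prod_ne_zero_iff.2 fun j _ => hρ i j
  · intro i j hij
    obtain ⟨U, V, hUV⟩ := h i j hij
    have hdvd : ρ i j ∣ ∏ i, ∏ j, ρ i j :=
      (Finset.dvd_prod_of_mem (fun j => ρ i j) (Finset.mem_univ j)).trans
        (Finset.dvd_prod_of_mem (fun i => ∏ j, ρ i j) (Finset.mem_univ i))
    obtain ⟨c, hc'⟩ := hdvd
    refine ⟨C c * U, C c * V, ?_⟩
    rw [hc', C_mul, ← hUV]
    ring

end Pool.Agent.ETU
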