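import Pool.Agent.ETU.Defs

/-!
# Orbits

A root `w` of `μ` with `‖w‖ ^ m = ‖p‖ ^ h`, `m ∤ h`, is not fixed by the group `G`, all orbits under single elements of `G` have
length a power of `m`, so `μ` has at least `m` roots.
-/

open scoped BigOperators Polynomial
open Polynomial

namespace Pool.Agent.ETU

theorem tame_deg {p m : ℕ} (hp : p.Prime) (hm : m.Prime) {M : Type}
    [NormedField M] [CharZero M] {G : Subgroup (M ≃+* M)} (hT : TameG p m M G) {w : M} {h : ℤ}
    (hw : ‖w‖ ^ m = ‖(p : M)‖ ^ h) (hh : ¬ (m : ℤ) ∣ h) {μ : M[X]} (hμ : μ ≠ 0)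
    (hfix : ∀ σ ∈ G, μ.map (σ : M →+* M) = μ) (hr : μ.IsRoot w) : m ≤ μ.natDegree := by
  classical
  have hp0 : (p : M) ≠ 0 := Nat.cast_ne_zero.2 hp.ne_zero
  have hpn : 0 < ‖(p : M)‖ := norm_pos_iff.2 hp0
  have hp1 : ‖(p : M)‖ < 1 := hT.na.pp
  have hm0 : 0 < m := hm.pos
  have hw0 : w ≠ 0 := by
    rintro rfl
    rw [norm_zero, zero_pow hm0.ne'] at hw
    exact (zpow_pos hpn h).ne hw
  obtain ⟨σ, hσ, hσw⟩ : ∃ σ ∈ G, σ w ≠ w := by
    by_contra hcon
    push Not at hcon
    obtain ⟨N, hN, k, hk⟩ := hT.val w hw0 hcon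
    have e1 : ‖(p : M)‖ ^ (h * (N : ℤ)) = ‖(p : M)‖ ^ (k * (m : ℤ)) := by
      rw [zpow_mul, zpow_mul, ← hw, ← hk, zpow_natCast, zpow_natCast, ← pow_mul, ← pow_mul,
        mul_comm]
    have e2 : h * (N : ℤ) = k * (m : ℤ) := zpow_right_injective₀ hpn hp1.ne e1
    have e3 : (m : ℤ) ∣ h * N := ⟨k, by rw [e2, mul_comm]⟩
    rcases (Nat.prime_iff_prime_int.1 hm).dvd_or_dvd e3 with h1 | h1
    · exact hh h1
    · exact hN (Int.natCast_dvd_natCast.1 h1)
  have hit : ∀ n : ℕ, (σ ^ n) w = (σ : M → M)^[n] w := by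
    intro n
    induction n with
    | zero => rfl
    | succ n ih =>
      rw [pow_succ', Function.iterate_succ_apply', ← ih]
      rfl
  have hroot : ∀ n : ℕ, μ.IsRoot ((σ : M → M)^[n] w) := by
    intro n
    induction n with
    | zero => exact hr
    | succ n ih =>
      rw [Function.iterate_succ_apply']
      have h1 := ih.map (f := (σ : M →+* M))
      rw [hfix σ hσ] at h1
      exact h1
  obtain ⟨j, hj⟩ := hT.ord σ hσ w
  have hper : Function.IsPeriodicPt (σ : M → M) (m ^ j) w := by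
    change (σ : M → M)^[m ^ j] w = w
    rw [← hit]
    exact hj
  obtain ⟨k, -, hk⟩ := (Nat.dvd_prime_pow hm).1 hper.minimalPeriod_dvd
  have hk0 : k ≠ 0 := by
    rintro rfl
    rw [pow_zero, Function.minimalPeriod_eq_one_iff_isFixedPt] at hk
    exact hσw hk
  have hle : m ≤ Function.minimalPeriod (σ : M → M) w := by
    rw [hk]
    exact Nat.le_self_pow hk0 m
  have hinj : Set.InjOn (fun n : ℕ => (σ : M → M)^[n] w) (Finset.range m) := by
    intro a ha b hb hab
    have ha' : a < m := Finset.mem_range.1 ha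
    have hb' : b < m := Finset.mem_range.1 hb
    exact (Function.iterate_eq_iterate_iff_of_lt_minimalPeriod (ha'.trans_le hle)
      (hb'.trans_le hle)).1 hab
  calc m = ((Finset.range m).image fun n : ℕ => (σ : M → M)^[n] w).card := by
        rw [Finset.card_image_of_injOn hinj, Finset.card_range]
    _ ≤ μ.roots.toFinset.card := by
        refine Finset.card_le_card fun y hy => ?_
        rw [Finset.mem_image] at hy
        obtain ⟨n, -, rfl⟩ := hy
        rw [Multiset.mem_toFinset, Polynomial.mem_roots hμ]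
        exact hroot n
    _ ≤ Multiset.card μ.roots := Multiset.toFinset_card_le _
    _ ≤ μ.natDegree := Polynomial.card_roots' μ

end Pool.Agent.ETU
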