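import Pool.Agent.ETU.Fix
import Pool.Agent.ETU.Orb

/-!
# Irreducibility of `E(α, Y)` over a good point

`R(α, Y) = R.map (aeval α)` has coefficients fixed by `G` (`tame_fix`: `σ α = α`), has the root `w`, and degree `< m`;
by `Ram` and `tame_deg` it is zero, so `α` is a root of all coefficients of `R`, which are divisible by `P`.
-/

open scoped BigOperators Polynomial
open Polynomial

namespace Pool.Agent.ETU

variable {r : ℕ}

private theorem Irr_dvd {M : Type} [Field M] [CharZero M] {P : ℚ[X]} (hP : Irreducible P) {α : M}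
    (hα : aeval α P = 0) {Q : ℚ[X]} (hQ : aeval α Q = 0) : P ∣ Q := by
  by_contra hn
  obtain ⟨u, v, huv⟩ := (hP.coprime_iff_not_dvd).2 hn
  have h := congrArg (aeval α) huv
  rw [map_add, map_mul, map_mul, hα, hQ, mul_zero, mul_zero, add_zero, map_one] at h
  exact zero_ne_one h

private theorem Irr_map {M : Type} [Field M] [CharZero M] (σ : M ≃+* M) (α : M) (Q : ℚ[X]) :
    σ (aeval α Q) = aeval (σ α) Q := by
  have h := Polynomial.hom_eval₂ Q (algebraMap ℚ M) (σ : M →+* M) α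
  have h1 : (σ : M →+* M).comp (algebraMap ℚ M) = algebraMap ℚ M := Subsingleton.elim _ _
  rw [h1] at h
  rw [Polynomial.aeval_def, Polynomial.aeval_def]
  exact h

private theorem Irr_int {M : Type} [Field M] [CharZero M] (α : M) (Q : ℤ[X]) :
    aeval α (Q.map (Int.castRingHom ℚ)) = aeval α Q := by
  have h := Polynomial.aeval_map_algebraMap ℚ α Q
  exact h

theorem good_irr {p m : ℕ} [Fact p.Prime] (hm : m.Prime) (hpm : ¬ m ∣ p * (p - 1))
    {G : Subgroup (PadicAlgCl p ≃+* PadicAlgCl p)} (hT : TameG p m (PadicAlgCl p) G)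
    {E : ℚ[X][X]} (hE : Ram p m E) (f : Fin r → ℤ[X]) (a : Fin r → ℤ) {P : ℚ[X]}
    (hP : Irreducible P) (hrel : Rel f a P) {α : PadicAlgCl p} (hα : aeval α P = 0)
    (hg : Good f a α) (R : ℚ[X][X]) (hR : R.natDegree < m) (w : PadicAlgCl p)
    (hw : ev2 α w E = 0) (hRw : ev2 α w R = 0) : ∀ i, P ∣ R.coeff i := by
  have hp : p.Prime := Fact.out
  obtain ⟨h, hh, hwn⟩ := hE α w hg.1 hw
  obtain ⟨n, hn, hPn⟩ := hrel
  have hrel2 : (aeval α (Ap f a)) ^ n = (aeval α (Ap f (-a))) ^ n := by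
    obtain ⟨S, hS⟩ := hPn
    have h1 := congrArg (aeval α) hS
    rw [map_mul, hα, zero_mul, Irr_int, map_sub, map_pow, map_pow] at h1
    exact sub_eq_zero.1 h1
  have hfx : ∀ σ ∈ G, σ α = α := fun σ hσ => tame_fix hp hm hpm hT f a hn hrel2 hg hσ
  set φ : ℚ[X] →+* PadicAlgCl p := (aeval α : ℚ[X] →ₐ[ℚ] PadicAlgCl p).toRingHom with hφ
  have hφa : ∀ Q : ℚ[X], φ Q = aeval α Q := fun Q => rfl
  have hroot : (R.map φ).IsRoot w := by
    rw [IsRoot.def, eval_map]
    exact hRw
  have hfix : ∀ σ ∈ G, (R.map φ).map (σ : PadicAlgCl p →+* PadicAlgCl p) = R.map φ := by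
    intro σ hσ
    ext i
    rw [coeff_map, coeff_map, hφa]
    show σ (aeval α (R.coeff i)) = _
    rw [Irr_map, hfx σ hσ]
  have h0 : R.map φ = 0 := by
    by_contra hne
    have h1 := tame_deg hp hm hT hwn hh hne hfix hroot
    have h2 := natDegree_map_le (f := φ) (p := R)
    omega
  intro i
  refine Irr_dvd hP hα ?_
  have h1 := congrArg (fun q => coeff q i) h0
  simp only [coeff_map, coeff_zero] at h1
  rw [hφa] at h1
  exact h1

end Pool.Agent.ETU
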