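import Pool.Agent.CSG.PlI

/-!
# The constants at a rational point

If the residue field of a place `O` is `k`, then `k` is algebraically closed in `K`.
-/

open scoped BigOperators Polynomial
open Polynomial

namespace Pool.Agent.ETU

open Pool.Agent.CST Pool.Agent.CSG

private theorem kcst_mem {K : Type} [Field K] [CharZero K] {O : ValuationSubring K} (hO : IsPl O)
    {b : K} (hb : IsAlgebraic ℚ b) : b ∈ O := by
  have h1 : b ∈ algebraicClosure ℚ K := (mem_algebraicClosure_iff).2 hb
  have h2 : Algebra.IsAlgebraic ℚ (algebraicClosure ℚ K) := algebraicClosure.isAlgebraic ℚ K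
  exact const_mem (k := algebraicClosure ℚ K) h2 hO ⟨b, h1⟩

theorem cst_of_rat {k K : Type} [Field k] [CharZero k] [Field K] [CharZero K] [Algebra k K]
    (hk : Algebra.IsAlgebraic ℚ k) {O : ValuationSubring K} (hO : IsPl O)
    (hr : ∀ y ∈ O, ∃ c : k, O.valuation (y - algebraMap k K c) < 1) : CstK k K := by
  intro a ha
  have ha' : IsAlgebraic ℚ a := by
    have h1 : Algebra.IsAlgebraic ℚ k := hk
    exact ha.restrictScalars ℚ
  obtain ⟨c, hc⟩ := hr a (kcst_mem hO ha')
  refine ⟨c, ?_⟩
  by_contra hne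
  have h0 : a - algebraMap k K c ≠ 0 := sub_ne_zero.2 fun h => hne h.symm
  have hcq : IsAlgebraic ℚ (algebraMap k K c) := (hk.isAlgebraic c).algebraMap
  have h1 : IsAlgebraic ℚ (a - algebraMap k K c)⁻¹ := (ha'.sub hcq).inv
  have h2 := (O.valuation_le_one_iff _).2 (kcst_mem hO h1)
  have h3 : O.valuation ((a - algebraMap k K c) * (a - algebraMap k K c)⁻¹) = 1 := by
    rw [mul_inv_cancel₀ h0, map_one]
  rw [map_mul] at h3
  have h4 : O.valuation (a - algebraMap k K c) * O.valuation (a - algebraMap k K c)⁻¹ < 1 :=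
    (mul_le_of_le_one_right' h2).trans_lt hc
  exact absurd h3 h4.ne

end Pool.Agent.ETU
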