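import Pool.Agent.ETU.Defs
import Pool.Agent.CSG.Pqk

/-!
# Definitions over a number field `k`
-/

open scoped BigOperators Polynomial
open Polynomial

namespace Pool.Agent.ETU

open Pool.Agent.Helper11 Pool.Agent.ISI Pool.Agent.CSG

/-- at the zeros of `P ∈ k[X]` the product of the `f i ^ a i` is a root of unity -/
def RelK {k : Type} [Field k] {r : ℕ} (f : Fin r → ℤ[X]) (a : Fin r → ℤ) (P : k[X]) : Prop :=
  ∃ n : ℕ, 0 < n ∧ P ∣ ((Ap f a) ^ n - (Ap f (-a)) ^ n).map (Int.castRingHom k)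

/-- the value at `(α, w)` of a polynomial in two variables over `k`, `k` embedded by `τ` -/
noncomputable def ev2K {k M : Type} [Field k] [Field M] (τ : k →+* M) (α w : M) : k[X][X] →+* M :=
  eval₂RingHom (eval₂RingHom τ α) w

/-- over the circle `‖α‖ = 1` the roots of `E(α, Y)` have valuations with denominator divisible by `m` -/
def RamK (p m : ℕ) [Fact p.Prime] {k : Type} [Field k] (τ : k →+* PadicAlgCl p) (E : k[X][X]) :
    Prop :=
  ∀ α w : PadicAlgCl p, ‖α‖ = 1 → ev2K τ α w E = 0 →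
    ∃ (N : ℕ) (h : ℤ), 0 < N ∧ ¬ (m : ℤ) ∣ h ∧ ‖w‖ ^ (m * N) = ‖((p : ℕ) : PadicAlgCl p)‖ ^ h

/-- the pole weights of the equation -/
structure WtsK (m : ℕ) {k : Type} [Field k] (E : k[X][X]) : Prop where
  mon : E.Monic
  deg : E.natDegree = m
  zero : ¬ m ∣ (E.coeff 0).natDegree
  lt : ∀ b, 0 < b → b < m → E.coeff b ≠ 0 →
    m * (E.coeff b).natDegree + b * (E.coeff 0).natDegree < m * (E.coeff 0).natDegree

/-- combinations of the `{u i, q(x)}`, `q ∈ k[X]`, and of symbols of two polynomials with rational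
coefficients -/
noncomputable def LF (k : Type) [Field k] {K : Type} [Field K] [CharZero K] [Algebra k K] (x : K)
    {r : ℕ} (u : Fin r → Kˣ) : Submodule ℚ (KMQ K 2) :=
  (⨆ i, Submodule.span ℚ {z | ∃ q : k[X], q ≠ 0 ∧ z = sy (u i) (pqk x q)}) ⊔ LP x

end Pool.Agent.ETU
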