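import Pool.Agent.ETU.KDef
import Pool.Agent.ETU.Deg

/-!
# The degree over `k` of a point which is bad at two primes is bounded

The argument is that of `deg_bound`; the roots of `P ∈ k[X]` in `PadicAlgCl p` are taken for an embedding of `k`.
-/

open scoped BigOperators Polynomial
open Polynomial

namespace Pool.Agent.ETU

variable {r : ℕ}

private theorem KDeg_aev {k M : Type} [Field k] [Field M] [Algebra k M] (α : M) (Q : ℤ[X]) :
    aeval α (Q.map (Int.castRingHom k)) = aeval α Q := by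
  rw [← algebraMap_int_eq]
  exact aeval_map_algebraMap k α Q

private theorem KDeg_dvd {k M : Type} [Field k] [Field M] [Algebra k M] {α : M} {P : k[X]}
    (hP : P.Monic) (hi : Irreducible P) (hα : aeval α P = 0) {Q : ℤ[X]} (hQ : aeval α Q = 0) :
    P ∣ Q.map (Int.castRingHom k) := by
  rw [minpoly.eq_of_irreducible_of_monic hi hα hP]
  apply minpoly.dvd
  rw [KDeg_aev, hQ]

private theorem KDeg_aeval {k M : Type} [Field k] [Field M] [Algebra k M] {α : M} {P : k[X]}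
    (hα : aeval α P = 0) {Q : ℤ[X]} (hQ : P ∣ Q.map (Int.castRingHom k)) : aeval α Q = 0 := by
  obtain ⟨c, hc⟩ := hQ
  rw [← KDeg_aev (k := k), hc, map_mul, hα, zero_mul]

private theorem KDeg_core {p : ℕ} (hp : p.Prime) {k : Type} [Field k] [CharZero k] {M : Type}
    [NormedField M] [CharZero M] [Algebra k M] [IsAlgClosed M] (hna : NA p M) {f : Fin r → ℤ[X]}
    (hf : Fam p f) {a : Fin r → ℤ} (ha : ∃ i, ¬ (p : ℤ) ∣ a i) {N : ℕ} (hN : 0 < N) {P : k[X]}
    (hi : Irreducible P) (h1 : ∀ α : M, aeval α P = 0 → ¬ Good f a α)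
    (h2 : ∀ α : M, aeval α P = 0 → (aeval α (Ap f a)) ^ N = (aeval α (Ap f (-a))) ^ N) :
    P.natDegree ≤ (∑ i, (f i).natDegree + 1) * (∑ i, (f i).natDegree) * N := by
  classical
  have hP0 : P.map (algebraMap k M) ≠ 0 :=
    (Polynomial.map_ne_zero_iff (RingHom.injective _)).2 hi.ne_zero
  set T : Finset M := (P.map (algebraMap k M)).roots.toFinset with hT
  have hTm : ∀ t ∈ T, aeval t P = 0 := by
    intro t ht
    rw [hT, Multiset.mem_toFinset, mem_roots hP0, IsRoot.def, eval_map_algebraMap] at ht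
    exact ht
  have hTc : T.card = P.natDegree := by
    have h3 : (P.map (algebraMap k M)).roots.Nodup := nodup_roots hi.separable.map
    have h4 := (IsAlgClosed.splits (P.map (algebraMap k M))).natDegree_eq_card_roots
    rw [hT, Multiset.toFinset_card_of_nodup h3, ← h4, natDegree_map]
  let ζ : M → M := fun t => aeval t (Ap f a) / aeval t (Ap f (-a))
  have hB : ∀ t ∈ T, aeval t (Ap f (-a)) ≠ 0 := fun t ht =>
    (Ap_ne_zero hp hf a hN (h2 t (hTm t ht))).2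
  have hζN : ∀ t ∈ T, ζ t ^ N = 1 := by
    intro t ht
    show (aeval t (Ap f a) / aeval t (Ap f (-a))) ^ N = 1
    rw [div_pow, h2 t (hTm t ht), div_self (pow_ne_zero _ (hB t ht))]
  have h3 : T.card ≤ ((∑ i, (f i).natDegree + 1) * (∑ i, (f i).natDegree)) * (T.image ζ).card := by
    refine Finset.card_le_mul_card_image _ _ fun b hb => ?_
    obtain ⟨t₀, ht₀, rfl⟩ := Finset.mem_image.1 hb
    refine count_bad (ζ := ζ t₀) hp hna hf ha ?_ _ (fun t ht => ?_) fun t ht => ?_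
    · have h4 := hζN t₀ ht₀
      have h5 : ‖ζ t₀‖ ^ N = 1 := by rw [← norm_pow, h4, norm_one]
      exact (pow_eq_one_iff_of_nonneg (norm_nonneg _) hN.ne').1 h5
    · exact h1 t (hTm t (Finset.mem_filter.1 ht).1)
    · rw [← (Finset.mem_filter.1 ht).2]
      exact (div_mul_cancel₀ _ (hB t (Finset.mem_filter.1 ht).1)).symm
  have h4 : (T.image ζ).card ≤ N := by
    have h5 : T.image ζ ⊆ (nthRoots N (1 : M)).toFinset := by
      intro b hb
      obtain ⟨t, ht, rfl⟩ := Finset.mem_image.1 hb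
      rw [Multiset.mem_toFinset, mem_nthRoots hN]
      exact hζN t ht
    exact ((Finset.card_le_card h5).trans (Multiset.toFinset_card_le _)).trans
      (card_nthRoots N 1)
  rw [← hTc]
  exact h3.trans (Nat.mul_le_mul_left _ h4)

private theorem KDeg_na (p : ℕ) [Fact p.Prime] : NA p (PadicAlgCl p) where
  na := PadicAlgCl.isNonarchimedean p
  pp := by
    have h1 : ((p : ℕ) : PadicAlgCl p) = ((p : ℚ_[p]) : PadicAlgCl p) :=
      (map_natCast (algebraMap ℚ_[p] (PadicAlgCl p)) p).symm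
    rw [h1, PadicAlgCl.norm_extends]
    exact Padic.norm_p_lt_one

private theorem KDeg_Ebd {p : ℕ} (hp : p.Prime) (f : Fin r → ℤ[X]) : 0 < Ebd p f := by
  unfold Ebd
  have h1 : 1 < p ^ (∑ i, (f i).natDegree + 1).factorial :=
    Nat.one_lt_pow (Nat.factorial_pos _).ne' hp.one_lt
  omega

private theorem KDeg_pow {M : Type} [Field M] {x y : M} (hy : y ≠ 0) {m n N : ℕ}
    (h1 : x ^ m = y ^ m) (h2 : x ^ n = y ^ n) (h : Nat.gcd m n ∣ N) : x ^ N = y ^ N := by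
  have h5 : (x / y) ^ m = 1 := by rw [div_pow, h1, div_self (pow_ne_zero _ hy)]
  have h6 : (x / y) ^ n = 1 := by rw [div_pow, h2, div_self (pow_ne_zero _ hy)]
  have h7 : orderOf (x / y) ∣ N :=
    (Nat.dvd_gcd (orderOf_dvd_of_pow_eq_one h5) (orderOf_dvd_of_pow_eq_one h6)).trans h
  have h8 := orderOf_dvd_iff_pow_eq_one.1 h7
  rwa [div_pow, div_eq_one_iff_eq (pow_ne_zero _ hy)] at h8

/-- the order of the root of unity, at one prime -/
private theorem KDeg_one {p : ℕ} [Fact p.Prime] {f : Fin r → ℤ[X]} (hf : Fam p f)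
    {a : Fin r → ℤ} (ha : Prim a) {k : Type} [Field k] [Algebra k (PadicAlgCl p)] {P : k[X]}
    (hP : P.Monic) (hi : Irreducible P) (hr : RelK f a P)
    (h : ∀ α : PadicAlgCl p, aeval α P = 0 → ¬ Good f a α) :
    ∃ n : ℕ, P ∣ ((Ap f a) ^ (Ebd p f * p ^ n) -
      (Ap f (-a)) ^ (Ebd p f * p ^ n)).map (Int.castRingHom k) := by
  have hp : p.Prime := Fact.out
  obtain ⟨n, hn, hd⟩ := hr
  obtain ⟨α, hα⟩ := IsAlgClosed.exists_aeval_eq_zero (PadicAlgCl p) P
    (degree_pos_of_irreducible hi).ne'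
  have h1 := KDeg_aeval hα hd
  rw [map_sub, map_pow, map_pow, sub_eq_zero] at h1
  obtain ⟨l, hl⟩ := order_bad hp (KDeg_na p) hf (ha p hp) hn h1 (h α hα)
  refine ⟨l, KDeg_dvd hP hi hα ?_⟩
  rw [map_sub, map_pow, map_pow, sub_eq_zero]
  exact hl

theorem deg_boundK {p₁ p₂ : ℕ} [Fact p₁.Prime] [Fact p₂.Prime] (h12 : p₁ ≠ p₂)
    {f : Fin r → ℤ[X]} (hf₁ : Fam p₁ f) (hf₂ : Fam p₂ f) {k : Type} [Field k] [CharZero k]
    (τ₁ : k →+* PadicAlgCl p₁) (τ₂ : k →+* PadicAlgCl p₂) :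
    ∃ B : ℕ, ∀ a : Fin r → ℤ, Prim a → ∀ P : k[X], P.Monic → Irreducible P → RelK f a P →
      (∀ α : PadicAlgCl p₁, P.eval₂ τ₁ α = 0 → ¬ Good f a α) →
      (∀ α : PadicAlgCl p₂, P.eval₂ τ₂ α = 0 → ¬ Good f a α) → P.natDegree ≤ B := by
  have hp₁ : p₁.Prime := Fact.out
  have hp₂ : p₂.Prime := Fact.out
  let _ : Algebra k (PadicAlgCl p₁) := τ₁.toAlgebra
  let _ : Algebra k (PadicAlgCl p₂) := τ₂.toAlgebra
  refine ⟨(∑ i, (f i).natDegree + 1) * (∑ i, (f i).natDegree) * (Ebd p₁ f * Ebd p₂ f), ?_⟩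
  intro a ha P hP hi hr h1 h2
  have h1' : ∀ α : PadicAlgCl p₁, aeval α P = 0 → ¬ Good f a α := h1
  have h2' : ∀ α : PadicAlgCl p₂, aeval α P = 0 → ¬ Good f a α := h2
  obtain ⟨s, hs⟩ := KDeg_one hf₁ ha hP hi hr h1'
  obtain ⟨l, hl⟩ := KDeg_one hf₂ ha hP hi hr h2'
  have hE₁ := KDeg_Ebd hp₁ f
  have hE₂ := KDeg_Ebd hp₂ f
  refine KDeg_core hp₁ (KDeg_na p₁) hf₁ (ha p₁ hp₁) (Nat.mul_pos hE₁ hE₂) hi h1' fun α hα => ?_
  have h3 := KDeg_aeval hα hs
  have h4 := KDeg_aeval hα hl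
  rw [map_sub, map_pow, map_pow, sub_eq_zero] at h3 h4
  have hn : 0 < Ebd p₁ f * p₁ ^ s := Nat.mul_pos hE₁ (pow_pos hp₁.pos _)
  exact KDeg_pow (Ap_ne_zero hp₁ hf₁ a hn h3).2 h3 h4 (gcd_dvd hp₁ hp₂ h12 hE₁ hE₂)

end Pool.Agent.ETU
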