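import Pool.Agent.ETU.Stm98
import Pool.Agent.DNS.Fin

/-!
# Almost all integers `c` are good

Almost all `c` are divisible exactly once by two large primes `p`, `q` with `p - 1` and `q - 1` prime to `m` (`DNS.density`), and
a squarefree polynomial stays squarefree modulo all large primes.
-/

open scoped BigOperators Polynomial
open Polynomial

namespace Pool.Agent.ETU

private theorem kdns_norm (U : ℚ[X]) :
    ∃ (d : ℤ) (U' : ℤ[X]), d ≠ 0 ∧ U'.map (Int.castRingHom ℚ) = C (d : ℚ) * U := by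
  obtain ⟨b, hb, h⟩ := IsLocalization.integerNormalization_spec (nonZeroDivisors ℤ) U
  refine ⟨b, IsLocalization.integerNormalization (nonZeroDivisors ℤ) U,
    nonZeroDivisors.ne_zero hb, ?_⟩
  rw [← algebraMap_int_eq, h, ← smul_eq_C_mul]
  exact (Int.cast_smul_eq_zsmul ℚ b U).symm

private theorem kdns_sqf {G : ℤ[X]} (hG : Squarefree (G.map (Int.castRingHom ℚ))) :
    ∃ C : ℕ, ∀ (p : ℕ) [Fact p.Prime], C < p → Squarefree (G.map (Int.castRingHom (ZMod p))) := by
  have h1 : (G.map (Int.castRingHom ℚ)).Separable := PerfectField.separable_iff_squarefree.2 hG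
  obtain ⟨U, V, hUV⟩ := h1
  obtain ⟨d1, U', hd1, hU'⟩ := kdns_norm U
  obtain ⟨d2, V', hd2, hV'⟩ := kdns_norm V
  have h2 : C d2 * U' * G + C d1 * V' * derivative G = C (d1 * d2) := by
    apply Polynomial.map_injective (Int.castRingHom ℚ) Int.cast_injective
    rw [Polynomial.map_add, Polynomial.map_mul, Polynomial.map_mul, Polynomial.map_mul,
      Polynomial.map_mul, Polynomial.map_C, Polynomial.map_C, Polynomial.map_C,
      ← Polynomial.derivative_map, hU', hV', map_mul, C_mul, eq_intCast, eq_intCast]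
    linear_combination (C (d1 : ℚ) * C (d2 : ℚ)) * hUV
  refine ⟨(d1 * d2).natAbs, fun p _ hp => ?_⟩
  have h3 : ((d1 * d2 : ℤ) : ZMod p) ≠ 0 := by
    intro h
    rw [ZMod.intCast_zmod_eq_zero_iff_dvd] at h
    have h4 : p ∣ (d1 * d2).natAbs := by
      have := Int.natAbs_dvd_natAbs.2 h
      rwa [Int.natAbs_natCast] at this
    exact absurd (Nat.le_of_dvd (Int.natAbs_pos.2 (mul_ne_zero hd1 hd2)) h4) (not_le.2 hp)
  refine Polynomial.Separable.squarefree ?_
  refine ⟨C ((d1 * d2 : ℤ) : ZMod p)⁻¹ * (C d2 * U').map (Int.castRingHom (ZMod p)),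
    C ((d1 * d2 : ℤ) : ZMod p)⁻¹ * (C d1 * V').map (Int.castRingHom (ZMod p)), ?_⟩
  have h5 := congrArg (Polynomial.map (Int.castRingHom (ZMod p))) h2
  have h6 : (C d1 * V' * derivative G).map (Int.castRingHom (ZMod p)) =
      (C d1 * V').map (Int.castRingHom (ZMod p)) *
        (derivative G).map (Int.castRingHom (ZMod p)) := Polynomial.map_mul _
  rw [Polynomial.map_add, Polynomial.map_mul, h6, Polynomial.map_C,
    eq_intCast (Int.castRingHom (ZMod p)) (d1 * d2),
    ← Polynomial.derivative_map] at h5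
  rw [mul_assoc, mul_assoc, ← mul_add, h5, ← C_mul, inv_mul_cancel₀ h3, C_1]


theorem almostAll_good {m : ℕ} (hm : m.Prime) (h2 : 2 < m) {s ρ : ℕ → ℕ}
    (hs : ∃ B : ℕ, ∀ p, B < p → s p = 0 ∧ ρ p = 0) {r : ℕ} {f : Fin r → ℤ[X]}
    (hmon : ∀ i, (f i).Monic) (hpos : ∀ i, 0 < (f i).natDegree)
    (hsq : Squarefree ((∏ i, f i).map (Int.castRingHom ℚ))) :
    DNS.AlmostAll fun c : ℤ => ∃ p₁ p₂ : ℕ, p₁ ≠ p₂ ∧ GoodPrime m s ρ c p₁ ∧
      GoodPrime m s ρ c p₂ ∧ GoodTuple p₁ p₂ f := by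
  obtain ⟨B, hB⟩ := hs
  obtain ⟨C, hC⟩ := kdns_sqf hsq
  have hodd : Odd m := hm.odd_of_ne_two h2.ne'
  refine DNS.AlmostAll.mono (DNS.density hodd (B + C + m)) ?_
  rintro c ⟨p, q, hp, hq, hpq, hCp, hCq, hmp, hmq, hvp, hvq⟩
  have hgood : ∀ l : ℕ, l.Prime → B + C + m < l → m.Coprime (l - 1) → padicValInt l c = 1 →
      GoodPrime m s ρ c l := by
    intro l hl hlt hcop hv
    have hv' : padicValRat l (c : ℚ) = 1 := by
      rw [padicValRat.of_int, hv, Nat.cast_one]
    obtain ⟨hs0, hρ0⟩ := hB l (by omega)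
    refine ⟨hl, ?_, ?_, ?_⟩
    · intro h
      rcases (Nat.Prime.dvd_mul hm).1 h with h | h
      · have := (Nat.prime_dvd_prime_iff_eq hm hl).1 h
        omega
      · have h3 := Nat.dvd_gcd dvd_rfl h
        rw [hcop] at h3
        exact hm.one_lt.ne' (Nat.dvd_one.1 h3)
    · rw [hs0, hv']
      norm_num
    · rw [hρ0, hv']
      intro h
      have h3 := (Int.modEq_zero_iff_dvd).1 h
      have h4 := Int.le_of_dvd one_pos h3
      omega
  refine ⟨p, q, hpq, hgood p hp hCp hmp hvp, hgood q hq hCq hmq hvq, hmon, hpos, ?_, ?_⟩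
  · have := Fact.mk hp
    exact hC p (by omega)
  · have := Fact.mk hq
    exact hC q (by omega)

end Pool.Agent.ETU
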