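import Pool.Agent.ETU.KDef
import Pool.Agent.CS2.RatB

/-!
# The equation over `k` of a curve with a totally ramified pole

`w` is a uniformizer at `O` times an element of `k[x]`, integral over `k[x] ≅ k[X]`; its order is prime to `m`, so `w ∉ k(x)` and the
minimal polynomial `E` over `k[X]` (integrally closed) has degree `m`. The orders of the terms `e_b w ^ b`, `b < m`, are distinct
modulo `m`, so the minimal order is that of `w ^ m` and of `e_0`.
-/

open scoped BigOperators Polynomial
open Polynomial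

namespace Pool.Agent.ETU

open Pool.Agent.CST

private theorem keq_top {k K : Type} [Field k] [Field K] [Algebra k K] {g θ : K}
    (h : IntermediateField.adjoin (IntermediateField.adjoin k {g}) {θ} = ⊤) :
    IntermediateField.adjoin k {g, θ} = ⊤ := by
  have h1 := IntermediateField.adjoin_adjoin_left k {g} {θ}
  rw [h, IntermediateField.restrictScalars_top] at h1
  rw [h1]
  congr 1

private theorem keq_inv {K : Type} [Field K] [CharZero K] (O : ValuationSubring K) (h : Kˣ) :
    vo O h⁻¹ = -vo O h := by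
  have h1 := vo_zpow O h (-1)
  rw [zpow_neg, zpow_one] at h1
  linarith

private theorem keq_lt {K : Type} [Field K] [CharZero K] {O : ValuationSubring K} (hO : IsPl O)
    (a c : Kˣ) : O.valuation (a : K) < O.valuation (c : K) ↔ vo O c < vo O a := by
  have h1 := vo_pos_iff hO (a * c⁻¹)
  rw [vo_mul, keq_inv, Units.val_mul, Units.val_inv_eq_inv_val, map_mul, map_inv₀] at h1
  have hc : 0 < O.valuation (c : K) := by
    rw [zero_lt_iff]
    exact (O.valuation.ne_zero_iff).2 c.ne_zero
  rw [← div_eq_mul_inv, div_lt_one₀ hc] at h1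
  rw [← h1]
  constructor <;> intro h <;> omega

private theorem keq_eq {K : Type} [Field K] [CharZero K] {O : ValuationSubring K} (hO : IsPl O)
    (a c : Kˣ) : O.valuation (a : K) = O.valuation (c : K) ↔ vo O a = vo O c := by
  have h1 := keq_lt hO a c
  have h2 := keq_lt hO c a
  constructor
  · intro h
    have h3 : ¬ vo O c < vo O a := fun h' => (h1.2 h').ne h
    have h4 : ¬ vo O a < vo O c := fun h' => (h2.2 h').ne h.symm
    omega
  · intro h
    refine le_antisymm (not_lt.1 fun h' => ?_) (not_lt.1 fun h' => ?_)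
    · have := h2.1 h'
      omega
    · have := h1.1 h'
      omega

private theorem keq_one {K : Type} [Field K] [CharZero K] {O : ValuationSubring K}
    (hO : IsPl O) : ∃ p : Kˣ, vo O p = 1 := by
  have := hO.1
  obtain ⟨p, ord, H⟩ := Pool.Agent.Helper11.exists_ord O
  refine ⟨p, vo_uniform hO H.lt fun x hx => ?_⟩
  rcases eq_or_ne x 0 with rfl | h0
  · rw [map_zero]
    exact zero_le
  · have h1 := (H.lt_one_iff (Units.mk0 x h0)).1 hx
    exact (H.le_iff (Units.mk0 x h0) p).2 (by rw [H.uniformizer]; omega)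

private theorem keq_const {k K : Type} [Field k] [CharZero k] [Field K] [CharZero K] [Algebra k K]
    (hk : Algebra.IsAlgebraic ℚ k) {O : ValuationSubring K} (hO : IsPl O) {c : k} (hc : c ≠ 0) :
    O.valuation (algebraMap k K c) = 1 := by
  have h1 : O.valuation (algebraMap k K c) ≤ 1 :=
    (O.valuation_le_one_iff _).2 (Pool.Agent.CSG.const_mem hk hO c)
  have h2 : O.valuation (algebraMap k K c⁻¹) ≤ 1 :=
    (O.valuation_le_one_iff _).2 (Pool.Agent.CSG.const_mem hk hO c⁻¹)
  have h3 : O.valuation (algebraMap k K c) * O.valuation (algebraMap k K c⁻¹) = 1 := by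
    rw [← map_mul, ← map_mul, mul_inv_cancel₀ hc, map_one, map_one]
  refine le_antisymm h1 ?_
  calc (1 : O.ValueGroup) = O.valuation (algebraMap k K c) * O.valuation (algebraMap k K c⁻¹) :=
        h3.symm
    _ ≤ O.valuation (algebraMap k K c) * 1 := mul_le_mul_right h2 _
    _ = O.valuation (algebraMap k K c) := mul_one _

private theorem keq_val {k K : Type} [Field k] [CharZero k] [Field K] [CharZero K] [Algebra k K]
    (hk : Algebra.IsAlgebraic ℚ k) {O : ValuationSubring K} (hO : IsPl O) {x : K}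
    (hx : 1 < O.valuation x) {P : k[X]} (hP : P ≠ 0) :
    O.valuation (aeval x P) = O.valuation x ^ P.natDegree := by
  have h0 : O.valuation x ≠ 0 := (zero_lt_one.trans hx).ne'
  have h1 : O.valuation (P.coeff P.natDegree • x ^ P.natDegree) = O.valuation x ^ P.natDegree := by
    rw [Algebra.smul_def, map_mul, map_pow, keq_const hk hO (by
      rw [coeff_natDegree]
      exact leadingCoeff_ne_zero.2 hP), one_mul]
  have h2 : O.valuation (∑ i ∈ Finset.range P.natDegree, P.coeff i • x ^ i) <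
      O.valuation x ^ P.natDegree := by
    apply Valuation.map_sum_lt _ (pow_ne_zero _ h0)
    intro i hi
    rw [Algebra.smul_def, map_mul, map_pow]
    have h5 : O.valuation (algebraMap k K (P.coeff i)) ≤ 1 :=
      (O.valuation_le_one_iff _).2 (Pool.Agent.CSG.const_mem hk hO _)
    calc O.valuation (algebraMap k K (P.coeff i)) * O.valuation x ^ i ≤
          1 * O.valuation x ^ i := mul_le_mul_left h5 _
      _ = O.valuation x ^ i := one_mul _
      _ < O.valuation x ^ P.natDegree := pow_lt_pow_right₀ hx (Finset.mem_range.1 hi)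
  rw [aeval_eq_sum_range, Finset.sum_range_succ, Valuation.map_add_eq_of_lt_right _ (by
    rw [h1]
    exact h2), h1]

private theorem keq_vo {k K : Type} [Field k] [CharZero k] [Field K] [CharZero K] [Algebra k K]
    (hk : Algebra.IsAlgebraic ℚ k) {O : ValuationSubring K} (hO : IsPl O) {x : Kˣ}
    (hx : 1 < O.valuation (x : K)) {P : k[X]} (hP : P ≠ 0) {u : Kˣ} (hu : (u : K) = aeval (x : K) P) :
    vo O u = P.natDegree * vo O x := by
  have h1 := keq_val hk hO hx hP
  rw [← hu, ← map_pow, ← Units.val_pow_eq_pow_val] at h1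
  have h2 := (keq_eq hO _ _).1 h1
  rw [h2]
  have h3 := vo_zpow O x (P.natDegree : ℤ)
  rw [zpow_natCast] at h3
  exact h3

private theorem keq_core {k K : Type} [Field k] [CharZero k] [Field K] [CharZero K] [Algebra k K]
    (hk : Algebra.IsAlgebraic ℚ k) {x : K} (hx : Transcendental k x) {m : ℕ}
    (hm : m.Prime) (hK : Module.finrank (IntermediateField.adjoin k {x}) K = m)
    {O : ValuationSubring K} (hO : IsPl O) (hxO : x ∉ O) {t : K}
    (ht : O.valuation (x * t ^ m) = 1) :
    ∃ (w : K) (f : k[X][X]), (f.Monic ∧ f.natDegree = m ∧ ¬ m ∣ (f.coeff 0).natDegree ∧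
      ∀ b, 0 < b → b < m → f.coeff b ≠ 0 →
        m * (f.coeff b).natDegree + b * (f.coeff 0).natDegree < m * (f.coeff 0).natDegree) ∧
      f.eval₂ (eval₂RingHom (algebraMap k K) x) w = 0 ∧
      IntermediateField.adjoin k {x, w} = ⊤ := by
  let E := IntermediateField.adjoin k {x}
  have hKfin : FiniteDimensional E K := by
    apply FiniteDimensional.of_finrank_pos
    rw [hK]
    exact hm.pos
  let ev : k[X] →+* K := (aeval x : k[X] →ₐ[k] K).toRingHom
  have hmem : ∀ P : k[X], ev P ∈ E := by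
    intro P
    exact IntermediateField.algebra_adjoin_le_adjoin k {x}
      (aeval_mem_adjoin_singleton k x)
  have hinj : Function.Injective ev := by
    rw [injective_iff_map_eq_zero]
    intro P hP
    exact (transcendental_iff.1 hx) _ hP
  let evE : k[X] →+* E := ev.codRestrict E.toSubring hmem
  let _ : Algebra k[X] E := evE.toAlgebra
  let _ : Algebra k[X] K := ev.toAlgebra
  have htw : IsScalarTower k[X] E K := IsScalarTower.of_algebraMap_eq fun _ => rfl
  have hamE : ∀ x : k[X], ((algebraMap k[X] E x : E) : K) = ev x := fun _ => rfl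
  have hamK : ∀ x : k[X], algebraMap k[X] K x = ev x := fun _ => rfl
  have hinjE : Function.Injective (algebraMap k[X] E) := by
    intro a b hab
    apply hinj
    rw [← hamE, ← hamE, hab]
  have hfsE : FaithfulSMul k[X] E := (faithfulSMul_iff_algebraMap_injective k[X] E).2 hinjE
  have hfsK : FaithfulSMul k[X] K := (faithfulSMul_iff_algebraMap_injective k[X] K).2 hinj
  have hquot : ∀ z : E, ∃ p q : k[X], (z : K) = ev p / ev q := by
    intro z
    obtain ⟨p, q, hxy⟩ := (IntermediateField.mem_adjoin_simple_iff k (z : K)).1 z.2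
    exact ⟨p, q, hxy⟩
  have hfrac : IsFractionRing k[X] E := by
    apply IsFractionRing.of_field k[X] E
    intro z
    obtain ⟨p, q, hxy⟩ := hquot z
    exact ⟨p, q, Subtype.ext hxy⟩
  have hx1 : 1 < O.valuation x := by
    rw [← not_le, O.valuation_le_one_iff]
    exact hxO
  have hx0 : x ≠ 0 := by
    rintro rfl
    exact hxO (zero_mem _)
  have ht0 : t ≠ 0 := by
    rintro rfl
    rw [zero_pow hm.ne_zero, mul_zero, map_zero] at ht
    exact zero_ne_one ht
  obtain ⟨xu, hxu⟩ : ∃ u : Kˣ, (u : K) = x := ⟨Units.mk0 x hx0, rfl⟩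
  obtain ⟨tu, htu⟩ : ∃ u : Kˣ, (u : K) = t := ⟨Units.mk0 t ht0, rfl⟩
  have hvx : vo O xu < 0 := by
    by_contra h
    have h1 := (vo_nonneg_iff hO xu).1 (not_lt.1 h)
    rw [hxu] at h1
    exact hxO h1
  have hvxt : vo O xu = -(m * vo O tu) := by
    have h1 : vo O (xu * tu ^ m) = 0 := by
      rw [vo_eq_zero_iff hO, Units.val_mul, Units.val_pow_eq_pow_val, hxu, htu]
      exact ht
    have h2 := vo_zpow O tu (m : ℤ)
    rw [zpow_natCast] at h2
    rw [vo_mul, h2] at h1
    linarith
  have hmpos : (0 : ℤ) < m := by exact_mod_cast hm.pos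
  have htpos : 0 < vo O tu := by
    by_contra h
    have h1 : (m : ℤ) * vo O tu ≤ 0 := mul_nonpos_of_nonneg_of_nonpos hmpos.le (not_lt.1 h)
    omega
  obtain ⟨π, hπ⟩ := keq_one hO
  have halg : Algebra.IsAlgebraic k[X] K :=
    (IsFractionRing.comap_isAlgebraic_iff (A := k[X]) (K := E) (C := K)).2 inferInstance
  obtain ⟨y, hy0, hy⟩ := (halg.isAlgebraic (π : K)).exists_integral_multiple
  have hyev : ev y ≠ 0 := by
    intro h
    apply hy0
    apply hinj
    rw [h, map_zero]
  have hw : y • (π : K) = ev y * π := by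
    rw [Algebra.smul_def, hamK]
  rw [hw] at hy
  obtain ⟨yu, hyu⟩ : ∃ u : Kˣ, (u : K) = ev y := ⟨Units.mk0 _ hyev, rfl⟩
  obtain ⟨wu, hwu⟩ : ∃ u : Kˣ, (u : K) = ev y * π := ⟨yu * π, by rw [Units.val_mul, hyu]⟩
  have hev : ∀ (P : k[X]) (u : Kˣ), (u : K) = ev P → vo O u = P.natDegree * vo O xu := by
    intro P u hu
    have hP : P ≠ 0 := by
      rintro rfl
      rw [map_zero] at hu
      exact u.ne_zero hu
    refine keq_vo hk hO (x := xu) (by rw [hxu]; exact hx1) hP ?_
    rw [hxu]
    exact hu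
  have hvw : vo O wu = y.natDegree * vo O xu + 1 := by
    have h1 : wu = yu * π := by
      apply Units.ext
      rw [hwu, Units.val_mul, hyu]
    rw [h1, vo_mul, hπ, hev y yu hyu]
  have hndvd : ¬ (m : ℤ) ∣ vo O wu := by
    intro h
    rw [hvw, hvxt] at h
    have h1 : (m : ℤ) ∣ y.natDegree * -(m * vo O tu) :=
      Dvd.dvd.mul_left (Dvd.dvd.neg_right (Dvd.intro _ rfl)) _
    have h2 := (Int.dvd_add_right h1).1 h
    have h3 : (m : ℤ) ≤ 1 := Int.le_of_dvd one_pos h2
    have h4 : 2 ≤ m := hm.two_le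
    omega
  have hwE : ev y * π ∉ E := by
    intro h
    obtain ⟨p, q, hpq⟩ := hquot ⟨_, h⟩
    have hpq' : ev y * π = ev p / ev q := hpq
    have hw0 : ev y * (π : K) ≠ 0 := by
      rw [← hwu]
      exact wu.ne_zero
    have hp0 : ev p ≠ 0 := by
      intro h
      rw [h, zero_div] at hpq'
      exact hw0 hpq'
    have hq0 : ev q ≠ 0 := by
      intro h
      rw [h, div_zero] at hpq'
      exact hw0 hpq'
    obtain ⟨pu, hpu⟩ : ∃ u : Kˣ, (u : K) = ev p := ⟨Units.mk0 _ hp0, rfl⟩
    obtain ⟨qu, hqu⟩ : ∃ u : Kˣ, (u : K) = ev q := ⟨Units.mk0 _ hq0, rfl⟩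
    have h1 : wu = pu * qu⁻¹ := by
      apply Units.ext
      rw [hwu, hpq', Units.val_mul, Units.val_inv_eq_inv_val, hpu, hqu, div_eq_mul_inv]
    apply hndvd
    rw [h1, vo_mul, keq_inv, hev p pu hpu, hev q qu hqu, hvxt]
    exact ⟨-(p.natDegree * vo O tu) + q.natDegree * vo O tu, by ring⟩
  have hwtop : IntermediateField.adjoin E {ev y * (π : K)} = ⊤ := by
    have h1 : Module.finrank E (IntermediateField.adjoin E {ev y * (π : K)}) *
        Module.finrank (IntermediateField.adjoin E {ev y * (π : K)}) K = m := by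
      rw [← hK]
      exact Module.finrank_mul_finrank _ _ _
    have h2 : Module.finrank E (IntermediateField.adjoin E {ev y * (π : K)}) ≠ 1 := by
      intro h
      rw [IntermediateField.finrank_adjoin_simple_eq_one_iff] at h
      obtain ⟨z, hz⟩ := IntermediateField.mem_bot.1 h
      apply hwE
      rw [← hz]
      exact z.2
    have h3 : Module.finrank (IntermediateField.adjoin E {ev y * (π : K)}) K = 1 := by
      rcases (Nat.dvd_prime hm).1 (Dvd.intro _ h1) with h | h
      · exact absurd h h2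
      · rw [h] at h1
        exact Nat.eq_of_mul_eq_mul_left hm.pos (by rw [h1, mul_one])
    exact IntermediateField.finrank_eq_one_iff_eq_top.1 h3
  have hmp : minpoly E (ev y * (π : K)) = (minpoly k[X] (ev y * (π : K))).map (algebraMap k[X] E) :=
    minpoly.isIntegrallyClosed_eq_field_fractions' E hy
  have hmon : (minpoly k[X] (ev y * (π : K))).Monic := minpoly.monic hy
  obtain ⟨f, hf⟩ : ∃ f : k[X][X], f = minpoly k[X] (ev y * (π : K)) := ⟨_, rfl⟩
  rw [← hf] at hmp hmon
  have hdeg : f.natDegree = m := by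
    have h1 := IntermediateField.adjoin.finrank (K := E) (x := ev y * (π : K))
      (Algebra.IsIntegral.isIntegral _)
    rw [hwtop, IntermediateField.finrank_top', hmp, hmon.natDegree_map, hK] at h1
    exact h1.symm
  have hroot : f.eval₂ ev (wu : K) = 0 := by
    have h1 := minpoly.aeval k[X] (ev y * (π : K))
    rw [aeval_def, ← hf] at h1
    rw [hwu]
    exact h1
  have hsum : ∑ b ∈ Finset.range (m + 1), ev (f.coeff b) * (wu : K) ^ b = 0 := by
    rw [eval₂_eq_sum_range, hdeg] at hroot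
    exact hroot
  have hcm : f.coeff m = 1 := by
    rw [← hdeg]
    exact hmon.coeff_natDegree
  have hterm : ∀ b, f.coeff b ≠ 0 → ∃ u : Kˣ, (u : K) = ev (f.coeff b) * (wu : K) ^ b ∧
      vo O u = (f.coeff b).natDegree * vo O xu + b * vo O wu := by
    intro b hb
    have h0 : ev (f.coeff b) ≠ 0 := by
      intro h
      apply hb
      apply hinj
      rw [h, map_zero]
    obtain ⟨c, hc⟩ : ∃ u : Kˣ, (u : K) = ev (f.coeff b) := ⟨Units.mk0 _ h0, rfl⟩
    refine ⟨c * wu ^ b, by rw [Units.val_mul, Units.val_pow_eq_pow_val, hc], ?_⟩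
    have h2 := vo_zpow O wu (b : ℤ)
    rw [zpow_natCast] at h2
    rw [vo_mul, h2, hev _ c hc]
  have hvz : ∀ b, f.coeff b = 0 → O.valuation (ev (f.coeff b) * (wu : K) ^ b) = 0 := by
    intro b hb
    rw [hb, map_zero, zero_mul, map_zero]
  have hvn : ∀ b, O.valuation (ev (f.coeff b) * (wu : K) ^ b) ≠ 0 → f.coeff b ≠ 0 :=
    fun b hb h => hb (hvz b h)
  have hcong : ∀ b c : ℕ, b ≤ m → c ≤ m → f.coeff b ≠ 0 →
      O.valuation (ev (f.coeff b) * (wu : K) ^ b) = O.valuation (ev (f.coeff c) * (wu : K) ^ c) →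
      b ≠ c → (b = 0 ∧ c = m) ∨ (b = m ∧ c = 0) := by
    intro b c hb hc hb0 he hbc
    have hc0 : f.coeff c ≠ 0 := by
      apply hvn
      rw [← he]
      obtain ⟨u, hu, -⟩ := hterm b hb0
      rw [← hu]
      exact (O.valuation.ne_zero_iff).2 u.ne_zero
    obtain ⟨u, hu, hu'⟩ := hterm b hb0
    obtain ⟨v, hv, hv'⟩ := hterm c hc0
    rw [← hu, ← hv, keq_eq hO, hu', hv', hvxt] at he
    have h1 : (m : ℤ) ∣ ((b : ℤ) - c) * vo O wu :=
      ⟨((f.coeff b).natDegree - (f.coeff c).natDegree) * vo O tu, by linarith⟩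
    have h2 : (m : ℤ) ∣ (b : ℤ) - c :=
      ((Nat.prime_iff_prime_int.1 hm).dvd_or_dvd h1).resolve_right hndvd
    obtain ⟨z, hz⟩ := h2
    have hbz : (b : ℤ) ≤ m := by exact_mod_cast hb
    have hcz : (c : ℤ) ≤ m := by exact_mod_cast hc
    have hb0' : (0 : ℤ) ≤ b := Int.natCast_nonneg b
    have hc0' : (0 : ℤ) ≤ c := Int.natCast_nonneg c
    have hz1 : z ≤ 1 := by nlinarith
    have hz2 : -1 ≤ z := by nlinarith
    have hz0 : z ≠ 0 := by
      rintro rfl
      apply hbc
      omega
    have hz3 : z = 1 ∨ z = -1 := by omega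
    rcases hz3 with rfl | rfl
    · right
      omega
    · left
      omega
  obtain ⟨b₀, hb₀, hmax⟩ := Finset.exists_max_image (Finset.range (m + 1))
    (fun b => O.valuation (ev (f.coeff b) * (wu : K) ^ b)) ⟨0, by simp⟩
  have hvm : O.valuation (ev (f.coeff m) * (wu : K) ^ m) ≠ 0 := by
    rw [hcm, map_one, one_mul]
    exact (O.valuation.ne_zero_iff).2 (pow_ne_zero _ wu.ne_zero)
  have hb₀0 : O.valuation (ev (f.coeff b₀) * (wu : K) ^ b₀) ≠ 0 := by
    intro h
    have h1 := hmax m (by simp)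
    rw [h] at h1
    exact hvm (le_antisymm h1 zero_le)
  have hex : ∃ b₁ ∈ Finset.range (m + 1), b₁ ≠ b₀ ∧
      O.valuation (ev (f.coeff b₁) * (wu : K) ^ b₁) =
        O.valuation (ev (f.coeff b₀) * (wu : K) ^ b₀) := by
    by_contra hcon
    push Not at hcon
    have h1 : O.valuation (∑ b ∈ (Finset.range (m + 1)).erase b₀,
        ev (f.coeff b) * (wu : K) ^ b) < O.valuation (ev (f.coeff b₀) * (wu : K) ^ b₀) := by
      apply Valuation.map_sum_lt _ hb₀0
      intro b hb
      rw [Finset.mem_erase] at hb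
      exact lt_of_le_of_ne (hmax b hb.2) (hcon b hb.2 hb.1)
    rw [← Finset.sum_erase_add _ _ hb₀] at hsum
    have h2 := Valuation.map_add_eq_of_lt_right _ h1
    rw [hsum, map_zero] at h2
    exact hb₀0 h2.symm
  obtain ⟨b₁, hb₁, hne, heq⟩ := hex
  rw [Finset.mem_range] at hb₀ hb₁
  have hpair := hcong b₀ b₁ (by omega) (by omega) (hvn _ hb₀0) heq.symm hne.symm
  have h0m : O.valuation (ev (f.coeff 0) * (wu : K) ^ 0) =
      O.valuation (ev (f.coeff m) * (wu : K) ^ m) := by
    rcases hpair with ⟨h1, h2⟩ | ⟨h1, h2⟩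
    · rw [h1, h2] at heq
      exact heq.symm
    · rw [h1, h2] at heq
      exact heq
  have hmaxm : ∀ b ≤ m, O.valuation (ev (f.coeff b) * (wu : K) ^ b) ≤
      O.valuation (ev (f.coeff m) * (wu : K) ^ m) := by
    intro b hb
    refine (hmax b (by rw [Finset.mem_range]; omega)).trans (le_of_eq ?_)
    rcases hpair with ⟨h1, h2⟩ | ⟨h1, h2⟩
    · rw [h1]
      exact h0m
    · rw [h1]
  have hc0 : f.coeff 0 ≠ 0 := by
    apply hvn
    rw [h0m]
    exact hvm
  obtain ⟨um, hum, hum'⟩ := hterm m (by rw [hcm]; exact one_ne_zero)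
  obtain ⟨u0, hu0, hu0'⟩ := hterm 0 hc0
  rw [hcm, natDegree_one] at hum'
  push_cast at hum' hu0'
  have hW : vo O wu = -((f.coeff 0).natDegree * vo O tu) := by
    rw [← hu0, ← hum, keq_eq hO, hu0', hum', hvxt] at h0m
    have h1 : (m : ℤ) * vo O wu = m * -((f.coeff 0).natDegree * vo O tu) := by linarith
    exact mul_left_cancel₀ hmpos.ne' h1
  refine ⟨(wu : K), f, ⟨hmon, hdeg, ?_, ?_⟩, hroot, keq_top (by rw [hwu]; exact hwtop)⟩
  · intro h
    apply hndvd
    rw [hW]
    exact Dvd.dvd.neg_right (Dvd.dvd.mul_right (by exact_mod_cast h) _)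
  · intro b hb hbm hb0
    obtain ⟨u, hu, hu'⟩ := hterm b hb0
    have hlt : O.valuation (ev (f.coeff b) * (wu : K) ^ b) <
        O.valuation (ev (f.coeff m) * (wu : K) ^ m) := by
      refine lt_of_le_of_ne (hmaxm b hbm.le) fun h => ?_
      rcases hcong b m hbm.le le_rfl hb0 h hbm.ne with ⟨h1, -⟩ | ⟨-, h1⟩
      · omega
      · exact hm.ne_zero h1
    rw [← hu, ← hum, keq_lt hO, hu', hum', hvxt, hW] at hlt
    have h1 : (vo O tu) * (m * (f.coeff b).natDegree + b * (f.coeff 0).natDegree : ℤ) <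
        (vo O tu) * (m * (f.coeff 0).natDegree : ℤ) := by linarith
    have h2 := lt_of_mul_lt_mul_left h1 htpos.le
    exact_mod_cast h2

theorem exists_equationK {k K : Type} [Field k] [CharZero k] [FiniteDimensional ℚ k] [Field K]
    [CharZero K] [Algebra k K] {x : K} (hx : Transcendental ℚ x) {m : ℕ}
    (hm : m.Prime) (hK : Module.finrank (IntermediateField.adjoin k {x}) K = m)
    {O : ValuationSubring K} (hO : IsPl O) (hxO : x ∉ O) {t : K}
    (ht : O.valuation (x * t ^ m) = 1) :
    ∃ (w : K) (E : k[X][X]), WtsK m E ∧ ev2K (algebraMap k K) x w E = 0 ∧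
      IntermediateField.adjoin k {x, w} = ⊤ := by
  have hk : Algebra.IsAlgebraic ℚ k := Algebra.IsAlgebraic.of_finite ℚ k
  have hx' : Transcendental k x := by
    intro h
    exact hx (h.restrictScalars ℚ)
  obtain ⟨w, E, ⟨h1, h2, h3, h4⟩, h5, h6⟩ := keq_core hk hx' hm hK hO hxO ht
  exact ⟨w, E, ⟨h1, h2, h3, h4⟩, h5, h6⟩

end Pool.Agent.ETU
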