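import Pool.Agent.ETU.KDef
import Pool.Agent.ETU.HgC

/-!
# Finiteness over `k`

From `height_fin` over `ℚ`: for a root `α` of `P` the minimal polynomial `P₀` of `α` over `ℚ` belongs to a finite
set, and `P` is a factor of `P₀` over `k`.
-/

open scoped BigOperators Polynomial IntermediateField
open Polynomial

namespace Pool.Agent.ETU

variable {r : ℕ}

private theorem khgt_factors {k : Type} [Field k] {F : k[X]} (hF : F ≠ 0) :
    {P : k[X] | P.Monic ∧ Irreducible P ∧ P ∣ F}.Finite := by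
  classical
  refine ((UniqueFactorizationMonoid.normalizedFactors F).toFinset.finite_toSet).subset ?_
  rintro P ⟨h1, h2, h3⟩
  rw [Finset.mem_coe, Multiset.mem_toFinset,
    UniqueFactorizationMonoid.mem_normalizedFactors_iff' hF]
  exact ⟨h2, h1.normalize_eq_self, h3⟩

private theorem khgt_aux {k : Type} [Field k] [CharZero k] [FiniteDimensional ℚ k] {f : Fin r → ℤ[X]}
    {B : ℕ} {P : k[X]} (hP1 : P.Monic) (hP2 : Irreducible P) (hP3 : P.natDegree ≤ B)
    {a : Fin r → ℤ} (h : RelK f a P) :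
    ∃ P₀ : ℚ[X], (P₀.Monic ∧ Irreducible P₀ ∧ P₀.natDegree ≤ Module.finrank ℚ k * B ∧ Rel f a P₀) ∧
      P ∣ P₀.map (algebraMap ℚ k) := by
  obtain ⟨n, hn, hdvd⟩ := h
  obtain ⟨α, hα⟩ := IsAlgClosed.exists_aeval_eq_zero (AlgebraicClosure k) P
    (degree_pos_of_irreducible hP2).ne'
  have hPα : P = minpoly k α := minpoly.eq_of_irreducible_of_monic hP2 hα hP1
  have hik : IsIntegral k α := ⟨P, hP1, hα⟩
  have hiQ : IsIntegral ℚ α := isIntegral_trans α hik
  refine ⟨minpoly ℚ α, ⟨minpoly.monic hiQ, minpoly.irreducible hiQ, ?_, n, hn, ?_⟩, ?_⟩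
  · have hfd : FiniteDimensional k k⟮α⟯ := IntermediateField.adjoin.finiteDimensional hik
    have hfdQ : FiniteDimensional ℚ k⟮α⟯ := FiniteDimensional.trans ℚ k k⟮α⟯
    have h1 : minpoly ℚ (IntermediateField.AdjoinSimple.gen k α) = minpoly ℚ α := by
      have h2 := minpoly.algebraMap_eq (A := ℚ) (B := k⟮α⟯) (B' := AlgebraicClosure k)
        (algebraMap k⟮α⟯ (AlgebraicClosure k)).injective (IntermediateField.AdjoinSimple.gen k α)
      rw [IntermediateField.AdjoinSimple.algebraMap_gen] at h2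
      exact h2.symm
    rw [← h1]
    refine (minpoly.natDegree_le _).trans ?_
    rw [← Module.finrank_mul_finrank ℚ k k⟮α⟯, IntermediateField.adjoin.finrank hik, ← hPα]
    exact Nat.mul_le_mul_left _ hP3
  · have h1 : aeval α (((Ap f a) ^ n - (Ap f (-a)) ^ n).map (Int.castRingHom k)) = 0 := by
      obtain ⟨Q, hQ⟩ := hdvd
      rw [hQ, map_mul, hα, zero_mul]
    refine minpoly.dvd ℚ α ?_
    rw [← algebraMap_int_eq, aeval_map_algebraMap] at h1 ⊢
    exact h1
  · rw [hPα]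
    refine minpoly.dvd k α ?_
    rw [aeval_map_algebraMap]
    exact minpoly.aeval ℚ α

theorem height_finK {k : Type} [Field k] [CharZero k] [FiniteDimensional ℚ k] {f : Fin r → ℤ[X]}
    (hmon : ∀ i, (f i).Monic) (hpos : ∀ i, 0 < (f i).natDegree)
    (hc : ∀ i j, i ≠ j → IsCoprime ((f i).map (Int.castRingHom ℚ)) ((f j).map (Int.castRingHom ℚ)))
    (B : ℕ) :
    {P : k[X] | P.Monic ∧ Irreducible P ∧ P.natDegree ≤ B ∧
      ∃ a : Fin r → ℤ, a ≠ 0 ∧ RelK f a P}.Finite := by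
  have h0 := height_fin hmon hpos hc (Module.finrank ℚ k * B)
  refine ((h0.biUnion (t := fun P₀ => {P : k[X] | P.Monic ∧ Irreducible P ∧
    P ∣ P₀.map (algebraMap ℚ k)}) fun P₀ hP₀ => khgt_factors (hP₀.1.map _).ne_zero)).subset ?_
  rintro P ⟨hP1, hP2, hP3, a, ha, hrel⟩
  obtain ⟨P₀, ⟨h1, h2, h3, h4⟩, h5⟩ := khgt_aux hP1 hP2 hP3 hrel
  exact Set.mem_iUnion₂.2 ⟨P₀, ⟨h1, h2, h3, a, ha, h4⟩, hP1, hP2, h5⟩

end Pool.Agent.ETU
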