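import Pool.Agent.ETU.KSpA
import Pool.Agent.ETU.KCor

/-!
# The space `LF` has no unramified elements

An unramified element of `LF k x u` is a combination of symbols of constants (`milnorK`), hence the image of
some `c` in `K₂(k) ⊗ ℚ`. The specialisation at the place `O` maps it to `m ^ 2 • c`, and it vanishes on
`LF k x u`: polynomials are mapped to the `m`-th powers of their leading coefficients.
-/

open scoped BigOperators Polynomial
open Polynomial

namespace Pool.Agent.ETU

open Pool.Agent.CST Pool.Agent.Helper11 Pool.Agent.ISI Pool.Agent.CSG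

section

variable {k K : Type} [Field k] [CharZero k] [FiniteDimensional ℚ k] [Field K]
    [CharZero K] [Algebra k K]

private theorem kspb_alg : Algebra.IsAlgebraic ℚ k := inferInstance

private theorem kspb_one {O : ValuationSubring K} (hO : IsPl O) {c : k} (hc : c ≠ 0) :
    O.valuation (algebraMap k K c) = 1 := by
  have h1 : O.valuation (algebraMap k K c) ≤ 1 :=
    (O.valuation_le_one_iff _).2 (const_mem kspb_alg hO c)
  have h2 : O.valuation (algebraMap k K c)⁻¹ ≤ 1 := by
    rw [← map_inv₀ (algebraMap k K)]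
    exact (O.valuation_le_one_iff _).2 (const_mem kspb_alg hO c⁻¹)
  have h0 : algebraMap k K c ≠ 0 := (_root_.map_ne_zero _).2 hc
  have h3 : O.valuation (algebraMap k K c) ≠ 0 := (O.valuation.ne_zero_iff).2 h0
  rw [map_inv₀] at h2
  exact le_antisymm h1 ((inv_le_one₀ (zero_lt_iff.2 h3)).1 h2)

private theorem kspb_zero {O : ValuationSubring K} (hO : IsPl O) {c : k}
    (h : O.valuation (algebraMap k K c) < 1) : c = 0 := by
  by_contra hc
  rw [kspb_one hO hc] at h
  exact lt_irrefl _ h

private theorem kspb_sum {O : ValuationSubring K} (hO : IsPl O) {x : K} (hx : 1 < O.valuation x)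
    (P : k[X]) :
    O.valuation (aeval x P * (x⁻¹) ^ P.natDegree - algebraMap k K P.leadingCoeff) < 1 := by
  have hx0 : x ≠ 0 := by
    rintro rfl
    rw [map_zero] at hx
    exact absurd hx (not_lt.2 zero_le_one)
  have h1 : aeval x P * (x⁻¹) ^ P.natDegree - algebraMap k K P.leadingCoeff =
      ∑ i ∈ Finset.range P.natDegree, algebraMap k K (P.coeff i) * (x⁻¹) ^ (P.natDegree - i) := by
    rw [aeval_eq_sum_range, Finset.sum_range_succ, add_mul, Finset.sum_mul]
    have h2 : P.coeff P.natDegree • x ^ P.natDegree * x⁻¹ ^ P.natDegree =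
        algebraMap k K P.leadingCoeff := by
      rw [Algebra.smul_def, mul_assoc, ← mul_pow, mul_inv_cancel₀ hx0, one_pow, mul_one]
      rfl
    rw [h2, add_sub_cancel_right]
    refine Finset.sum_congr rfl fun i hi => ?_
    have hi' : i ≤ P.natDegree := (Finset.mem_range.1 hi).le
    rw [Algebra.smul_def, mul_assoc]
    congr 1
    conv_lhs => rw [← Nat.sub_add_cancel hi', pow_add]
    rw [mul_comm, mul_assoc, ← mul_pow, inv_mul_cancel₀ hx0, one_pow, mul_one]
  rw [h1]
  have hv : O.valuation x⁻¹ < 1 := by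
    rw [map_inv₀]
    exact inv_lt_one_of_one_lt₀ hx
  refine O.valuation.map_sum_lt one_ne_zero fun i hi => ?_
  have hi' : P.natDegree - i ≠ 0 := by
    have := Finset.mem_range.1 hi
    omega
  rw [map_mul, map_pow]
  exact (mul_le_of_le_one_left' ((O.valuation_le_one_iff _).2 (const_mem kspb_alg hO _))).trans_lt
    (pow_lt_one₀ zero_le hv hi')

private theorem kspb_vo_one (O : ValuationSubring K) : vo O (1 : Kˣ) = 0 := by
  have h := vo_mul O 1 1
  rw [mul_one] at h
  omega

private theorem kspb_chi {x : Kˣ} {m : ℕ} (hm : 0 < m) {O : ValuationSubring K} (hO : IsPl O)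
    (hxO : vo O x = -m) {χ : Kˣ →* kˣ}
    (hχ : ∀ h : Kˣ,
      O.valuation (((h ^ m * x ^ (vo O h) : Kˣ) : K) - algebraMap k K (χ h)) < 1)
    {v : Kˣ} {P : k[X]} (hP : P ≠ 0) (hv : (v : K) = aeval (x : K) P) :
    ((χ v : kˣ) : k) = P.leadingCoeff ^ m := by
  have hx1 : 1 < O.valuation (x : K) := by
    by_contra hle
    have h1 : (x : K) ∈ O := (O.valuation_le_one_iff _).1 (not_lt.1 hle)
    have h2 := (vo_nonneg_iff hO x).2 h1
    omega
  set d := P.natDegree with hd
  set w : Kˣ := v * (x⁻¹) ^ d with hw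
  have hw1 : (w : K) = aeval (x : K) P * ((x : K)⁻¹) ^ d := by
    rw [hw, Units.val_mul, Units.val_pow_eq_pow_val, Units.val_inv_eq_inv_val, hv]
  have h1 : O.valuation ((w : K) - algebraMap k K P.leadingCoeff) < 1 := by
    rw [hw1]
    exact kspb_sum hO hx1 P
  have hlc : P.leadingCoeff ≠ 0 := leadingCoeff_ne_zero.2 hP
  have hlO : algebraMap k K P.leadingCoeff ∈ O := const_mem kspb_alg hO _
  have hl1 := kspb_one hO hlc
  have hwv : O.valuation (w : K) = 1 := by
    have h2 : (w : K) = ((w : K) - algebraMap k K P.leadingCoeff) +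
        algebraMap k K P.leadingCoeff := by ring
    rw [h2, Valuation.map_add_eq_of_lt_right _ (by rw [hl1]; exact h1), hl1]
  have hwO : (w : K) ∈ O := (O.valuation_le_one_iff _).1 hwv.le
  have hvw : vo O w = 0 := (vo_eq_zero_iff hO w).2 hwv
  have hvv : vo O v = -(m * d : ℤ) := by
    have h3 : v = w * x ^ (d : ℤ) := by
      rw [hw, zpow_natCast, mul_assoc, ← mul_pow, inv_mul_cancel, one_pow, mul_one]
    rw [h3, vo_mul, vo_zpow, hvw, hxO]
    ring
  have h4 : v ^ m * x ^ (vo O v) = w ^ m := by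
    rw [hvv, hw, mul_pow, ← pow_mul, inv_pow, zpow_neg]
    congr 1
    rw [← Nat.cast_mul, zpow_natCast, mul_comm m d]
  have h5 := hχ v
  rw [h4, Units.val_pow_eq_pow_val] at h5
  have h6 : O.valuation ((w : K) ^ m - (algebraMap k K P.leadingCoeff) ^ m) < 1 := by
    obtain ⟨s, hs⟩ := sub_dvd_pow_sub_pow (⟨(w : K), hwO⟩ : O) ⟨_, hlO⟩ m
    have h7 : (w : K) ^ m - (algebraMap k K P.leadingCoeff) ^ m =
        ((w : K) - algebraMap k K P.leadingCoeff) * (s : K) := congrArg Subtype.val hs
    rw [h7, map_mul]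
    exact (mul_le_of_le_one_right' ((O.valuation_le_one_iff _).2 s.2)).trans_lt h1
  have h8 : O.valuation (algebraMap k K (((χ v : kˣ) : k) - P.leadingCoeff ^ m)) < 1 := by
    have h9 : algebraMap k K (((χ v : kˣ) : k) - P.leadingCoeff ^ m) =
        ((w : K) ^ m - (algebraMap k K P.leadingCoeff) ^ m) -
          ((w : K) ^ m - algebraMap k K (χ v)) := by
      rw [map_sub, map_pow]
      ring
    rw [h9]
    exact O.valuation.map_sub_lt h6 h5
  exact sub_eq_zero.1 (kspb_zero hO h8)

private theorem kspb_mem_pl {O : ValuationSubring K} (hO : IsPl O) {x : K} {π : k[X]}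
    (hπ : π.Monic) (hd : 0 < π.natDegree) (h : O.valuation (aeval x π) < 1) : x ∈ O := by
  by_contra hx
  have hx1 : 1 < O.valuation x := not_le.1 fun h => hx ((O.valuation_le_one_iff _).1 h)
  have h1 := kspb_sum hO hx1 π
  rw [hπ.leadingCoeff, map_one] at h1
  have hv : O.valuation x⁻¹ < 1 := by
    rw [map_inv₀]
    exact inv_lt_one_of_one_lt₀ hx1
  have h2 : O.valuation (aeval x π * (x⁻¹) ^ π.natDegree) < 1 := by
    rw [map_mul, map_pow]
    exact (mul_le_of_le_one_left' h.le).trans_lt (pow_lt_one₀ zero_le hv hd.ne')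
  have h3 : O.valuation (1 : K) < 1 := by
    have h4 : (1 : K) = aeval x π * (x⁻¹) ^ π.natDegree -
        (aeval x π * (x⁻¹) ^ π.natDegree - 1) := by ring
    rw [h4]
    exact O.valuation.map_sub_lt h2 h1
  rw [map_one] at h3
  exact lt_irrefl _ h3

private theorem kspb_milnor {x : K} (hx : Transcendental k x)
    (hK : FiniteDimensional (IntermediateField.adjoin ℚ {x}) K) {z : KMQ K 2}
    (hz : z ∈ LPk k x) (hg : z ∈ geomM K) : z ∈ LPdk k x 0 := by
  have hxQ : Transcendental ℚ x := by
    intro h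
    exact hx (h.tower_top k)
  refine milnorK hx hz fun π hπ hirr => ?_
  have hd : 0 < π.natDegree := hirr.natDegree_pos
  have hh : Transcendental ℚ (aeval x π) := by
    intro h
    obtain ⟨q, hq0, hq⟩ : IsAlgebraic k (aeval x π) := h.tower_top k
    rw [← aeval_comp] at hq
    have h1 := (transcendental_iff.1 hx) _ hq
    rcases comp_eq_zero_iff.1 h1 with h2 | ⟨-, h2⟩
    · exact hq0 h2
    · rw [h2, natDegree_C] at hd
      exact lt_irrefl _ hd
  obtain ⟨O, hO, hv⟩ := exists_zero hh (finite_of_transcendental hK hh)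
  refine ⟨O, hO.1, fun r => const_mem kspb_alg hO r, kspb_mem_pl hO hπ hd hv, hv, ?_⟩
  unfold geomM at hg
  simp only [Submodule.mem_iInf] at hg
  exact hg O hO

end

private theorem kspb_one_left {F : Type} [Field F] (v : Fˣ) : sy (1 : Fˣ) v = 0 := by
  rw [sy_anti, sy_one_right, neg_zero]

private theorem kspb_map {F L : Type} [Field F] [Field L] (φ : F →+* L) (a b : Fˣ) :
    KMQ.map φ 2 (sy a b) = sy (Units.map (φ : F →* L) a) (Units.map (φ : F →* L) b) := by
  unfold sy
  rw [KMQ.map_symM]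
  congr 1
  funext i
  fin_cases i <;> rfl

private theorem kspb_ext {F : Type} [Field F] {V : Type*} [AddCommGroup V] [Module ℚ V]
    {S T : KMQ F 2 →ₗ[ℚ] V} (h : ∀ a b : Fˣ, S (sy a b) = T (sy a b)) (c : KMQ F 2) :
    S c = T c := by
  induction mem_span_symM c using Submodule.span_induction with
  | mem y hy =>
    obtain ⟨f, rfl⟩ := hy
    have h1 : symM f = sy (f 0) (f 1) := by
      unfold sy
      congr 1
      funext i
      fin_cases i <;> rfl
    rw [h1]
    exact h _ _
  | zero => rw [map_zero, map_zero]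
  | add a b _ _ ha hb => rw [map_add, map_add, ha, hb]
  | smul c a _ ha => rw [map_smul, map_smul, ha]

private theorem kspb_range {k K : Type} [Field k] [Field K] [CharZero K] [Algebra k K] {x : K}
    (hx : Transcendental k x) :
    LPdk k x 0 ≤ LinearMap.range (KMQ.map (algebraMap k K) 2) := by
  unfold LPdk
  rw [Submodule.span_le]
  rintro _ ⟨p, q, hp, hq, hpd, hqd, rfl⟩
  have h1 : ∀ p : k[X], p ≠ 0 → p.natDegree ≤ 0 →
      ∃ a : kˣ, pqk x p = Units.map (algebraMap k K : k →* K) a := by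
    intro p hp hpd
    obtain ⟨a, ha⟩ := natDegree_eq_zero.1 (Nat.le_zero.1 hpd)
    have ha0 : a ≠ 0 := by
      rintro rfl
      rw [C_0] at ha
      exact hp ha.symm
    refine ⟨Units.mk0 a ha0, ?_⟩
    rw [← pqk_C hx, Units.val_mk0, ha]
  obtain ⟨a, ha⟩ := h1 p hp hpd
  obtain ⟨b, hb⟩ := h1 q hq hqd
  exact ⟨sy a b, by rw [kspb_map, ha, hb]⟩

theorem lf_unr {k K : Type} [Field k] [CharZero k] [FiniteDimensional ℚ k] [Field K]
    [CharZero K] [Algebra k K] {x : Kˣ} (hx : Transcendental k (x : K))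
    (hK : FiniteDimensional (IntermediateField.adjoin ℚ {(x : K)}) K) {m : ℕ} (hm : 0 < m)
    {O : ValuationSubring K} (hO : IsPl O)
    (hr : ∀ y ∈ O, ∃ c : k, O.valuation (y - algebraMap k K c) < 1) (hxO : vo O x = -m)
    {r : ℕ} {u : Fin r → Kˣ} {f : Fin r → ℤ[X]} (hf : ∀ i, (f i).Monic)
    (hu : ∀ i, (u i : K) = aeval (x : K) (f i)) : LF k (x : K) u ⊓ geomM K = ⊥ := by
  refine (Submodule.eq_bot_iff _).2 fun β hβ => ?_
  obtain ⟨h1, h2⟩ := Submodule.mem_inf.1 hβ
  have hf0 : ∀ i, f i ≠ 0 := fun i => (hf i).ne_zero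
  have h3 := LF_le hx hf0 hu h1
  have h4 := kspb_milnor hx hK h3 h2
  obtain ⟨χ, S, hS, hχ⟩ := exists_spec hm hO hr hxO
  have hxQ : Transcendental ℚ (x : K) := fun h => hx (h.tower_top k)
  obtain ⟨c, rfl⟩ := kspb_range hx h4
  have hcst : ∀ a : kˣ, χ (Units.map (algebraMap k K : k →* K) a) = a ^ m := by
    intro a
    apply Units.ext
    rw [kspb_chi hm hO hxO hχ (P := C (a : k)) (C_ne_zero.2 a.ne_zero) (by rw [aeval_C]; rfl),
      leadingCoeff_C, Units.val_pow_eq_pow_val]
  have h6 : S (KMQ.map (algebraMap k K) 2 c) = ((m : ℚ) * (m : ℚ)) • c := by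
    have h := kspb_ext (S := S ∘ₗ KMQ.map (algebraMap k K) 2)
      (T := ((m : ℚ) * (m : ℚ)) • LinearMap.id) (fun a b => by
        rw [LinearMap.comp_apply, kspb_map, hS, hcst, hcst, LinearMap.smul_apply,
          LinearMap.id_apply, ← zpow_natCast, ← zpow_natCast, sy_zpow_left, sy_zpow_right,
          smul_smul, Int.cast_natCast]) c
    exact h
  have h7 : ∀ z ∈ LF k (x : K) u, S z = 0 := by
    have hle : LF k (x : K) u ≤ LinearMap.ker S := by
      unfold LF
      refine sup_le (iSup_le fun i => Submodule.span_le.2 ?_) ?_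
      · rintro _ ⟨q, hq, rfl⟩
        rw [SetLike.mem_coe, LinearMap.mem_ker, hS]
        have h8 : χ (u i) = 1 := by
          apply Units.ext
          have hm' : ((f i).map (Int.castRingHom k)).Monic := (hf i).map _
          rw [kspb_chi hm hO hxO hχ (P := (f i).map (Int.castRingHom k)) hm'.ne_zero (by
            rw [hu i]
            exact (aeval_map_algebraMap (A := k) (x : K) (f i)).symm), hm'.leadingCoeff, one_pow, Units.val_one]
        rw [h8, kspb_one_left]
      · unfold LP
        rw [Submodule.span_le]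
        rintro _ ⟨p, q, hp, hq, rfl⟩
        rw [SetLike.mem_coe, LinearMap.mem_ker, hS]
        have h8 : ∀ p : ℚ[X], p ≠ 0 → ∃ a : ℚˣ, χ (pq (x : K) p) = cst k a := by
          intro p hp
          have hlc : p.leadingCoeff ^ m ≠ 0 := pow_ne_zero _ (leadingCoeff_ne_zero.2 hp)
          refine ⟨Units.mk0 _ hlc, ?_⟩
          apply Units.ext
          have hp' : p.map (algebraMap ℚ k) ≠ 0 :=
            (Polynomial.map_ne_zero_iff (algebraMap ℚ k).injective).2 hp
          rw [kspb_chi hm hO hxO hχ (P := p.map (algebraMap ℚ k)) hp' (by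
            rw [pq_val hxQ hp, aeval_map_algebraMap]), cst_val, Units.val_mk0,
            leadingCoeff_map, Rat.cast_pow, eq_ratCast]
        obtain ⟨a, ha⟩ := h8 p hp
        obtain ⟨b, hb⟩ := h8 q hq
        rw [ha, hb]
        exact sy_isC (isC_cst a) (isC_cst b)
    exact fun z hz => hle hz
  have h9 := h7 _ h1
  rw [h6] at h9
  have hm0 : (m : ℚ) ≠ 0 := Nat.cast_ne_zero.2 hm.ne'
  rw [(smul_eq_zero.1 h9).resolve_left (mul_ne_zero hm0 hm0), map_zero]

end Pool.Agent.ETU
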