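import Pool.Agent.ETU.KSup
import Pool.Agent.ETU.KSpB
import Pool.Agent.ETU.Fin

/-!
# Finiteness over a number field `k`

`sunitsK`: the functions whose order is `0` outside a finite set of places are, up to constants, the
products of powers of finitely many of them. `fin_tupleK`: by `correctK`, `supportK` and the
hypothesis `H` the corrected functions are such functions, for one finite set of places; then
`finite_sup_inf`, the hypothesis `hLF` being `lf_unr`.
-/

open scoped BigOperators Polynomial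
open Polynomial

namespace Pool.Agent.ETU

open Pool.Agent.CST Pool.Agent.Helper11 Pool.Agent.ISI Pool.Agent.CSG

private theorem KFi_one {K : Type} [Field K] [CharZero K] (O : ValuationSubring K) :
    vo O (1 : Kˣ) = 0 := by
  have h := vo_mul O 1 1
  rw [mul_one] at h
  omega

private theorem KFi_inv {K : Type} [Field K] [CharZero K] (O : ValuationSubring K) (h : Kˣ) :
    vo O h⁻¹ = -vo O h := by
  have h1 := vo_zpow O h (-1)
  rw [zpow_neg_one] at h1
  rw [h1]
  ring

theorem sunitsK {k K : Type} [Field k] [CharZero k] [FiniteDimensional ℚ k] [Field K]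
    [CharZero K] [Algebra k K] {x : K} (hx : Transcendental k x) (hc : CstK k K)
    (hK : FiniteDimensional (IntermediateField.adjoin ℚ {x}) K)
    {S : Set (ValuationSubring K)} (hS : S.Finite) :
    ∃ (t : ℕ) (s : Fin t → Kˣ), ∀ h : Kˣ, (∀ O, IsPl O → O ∉ S → vo O h = 0) →
      ∃ (e : Fin t → ℤ) (c : k) (k' : Kˣ), (k' : K) = algebraMap k K c ∧
        h = k' * ∏ j, s j ^ e j := by
  classical
  have _ := hx
  have hF : Fintype S := hS.fintype
  -- the orders at the places of `S` of the functions whose order is `0` outside `S`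
  let M : Submodule ℤ (S → ℤ) :=
    { carrier := {v | ∃ h : Kˣ, (∀ O, IsPl O → O ∉ S → vo O h = 0) ∧ ∀ O : S, v O = vo O.1 h}
      zero_mem' := ⟨1, fun O _ _ => KFi_one O, fun O => (KFi_one O.1).symm⟩
      add_mem' := by
        rintro v w ⟨a, ha, ha'⟩ ⟨b, hb, hb'⟩
        refine ⟨a * b, fun O h1 h2 => ?_, fun O => ?_⟩
        · rw [vo_mul, ha O h1 h2, hb O h1 h2, add_zero]
        · rw [vo_mul, Pi.add_apply, ha' O, hb' O]
      smul_mem' := by
        rintro n v ⟨a, ha, ha'⟩
        refine ⟨a ^ n, fun O h1 h2 => ?_, fun O => ?_⟩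
        · rw [vo_zpow, ha O h1 h2, mul_zero]
        · rw [vo_zpow, Pi.smul_apply, ha' O, smul_eq_mul] }
  have hfg : M.FG := IsNoetherian.noetherian M
  obtain ⟨t, g, hg⟩ := Submodule.fg_iff_exists_fin_generating_family.1 hfg
  have hgM : ∀ j, ∃ h : Kˣ, (∀ O, IsPl O → O ∉ S → vo O h = 0) ∧ ∀ O : S, g j O = vo O.1 h := by
    intro j
    have h1 : g j ∈ M := by
      rw [← hg]
      exact Submodule.subset_span ⟨j, rfl⟩
    exact h1
  choose s hs hsO using hgM
  refine ⟨t, s, fun h hh => ?_⟩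
  have h1 : (fun O : S => vo O.1 h) ∈ Submodule.span ℤ (Set.range g) := by
    rw [hg]
    exact ⟨h, hh, fun O => rfl⟩
  obtain ⟨e, he⟩ := (Submodule.mem_span_range_iff_exists_fun ℤ).1 h1
  have hk : ∀ O, IsPl O → vo O (h * (∏ j, s j ^ e j)⁻¹) = 0 := by
    intro O hO
    rw [vo_mul, KFi_inv, vo_prod]
    by_cases hOS : O ∈ S
    · have h2 := congrFun he ⟨O, hOS⟩
      rw [Finset.sum_apply] at h2
      have h3 : vo O h = ∑ j, vo O (s j ^ e j) := by
        change _ = vo O h at h2
        rw [← h2]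
        refine Finset.sum_congr rfl fun j _ => ?_
        rw [vo_zpow, Pi.smul_apply, smul_eq_mul, hsO j ⟨O, hOS⟩]
      rw [h3]
      ring
    · rw [hh O hO hOS, Finset.sum_eq_zero, neg_zero, add_zero]
      intro j _
      rw [vo_zpow, hs j O hO hOS, mul_zero]
  obtain ⟨c, hc'⟩ := const_of_mem hc hK (h := ((h * (∏ j, s j ^ e j)⁻¹ : Kˣ) : K)) fun O hO =>
    (vo_nonneg_iff hO _).1 (hk O hO).ge
  exact ⟨e, c, h * (∏ j, s j ^ e j)⁻¹, hc'.symm, by rw [inv_mul_cancel_right]⟩

private theorem KFi_mem {k K : Type} [Field k] [CharZero k] [Field K] [CharZero K] [Algebra k K]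
    (hk : Algebra.IsAlgebraic ℚ k) {x : K} {O : ValuationSubring K} (hO : IsPl O) (hxO : x ∈ O)
    (R : k[X]) : aeval x R ∈ O := by
  induction R using Polynomial.induction_on' with
  | add p q hp hq =>
    rw [map_add]
    exact O.add_mem _ _ hp hq
  | monomial n a =>
    rw [aeval_monomial]
    exact O.mul_mem _ _ (const_mem hk hO a) (pow_mem hxO n)

/-- some polynomial with rational coefficients has a zero at the place `O` -/
private theorem KFi_poly {K : Type} [Field K] [CharZero K] {x : K} (hx : Transcendental ℚ x)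
    (hK : FiniteDimensional (IntermediateField.adjoin ℚ {x}) K) {O : ValuationSubring K}
    (hO : IsPl O) (hxO : x ∈ O) : ∃ p : ℚ[X], p ≠ 0 ∧ O.valuation (aeval x p) < 1 := by
  obtain ⟨P, hP, hP0, hPv⟩ := exists_center hx hK hO hxO
  obtain ⟨b, hb, hb0⟩ := Submodule.exists_mem_ne_zero_of_ne_bot hP0
  have h1 : P.comap (algebraMap (Ah x) (Bh x)) ≠ ⊥ :=
    Ideal.comap_ne_bot_of_integral_mem hb0 hb (Algebra.IsIntegral.isIntegral b)
  obtain ⟨a, ha, ha0⟩ := Submodule.exists_mem_ne_zero_of_ne_bot h1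
  obtain ⟨p, hp⟩ : ∃ p : ℚ[X], aeval x p = (a : K) := by
    have h2 : (a : K) ∈ (aeval (R := ℚ) x).range :=
      Algebra.adjoin_singleton_eq_range_aeval ℚ x ▸ a.2
    exact h2
  refine ⟨p, ?_, ?_⟩
  · rintro rfl
    rw [map_zero] at hp
    exact ha0 (Subtype.ext hp.symm)
  · rw [hp]
    exact (hPv _).2 ha

private theorem KFi_factor {k K : Type} [Field k] [CharZero k] [Field K] [CharZero K]
    [Algebra k K] (hk : Algebra.IsAlgebraic ℚ k) {x : K} {O : ValuationSubring K} (hO : IsPl O)
    (hxO : x ∈ O) (R : k[X]) : R ≠ 0 → O.valuation (aeval x R) < 1 →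
      ∃ P : k[X], P.Monic ∧ Irreducible P ∧ O.valuation (aeval x P) < 1 := by
  have hle : ∀ R : k[X], O.valuation (aeval x R) ≤ 1 := fun R =>
    (O.valuation_le_one_iff _).2 (KFi_mem hk hO hxO R)
  induction R using WfDvdMonoid.induction_on_irreducible with
  | zero => exact fun h => absurd rfl h
  | unit u hu =>
    intro _ hv
    obtain ⟨w, hw⟩ := hu.exists_right_inv
    have h1 : O.valuation (aeval x u) * O.valuation (aeval x w) = 1 := by
      rw [← map_mul, ← map_mul, hw, map_one, map_one]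
    have h2 : O.valuation (aeval x u) * O.valuation (aeval x w) < 1 :=
      lt_of_le_of_lt (mul_le_of_le_one_right' (hle w)) hv
    rw [h1] at h2
    exact absurd h2 (lt_irrefl _)
  | mul a i ha hi ih =>
    intro _ hv
    by_cases h1 : O.valuation (aeval x i) < 1
    · refine ⟨i * C i.leadingCoeff⁻¹, monic_mul_leadingCoeff_inv hi.ne_zero, ?_, ?_⟩
      · refine (associated_mul_unit_right i _ ?_).irreducible hi
        exact isUnit_C.2 (isUnit_iff_ne_zero.2 (inv_ne_zero (leadingCoeff_ne_zero.2 hi.ne_zero)))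
      · rw [map_mul, map_mul]
        exact lt_of_le_of_lt (mul_le_of_le_one_right' (hle _)) h1
    · refine ih ha ?_
      have h2 : O.valuation (aeval x i) = 1 := le_antisymm (hle i) (not_lt.1 h1)
      rwa [map_mul, map_mul, h2, one_mul] at hv

theorem fin_tupleK {k K : Type} [Field k] [CharZero k] [FiniteDimensional ℚ k] [Field K]
    [CharZero K] [Algebra k K] {x : K} (hx : Transcendental k x) (hc : CstK k K)
    (hK : FiniteDimensional (IntermediateField.adjoin ℚ {x}) K) {r : ℕ} {f : Fin r → ℤ[X]}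
    (hf : ∀ i, (f i).Monic) {u : Fin r → Kˣ} (hu : ∀ i, (u i : K) = aeval x (f i))
    (hLF : LF k x u ⊓ geomM K = ⊥) {T : Set k[X]} (hT : T.Finite)
    (H : ∀ P : k[X], P.Monic → Irreducible P → P ∉ T → (∃ a : Fin r → ℤ, Prim a ∧ RelK f a P) →
      ∀ O O' : ValuationSubring K, IsPl O → IsPl O' → O.valuation (aeval x P) < 1 →
        O'.valuation (aeval x P) < 1 → O = O') :
    Module.Finite ℚ ↥(((⨆ i, slM (u i)) ⊔ LP x) ⊓ geomM K) := by
  classical
  have hk : Algebra.IsAlgebraic ℚ k := Algebra.IsAlgebraic.of_finite ℚ k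
  have hxQ : Transcendental ℚ x := fun h => hx (h.tower_top k)
  have hx0 : x ≠ 0 := by
    rintro rfl
    exact hxQ isAlgebraic_zero
  have hf0 : ∀ i, f i ≠ 0 := fun i => (hf i).ne_zero
  -- the special places
  let S : Set (ValuationSubring K) := ({O | IsPl O ∧ O.valuation x ≠ 1} ∪
    ⋃ i, {O | IsPl O ∧ O.valuation (u i : K) ≠ 1}) ∪
      ⋃ P ∈ T \ {0}, {O | IsPl O ∧ O.valuation (aeval x P) ≠ 1}
  have hS : S.Finite := by
    refine ((finite_suppK hK hx0).union (Set.finite_iUnion fun i =>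
      finite_suppK hK (u i).ne_zero)).union ?_
    exact (hT.subset Set.sdiff_subset).biUnion fun P hP => finite_suppK hK (aeval_nek hx hP.2)
  obtain ⟨t, s, hs⟩ := sunitsK hx hc hK hS
  let V : Submodule ℚ (KMQ K 2) :=
    Submodule.span ℚ (Set.range fun ij : Fin r × Fin t => sy (u ij.1) (s ij.2))
  have hV : Module.Finite ℚ V := Module.Finite.span_of_finite ℚ (Set.finite_range _)
  have hfin : FiniteDimensional ℚ ↥((V ⊔ LF k x u) ⊓ geomM K) := finite_sup_inf hV hLF
  have hle : ((⨆ i, slM (u i)) ⊔ LP x) ⊓ geomM K ≤ (V ⊔ LF k x u) ⊓ geomM K := by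
    rintro z ⟨hz, hzg⟩
    refine ⟨?_, hzg⟩
    obtain ⟨N, h, β, Q, hN, hβ, hNz, hQ⟩ := correctK hx hK hf0 hu hz
    have hv : ∀ i, ∀ O, IsPl O → O ∉ S → vo O (h i) = 0 := by
      intro i O hO hOS
      by_contra hne
      have hvx : O.valuation x = 1 := by
        by_contra h1
        exact hOS (Or.inl (Or.inl ⟨hO, h1⟩))
      have hvu : ∀ j, O.valuation (u j : K) = 1 := by
        intro j
        by_contra h1
        exact hOS (Or.inl (Or.inr (Set.mem_iUnion.2 ⟨j, hO, h1⟩)))
      have hxO : x ∈ O := (O.valuation_le_one_iff _).1 hvx.le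
      obtain ⟨p, hp0, hpv⟩ := KFi_poly hxQ hK hO hxO
      obtain ⟨P, hP, hP', hPv⟩ := KFi_factor hk hO hxO (p.map (algebraMap ℚ k))
        ((Polynomial.map_ne_zero_iff (algebraMap ℚ k).injective).2 hp0)
        (by rwa [aeval_map_algebraMap])
      have hPT : P ∉ T := by
        intro h1
        refine hOS (Or.inr (Set.mem_iUnion₂.2 ⟨P, ⟨h1, hP.ne_zero⟩, hO, hPv.ne⟩))
      have hPf : ∀ j, ¬ P ∣ (f j).map (Int.castRingHom k) := by
        rintro j ⟨R, hR⟩
        have h1 : (u j : K) = aeval x P * aeval x R := by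
          rw [← map_mul, ← hR, hu j]
          have h2 : (algebraMap ℤ k) = Int.castRingHom k := rfl
          rw [← h2, aeval_map_algebraMap]
        have h3 := hvu j
        rw [h1, map_mul] at h3
        have h4 : O.valuation (aeval x P) * O.valuation (aeval x R) < 1 :=
          lt_of_le_of_lt (mul_le_of_le_one_right'
            ((O.valuation_le_one_iff _).2 (KFi_mem hk hO hxO R))) hPv
        rw [h3] at h4
        exact lt_irrefl _ h4
      obtain ⟨hQ1, hQ2, hQ3, hQ4⟩ := hQ P hP hP'
      obtain ⟨a, ha, hrel⟩ := supportK hx hf0 hu hNz hzg (LF_le hx hf0 hu hβ) hP hP' hPf hQ1 hQ2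
        hQ3 hQ4 hO hxO hPv ⟨i, hne⟩
      have he := H P hP hP' hPT ⟨a, ha, hrel⟩ O (Q P) hO hQ1 hPv hQ3
      exact hne (by rw [he]; exact hQ4 i)
    choose e c k' hk' hh using fun i => hs (h i) (hv i)
    have h1 : (N : ℚ) • z ∈ V ⊔ LF k x u := by
      rw [hNz]
      refine Submodule.add_mem _ (Submodule.sum_mem _ fun i _ => ?_) (Submodule.mem_sup_right hβ)
      rw [hh i, sy_mul_right, sy_prod_right]
      refine Submodule.add_mem _ (Submodule.mem_sup_right ?_)
        (Submodule.mem_sup_left (Submodule.sum_mem _ fun j _ => ?_))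
      · have h2 : c i ≠ 0 := by
          intro h0
          have h3 := hk' i
          rw [h0, map_zero] at h3
          exact (k' i).ne_zero h3
        have h3 : k' i = pqk x (C (c i)) :=
          pqk_congr hx (C_ne_zero.2 h2) (by rw [aeval_C]; exact hk' i)
        rw [h3]
        exact Submodule.mem_sup_left (Submodule.mem_iSup_of_mem i
          (Submodule.subset_span ⟨C (c i), C_ne_zero.2 h2, rfl⟩))
      · rw [sy_zpow_right]
        exact Submodule.smul_mem _ _ (Submodule.subset_span ⟨(i, j), rfl⟩)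
    have hN0 : (N : ℚ) ≠ 0 := by exact_mod_cast hN.ne'
    have h2 := Submodule.smul_mem _ (N : ℚ)⁻¹ h1
    rwa [smul_smul, inv_mul_cancel₀ hN0, one_smul] at h2
  exact Submodule.finiteDimensional_of_le hle

end Pool.Agent.ETU
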