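import Pool.Agent.ETU.KDef
import Pool.Agent.ETU.Fix
import Pool.Agent.ETU.Orb

/-!
# Orbits and irreducibility over `k`

`tame_degK`: as `tame_deg`, with `‖w‖ ^ (m N) = ‖p‖ ^ h`. `good_irrK`: `R(α, Y)` has coefficients fixed by `G`, the root `w` and degree
`< m`, so it is zero, and `P` divides all coefficients of `R`.
-/

open scoped BigOperators Polynomial
open Polynomial

namespace Pool.Agent.ETU

variable {r : ℕ}

theorem tame_degK {p m : ℕ} (hp : p.Prime) (hm : m.Prime) {M : Type}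
    [NormedField M] [CharZero M] {G : Subgroup (M ≃+* M)} (hT : TameG p m M G) {w : M} {N : ℕ} {h : ℤ}
    (hN : 0 < N) (hw : ‖w‖ ^ (m * N) = ‖(p : M)‖ ^ h) (hh : ¬ (m : ℤ) ∣ h) {μ : M[X]} (hμ : μ ≠ 0)
    (hfix : ∀ σ ∈ G, μ.map (σ : M →+* M) = μ) (hr : μ.IsRoot w) : m ≤ μ.natDegree := by
  classical
  have hp0 : (p : M) ≠ 0 := Nat.cast_ne_zero.2 hp.ne_zero
  have hpn : 0 < ‖(p : M)‖ := norm_pos_iff.2 hp0
  have hp1 : ‖(p : M)‖ < 1 := hT.na.pp
  have hm0 : 0 < m := hm.pos
  have hw0 : w ≠ 0 := by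
    rintro rfl
    rw [norm_zero, zero_pow (Nat.mul_pos hm0 hN).ne'] at hw
    exact (zpow_pos hpn h).ne hw
  obtain ⟨σ, hσ, hσw⟩ : ∃ σ ∈ G, σ w ≠ w := by
    by_contra hcon
    push Not at hcon
    obtain ⟨N', hN', k, hk⟩ := hT.val w hw0 hcon
    have e1 : ‖(p : M)‖ ^ (h * (N' : ℤ)) = ‖(p : M)‖ ^ (k * ((m * N : ℕ) : ℤ)) := by
      rw [zpow_mul, zpow_mul, ← hw, ← hk, zpow_natCast, zpow_natCast, ← pow_mul, ← pow_mul,
        mul_comm]
    have e2 : h * (N' : ℤ) = k * ((m * N : ℕ) : ℤ) := zpow_right_injective₀ hpn hp1.ne e1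
    have e3 : (m : ℤ) ∣ h * N' := ⟨k * N, by rw [e2]; push_cast; ring⟩
    rcases (Nat.prime_iff_prime_int.1 hm).dvd_or_dvd e3 with h1 | h1
    · exact hh h1
    · exact hN' (Int.natCast_dvd_natCast.1 h1)
  have hit : ∀ n : ℕ, (σ ^ n) w = (σ : M → M)^[n] w := by
    intro n
    induction n with
    | zero => rfl
    | succ n ih =>
      rw [pow_succ', Function.iterate_succ_apply', ← ih]
      rfl
  have hroot : ∀ n : ℕ, μ.IsRoot ((σ : M → M)^[n] w) := by
    intro n
    induction n with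
    | zero => exact hr
    | succ n ih =>
      rw [Function.iterate_succ_apply']
      have h1 := ih.map (f := (σ : M →+* M))
      rw [hfix σ hσ] at h1
      exact h1
  obtain ⟨j, hj⟩ := hT.ord σ hσ w
  have hper : Function.IsPeriodicPt (σ : M → M) (m ^ j) w := by
    change (σ : M → M)^[m ^ j] w = w
    rw [← hit]
    exact hj
  obtain ⟨k, -, hk⟩ := (Nat.dvd_prime_pow hm).1 hper.minimalPeriod_dvd
  have hk0 : k ≠ 0 := by
    rintro rfl
    rw [pow_zero, Function.minimalPeriod_eq_one_iff_isFixedPt] at hk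
    exact hσw hk
  have hle : m ≤ Function.minimalPeriod (σ : M → M) w := by
    rw [hk]
    exact Nat.le_self_pow hk0 m
  have hinj : Set.InjOn (fun n : ℕ => (σ : M → M)^[n] w) (Finset.range m) := by
    intro a ha b hb hab
    have ha' : a < m := Finset.mem_range.1 ha
    have hb' : b < m := Finset.mem_range.1 hb
    exact (Function.iterate_eq_iterate_iff_of_lt_minimalPeriod (ha'.trans_le hle)
      (hb'.trans_le hle)).1 hab
  calc m = ((Finset.range m).image fun n : ℕ => (σ : M → M)^[n] w).card := by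
        rw [Finset.card_image_of_injOn hinj, Finset.card_range]
    _ ≤ μ.roots.toFinset.card := by
        refine Finset.card_le_card fun y hy => ?_
        rw [Finset.mem_image] at hy
        obtain ⟨n, -, rfl⟩ := hy
        rw [Multiset.mem_toFinset, Polynomial.mem_roots hμ]
        exact hroot n
    _ ≤ Multiset.card μ.roots := Multiset.toFinset_card_le _
    _ ≤ μ.natDegree := Polynomial.card_roots' μ

/-- values of polynomials with integral coefficients -/
private theorem KIrr_int {k M : Type} [Field k] [Field M] (τ : k →+* M) (α : M) (Q : ℤ[X]) :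
    (Q.map (Int.castRingHom k)).eval₂ τ α = aeval α Q := by
  rw [eval₂_map, Polynomial.aeval_def]
  have h1 : τ.comp (Int.castRingHom k) = algebraMap ℤ M := RingHom.ext_int _ _
  rw [h1]

/-- values of polynomials with coefficients fixed by `σ` -/
private theorem KIrr_fix {k M : Type} [Field k] [Field M] (τ : k →+* M) (σ : M ≃+* M)
    (hτ : ∀ c : k, σ (τ c) = τ c) (α : M) (hα : σ α = α) (Q : k[X]) :
    σ (Q.eval₂ τ α) = Q.eval₂ τ α := by
  have h := Polynomial.hom_eval₂ Q τ (σ : M →+* M) α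
  have h1 : (σ : M →+* M).comp τ = τ := RingHom.ext hτ
  have h2 : (σ : M →+* M) α = α := hα
  rw [h1, h2] at h
  exact h

theorem good_irrK {p m : ℕ} [Fact p.Prime] (hm : m.Prime) (hpm : ¬ m ∣ p * (p - 1)) {k : Type}
    [Field k] [CharZero k] {τ : k →+* PadicAlgCl p}
    {G : Subgroup (PadicAlgCl p ≃+* PadicAlgCl p)} (hT : TameG p m (PadicAlgCl p) G)
    (hτ : ∀ σ ∈ G, ∀ c : k, σ (τ c) = τ c)
    {E : k[X][X]} (hE : RamK p m τ E) (f : Fin r → ℤ[X]) (a : Fin r → ℤ) {P : k[X]}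
    (hP : Irreducible P) (hrel : RelK f a P) {α : PadicAlgCl p} (hα : P.eval₂ τ α = 0)
    (hg : Good f a α) (R : k[X][X]) (hR : R.natDegree < m) (w : PadicAlgCl p)
    (hw : ev2K τ α w E = 0) (hRw : ev2K τ α w R = 0) : ∀ i, P ∣ R.coeff i := by
  classical
  have hp : p.Prime := Fact.out
  obtain ⟨n, hn, hdvd⟩ := hrel
  have hrel' : (aeval α (Ap f a)) ^ n = (aeval α (Ap f (-a))) ^ n := by
    obtain ⟨c, hc⟩ := hdvd
    have h1 := KIrr_int τ α ((Ap f a) ^ n - (Ap f (-a)) ^ n)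
    rw [hc, eval₂_mul, hα, zero_mul, map_sub, map_pow, map_pow] at h1
    exact (sub_eq_zero.1 h1.symm)
  have hfixα : ∀ σ ∈ G, σ α = α := fun σ hσ => tame_fix hp hm hpm hT f a hn hrel' hg hσ
  set μ : (PadicAlgCl p)[X] := R.map (eval₂RingHom τ α) with hμ
  have hμ0 : μ = 0 := by
    by_contra hne
    obtain ⟨N, h, hN, hh, hwn⟩ := hE α w hg.1 hw
    have h1 : m ≤ μ.natDegree := by
      refine tame_degK hp hm hT hN hwn hh hne (fun σ hσ => ?_) ?_
      · ext i
        rw [coeff_map, hμ, coeff_map]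
        exact KIrr_fix τ σ (hτ σ hσ) α (hfixα σ hσ) _
      · rw [IsRoot.def, hμ, eval_map]
        exact hRw
    have h2 : μ.natDegree ≤ R.natDegree := natDegree_map_le
    omega
  intro i
  have h1 : (R.coeff i).eval₂ τ α = 0 := by
    have h2 := congrArg (fun q : (PadicAlgCl p)[X] => q.coeff i) hμ0
    simp only [hμ, coeff_map, coeff_zero] at h2
    exact h2
  by_contra hnd
  obtain ⟨u, v, huv⟩ := (hP.coprime_iff_not_dvd.2 hnd)
  have h2 := congrArg (eval₂ τ α) huv
  rw [eval₂_add, eval₂_mul, eval₂_mul, hα, h1, mul_zero, mul_zero, add_zero, eval₂_one] at h2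
  exact zero_ne_one h2

end Pool.Agent.ETU
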