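import Pool.Agent.ETU.Main

/-!
# Assembly: from the function `x` with a totally ramified pole to `c x`
-/

open scoped BigOperators Polynomial
open Polynomial

namespace Pool.Agent.ETU

open Pool.Agent.CST Pool.Agent.ISG Pool.Agent.Helper11 Pool.Agent.ISI Pool.Agent.CS2

private theorem mn2_quot {K : Type} [Field K] [CharZero K] {g : K} (hg : Transcendental ℚ g)
    {a : Kˣ} (ha : (a : K) ∈ IntermediateField.adjoin ℚ {g}) :
    ∃ p q : ℚ[X], p ≠ 0 ∧ q ≠ 0 ∧ a * pq g q = pq g p := by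
  obtain ⟨p, q, h⟩ := IntermediateField.mem_adjoin_simple_iff ℚ _ |>.1 ha
  have hq : q ≠ 0 := by
    rintro rfl
    rw [map_zero, div_zero] at h
    exact a.ne_zero h
  have hp : p ≠ 0 := by
    rintro rfl
    rw [map_zero, zero_div] at h
    exact a.ne_zero h
  refine ⟨p, q, hp, hq, ?_⟩
  apply Units.ext
  rw [Units.val_mul, pq_val hg hq, pq_val hg hp, h, div_mul_cancel₀ _ (aeval_ne hg hq)]

private theorem mn2_sy {K : Type} [Field K] [CharZero K] {g : K} (hg : Transcendental ℚ g)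
    {a b : Kˣ} (ha : (a : K) ∈ IntermediateField.adjoin ℚ {g})
    (hb : (b : K) ∈ IntermediateField.adjoin ℚ {g}) : sy a b ∈ LP g := by
  obtain ⟨p, q, hp, hq, h1⟩ := mn2_quot hg ha
  obtain ⟨r, s, hr, hs, h2⟩ := mn2_quot hg hb
  have h3 : ∀ (u : Kˣ) (p' q' : ℚ[X]), b * pq g q' = pq g p' →
      sy u b = sy u (pq g p') - sy u (pq g q') := by
    intro u p' q' h
    rw [← h, sy_mul_right]
    abel
  have h4 : ∀ u : Kˣ, sy a u = sy (pq g p) u - sy (pq g q) u := by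
    intro u
    rw [sy_anti, ← neg_sub_neg, ← sy_anti u (pq g p), ← sy_anti u (pq g q), ← h1, sy_mul_right]
    abel
  have h5 : ∀ p' q' : ℚ[X], p' ≠ 0 → q' ≠ 0 → sy (pq g p') (pq g q') ∈ LP g :=
    fun p' q' hp' hq' => Submodule.subset_span ⟨p', q', hp', hq', rfl⟩
  rw [h3 a r s h2, h4, h4]
  exact Submodule.sub_mem _ (Submodule.sub_mem _ (h5 _ _ hp hr) (h5 _ _ hq hr))
    (Submodule.sub_mem _ (h5 _ _ hp hs) (h5 _ _ hq hs))

/-- from the geometric form to the form with the definitions of the statement -/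
theorem transport {K : Type} [Field K] [CharZero K] {x : Kˣ} {c : ℚ} (hc : c ≠ 0)
    (hx : Transcendental ℚ ((c : K) * x)) {r : ℕ} {f : Fin r → ℤ[X]} {u : Fin r → Kˣ}
    (hu : ∀ i, (u i : K) = aeval ((c : K) * x) (f i))
    (h : Module.Finite ℚ ↥(((⨆ i, slM (u i)) ⊔ LP ((c : K) * x)) ⊓ geomM K)) :
    Module.Finite ℚ ↥(((⨆ (v : Kˣ) (_ : ∃ i, (v : K) = aeval ((c : K) * x) (f i)), slice v) ⊔
      ratSlice x) ⊓ unramifiedK2 K) := by
  have hadj : IntermediateField.adjoin ℚ {(x : K)} ≤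
      IntermediateField.adjoin ℚ {(c : K) * x} := by
    rw [IntermediateField.adjoin_simple_le_iff]
    have h1 : (c : K)⁻¹ * ((c : K) * x) ∈ IntermediateField.adjoin ℚ {(c : K) * x} :=
      mul_mem (inv_mem (SubfieldClass.ratCast_mem _ c))
        (IntermediateField.mem_adjoin_simple_self ℚ _)
    rwa [inv_mul_cancel_left₀ (by exact_mod_cast hc)] at h1
  have h1 : ∀ z ∈ ((⨆ (v : Kˣ) (_ : ∃ i, (v : K) = aeval ((c : K) * x) (f i)), slice v) ⊔
      ratSlice x) ⊓ unramifiedK2 K, (eK K).toLinearMap z ∈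
        ((⨆ i, slM (u i)) ⊔ LP ((c : K) * x)) ⊓ geomM K := by
    rintro z ⟨hz, hur⟩
    refine ⟨?_, eK_geom hur⟩
    obtain ⟨a, ha, b, hb, rfl⟩ := Submodule.mem_sup.1 hz
    rw [map_add]
    refine Submodule.add_mem _ (Submodule.mem_sup_left ?_) (Submodule.mem_sup_right ?_)
    · have h2 : (⨆ (v : Kˣ) (_ : ∃ i, (v : K) = aeval ((c : K) * x) (f i)), slice v) ≤
          (⨆ i, slM (u i)).comap (eK K).toLinearMap := by
        refine iSup_le fun v => iSup_le fun ⟨i, hi⟩ => ?_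
        have hvi : v = u i := by
          apply Units.ext
          rw [hi, hu i]
        intro y hy
        subst hvi
        refine (le_iSup (fun i => slM (u i)) i) ?_
        change eK K y ∈ _
        refine eK_span (fun a _ => a = u i) _ ?_ (Submodule.span_mono ?_ hy)
        · rintro a b rfl
          exact Submodule.subset_span ⟨b, rfl⟩
        · rintro _ ⟨b, rfl⟩
          exact ⟨u i, b, rfl, rfl⟩
      exact h2 ha
    · refine eK_span (fun a b => (a : K) ∈ IntermediateField.adjoin ℚ {(x : K)} ∧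
        (b : K) ∈ IntermediateField.adjoin ℚ {(x : K)}) _ ?_ (Submodule.span_mono ?_ hb)
      · rintro a b ⟨ha1, hb1⟩
        exact mn2_sy hx (hadj ha1) (hadj hb1)
      · rintro _ ⟨a, b, ha1, hb1, rfl⟩
        exact ⟨a, b, ⟨ha1, hb1⟩, rfl⟩
  refine Module.Finite.of_injective ((eK K).toLinearMap.restrict h1) ?_
  intro y z hyz
  have h2 : eK K (y : ISG.K2Q K) = eK K (z : ISG.K2Q K) := congrArg Subtype.val hyz
  exact Subtype.ext ((eK K).injective h2)

private theorem mn2_norm {p : ℕ} [Fact p.Prime] {c : ℚ} (hc : c ≠ 0) {s : ℕ}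
    (h : padicValRat p c = s) : ‖((c⁻¹ : ℚ) : ℚ_[p])‖ = (p : ℝ) ^ s := by
  rw [Rat.cast_inv, norm_inv, Padic.eq_padicNorm, padicNorm.eq_zpow_of_nonzero hc, h]
  push_cast
  rw [zpow_neg, inv_inv, zpow_natCast]

theorem main_tuple {K : Type} [Field K] [CharZero K]
    (hc : ∀ a : K, IsAlgebraic ℚ a → ∃ q : ℚ, (q : K) = a) {x : Kˣ} {m : ℕ} (hm : m.Prime)
    (hK : Module.finrank (IntermediateField.adjoin ℚ {(x : K)}) K = m)
    {O : ValuationSubring K} (hO : IsPl O) (hx : (x : K) ∉ O) {t : K}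
    (ht : O.valuation (x * t ^ m) = 1) {p₁ p₂ : ℕ} [Fact p₁.Prime] [Fact p₂.Prime]
    (h12 : p₁ ≠ p₂) (hm₁ : ¬ m ∣ p₁ * (p₁ - 1)) (hm₂ : ¬ m ∣ p₂ * (p₂ - 1)) :
    ∃ s₀ ρ₁ ρ₂ : ℕ, ∀ c : ℚ, (s₀ : ℤ) < padicValRat p₁ c → (s₀ : ℤ) < padicValRat p₂ c →
      ¬ padicValRat p₁ c ≡ ρ₁ [ZMOD m] → ¬ padicValRat p₂ c ≡ ρ₂ [ZMOD m] →
      ∀ (r : ℕ) (f : Fin r → ℤ[X]), (∀ i, (f i).Monic) → (∀ i, 0 < (f i).natDegree) →
        Squarefree ((∏ i, f i).map (Int.castRingHom (ZMod p₁))) →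
        Squarefree ((∏ i, f i).map (Int.castRingHom (ZMod p₂))) →
        Module.Finite ℚ ↥(((⨆ (v : Kˣ) (_ : ∃ i, (v : K) = aeval ((c : K) * x) (f i)), slice v) ⊔
          ratSlice x) ⊓ unramifiedK2 K) := by
  have hxt : Transcendental ℚ (x : K) := by
    intro ha
    obtain ⟨q, hq⟩ := hc _ ha
    exact hx (by rw [← hq]; exact hO.2 q)
  obtain ⟨w, E, hE, hEw, hgen⟩ := exists_equation hxt hm hK hO hx ht
  obtain ⟨s₁, ρ₁, h1⟩ := ram_of_weights (p := p₁) hm hE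
  obtain ⟨s₂, ρ₂, h2⟩ := ram_of_weights (p := p₂) hm hE
  refine ⟨s₁ + s₂, ρ₁, ρ₂, ?_⟩
  intro c hv1 hv2 hn1 hn2 r f hmon hpos hsq1 hsq2
  have hc0 : c ≠ 0 := by
    rintro rfl
    rw [padicValRat.zero] at hv1
    omega
  have hcK : (c : K) ≠ 0 := by exact_mod_cast hc0
  obtain ⟨a₁, ha₁⟩ := Int.eq_ofNat_of_zero_le (show 0 ≤ padicValRat p₁ c by omega)
  obtain ⟨a₂, ha₂⟩ := Int.eq_ofNat_of_zero_le (show 0 ≤ padicValRat p₂ c by omega)
  rw [ha₁] at hv1 hn1
  rw [ha₂] at hv2 hn2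
  have hR1 := h1 a₁ (by omega) (fun h => hn1 ((Int.natCast_modEq_iff).2 h)) c⁻¹ (mn2_norm hc0 ha₁)
  have hR2 := h2 a₂ (by omega) (fun h => hn2 ((Int.natCast_modEq_iff).2 h)) c⁻¹ (mn2_norm hc0 ha₂)
  obtain ⟨E', hE'⟩ : ∃ E', E' = E.map (compRingHom (C c⁻¹ * X)) := ⟨_, rfl⟩
  rw [← hE'] at hR1 hR2
  have hX : Transcendental ℚ ((c : K) * x) := by
    intro ha
    apply hxt
    have h3 : (x : K) = (c : K)⁻¹ * ((c : K) * x) := by rw [inv_mul_cancel_left₀ hcK]
    rw [h3]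
    refine IsAlgebraic.mul ?_ ha
    have h4 : ((c : K))⁻¹ = algebraMap ℚ K c⁻¹ := by rw [eq_ratCast, Rat.cast_inv]
    rw [h4]
    exact isAlgebraic_algebraMap _
  have hev : ev2 ((c : K) * x) w E' = 0 := by
    rw [← hEw, hE']
    unfold ev2
    rw [coe_eval₂RingHom, coe_eval₂RingHom, eval₂_map]
    congr 1
    ext q
    · simp
    · simp [hcK]
  have hfd : FiniteDimensional (IntermediateField.adjoin ℚ {(x : K)}) K :=
    Module.finite_of_finrank_pos (by rw [hK]; exact hm.pos)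
  have hfd' : FiniteDimensional (IntermediateField.adjoin ℚ {(c : K) * x}) K :=
    finite_of_transcendental hfd hX
  have hgen' : IntermediateField.adjoin ℚ {(c : K) * x, w} = ⊤ := by
    rw [eq_top_iff, ← hgen, IntermediateField.adjoin_le_iff]
    rintro y (rfl | rfl)
    · have h3 : (c : K)⁻¹ * ((c : K) * x) ∈ IntermediateField.adjoin ℚ {(c : K) * x, w} :=
        mul_mem (inv_mem (SubfieldClass.ratCast_mem _ c))
          (IntermediateField.subset_adjoin ℚ _ (Or.inl rfl))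
      rwa [inv_mul_cancel_left₀ hcK] at h3
    · exact IntermediateField.subset_adjoin ℚ _ (Or.inr rfl)
  have hne : ∀ i, aeval ((c : K) * x) (f i) ≠ 0 := by
    intro i h0
    apply hX
    refine ⟨(f i).map (Int.castRingHom ℚ), ((hmon i).map _).ne_zero, ?_⟩
    rw [aeval_map, h0]
  have hfin := main_geom (K := K) hc (X' := (c : K) * x) (w := w) hX hfd' hm (E := E')
    (by rw [hE']; exact hE.mon.map _) (by rw [hE', (hE.mon).natDegree_map, hE.deg]) hev hgen' h12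
    hm₁ hm₂ hR1 hR2 (f := f) ⟨hmon, hpos, hsq1⟩ ⟨hmon, hpos, hsq2⟩
    (u := fun i => Units.mk0 _ (hne i)) (fun i => rfl)
  exact transport hc0 hX (fun i => rfl) hfin

end Pool.Agent.ETU
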