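import Pool.Agent.ETU.KTa
import Pool.Agent.ETU.KIrr
import Pool.Agent.ETU.KUnq
import Pool.Agent.ETU.KExc
import Pool.Agent.ETU.KWgt
import Pool.Agent.ETU.KEqu
import Pool.Agent.ETU.KFin
import Pool.Agent.ETU.Mn2

/-!
# Assembly over `k`
-/

open scoped BigOperators Polynomial
open Polynomial

namespace Pool.Agent.ETU

open Pool.Agent.CST Pool.Agent.ISG Pool.Agent.Helper11 Pool.Agent.ISI Pool.Agent.CS2 Pool.Agent.CSG

private theorem kmain_tr {k K : Type} [Field k] [CharZero k] [FiniteDimensional ℚ k] [Field K]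
    [CharZero K] [Algebra k K] {x : K} (hx : Transcendental ℚ x) : Transcendental k x := by
  intro h
  exact hx (h.restrictScalars ℚ)

/-- the geometric form over `k(X')` -/
theorem main_geomK {k K : Type} [Field k] [CharZero k] [FiniteDimensional ℚ k] [Field K]
    [CharZero K] [Algebra k K] (hc : CstK k K) {X' : Kˣ} {w : K}
    (hX : Transcendental ℚ (X' : K))
    (hK : FiniteDimensional (IntermediateField.adjoin ℚ {(X' : K)}) K)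
    {m : ℕ} (hm : m.Prime) (hk : Module.finrank ℚ k < m) {O : ValuationSubring K} (hO : IsPl O)
    (hr : ∀ y ∈ O, ∃ c : k, O.valuation (y - algebraMap k K c) < 1) {e : ℕ} (he : 0 < e)
    (hxO : vo O X' = -e) {E : k[X][X]}
    (hE : E.Monic) (hd : E.natDegree = m)
    (hEw : ev2K (algebraMap k K) (X' : K) w E = 0)
    (hgen : IntermediateField.adjoin k {(X' : K), w} = ⊤)
    {p₁ p₂ : ℕ} [Fact p₁.Prime] [Fact p₂.Prime] (h12 : p₁ ≠ p₂) (hm₁ : ¬ m ∣ p₁ * (p₁ - 1))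
    (hm₂ : ¬ m ∣ p₂ * (p₂ - 1)) {τ₁ : k →+* PadicAlgCl p₁} {τ₂ : k →+* PadicAlgCl p₂}
    (hR₁ : RamK p₁ m τ₁ E) (hR₂ : RamK p₂ m τ₂ E) {r : ℕ}
    {f : Fin r → ℤ[X]} (hf₁ : Fam p₁ f) (hf₂ : Fam p₂ f) {u : Fin r → Kˣ}
    (hu : ∀ i, (u i : K) = aeval (X' : K) (f i)) :
    Module.Finite ℚ ↥(((⨆ i, slM (u i)) ⊔ LP (X' : K)) ⊓ geomM K) := by
  obtain ⟨G₁, hG₁, hG₁'⟩ := exists_tameK (p := p₁) hm (by
    rintro rfl
    exact hm₁ (dvd_mul_right _ _)) hk τ₁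
  obtain ⟨G₂, hG₂, hG₂'⟩ := exists_tameK (p := p₂) hm (by
    rintro rfl
    exact hm₂ (dvd_mul_right _ _)) hk τ₂
  have hX' := kmain_tr (k := k) hX
  refine fin_tupleK (k := k) hX' hc hK hf₁.mon hu (lf_unr hX' hK he hO hr hxO hf₁.mon hu)
    (exc_finiteK h12 hf₁ hf₂ τ₁ τ₂) ?_
  rintro P hP hP' hPT ⟨a, ha, hrel⟩ O₁ O₂ hO₁ hO₂ hv hv'
  have h1 : (∃ α : PadicAlgCl p₁, P.eval₂ τ₁ α = 0 ∧ Good f a α) ∨
      ∃ α : PadicAlgCl p₂, P.eval₂ τ₂ α = 0 ∧ Good f a α := by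
    by_contra hcon
    push Not at hcon
    exact hPT ⟨hP, hP', a, ha, hrel, hcon.1, hcon.2⟩
  rcases h1 with ⟨α, hα, hg⟩ | ⟨α, hα, hg⟩
  · exact place_eqK hX hE hd hEw hgen hP hP' hα
      (fun R hR w' h2 h3 => good_irrK hm hm₁ hG₁ hG₁' hR₁ f a hP' hrel hα hg R hR w' h2 h3) hO₁ hO₂
      hv hv'
  · exact place_eqK hX hE hd hEw hgen hP hP' hα
      (fun R hR w' h2 h3 => good_irrK hm hm₂ hG₂ hG₂' hR₂ f a hP' hrel hα hg R hR w' h2 h3) hO₁ hO₂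
      hv hv'

end Pool.Agent.ETU
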