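import Pool.Agent.ETU.KMain

/-!
# Assembly over a number field: from the function `x` with a totally ramified pole to `c x`
-/

open scoped BigOperators Polynomial
open Polynomial

namespace Pool.Agent.ETU

open Pool.Agent.CST Pool.Agent.ISG Pool.Agent.Helper11 Pool.Agent.ISI Pool.Agent.CS2 Pool.Agent.CSG

private theorem kmn2_mem {K : Type} [Field K] [CharZero K] {O : ValuationSubring K} (hO : IsPl O)
    {a : K} (ha : IsAlgebraic ℚ a) : a ∈ O := by
  let φ : ℚ →+* O := (algebraMap ℚ K).codRestrict O.toSubring fun q => by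
    rw [eq_ratCast]
    exact hO.2 q
  obtain ⟨p, hp, hpa⟩ := ha.isIntegral
  have h1 : IsIntegral O a := by
    refine ⟨p.map φ, hp.map _, ?_⟩
    rw [eval₂_map]
    exact hpa
  obtain ⟨y, hy⟩ := IsIntegrallyClosed.isIntegral_iff.1 h1
  rw [← hy]
  exact y.2

/-- at a rational point all constants are in `k` -/
theorem cst_of_point {k K : Type} [Field k] [CharZero k] [FiniteDimensional ℚ k] [Field K]
    [CharZero K] [Algebra k K] {O : ValuationSubring K} (hO : IsPl O)
    (hr : ∀ y ∈ O, ∃ c : k, O.valuation (y - algebraMap k K c) < 1) : CstK k K := by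
  intro a ha
  have hk : Algebra.IsAlgebraic ℚ k := Algebra.IsAlgebraic.of_finite ℚ k
  have ha' : IsAlgebraic ℚ a := ha.restrictScalars ℚ
  obtain ⟨c, hc⟩ := hr a (kmn2_mem hO ha')
  refine ⟨c, ?_⟩
  by_contra hne
  have h0 : a - algebraMap k K c ≠ 0 := sub_ne_zero.2 (Ne.symm hne)
  have h1 : IsAlgebraic ℚ (a - algebraMap k K c)⁻¹ := by
    refine IsAlgebraic.inv ?_
    exact ha'.sub ((hk.isAlgebraic c).algHom (algebraMap k K).toRatAlgHom)
  have h2 := (O.valuation_le_one_iff _).2 (kmn2_mem hO h1)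
  rw [map_inv₀] at h2
  have h3 : O.valuation (a - algebraMap k K c) ≠ 0 := (O.valuation.ne_zero_iff).2 h0
  exact absurd ((inv_le_one₀ (zero_lt_iff.2 h3)).1 h2) (not_le.2 hc)

/-- finite over `k(x)` implies finite over `ℚ(x)` -/
theorem finite_rat {k K : Type} [Field k] [CharZero k] [FiniteDimensional ℚ k] [Field K]
    [CharZero K] [Algebra k K] {x : K}
    (h : FiniteDimensional (IntermediateField.adjoin k {x}) K) :
    FiniteDimensional (IntermediateField.adjoin ℚ {x}) K := by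
  classical
  obtain ⟨F, hF⟩ : ∃ F : IntermediateField ℚ K, F = IntermediateField.adjoin ℚ {x} := ⟨_, rfl⟩
  rw [← hF]
  have hxF : x ∈ F := by
    rw [hF]
    exact IntermediateField.mem_adjoin_simple_self ℚ x
  let bk := Module.finBasis ℚ k
  let G : IntermediateField F K := IntermediateField.adjoin F
    (Set.range fun i => algebraMap k K (bk i))
  have hG : FiniteDimensional F G := by
    refine IntermediateField.finiteDimensional_adjoin ?_
    rintro _ ⟨i, rfl⟩
    have h1 : IsIntegral ℚ (bk i) := Algebra.IsIntegral.isIntegral (bk i)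
    have h2 : IsIntegral ℚ (algebraMap k K (bk i)) := h1.map (algebraMap k K).toRatAlgHom
    exact h2.tower_top
  have hkG : ∀ c : k, algebraMap k K c ∈ G := by
    intro c
    have h1 := bk.sum_repr c
    rw [← h1, map_sum]
    refine sum_mem fun i _ => ?_
    rw [Algebra.smul_def, map_mul]
    refine mul_mem ?_ (IntermediateField.subset_adjoin F _ ⟨i, rfl⟩)
    have h2 : algebraMap k K (algebraMap ℚ k ((bk.repr c) i)) = (((bk.repr c) i : ℚ) : K) := by
      rw [eq_ratCast, map_ratCast]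
    rw [h2]
    exact SubfieldClass.ratCast_mem _ _
  have hle : ∀ y ∈ IntermediateField.adjoin k {x}, y ∈ G := by
    intro y hy
    obtain ⟨p, q, hpq⟩ := (IntermediateField.mem_adjoin_simple_iff k _).1 hy
    have h1 : ∀ p : k[X], aeval x p ∈ G := by
      intro p
      rw [aeval_eq_sum_range]
      refine sum_mem fun i _ => ?_
      rw [Algebra.smul_def]
      exact mul_mem (hkG _) (pow_mem (G.algebraMap_mem ⟨x, hxF⟩) i)
    rw [hpq]
    exact div_mem (h1 p) (h1 q)
  let i : IntermediateField.adjoin k {x} →+* G :=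
    (algebraMap (IntermediateField.adjoin k {x}) K).codRestrict G.toSubring fun y => hle y.1 y.2
  let _ : Algebra (IntermediateField.adjoin k {x}) G := i.toAlgebra
  have htw : IsScalarTower (IntermediateField.adjoin k {x}) G K :=
    IsScalarTower.of_algebraMap_eq fun _ => rfl
  have hGK : FiniteDimensional G K :=
    FiniteDimensional.right (IntermediateField.adjoin k {x}) G K
  exact FiniteDimensional.trans F G K

private theorem kmn2_norm {p : ℕ} [Fact p.Prime] {c : ℚ} (hc : c ≠ 0) {s : ℕ}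
    (h : padicValRat p c = s) : ‖((c⁻¹ : ℚ) : ℚ_[p])‖ = (p : ℝ) ^ s := by
  rw [Rat.cast_inv, norm_inv, Padic.eq_padicNorm, padicNorm.eq_zpow_of_nonzero hc, h]
  push_cast
  rw [zpow_neg, inv_inv, zpow_natCast]

theorem main_tupleK {k K : Type} [Field k] [CharZero k] [FiniteDimensional ℚ k] [Field K]
    [CharZero K] [Algebra k K] {x : Kˣ} {m : ℕ} (hm : m.Prime) (hk : Module.finrank ℚ k < m)
    (hK : Module.finrank (IntermediateField.adjoin k {(x : K)}) K = m)
    {O : ValuationSubring K} (hO : IsPl O)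
    (hr : ∀ y ∈ O, ∃ c : k, O.valuation (y - algebraMap k K c) < 1) (hx : (x : K) ∉ O) {t : K}
    (ht : O.valuation (x * t ^ m) = 1) {p₁ p₂ : ℕ} [Fact p₁.Prime] [Fact p₂.Prime]
    (h12 : p₁ ≠ p₂) (hm₁ : ¬ m ∣ p₁ * (p₁ - 1)) (hm₂ : ¬ m ∣ p₂ * (p₂ - 1)) :
    ∃ s₀ ρ₁ ρ₂ : ℕ, ∀ c : ℚ, (s₀ : ℤ) < padicValRat p₁ c → (s₀ : ℤ) < padicValRat p₂ c →
      ¬ padicValRat p₁ c ≡ ρ₁ [ZMOD m] → ¬ padicValRat p₂ c ≡ ρ₂ [ZMOD m] →
      ∀ (r : ℕ) (f : Fin r → ℤ[X]), (∀ i, (f i).Monic) → (∀ i, 0 < (f i).natDegree) →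
        Squarefree ((∏ i, f i).map (Int.castRingHom (ZMod p₁))) →
        Squarefree ((∏ i, f i).map (Int.castRingHom (ZMod p₂))) →
        Module.Finite ℚ ↥(((⨆ (v : Kˣ) (_ : ∃ i, (v : K) = aeval ((c : K) * x) (f i)), slice v) ⊔
          ratSlice x) ⊓ unramifiedK2 K) := by
  have hcst : CstK k K := cst_of_point hO hr
  have hxt : Transcendental ℚ (x : K) := fun ha => hx (kmn2_mem hO ha)
  obtain ⟨w, E, hE, hEw, hgen⟩ := exists_equationK (k := k) hxt hm hK hO hx ht
  have hemb : ∀ (p : ℕ) [Fact p.Prime], Nonempty (k →+* PadicAlgCl p) := by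
    intro p _
    have hk' : Algebra.IsAlgebraic ℚ k := Algebra.IsAlgebraic.of_finite ℚ k
    exact ⟨(IsAlgClosed.lift (R := ℚ) (S := k) (M := PadicAlgCl p)).toRingHom⟩
  obtain ⟨τ₁⟩ := hemb p₁
  obtain ⟨τ₂⟩ := hemb p₂
  obtain ⟨s₁, ρ₁, h1⟩ := ram_of_weightsK (p := p₁) hm hk τ₁ hE
  obtain ⟨s₂, ρ₂, h2⟩ := ram_of_weightsK (p := p₂) hm hk τ₂ hE
  refine ⟨s₁ + s₂, ρ₁, ρ₂, ?_⟩
  intro c hv1 hv2 hn1 hn2 r f hmon hpos hsq1 hsq2
  have hc0 : c ≠ 0 := by
    rintro rfl
    rw [padicValRat.zero] at hv1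
    omega
  have hcK : (c : K) ≠ 0 := by exact_mod_cast hc0
  have hck : (c : k) ≠ 0 := by exact_mod_cast hc0
  obtain ⟨a₁, ha₁⟩ := Int.eq_ofNat_of_zero_le (show 0 ≤ padicValRat p₁ c by omega)
  obtain ⟨a₂, ha₂⟩ := Int.eq_ofNat_of_zero_le (show 0 ≤ padicValRat p₂ c by omega)
  rw [ha₁] at hv1 hn1
  rw [ha₂] at hv2 hn2
  have hR1 := h1 a₁ (by omega) (fun h => hn1 ((Int.natCast_modEq_iff).2 h)) c⁻¹
    (kmn2_norm hc0 ha₁)
  have hR2 := h2 a₂ (by omega) (fun h => hn2 ((Int.natCast_modEq_iff).2 h)) c⁻¹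
    (kmn2_norm hc0 ha₂)
  obtain ⟨E', hE'⟩ : ∃ E', E' = E.map (compRingHom (C ((c⁻¹ : ℚ) : k) * X)) := ⟨_, rfl⟩
  rw [← hE'] at hR1 hR2
  have hX : Transcendental ℚ ((c : K) * x) := by
    intro ha
    apply hxt
    have h3 : (x : K) = (c : K)⁻¹ * ((c : K) * x) := by rw [inv_mul_cancel_left₀ hcK]
    rw [h3]
    refine IsAlgebraic.mul ?_ ha
    have h4 : ((c : K))⁻¹ = algebraMap ℚ K c⁻¹ := by rw [eq_ratCast, Rat.cast_inv]
    rw [h4]
    exact isAlgebraic_algebraMap _
  have hev : ev2K (algebraMap k K) ((c : K) * x) w E' = 0 := by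
    rw [← hEw, hE']
    unfold ev2K
    rw [coe_eval₂RingHom, coe_eval₂RingHom, eval₂_map]
    congr 1
    ext q
    · simp
    · simp [hcK]
  have hfd1 : FiniteDimensional (IntermediateField.adjoin k {(x : K)}) K :=
    Module.finite_of_finrank_pos (by rw [hK]; exact hm.pos)
  have hfd : FiniteDimensional (IntermediateField.adjoin ℚ {(x : K)}) K := finite_rat hfd1
  have hfd' : FiniteDimensional (IntermediateField.adjoin ℚ {(c : K) * x}) K :=
    finite_of_transcendental hfd hX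
  have hgen' : IntermediateField.adjoin k {(c : K) * x, w} = ⊤ := by
    rw [eq_top_iff, ← hgen, IntermediateField.adjoin_le_iff]
    rintro y (rfl | rfl)
    · have h3 : (c : K)⁻¹ * ((c : K) * x) ∈ IntermediateField.adjoin k {(c : K) * x, w} :=
        mul_mem (inv_mem (SubfieldClass.ratCast_mem _ c))
          (IntermediateField.subset_adjoin k _ (Or.inl rfl))
      rwa [inv_mul_cancel_left₀ hcK] at h3
    · exact IntermediateField.subset_adjoin k _ (Or.inr rfl)
  have hne : ∀ i, aeval ((c : K) * x) (f i) ≠ 0 := by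
    intro i h0
    apply hX
    refine ⟨(f i).map (Int.castRingHom ℚ), ((hmon i).map _).ne_zero, ?_⟩
    rw [aeval_map, h0]
  have hX0 : (c : K) * x ≠ 0 := mul_ne_zero hcK x.ne_zero
  obtain ⟨X', hX'⟩ : ∃ X' : Kˣ, (X' : K) = (c : K) * x := ⟨Units.mk0 _ hX0, rfl⟩
  -- the order of the pole
  have hcO : O.valuation (c : K) = 1 := by
    refine le_antisymm ((O.valuation_le_one_iff _).2 (hO.2 c)) ?_
    have h1 := (O.valuation_le_one_iff _).2 (hO.2 c⁻¹)
    rw [Rat.cast_inv, map_inv₀] at h1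
    have h2 : (0 : _) < O.valuation (c : K) := zero_lt_iff.2 ((Valuation.ne_zero_iff _).2 hcK)
    rwa [inv_le_one₀ h2] at h1
  have hneg : vo O X' < 0 := by
    by_contra hcon
    push Not at hcon
    have h3 := (vo_nonneg_iff hO X').1 hcon
    rw [hX'] at h3
    have h4 := (O.valuation_le_one_iff _).2 h3
    rw [map_mul, hcO, one_mul] at h4
    exact hx ((O.valuation_le_one_iff _).1 h4)
  obtain ⟨e, he⟩ := Int.eq_ofNat_of_zero_le (show 0 ≤ -vo O X' by omega)
  have hfin := main_geomK (k := k) (K := K) hcst (X' := X') (w := w) (by rw [hX']; exact hX)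
    (by rw [hX']; exact hfd') hm hk hO hr (e := e) (by omega) (by omega) (E := E')
    (by rw [hE']; exact hE.mon.map _) (by rw [hE', (hE.mon).natDegree_map, hE.deg])
    (by rw [hX']; exact hev) (by rw [hX']; exact hgen') h12
    hm₁ hm₂ hR1 hR2 (f := f) ⟨hmon, hpos, hsq1⟩ ⟨hmon, hpos, hsq2⟩
    (u := fun i => Units.mk0 _ (hne i)) (fun i => by rw [hX']; rfl)
  rw [hX'] at hfin
  exact transport hc0 hX (fun i => rfl) hfin

end Pool.Agent.ETU
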