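import Pool.Agent.ETU.KDef
import Pool.Agent.ETU.TaA

/-!
# The equation near the pole, over `k`, at almost all primes

For all large primes `p` and all embeddings `τ` of `k` the coefficients of the `e_b` have norm at most `1` and the leading
coefficients of the `e_b ≠ 0` have norm `1`. So `‖e_b(x)‖ = ‖x‖ ^ deg e_b` for all `‖x‖ > 1`, and `‖w‖ ^ m = ‖x‖ ^ deg e_0`.
-/

open scoped BigOperators Polynomial
open Polynomial

namespace Pool.Agent.ETU

private theorem kwgl_slope {K : Type} [NormedField K] [IsUltrametricDist K] {m : ℕ} (hm : 0 < m)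
    (e : ℕ → K) (w : K) (h0 : 0 < ‖e 0‖) (he : ∀ b, 0 < b → b < m → ‖e b‖ ^ m < ‖e 0‖ ^ (m - b))
    (hw : w ^ m + ∑ b ∈ Finset.range m, e b * w ^ b = 0) : ‖w‖ ^ m = ‖e 0‖ := by
  rcases lt_trichotomy (‖w‖ ^ m) ‖e 0‖ with hlt | heq | hgt
  · exfalso
    -- `e 0` is small
    have h1 : e 0 = -∑ b ∈ Finset.range m, (if b + 1 = m then 1 else e (b + 1)) * w ^ (b + 1) := by
      obtain ⟨k, rfl⟩ : ∃ k, m = k + 1 := ⟨m - 1, by omega⟩
      rw [Finset.sum_range_succ' (fun b => e b * w ^ b)] at hw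
      rw [Finset.sum_range_succ]
      have h2 : ∑ x ∈ Finset.range k, (if x + 1 = k + 1 then 1 else e (x + 1)) * w ^ (x + 1)
          = ∑ x ∈ Finset.range k, e (x + 1) * w ^ (x + 1) := by
        refine Finset.sum_congr rfl fun x hx => ?_
        rw [if_neg]
        have := Finset.mem_range.1 hx
        omega
      rw [h2, if_pos rfl, one_mul]
      simp only [pow_zero, mul_one] at hw
      linear_combination hw
    obtain ⟨b, hb, hle⟩ := IsUltrametricDist.exists_norm_finsetSum_le_of_nonempty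
      (Finset.nonempty_range_iff.2 hm.ne')
      (fun b => (if b + 1 = m then 1 else e (b + 1)) * w ^ (b + 1))
    rw [← norm_neg, ← h1] at hle
    have hbm := Finset.mem_range.1 hb
    by_cases hb1 : b + 1 = m
    · rw [if_pos hb1, one_mul, hb1, norm_pow] at hle
      exact absurd hle (not_le.2 hlt)
    · rw [if_neg hb1, norm_mul, norm_pow] at hle
      have h3 := he (b + 1) (by omega) (by omega)
      have h4 : ‖e 0‖ ^ m ≤ ‖e (b + 1)‖ ^ m * (‖w‖ ^ m) ^ (b + 1) := by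
        calc ‖e 0‖ ^ m ≤ (‖e (b + 1)‖ * ‖w‖ ^ (b + 1)) ^ m :=
              pow_le_pow_left₀ (norm_nonneg _) hle m
          _ = ‖e (b + 1)‖ ^ m * (‖w‖ ^ m) ^ (b + 1) := by
              rw [mul_pow, ← pow_mul, ← pow_mul, mul_comm m (b + 1)]
      have h5 : (‖w‖ ^ m) ^ (b + 1) ≤ ‖e 0‖ ^ (b + 1) :=
        pow_le_pow_left₀ (by positivity) hlt.le _
      have h6 : ‖e (b + 1)‖ ^ m * (‖w‖ ^ m) ^ (b + 1) ≤ ‖e (b + 1)‖ ^ m * ‖e 0‖ ^ (b + 1) :=
        mul_le_mul_of_nonneg_left h5 (by positivity)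
      have h7 : ‖e (b + 1)‖ ^ m * ‖e 0‖ ^ (b + 1) < ‖e 0‖ ^ (m - (b + 1)) * ‖e 0‖ ^ (b + 1) :=
        mul_lt_mul_of_pos_right h3 (by positivity)
      have h8 : ‖e 0‖ ^ (m - (b + 1)) * ‖e 0‖ ^ (b + 1) = ‖e 0‖ ^ m := by
        rw [← pow_add]
        congr 1
        omega
      linarith
  · exact heq
  · exfalso
    have h1 : w ^ m = -∑ b ∈ Finset.range m, e b * w ^ b := by linear_combination hw
    obtain ⟨b, hb, hle⟩ := IsUltrametricDist.exists_norm_finsetSum_le_of_nonempty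
      (Finset.nonempty_range_iff.2 hm.ne') (fun b => e b * w ^ b)
    rw [← norm_neg, ← h1, norm_pow, norm_mul, norm_pow] at hle
    have hbm := Finset.mem_range.1 hb
    rcases Nat.eq_zero_or_pos b with rfl | hb0
    · rw [pow_zero, mul_one] at hle
      exact absurd hle (not_le.2 hgt)
    · have h3 := he b hb0 hbm
      have hwpos : 0 < ‖w‖ := by
        by_contra hc
        have h4 : ‖w‖ = 0 := le_antisymm (not_lt.1 hc) (norm_nonneg _)
        rw [h4, zero_pow hm.ne'] at hgt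
        linarith
      have h4 : ‖w‖ ^ (m - b) ≤ ‖e b‖ := by
        have h5 : ‖w‖ ^ m = ‖w‖ ^ (m - b) * ‖w‖ ^ b := by
          rw [← pow_add]
          congr 1
          omega
        rw [h5] at hle
        exact le_of_mul_le_mul_right hle (by positivity)
      have h5 : (‖w‖ ^ m) ^ (m - b) ≤ ‖e b‖ ^ m := by
        calc (‖w‖ ^ m) ^ (m - b) = (‖w‖ ^ (m - b)) ^ m := by
              rw [← pow_mul, ← pow_mul, mul_comm]
          _ ≤ ‖e b‖ ^ m := pow_le_pow_left₀ (by positivity) h4 m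
      have h6 : ‖e 0‖ ^ (m - b) ≤ (‖w‖ ^ m) ^ (m - b) :=
        pow_le_pow_left₀ h0.le hgt.le _
      linarith

/-- integral elements have norm at most `1` -/
private theorem kwgl_int {p : ℕ} [Fact p.Prime] {k : Type} [Field k] (τ : k →+* PadicAlgCl p)
    {c : k} (hc : IsIntegral ℤ c) : ‖τ c‖ ≤ 1 := by
  by_contra hgt
  push Not at hgt
  obtain ⟨P, hP, hPc⟩ := hc
  have h1 : eval₂ ((τ.comp (algebraMap ℤ k))) (τ c) P = 0 := by
    rw [← hom_eval₂, hPc, map_zero]
  have hint : ∀ z : ℤ, ‖(τ.comp (algebraMap ℤ k)) z‖ ≤ 1 := by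
    intro z
    have h2 : (τ.comp (algebraMap ℤ k)) z = algebraMap ℚ_[p] (PadicAlgCl p) (z : ℚ_[p]) := by
      rw [map_intCast, eq_intCast]
    rw [h2]
    have h3 : ‖algebraMap ℚ_[p] (PadicAlgCl p) (z : ℚ_[p])‖ = ‖(z : ℚ_[p])‖ :=
      PadicAlgCl.norm_extends p (z : ℚ_[p])
    rw [h3]
    exact Padic.norm_int_le_one z
  rw [eval₂_eq_sum_range, Finset.sum_range_succ, hP.coeff_natDegree, map_one, one_mul] at h1
  have h2 : τ c ^ P.natDegree =
      -∑ i ∈ Finset.range P.natDegree, (τ.comp (algebraMap ℤ k)) (P.coeff i) * τ c ^ i := by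
    linear_combination h1
  rcases Nat.eq_zero_or_pos P.natDegree with h0 | h0
  · rw [h0, pow_zero, Finset.range_zero, Finset.sum_empty, neg_zero] at h2
    exact one_ne_zero h2
  obtain ⟨i, hi, hle⟩ := IsUltrametricDist.exists_norm_finsetSum_le_of_nonempty
    (Finset.nonempty_range_iff.2 h0.ne')
    (fun i => (τ.comp (algebraMap ℤ k)) (P.coeff i) * τ c ^ i)
  rw [← norm_neg, ← h2, norm_pow, norm_mul, norm_pow] at hle
  have him := Finset.mem_range.1 hi
  have h3 : ‖τ c‖ ^ i < ‖τ c‖ ^ P.natDegree := pow_lt_pow_right₀ hgt him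
  have h4 : ‖(τ.comp (algebraMap ℤ k)) (P.coeff i)‖ * ‖τ c‖ ^ i ≤ 1 * ‖τ c‖ ^ i :=
    mul_le_mul_of_nonneg_right (hint _) (by positivity)
  linarith

private theorem kwgl_nat {p : ℕ} [Fact p.Prime] {k : Type} [Field k] (τ : k →+* PadicAlgCl p)
    {z : ℤ} (hz : z ≠ 0) (hp : z.natAbs < p) : ‖τ (z : k)‖ = 1 := by
  have h2 : τ (z : k) = algebraMap ℚ_[p] (PadicAlgCl p) (z : ℚ_[p]) := by
    rw [map_intCast, map_intCast]
  have h3 : ‖algebraMap ℚ_[p] (PadicAlgCl p) (z : ℚ_[p])‖ = ‖(z : ℚ_[p])‖ :=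
    PadicAlgCl.norm_extends p (z : ℚ_[p])
  rw [h2, h3]
  refine le_antisymm (Padic.norm_int_le_one z) (not_lt.1 fun h => ?_)
  have h4 := Padic.norm_intCast_lt_one_iff.1 h
  have h5 := Int.natAbs_dvd_natAbs.2 h4
  rw [Int.natAbs_natCast] at h5
  exact absurd (Nat.le_of_dvd (Int.natAbs_pos.2 hz) h5) (not_le.2 hp)

/-- every element of `k` has norm at most `1` at almost all primes -/
private theorem kwgl_le {k : Type} [Field k] [CharZero k] [FiniteDimensional ℚ k] (c : k) :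
    ∃ B : ℕ, ∀ (p : ℕ) [Fact p.Prime], B < p → ∀ τ : k →+* PadicAlgCl p, ‖τ c‖ ≤ 1 := by
  have h1 : IsAlgebraic ℤ c := by
    have h2 : IsAlgebraic ℚ c := Algebra.IsAlgebraic.isAlgebraic c
    exact (IsFractionRing.isAlgebraic_iff ℤ ℚ k).2 h2
  obtain ⟨z, hz, hzc⟩ := h1.exists_integral_multiple
  refine ⟨z.natAbs, fun p _ hp τ => ?_⟩
  have h3 := kwgl_int τ hzc
  rw [zsmul_eq_mul, map_mul, norm_mul, kwgl_nat τ hz hp, one_mul] at h3
  exact h3

/-- every nonzero element of `k` has norm `1` at almost all primes -/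
private theorem kwgl_eq {k : Type} [Field k] [CharZero k] [FiniteDimensional ℚ k] {c : k}
    (hc : c ≠ 0) :
    ∃ B : ℕ, ∀ (p : ℕ) [Fact p.Prime], B < p → ∀ τ : k →+* PadicAlgCl p, ‖τ c‖ = 1 := by
  obtain ⟨B₁, h1⟩ := kwgl_le c
  obtain ⟨B₂, h2⟩ := kwgl_le c⁻¹
  refine ⟨max B₁ B₂, fun p _ hp τ => ?_⟩
  refine le_antisymm (h1 p ((le_max_left _ _).trans_lt hp) τ) ?_
  have h3 := h2 p ((le_max_right _ _).trans_lt hp) τ
  have h4 : 0 < ‖τ c‖ := norm_pos_iff.2 fun h => hc (τ.injective (by rw [h, map_zero]))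
  rw [map_inv₀, norm_inv, inv_le_one₀ h4] at h3
  exact h3

/-- polynomials with unit leading coefficient -/
private theorem kwgl_dom {K : Type} [NormedField K] [IsUltrametricDist K] {k : Type} [Field k]
    (τ : k →+* K) (q : k[X]) (h1 : ∀ i, ‖τ (q.coeff i)‖ ≤ 1) (h2 : ‖τ q.leadingCoeff‖ = 1) {x : K}
    (hx : 1 < ‖x‖) : ‖eval₂ τ x q‖ = ‖x‖ ^ q.natDegree := by
  have h3 : eval₂ τ x q = (∑ i ∈ Finset.range q.natDegree, τ (q.coeff i) * x ^ i)
      + τ q.leadingCoeff * x ^ q.natDegree := by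
    rw [eval₂_eq_sum_range, Finset.sum_range_succ]
    rfl
  have hx0 : 0 < ‖x‖ := by linarith
  have h4 : ‖∑ i ∈ Finset.range q.natDegree, τ (q.coeff i) * x ^ i‖
      < ‖τ q.leadingCoeff * x ^ q.natDegree‖ := by
    rw [norm_mul, h2, one_mul, norm_pow]
    rcases Nat.eq_zero_or_pos q.natDegree with h0 | h0
    · rw [h0, Finset.range_zero, Finset.sum_empty, norm_zero, pow_zero]
      exact one_pos
    · obtain ⟨i, hi, hle⟩ := IsUltrametricDist.exists_norm_finsetSum_le_of_nonempty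
        (Finset.nonempty_range_iff.2 h0.ne') (fun i => τ (q.coeff i) * x ^ i)
      refine lt_of_le_of_lt hle ?_
      rw [norm_mul, norm_pow]
      have him := Finset.mem_range.1 hi
      calc ‖τ (q.coeff i)‖ * ‖x‖ ^ i ≤ 1 * ‖x‖ ^ i :=
            mul_le_mul_of_nonneg_right (h1 i) (by positivity)
        _ = ‖x‖ ^ i := one_mul _
        _ < ‖x‖ ^ q.natDegree := pow_lt_pow_right₀ hx him
  rw [h3, IsUltrametricDist.norm_add_eq_max_of_norm_ne_norm h4.ne, max_eq_right h4.le, norm_mul,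
    h2, one_mul, norm_pow]

theorem ram_large {m : ℕ} (hm : m.Prime) {k : Type} [Field k] [CharZero k]
    [FiniteDimensional ℚ k] {E : k[X][X]} (hE : WtsK m E) :
    ∃ B : ℕ, ∀ (p : ℕ) [Fact p.Prime], B < p → ∀ (τ : k →+* PadicAlgCl p) (s : ℕ), 0 < s →
      ¬ m ∣ s → ∀ c : ℚ, ‖(c : ℚ_[p])‖ = (p : ℝ) ^ s →
      RamK p m τ (E.map (compRingHom (C (c : k) * X))) := by
  classical
  have he0 : E.coeff 0 ≠ 0 := by
    intro h
    apply hE.zero
    rw [h]
    simp
  choose Bc hBc using fun (c : k) => kwgl_le c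
  have hBl : ∀ b, ∃ B : ℕ, E.coeff b ≠ 0 → ∀ (p : ℕ) [Fact p.Prime], B < p →
      ∀ τ : k →+* PadicAlgCl p, ‖τ (E.coeff b).leadingCoeff‖ = 1 := by
    intro b
    by_cases hb : E.coeff b = 0
    · exact ⟨0, fun h => absurd hb h⟩
    · obtain ⟨B, hB⟩ := kwgl_eq (c := (E.coeff b).leadingCoeff)
        (fun h => hb (leadingCoeff_eq_zero.1 h))
      exact ⟨B, fun _ => hB⟩
  choose Bl hBl using hBl
  refine ⟨(∑ b ∈ Finset.range m, Bl b) + ∑ b ∈ Finset.range m,
    ∑ i ∈ (E.coeff b).support, Bc ((E.coeff b).coeff i), ?_⟩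
  intro p _ hp τ s hs hms c hc α w hα hw
  have hp1 : (1 : ℝ) < p := by exact_mod_cast (Fact.out : p.Prime).one_lt
  have hp0 : (0 : ℝ) < p := by linarith
  have hcoef : ∀ b, b < m → ∀ i, ‖τ ((E.coeff b).coeff i)‖ ≤ 1 := by
    intro b hb i
    by_cases hi : (E.coeff b).coeff i = 0
    · rw [hi, map_zero, norm_zero]
      exact zero_le_one
    · refine hBc _ p (lt_of_le_of_lt ?_ hp) τ
      have h1 : Bc ((E.coeff b).coeff i) ≤
          ∑ i ∈ (E.coeff b).support, Bc ((E.coeff b).coeff i) :=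
        Finset.single_le_sum (f := fun i => Bc ((E.coeff b).coeff i)) (fun _ _ => Nat.zero_le _)
          (mem_support_iff.2 hi)
      have h2 : ∑ i ∈ (E.coeff b).support, Bc ((E.coeff b).coeff i) ≤ ∑ b ∈ Finset.range m,
          ∑ i ∈ (E.coeff b).support, Bc ((E.coeff b).coeff i) :=
        Finset.single_le_sum (f := fun b => ∑ i ∈ (E.coeff b).support, Bc ((E.coeff b).coeff i))
          (fun _ _ => Nat.zero_le _) (Finset.mem_range.2 hb)
      omega
  have hlead : ∀ b, b < m → E.coeff b ≠ 0 → ‖τ (E.coeff b).leadingCoeff‖ = 1 := by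
    intro b hb h0
    refine hBl b h0 p (lt_of_le_of_lt ?_ hp) τ
    have h1 : Bl b ≤ ∑ b ∈ Finset.range m, Bl b :=
      Finset.single_le_sum (f := Bl) (fun _ _ => Nat.zero_le _) (Finset.mem_range.2 hb)
    omega
  have hnq : ∀ q : ℚ, ‖τ (q : k)‖ = ‖(q : ℚ_[p])‖ := by
    intro q
    have h1 : τ (q : k) = algebraMap ℚ_[p] (PadicAlgCl p) (q : ℚ_[p]) := by
      rw [map_ratCast, map_ratCast]
    rw [h1]
    exact PadicAlgCl.norm_extends p (q : ℚ_[p])
  have hnp : ‖((p : ℕ) : PadicAlgCl p)‖ = (p : ℝ)⁻¹ := by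
    have h1 : ((p : ℕ) : PadicAlgCl p) = τ ((p : ℚ) : k) := by
      rw [map_ratCast, Rat.cast_natCast]
    rw [h1, hnq, Rat.cast_natCast, Padic.norm_p]
  have hx : ‖τ (c : k) * α‖ = (p : ℝ) ^ s := by
    rw [norm_mul, hα, mul_one, hnq, hc]
  have hps : 1 < (p : ℝ) ^ s := one_lt_pow₀ hp1 hs.ne'
  have hsum : w ^ m + ∑ b ∈ Finset.range m, eval₂ τ (τ (c : k) * α) (E.coeff b) * w ^ b = 0 := by
    rw [ev2K, coe_eval₂RingHom, eval₂_map, eval₂_eq_sum_range, hE.deg, Finset.sum_range_succ] at hw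
    have h1 : ∀ q : k[X], ((eval₂RingHom τ α).comp (compRingHom (C (c : k) * X))) q =
        eval₂ τ (τ (c : k) * α) q := by
      intro q
      rw [RingHom.comp_apply, coe_compRingHom_apply, coe_eval₂RingHom, eval₂_comp, eval₂_mul, eval₂_C,
        eval₂_X]
    have h2 : E.coeff m = 1 := by
      have h3 := hE.mon.coeff_natDegree
      rwa [hE.deg] at h3
    simp only [h1, h2, eval₂_one, one_mul] at hw
    rw [add_comm]
    exact hw
  have hnorm : ∀ b, b < m → E.coeff b ≠ 0 → ‖eval₂ τ (τ (c : k) * α) (E.coeff b)‖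
      = ((p : ℝ) ^ s) ^ (E.coeff b).natDegree := by
    intro b hb h0
    rw [kwgl_dom τ _ (hcoef b hb) (hlead b hb h0) (by rw [hx]; exact hps), hx]
  have hslope := kwgl_slope (K := PadicAlgCl p) hm.pos
    (fun b => eval₂ τ (τ (c : k) * α) (E.coeff b)) w
    (by
      rw [hnorm 0 hm.pos he0]
      positivity)
    (by
      intro b hb0 hbm
      rw [hnorm 0 hm.pos he0]
      by_cases hb : E.coeff b = 0
      · rw [hb, eval₂_zero, norm_zero, zero_pow hm.pos.ne']
        positivity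
      · rw [hnorm b hbm hb, ← pow_mul ((p : ℝ) ^ s) (E.coeff b).natDegree m,
          ← pow_mul ((p : ℝ) ^ s) (E.coeff 0).natDegree (m - b)]
        refine pow_lt_pow_right₀ hps ?_
        have h1 := hE.lt b hb0 hbm hb
        obtain ⟨j, rfl⟩ : ∃ j, m = b + j := ⟨m - b, by omega⟩
        have h3 : b + j - b = j := by omega
        rw [h3]
        have h5 : (b + j) * (E.coeff 0).natDegree
            = b * (E.coeff 0).natDegree + (E.coeff 0).natDegree * j := by ring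
        rw [h5] at h1
        have h6 : (b + j) * (E.coeff b).natDegree = (E.coeff b).natDegree * (b + j) := by ring
        omega)
    hsum
  refine ⟨1, -(s * (E.coeff 0).natDegree : ℕ), one_pos, fun hdvd => ?_, ?_⟩
  · rw [dvd_neg, Int.natCast_dvd_natCast] at hdvd
    rcases (Nat.Prime.dvd_mul hm).1 hdvd with h | h
    · exact hms h
    · exact hE.zero h
  · rw [mul_one, hslope, hnorm 0 hm.pos he0, hnp, zpow_neg, inv_zpow, inv_inv, zpow_natCast,
      ← pow_mul]

end Pool.Agent.ETU
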