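import Pool.Agent.ETU.KMn2
import Pool.Agent.ETU.KWgL

/-!
# Assembly over a number field, uniformly in the primes

The equation of `exists_equationK` does not depend on the prime; `ram_of_weightsK` serves the finitely many small primes and
`ram_large` all others (with `s = 0`, `ρ = 0`).
-/

open scoped BigOperators Polynomial
open Polynomial

namespace Pool.Agent.ETU

open Pool.Agent.CST Pool.Agent.ISG Pool.Agent.Helper11 Pool.Agent.ISI Pool.Agent.CS2 Pool.Agent.CSG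

private theorem kmn3_mem {K : Type} [Field K] [CharZero K] {O : ValuationSubring K} (hO : IsPl O)
    {a : K} (ha : IsAlgebraic ℚ a) : a ∈ O := by
  let φ : ℚ →+* O := (algebraMap ℚ K).codRestrict O.toSubring fun q => by
    rw [eq_ratCast]
    exact hO.2 q
  obtain ⟨p, hp, hpa⟩ := ha.isIntegral
  have h1 : IsIntegral O a := by
    refine ⟨p.map φ, hp.map _, ?_⟩
    rw [eval₂_map]
    exact hpa
  obtain ⟨y, hy⟩ := IsIntegrallyClosed.isIntegral_iff.1 h1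
  rw [← hy]
  exact y.2

private theorem kmn3_norm {p : ℕ} [Fact p.Prime] {c : ℚ} (hc : c ≠ 0) {s : ℕ}
    (h : padicValRat p c = s) : ‖((c⁻¹ : ℚ) : ℚ_[p])‖ = (p : ℝ) ^ s := by
  rw [Rat.cast_inv, norm_inv, Padic.eq_padicNorm, padicNorm.eq_zpow_of_nonzero hc, h]
  push_cast
  rw [zpow_neg, inv_inv, zpow_natCast]

/-- the bounds `s p`, `ρ p`, uniformly in the embedding chosen for `p` -/
private theorem kmn3_bounds {m : ℕ} (hm : m.Prime) {k : Type} [Field k] [CharZero k]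
    [FiniteDimensional ℚ k] (hk : Module.finrank ℚ k < m) {E : k[X][X]} (hE : WtsK m E) :
    ∃ s ρ : ℕ → ℕ, (∃ B : ℕ, ∀ p, B < p → s p = 0 ∧ ρ p = 0) ∧
      ∀ (p : ℕ) [Fact p.Prime], ∃ τ : k →+* PadicAlgCl p, ∀ a : ℕ, s p < a →
        ¬ a ≡ ρ p [MOD m] → ∀ c : ℚ, ‖(c : ℚ_[p])‖ = (p : ℝ) ^ a →
        RamK p m τ (E.map (compRingHom (C (c : k) * X))) := by
  classical
  have hemb : ∀ (p : ℕ) [Fact p.Prime], Nonempty (k →+* PadicAlgCl p) := by
    intro p _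
    have hk' : Algebra.IsAlgebraic ℚ k := Algebra.IsAlgebraic.of_finite ℚ k
    exact ⟨(IsAlgClosed.lift (R := ℚ) (S := k) (M := PadicAlgCl p)).toRingHom⟩
  obtain ⟨B, hB⟩ := ram_large hm hE
  have h1 : ∀ p : ℕ, ∃ sρ : ℕ × ℕ, (B < p → sρ = (0, 0)) ∧
      ∀ _ : Fact p.Prime, ∃ τ : k →+* PadicAlgCl p, ∀ a : ℕ, sρ.1 < a →
        ¬ a ≡ sρ.2 [MOD m] → ∀ c : ℚ, ‖(c : ℚ_[p])‖ = (p : ℝ) ^ a →
        RamK p m τ (E.map (compRingHom (C (c : k) * X))) := by
    intro p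
    by_cases hp : p.Prime
    · have := Fact.mk hp
      obtain ⟨τ⟩ := hemb p
      by_cases hBp : B < p
      · refine ⟨(0, 0), fun _ => rfl, fun _ => ⟨τ, fun a ha har c hc => ?_⟩⟩
        refine hB p hBp τ a ha (fun h => har ?_) c hc
        exact (Nat.modEq_zero_iff_dvd).2 h
      · obtain ⟨s, ρ, h⟩ := ram_of_weightsK (p := p) hm hk τ hE
        exact ⟨(s, ρ), fun h => absurd h hBp, fun _ => ⟨τ, fun a ha har c hc =>
          h a ha.le har c hc⟩⟩
    · exact ⟨(0, 0), fun _ => rfl, fun h => absurd h.out hp⟩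
  choose sρ h2 h3 using h1
  refine ⟨fun p => (sρ p).1, fun p => (sρ p).2, ⟨B, fun p hp => ?_⟩, fun p hp => h3 p hp⟩
  show (sρ p).1 = 0 ∧ (sρ p).2 = 0
  rw [h2 p hp]
  exact ⟨rfl, rfl⟩

theorem main_uniform {k K : Type} [Field k] [CharZero k] [FiniteDimensional ℚ k] [Field K]
    [CharZero K] [Algebra k K] {x : Kˣ} {m : ℕ} (hm : m.Prime) (hk : Module.finrank ℚ k < m)
    (hK : Module.finrank (IntermediateField.adjoin k {(x : K)}) K = m)
    {O : ValuationSubring K} (hO : IsPl O)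
    (hr : ∀ y ∈ O, ∃ c : k, O.valuation (y - algebraMap k K c) < 1) (hx : (x : K) ∉ O) {t : K}
    (ht : O.valuation (x * t ^ m) = 1) :
    ∃ s ρ : ℕ → ℕ, (∃ B : ℕ, ∀ p, B < p → s p = 0 ∧ ρ p = 0) ∧
      ∀ (p₁ p₂ : ℕ) [Fact p₁.Prime] [Fact p₂.Prime], p₁ ≠ p₂ → ¬ m ∣ p₁ * (p₁ - 1) →
      ¬ m ∣ p₂ * (p₂ - 1) →
      ∀ c : ℚ, (s p₁ : ℤ) < padicValRat p₁ c → (s p₂ : ℤ) < padicValRat p₂ c →
      ¬ padicValRat p₁ c ≡ ρ p₁ [ZMOD m] → ¬ padicValRat p₂ c ≡ ρ p₂ [ZMOD m] →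
      ∀ (r : ℕ) (f : Fin r → ℤ[X]), (∀ i, (f i).Monic) → (∀ i, 0 < (f i).natDegree) →
        Squarefree ((∏ i, f i).map (Int.castRingHom (ZMod p₁))) →
        Squarefree ((∏ i, f i).map (Int.castRingHom (ZMod p₂))) →
        Module.Finite ℚ ↥(((⨆ (v : Kˣ) (_ : ∃ i, (v : K) = aeval ((c : K) * x) (f i)), slice v) ⊔
          ratSlice x) ⊓ unramifiedK2 K) := by
  have hcst : CstK k K := cst_of_point hO hr
  have hxt : Transcendental ℚ (x : K) := fun ha => hx (kmn3_mem hO ha)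
  obtain ⟨w, E, hE, hEw, hgen⟩ := exists_equationK (k := k) hxt hm hK hO hx ht
  obtain ⟨s, ρ, hsρ, hram⟩ := kmn3_bounds hm hk hE
  refine ⟨s, ρ, hsρ, ?_⟩
  intro p₁ p₂ _ _ h12 hm₁ hm₂ c hv1 hv2 hn1 hn2 r f hmon hpos hsq1 hsq2
  obtain ⟨τ₁, h1⟩ := hram p₁
  obtain ⟨τ₂, h2⟩ := hram p₂
  have hc0 : c ≠ 0 := by
    rintro rfl
    rw [padicValRat.zero] at hv1
    omega
  have hcK : (c : K) ≠ 0 := by exact_mod_cast hc0
  have hck : (c : k) ≠ 0 := by exact_mod_cast hc0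
  obtain ⟨a₁, ha₁⟩ := Int.eq_ofNat_of_zero_le (show 0 ≤ padicValRat p₁ c by omega)
  obtain ⟨a₂, ha₂⟩ := Int.eq_ofNat_of_zero_le (show 0 ≤ padicValRat p₂ c by omega)
  rw [ha₁] at hv1 hn1
  rw [ha₂] at hv2 hn2
  have hR1 := h1 a₁ (by omega) (fun h => hn1 ((Int.natCast_modEq_iff).2 h)) c⁻¹
    (kmn3_norm hc0 ha₁)
  have hR2 := h2 a₂ (by omega) (fun h => hn2 ((Int.natCast_modEq_iff).2 h)) c⁻¹
    (kmn3_norm hc0 ha₂)
  obtain ⟨E', hE'⟩ : ∃ E', E' = E.map (compRingHom (C ((c⁻¹ : ℚ) : k) * X)) := ⟨_, rfl⟩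
  rw [← hE'] at hR1 hR2
  have hX : Transcendental ℚ ((c : K) * x) := by
    intro ha
    apply hxt
    have h3 : (x : K) = (c : K)⁻¹ * ((c : K) * x) := by rw [inv_mul_cancel_left₀ hcK]
    rw [h3]
    refine IsAlgebraic.mul ?_ ha
    have h4 : ((c : K))⁻¹ = algebraMap ℚ K c⁻¹ := by rw [eq_ratCast, Rat.cast_inv]
    rw [h4]
    exact isAlgebraic_algebraMap _
  have hev : ev2K (algebraMap k K) ((c : K) * x) w E' = 0 := by
    rw [← hEw, hE']
    unfold ev2K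
    rw [coe_eval₂RingHom, coe_eval₂RingHom, eval₂_map]
    congr 1
    ext q
    · simp
    · simp [hcK]
  have hfd1 : FiniteDimensional (IntermediateField.adjoin k {(x : K)}) K :=
    Module.finite_of_finrank_pos (by rw [hK]; exact hm.pos)
  have hfd : FiniteDimensional (IntermediateField.adjoin ℚ {(x : K)}) K := finite_rat hfd1
  have hfd' : FiniteDimensional (IntermediateField.adjoin ℚ {(c : K) * x}) K :=
    finite_of_transcendental hfd hX
  have hgen' : IntermediateField.adjoin k {(c : K) * x, w} = ⊤ := by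
    rw [eq_top_iff, ← hgen, IntermediateField.adjoin_le_iff]
    rintro y (rfl | rfl)
    · have h3 : (c : K)⁻¹ * ((c : K) * x) ∈ IntermediateField.adjoin k {(c : K) * x, w} :=
        mul_mem (inv_mem (SubfieldClass.ratCast_mem _ c))
          (IntermediateField.subset_adjoin k _ (Or.inl rfl))
      rwa [inv_mul_cancel_left₀ hcK] at h3
    · exact IntermediateField.subset_adjoin k _ (Or.inr rfl)
  have hne : ∀ i, aeval ((c : K) * x) (f i) ≠ 0 := by
    intro i h0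
    apply hX
    refine ⟨(f i).map (Int.castRingHom ℚ), ((hmon i).map _).ne_zero, ?_⟩
    rw [aeval_map, h0]
  have hX0 : (c : K) * x ≠ 0 := mul_ne_zero hcK x.ne_zero
  obtain ⟨X', hX'⟩ : ∃ X' : Kˣ, (X' : K) = (c : K) * x := ⟨Units.mk0 _ hX0, rfl⟩
  -- the order of the pole
  have hcO : O.valuation (c : K) = 1 := by
    refine le_antisymm ((O.valuation_le_one_iff _).2 (hO.2 c)) ?_
    have h1 := (O.valuation_le_one_iff _).2 (hO.2 c⁻¹)
    rw [Rat.cast_inv, map_inv₀] at h1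
    have h2 : (0 : _) < O.valuation (c : K) := zero_lt_iff.2 ((Valuation.ne_zero_iff _).2 hcK)
    rwa [inv_le_one₀ h2] at h1
  have hneg : vo O X' < 0 := by
    by_contra hcon
    push Not at hcon
    have h3 := (vo_nonneg_iff hO X').1 hcon
    rw [hX'] at h3
    have h4 := (O.valuation_le_one_iff _).2 h3
    rw [map_mul, hcO, one_mul] at h4
    exact hx ((O.valuation_le_one_iff _).1 h4)
  obtain ⟨e, he⟩ := Int.eq_ofNat_of_zero_le (show 0 ≤ -vo O X' by omega)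
  have hfin := main_geomK (k := k) (K := K) hcst (X' := X') (w := w) (by rw [hX']; exact hX)
    (by rw [hX']; exact hfd') hm hk hO hr (e := e) (by omega) (by omega) (E := E')
    (by rw [hE']; exact hE.mon.map _) (by rw [hE', (hE.mon).natDegree_map, hE.deg])
    (by rw [hX']; exact hev) (by rw [hX']; exact hgen') h12
    hm₁ hm₂ hR1 hR2 (f := f) ⟨hmon, hpos, hsq1⟩ ⟨hmon, hpos, hsq2⟩
    (u := fun i => Units.mk0 _ (hne i)) (fun i => by rw [hX']; rfl)
  rw [hX'] at hfin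
  exact transport hc0 hX (fun i => rfl) hfin

end Pool.Agent.ETU
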