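import Pool.Agent.ETU.KDef
import Pool.Agent.CS2.RatB

/-!
# A totally ramified pole is a rational point

If the residue of some `y ∈ O` were not in `k`, the `2 m` elements `t ^ i y ^ j`, `i < m`, `j < 2`,
would be linearly independent over `k(x)`.
-/

open scoped BigOperators Polynomial
open Polynomial

namespace Pool.Agent.ETU

open Pool.Agent.CST

private theorem krat_const {k K : Type} [Field k] [CharZero k] [FiniteDimensional ℚ k] [Field K]
    [CharZero K] [Algebra k K] {O : ValuationSubring K} (hO : IsPl O) {c : k} (hc : c ≠ 0) :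
    O.valuation (algebraMap k K c) = 1 := by
  have hk : Algebra.IsAlgebraic ℚ k := Algebra.IsAlgebraic.of_finite ℚ k
  refine le_antisymm ((O.valuation_le_one_iff _).2 (Pool.Agent.CSG.const_mem hk hO c)) ?_
  have h1 := (O.valuation_le_one_iff _).2 (Pool.Agent.CSG.const_mem hk hO c⁻¹)
  rw [map_inv₀, map_inv₀] at h1
  have h2 : (0 : _) < O.valuation (algebraMap k K c) :=
    zero_lt_iff.2 ((Valuation.ne_zero_iff _).2 ((_root_.map_ne_zero _).2 hc))
  rwa [inv_le_one₀ h2] at h1

private theorem krat_poly {k K : Type} [Field k] [CharZero k] [FiniteDimensional ℚ k] [Field K]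
    [CharZero K] [Algebra k K] {x : K} {O : ValuationSubring K} (hO : IsPl O)
    (hx : 1 < O.valuation x) {p : k[X]} (hp : p ≠ 0) :
    O.valuation (aeval x p) = O.valuation x ^ p.natDegree := by
  have h5 : aeval x p = algebraMap k K p.leadingCoeff * x ^ p.natDegree +
      ∑ i ∈ Finset.range p.natDegree, algebraMap k K (p.coeff i) * x ^ i := by
    rw [aeval_eq_sum_range, Finset.sum_range_succ, add_comm]
    congr 1
    · rw [coeff_natDegree, Algebra.smul_def]
    · refine Finset.sum_congr rfl fun i _ => ?_
      rw [Algebra.smul_def]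
  have h0 : O.valuation (algebraMap k K p.leadingCoeff * x ^ p.natDegree) =
      O.valuation x ^ p.natDegree := by
    rw [map_mul, map_pow, krat_const hO (leadingCoeff_ne_zero.2 hp), one_mul]
  have h6 : O.valuation (∑ i ∈ Finset.range p.natDegree,
      algebraMap k K (p.coeff i) * x ^ i) < O.valuation x ^ p.natDegree := by
    refine Valuation.map_sum_lt _ (pow_ne_zero _ (by
      intro h0
      rw [h0] at hx
      exact not_lt_bot hx)) fun i hi => ?_
    rw [map_mul, map_pow]
    have h7 : O.valuation (algebraMap k K (p.coeff i)) ≤ 1 := by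
      by_cases h : p.coeff i = 0
      · rw [h, map_zero, map_zero]
        exact zero_le_one
      · exact (krat_const hO h).le
    exact (mul_le_of_le_one_left' h7).trans_lt
      (pow_lt_pow_right₀ hx (Finset.mem_range.1 hi))
  rw [h5, Valuation.map_add_eq_of_lt_left, h0]
  rwa [h0]

/-- values of elements of `k(x)` and their residues -/
private theorem krat_val {k K : Type} [Field k] [CharZero k] [FiniteDimensional ℚ k] [Field K]
    [CharZero K] [Algebra k K] {x : K} {O : ValuationSubring K} (hO : IsPl O)
    (hx : 1 < O.valuation x) {a : K} (ha : a ∈ IntermediateField.adjoin k {x}) (ha0 : a ≠ 0) :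
    (∃ n : ℤ, O.valuation a = O.valuation x ^ n) ∧
      (O.valuation a = 1 → ∃ c : k, O.valuation (a - algebraMap k K c) < 1) := by
  obtain ⟨p, q, h⟩ := (IntermediateField.mem_adjoin_simple_iff k _).1 ha
  have hq : q ≠ 0 := by
    rintro rfl
    rw [map_zero, div_zero] at h
    exact ha0 h
  have hp : p ≠ 0 := by
    rintro rfl
    rw [map_zero, zero_div] at h
    exact ha0 h
  have hx0 : O.valuation x ≠ 0 := by
    intro h0
    rw [h0] at hx
    exact not_lt_bot hx
  have hvp := krat_poly hO hx hp
  have hvq := krat_poly hO hx hq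
  have hva : O.valuation a = O.valuation x ^ ((p.natDegree : ℤ) - q.natDegree) := by
    rw [h, map_div₀, hvp, hvq, zpow_sub₀ hx0, zpow_natCast, zpow_natCast]
  refine ⟨⟨_, hva⟩, fun h1 => ?_⟩
  have hdeg : p.natDegree = q.natDegree := by
    rw [hva] at h1
    by_contra hne
    rcases lt_or_gt_of_ne hne with h2 | h2
    · have h3 : O.valuation x ^ ((p.natDegree : ℤ) - q.natDegree) < 1 :=
        zpow_lt_one_of_neg₀ hx (by omega)
      exact absurd h1 h3.ne
    · have h3 : 1 < O.valuation x ^ ((p.natDegree : ℤ) - q.natDegree) :=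
        one_lt_zpow₀ hx (by omega)
      exact absurd h1 h3.ne'
  refine ⟨p.leadingCoeff / q.leadingCoeff, ?_⟩
  obtain ⟨s, hs⟩ : ∃ s, s = p - C (p.leadingCoeff / q.leadingCoeff) * q := ⟨_, rfl⟩
  have hqx : aeval x q ≠ 0 := by
    intro h0
    rw [h0, map_zero] at hvq
    exact pow_ne_zero _ hx0 hvq.symm
  have h2 : a - algebraMap k K (p.leadingCoeff / q.leadingCoeff) = aeval x s / aeval x q := by
    rw [hs, h, map_sub, map_mul, aeval_C, sub_div, mul_div_assoc, div_self hqx, mul_one]
  rw [h2, map_div₀, hvq]
  by_cases hs0 : s = 0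
  · rw [hs0, map_zero, map_zero, zero_div]
    exact zero_lt_one
  · have hlq : q.leadingCoeff ≠ 0 := leadingCoeff_ne_zero.2 hq
    have h3 : s.degree < p.degree := by
      rw [hs]
      refine degree_sub_lt_left ?_ hp ?_
      · rw [degree_C_mul (div_ne_zero (leadingCoeff_ne_zero.2 hp) hlq),
          degree_eq_natDegree hp, degree_eq_natDegree hq, hdeg]
      · rw [leadingCoeff_mul, leadingCoeff_C, div_mul_cancel₀ _ hlq]
    have h4 : s.natDegree < q.natDegree := by
      rw [← hdeg]
      exact natDegree_lt_natDegree hs0 h3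
    rw [krat_poly hO hx hs0, div_lt_one₀ (zero_lt_iff.2 (pow_ne_zero _ hx0))]
    exact pow_lt_pow_right₀ hx h4

theorem rational_point {k K : Type} [Field k] [CharZero k] [FiniteDimensional ℚ k] [Field K]
    [CharZero K] [Algebra k K] {x : K} {m : ℕ} (hm : 0 < m)
    (hK : Module.finrank (IntermediateField.adjoin k {x}) K = m)
    {O : ValuationSubring K} (hO : IsPl O) (hxO : x ∉ O) {t : K}
    (ht : O.valuation (x * t ^ m) = 1) :
    ∀ y ∈ O, ∃ c : k, O.valuation (y - algebraMap k K c) < 1 := by
  classical
  intro y hy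
  by_contra hcon
  push Not at hcon
  have hk : Algebra.IsAlgebraic ℚ k := Algebra.IsAlgebraic.of_finite ℚ k
  have hx : 1 < O.valuation x := by
    rw [← not_le]
    exact fun h => hxO ((O.valuation_le_one_iff _).1 h)
  have hx0 : O.valuation x ≠ 0 := by
    intro h0
    rw [h0] at hx
    exact not_lt_bot hx
  have hyc : ∀ c : k, O.valuation (y - algebraMap k K c) = 1 := fun c =>
    le_antisymm ((O.valuation_le_one_iff _).2 (sub_mem hy (Pool.Agent.CSG.const_mem hk hO c)))
      (hcon c)
  have hy1 : O.valuation y = 1 := by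
    have := hyc 0
    rwa [map_zero, sub_zero] at this
  have ht1 : O.valuation x * O.valuation t ^ m = 1 := by rw [← map_pow, ← map_mul, ht]
  have ht0 : O.valuation t ≠ 0 := by
    intro h0
    rw [h0, zero_pow hm.ne', mul_zero] at ht1
    exact zero_ne_one ht1
  have hxt : O.valuation x = O.valuation t ^ (-(m : ℤ)) := by
    rw [zpow_neg, zpow_natCast]
    exact eq_inv_of_mul_eq_one_left ht1
  have htlt : O.valuation t < 1 := by
    by_contra h
    push Not at h
    have h1 : 1 < O.valuation x * O.valuation t ^ m :=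
      one_lt_mul_of_lt_of_le' hx (one_le_pow₀ h)
    exact absurd ht1 h1.ne'
  -- the key fact
  have key : ∀ a b : K, a ∈ IntermediateField.adjoin k {x} → b ∈ IntermediateField.adjoin k {x} →
      (a ≠ 0 ∨ b ≠ 0) → ∃ n : ℤ, O.valuation (a + b * y) = O.valuation x ^ n := by
    intro a b ha hb hab
    by_cases hb0 : b = 0
    · rw [hb0, zero_mul, add_zero]
      exact (krat_val hO hx ha (hab.resolve_right fun h => h hb0)).1
    obtain ⟨⟨n, hn⟩, -⟩ := krat_val hO hx hb hb0
    have hby : O.valuation (b * y) = O.valuation b := by rw [map_mul, hy1, mul_one]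
    by_cases ha0 : a = 0
    · rw [ha0, zero_add, hby]
      exact ⟨n, hn⟩
    obtain ⟨⟨n', hn'⟩, -⟩ := krat_val hO hx ha ha0
    rcases lt_trichotomy (O.valuation a) (O.valuation b) with h | h | h
    · refine ⟨n, ?_⟩
      rw [Valuation.map_add_eq_of_lt_right, hby, hn]
      rwa [hby]
    · refine ⟨n, ?_⟩
      have hbv : O.valuation b ≠ 0 := (Valuation.ne_zero_iff _).2 hb0
      have hq : O.valuation (a / b) = 1 := by rw [map_div₀, h, div_self hbv]
      obtain ⟨c, hc⟩ := (krat_val hO hx (div_mem ha hb) (div_ne_zero ha0 hb0)).2 hq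
      have h1 : a + b * y = b * ((a / b - algebraMap k K c) + (y - algebraMap k K (-c))) := by
        rw [map_neg]
        field_simp
        ring
      have h2 : O.valuation ((a / b - algebraMap k K c) + (y - algebraMap k K (-c))) = 1 := by
        rw [Valuation.map_add_eq_of_lt_right, hyc]
        rwa [hyc]
      rw [h1, map_mul, h2, mul_one, hn]
    · refine ⟨n', ?_⟩
      rw [Valuation.map_add_eq_of_lt_left, hn']
      rwa [hby]
  -- independence
  have hli : LinearIndependent (IntermediateField.adjoin k {x})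
      (fun i : Fin m × Fin 2 => t ^ (i.1 : ℕ) * y ^ (i.2 : ℕ)) := by
    rw [Fintype.linearIndependent_iff]
    intro g hg
    by_contra hne
    push Not at hne
    obtain ⟨i₀, hi₀⟩ := hne
    let z : Fin m → K := fun i => t ^ (i : ℕ) * ((g (i, 0) : K) + (g (i, 1) : K) * y)
    have hsum : ∑ i, z i = 0 := by
      rw [← hg, Fintype.sum_prod_type]
      refine Finset.sum_congr rfl fun i _ => ?_
      rw [Fin.sum_univ_two, IntermediateField.smul_def, IntermediateField.smul_def]
      simp only [z, Fin.val_zero, Fin.val_one, pow_zero, pow_one, smul_eq_mul, mul_one]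
      ring
    have hz : ∀ i, z i ≠ 0 → ∃ n : ℤ, O.valuation (z i) = O.valuation t ^ ((i : ℤ) - m * n) := by
      intro i hi
      have h1 : (g (i, 0) : K) ≠ 0 ∨ (g (i, 1) : K) ≠ 0 := by
        by_contra h
        push Not at h
        apply hi
        simp only [z, h.1, h.2, zero_mul, add_zero, mul_zero]
      obtain ⟨n, hn⟩ := key _ _ (g (i, 0)).2 (g (i, 1)).2 h1
      refine ⟨n, ?_⟩
      change O.valuation (t ^ (i : ℕ) * _) = _
      rw [map_mul, map_pow, hn, hxt, ← zpow_mul, ← zpow_natCast, ← zpow_add₀ ht0]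
      congr 1
      ring
    have hdist : ∀ i j, z i ≠ 0 → z j ≠ 0 → O.valuation (z i) = O.valuation (z j) → i = j := by
      intro i j hi hj hij
      obtain ⟨n, hn⟩ := hz i hi
      obtain ⟨n', hn'⟩ := hz j hj
      rw [hn, hn'] at hij
      have h1 : (i : ℤ) - m * n = (j : ℤ) - m * n' :=
        zpow_right_injective₀ (zero_lt_iff.2 ht0) htlt.ne hij
      have h2 : (i : ℤ) - j = m * (n - n') := by linear_combination h1
      have h3 : (m : ℤ) ∣ (i : ℤ) - j := ⟨_, h2⟩
      have h4 : (i : ℤ) - j = 0 := by
        refine Int.eq_zero_of_abs_lt_dvd h3 ?_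
        have := i.2
        have := j.2
        rw [abs_lt]
        constructor <;> omega
      exact Fin.ext (by omega)
    have hz0 : z i₀.1 ≠ 0 := by
      intro h0
      have h1 : (g (i₀.1, 0) : K) = 0 ∧ (g (i₀.1, 1) : K) = 0 := by
        by_contra h
        rw [not_and_or] at h
        obtain ⟨n, hn⟩ := key _ _ (g (i₀.1, 0)).2 (g (i₀.1, 1)).2 h
        have h2 : O.valuation (z i₀.1) = O.valuation (t ^ (i₀.1 : ℕ)) * O.valuation x ^ n := by
          change O.valuation (t ^ (i₀.1 : ℕ) * _) = _
          rw [map_mul, hn]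
        rw [h0, map_zero, map_pow] at h2
        exact mul_ne_zero (pow_ne_zero _ ht0) (zpow_ne_zero _ hx0) h2.symm
      apply hi₀
      obtain ⟨i, j⟩ := i₀
      fin_cases j
      · exact Subtype.ext h1.1
      · exact Subtype.ext h1.2
    -- the maximal term
    obtain ⟨j, hj, hmax⟩ := Finset.exists_max_image (Finset.univ.filter fun i => z i ≠ 0)
      (fun i => O.valuation (z i)) ⟨i₀.1, by simpa using hz0⟩
    have hj0 : z j ≠ 0 := (Finset.mem_filter.1 hj).2
    have hsplit : ∑ i, z i = z j + ∑ i ∈ Finset.univ.erase j, z i :=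
      (Finset.add_sum_erase _ _ (Finset.mem_univ j)).symm
    have hrest : O.valuation (∑ i ∈ Finset.univ.erase j, z i) < O.valuation (z j) := by
      refine Valuation.map_sum_lt _ ((Valuation.ne_zero_iff _).2 hj0) fun i hi => ?_
      by_cases h : z i = 0
      · rw [h, map_zero]
        exact zero_lt_iff.2 ((Valuation.ne_zero_iff _).2 hj0)
      · refine lt_of_le_of_ne (hmax i (by simpa using h)) fun he => ?_
        exact (Finset.mem_erase.1 hi).1 (hdist i j h hj0 he)
    have h1 : O.valuation (∑ i, z i) = O.valuation (z j) := by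
      rw [hsplit, Valuation.map_add_eq_of_lt_left _ hrest]
    rw [hsum, map_zero] at h1
    exact (Valuation.ne_zero_iff _).2 hj0 h1.symm
  have hfin : Module.Finite (IntermediateField.adjoin k {x}) K :=
    Module.finite_of_finrank_pos (by rw [hK]; exact hm)
  have hcard := hli.fintype_card_le_finrank
  rw [hK, Fintype.card_prod, Fintype.card_fin, Fintype.card_fin] at hcard
  omega

end Pool.Agent.ETU
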