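import Pool.Agent.ETU.KDef
import Pool.Agent.CS2.RatB

/-!
# MODULE EVT-KSpA : specialisation at a `k`-rational point

`O` a place with residue field `k` and `x` with `vo O x = -m`, `m ≠ 0`: the residue of
`h ^ m * x ^ (vo O h)` is a homomorphism `χ : Kˣ →* kˣ`, and `sy a b ↦ sy (χ a) (χ b)` is well defined
on `K_2 ⊗ ℚ`.
-/

open scoped BigOperators Polynomial
open Polynomial

namespace Pool.Agent.ETU

open Pool.Agent.CST Pool.Agent.Helper11 Pool.Agent.ISI Pool.Agent.CSG

section KSpA

variable {k K : Type} [Field k] [CharZero k] [FiniteDimensional ℚ k] [Field K]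
    [CharZero K] [Algebra k K] {O : ValuationSubring K}

omit [CharZero K] [CharZero k] [FiniteDimensional ℚ k] in
private theorem KSpA_mul {u v : K} {c d : k} (hu : O.valuation u ≤ 1)
    (hd : O.valuation (algebraMap k K d) ≤ 1)
    (h1 : O.valuation (u - algebraMap k K c) < 1) (h2 : O.valuation (v - algebraMap k K d) < 1) :
    O.valuation (u * v - algebraMap k K (c * d)) < 1 := by
  have h3 : u * v - algebraMap k K (c * d) =
      u * (v - algebraMap k K d) + algebraMap k K d * (u - algebraMap k K c) := by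
    rw [map_mul]
    ring
  rw [h3]
  refine Valuation.map_add_lt _ ?_ ?_
  · rw [map_mul]
    exact (mul_le_mul' hu le_rfl).trans_lt (by rwa [one_mul])
  · rw [map_mul]
    exact (mul_le_mul' hd le_rfl).trans_lt (by rwa [one_mul])

private theorem KSpA_const (hO : IsPl O) (c : k) : O.valuation (algebraMap k K c) ≤ 1 :=
  (O.valuation_le_one_iff _).2 (const_mem (Algebra.IsAlgebraic.of_finite ℚ k) hO c)

private theorem KSpA_unit (hO : IsPl O) {c : k} (hc : c ≠ 0) :
    O.valuation (algebraMap k K c) = 1 := by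
  refine le_antisymm (KSpA_const hO c) ?_
  have h1 := KSpA_const (K := K) hO c⁻¹
  rw [map_inv₀, map_inv₀] at h1
  have h2 : (0 : _) < O.valuation (algebraMap k K c) := by
    rw [zero_lt_iff]
    exact (Valuation.ne_zero_iff _).2 ((_root_.map_ne_zero _).2 hc)
  rwa [inv_le_one₀ h2] at h1

private theorem KSpA_uniq (hO : IsPl O) {u : K} {c d : k}
    (h1 : O.valuation (u - algebraMap k K c) < 1) (h2 : O.valuation (u - algebraMap k K d) < 1) :
    c = d := by
  by_contra hne
  have h3 : O.valuation (algebraMap k K (c - d)) = 1 := KSpA_unit hO (sub_ne_zero.2 hne)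
  have h4 : algebraMap k K (c - d) = (u - algebraMap k K d) - (u - algebraMap k K c) := by
    rw [map_sub]
    ring
  rw [h4] at h3
  have h5 := Valuation.map_sub O.valuation (u - algebraMap k K d) (u - algebraMap k K c)
  rw [h3] at h5
  exact absurd (h5.trans_lt (max_lt h2 h1)) (lt_irrefl _)

omit [FiniteDimensional ℚ k] [CharZero k] [CharZero K] in
private theorem KSpA_ne {u : K} {c : k} (hu : O.valuation u = 1)
    (h1 : O.valuation (u - algebraMap k K c) < 1) : c ≠ 0 := by
  rintro rfl
  rw [map_zero, sub_zero, hu] at h1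
  exact lt_irrefl _ h1

/-- the Steinberg relation for the specialised symbol -/
private theorem KSpA_st {x : Kˣ} {m : ℕ} (hO : IsPl O)
    (hr : ∀ y ∈ O, ∃ c : k, O.valuation (y - algebraMap k K c) < 1)
    (χ : Kˣ →* kˣ)
    (hχ : ∀ h : Kˣ, O.valuation (((h ^ m * x ^ (vo O h) : Kˣ) : K) - algebraMap k K (χ h)) < 1)
    {a b : Kˣ} (hab : (a : K) + b = 1) : sy (χ a) (χ b) = 0 := by
  -- if `vo O a > 0` then `χ b = 1`
  have key : ∀ a b : Kˣ, (a : K) + b = 1 → 0 < vo O a → χ b = 1 := by
    intro a b hab ha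
    have hva : O.valuation (a : K) < 1 := (vo_pos_iff hO a).1 ha
    have hb : (b : K) = 1 - a := by rw [← hab]; ring
    have hvb : O.valuation (b : K) = 1 := by
      rw [hb]
      exact Valuation.map_one_sub_of_lt _ hva
    have h0 : vo O b = 0 := (vo_eq_zero_iff hO b).2 hvb
    have h1 : ∀ n : ℕ, O.valuation ((b : K) ^ n - 1) < 1 := by
      intro n
      induction n with
      | zero => rw [pow_zero, sub_self, map_zero]; exact zero_lt_one
      | succ n ih =>
        have h2 : (b : K) ^ (n + 1) - 1 = (b : K) * ((b : K) ^ n - 1) + -(a : K) := by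
          rw [hb]
          ring
        rw [h2]
        refine Valuation.map_add_lt _ ?_ ?_
        · rw [map_mul, hvb, one_mul]
          exact ih
        · rw [Valuation.map_neg]
          exact hva
    have h2 := hχ b
    rw [h0, zpow_zero, mul_one, Units.val_pow_eq_pow_val] at h2
    have h3 := h1 m
    rw [← map_one (algebraMap k K)] at h3
    exact Units.ext (KSpA_uniq hO h2 h3)
  have key2 : ∀ a b : Kˣ, (a : K) + b = 1 → 0 < vo O a → sy (χ a) (χ b) = 0 := by
    intro a b hab ha
    rw [key a b hab ha, sy_one_right]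
  rcases lt_trichotomy (vo O a) 0 with h1 | h1 | h1
  · have h2 : ((a⁻¹ : Kˣ) : K) + ((-1 * (b * a⁻¹) : Kˣ) : K) = 1 := by
      rw [Units.val_mul, Units.val_mul, Units.val_neg, Units.val_one, Units.val_inv_eq_inv_val]
      have hf0 := a.ne_zero
      have hg : (b : K) = 1 - a := by rw [← hab]; ring
      rw [hg]
      field_simp
      ring
    have h3 : 0 < vo O a⁻¹ := by
      have h4 := vo_zpow O a (-1)
      rw [zpow_neg_one] at h4
      omega
    have h4 := key _ _ h2 h3
    rw [map_mul, map_mul, map_inv] at h4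
    have h5 : χ (-1) ^ 2 = 1 := by
      rw [← map_pow, neg_one_sq, map_one]
    have h6 : χ a = χ (-1) * χ b := by
      rw [← mul_assoc, mul_inv_eq_one] at h4
      exact h4.symm
    rw [h6, sy_mul_left, sy_self, add_zero, sy_anti, sy_torsion two_pos h5, neg_zero]
  · rcases lt_trichotomy (vo O b) 0 with h2 | h2 | h2
    · exfalso
      have h3 : (b : K) ∈ O := by
        have h4 : (b : K) = 1 - a := by rw [← hab]; ring
        rw [h4]
        exact sub_mem O.one_mem ((vo_nonneg_iff hO a).1 h1.ge)
      have h4 := (vo_nonneg_iff hO b).2 h3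
      omega
    · have hva : O.valuation (a : K) = 1 := (vo_eq_zero_iff hO a).1 h1
      have hvb : O.valuation (b : K) = 1 := (vo_eq_zero_iff hO b).1 h2
      obtain ⟨c, hc⟩ := hr a ((vo_nonneg_iff hO a).1 h1.ge)
      have hd : O.valuation ((b : K) - algebraMap k K (1 - c)) < 1 := by
        have h3 : (b : K) - algebraMap k K (1 - c) = -((a : K) - algebraMap k K c) := by
          rw [map_sub, map_one, ← hab]
          ring
        rw [h3, Valuation.map_neg]
        exact hc
      have hc0 := KSpA_ne hva hc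
      have hd0 := KSpA_ne hvb hd
      have hp : ∀ (u : Kˣ) (e : k), O.valuation (u : K) = 1 →
          O.valuation ((u : K) - algebraMap k K e) < 1 → ∀ n : ℕ,
          O.valuation ((u : K) ^ n - algebraMap k K (e ^ n)) < 1 := by
        intro u e hu he n
        induction n with
        | zero => rw [pow_zero, pow_zero, map_one, sub_self, map_zero]; exact zero_lt_one
        | succ n ih =>
          rw [pow_succ, pow_succ]
          refine KSpA_mul ?_ (KSpA_const hO e) ih he
          rw [map_pow, hu, one_pow]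
      have hq : ∀ (u : Kˣ) (e : k) (he0 : e ≠ 0), vo O u = 0 →
          O.valuation ((u : K) - algebraMap k K e) < 1 → χ u = (Units.mk0 e he0) ^ m := by
        intro u e he0 hu he
        have h3 := hχ u
        rw [hu, zpow_zero, mul_one, Units.val_pow_eq_pow_val] at h3
        apply Units.ext
        rw [Units.val_pow_eq_pow_val, Units.val_mk0]
        exact KSpA_uniq hO h3 (hp u e ((vo_eq_zero_iff hO u).1 hu) he m)
      rw [hq a c hc0 h1 hc, hq b (1 - c) hd0 h2 hd, ← zpow_natCast, ← zpow_natCast,
        sy_zpow_left, sy_zpow_right, sy_steinberg (u := Units.mk0 c hc0) (by simp), smul_zero,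
        smul_zero]
    · rw [sy_anti, key2 b a (by rw [add_comm]; exact hab) h2, neg_zero]
  · exact key2 a b hab h1

end KSpA

theorem exists_spec {k K : Type} [Field k] [CharZero k] [FiniteDimensional ℚ k] [Field K]
    [CharZero K] [Algebra k K] {x : Kˣ} {m : ℕ} (hm : 0 < m) {O : ValuationSubring K} (hO : IsPl O)
    (hr : ∀ y ∈ O, ∃ c : k, O.valuation (y - algebraMap k K c) < 1) (hx : vo O x = -m) :
    ∃ (χ : Kˣ →* kˣ) (S : KMQ K 2 →ₗ[ℚ] KMQ k 2), (∀ a b : Kˣ, S (sy a b) = sy (χ a) (χ b)) ∧
      ∀ h : Kˣ, O.valuation (((h ^ m * x ^ (vo O h) : Kˣ) : K) - algebraMap k K (χ h)) < 1 := by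
  have h0 : ∀ h : Kˣ, O.valuation ((h ^ m * x ^ (vo O h) : Kˣ) : K) = 1 := by
    intro h
    rw [← vo_eq_zero_iff hO, vo_mul, vo_zpow, hx, ← zpow_natCast, vo_zpow]
    ring
  have h1 : ∀ h : Kˣ, ∃ c : k,
      O.valuation (((h ^ m * x ^ (vo O h) : Kˣ) : K) - algebraMap k K c) < 1 := fun h =>
    hr _ ((O.valuation_le_one_iff _).1 (h0 h).le)
  choose c hc using h1
  have hc0 : ∀ h, c h ≠ 0 := fun h => KSpA_ne (h0 h) (hc h)
  let χ : Kˣ →* kˣ := MonoidHom.mk' (fun h => Units.mk0 (c h) (hc0 h)) (by
    intro a b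
    apply Units.ext
    rw [Units.val_mul, Units.val_mk0, Units.val_mk0, Units.val_mk0]
    refine KSpA_uniq hO (hc (a * b)) ?_
    have h2 : ((a * b) ^ m * x ^ (vo O (a * b)) : Kˣ) =
        (a ^ m * x ^ (vo O a)) * (b ^ m * x ^ (vo O b)) := by
      rw [vo_mul, zpow_add, mul_pow]
      exact mul_mul_mul_comm _ _ _ _
    rw [h2, Units.val_mul]
    exact KSpA_mul (h0 a).le (KSpA_const hO _) (hc a) (hc b))
  have hχ : ∀ h : Kˣ,
      O.valuation (((h ^ m * x ^ (vo O h) : Kˣ) : K) - algebraMap k K (χ h)) < 1 := fun h => hc h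
  obtain ⟨S, hS⟩ := KMQ.exists_lift (R := K) (d := 2) (V := KMQ k 2)
    (fun f => sy (χ (f 0)) (χ (f 1))) (by
      intro f i u v
      fin_cases i
      · simp only [Fin.zero_eta, Fin.isValue, Function.update_self, ne_eq, one_ne_zero,
          not_false_eq_true, Function.update_of_ne, map_mul]
        exact sy_mul_left _ _ _
      · simp only [Fin.mk_one, Fin.isValue, Function.update_self, ne_eq, zero_ne_one,
          not_false_eq_true, Function.update_of_ne, map_mul]
        exact sy_mul_right _ _ _) (by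
      intro f i j hij h
      fin_cases i <;> fin_cases j
      · exact absurd rfl hij
      · exact KSpA_st hO hr χ hχ h
      · exact KSpA_st hO hr χ hχ (a := f 0) (b := f 1) (by rw [add_comm]; exact h)
      · exact absurd rfl hij)
  refine ⟨χ, S, fun a b => ?_, hχ⟩
  change S (symM ![a, b]) = _
  rw [hS]
  rfl

end Pool.Agent.ETU
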