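import Pool.Agent.CS2.RatB

/-!
# MODULE EVT-KTrn : unramified elements of `K₂(k(X))` at two places over the same point

A multiple of `β` is `{P, g}` plus symbols of quotients of polynomials prime to `P`; the tame symbol at `O` shows that
`g ^ m` is `1` at `O`, so `P` divides `g₁ ^ m - g₂ ^ m`, and a Steinberg relation removes `{P, g}`.
-/

open scoped BigOperators Polynomial
open Polynomial

namespace Pool.Agent.ETU

open Pool.Agent.CST Pool.Agent.Helper11 Pool.Agent.ISI Pool.Agent.CSG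

section

variable {k K : Type} [Field k] [CharZero k] [Field K] [CharZero K] [Algebra k K]

/-- the group of the quotients of polynomials prime to `P` -/
private noncomputable def ktrnG (x : K) (P : k[X]) : Subgroup Kˣ :=
  Subgroup.closure {u | ∃ g : k[X], g ≠ 0 ∧ ¬ P ∣ g ∧ u = pqk x g}

omit [CharZero k] [CharZero K] in
private theorem ktrn_mem {x : K} {P g : k[X]} (hg : g ≠ 0) (hPg : ¬ P ∣ g) :
    pqk x g ∈ ktrnG x P := Subgroup.subset_closure ⟨g, hg, hPg, rfl⟩

omit [CharZero k] [CharZero K] in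
private theorem ktrn_quot {x : K} (hx : Transcendental k x) {P : k[X]} (hP : Irreducible P)
    {u : Kˣ} (hu : u ∈ ktrnG x P) :
    ∃ g₁ g₂ : k[X], g₁ ≠ 0 ∧ g₂ ≠ 0 ∧ ¬ P ∣ g₁ ∧ ¬ P ∣ g₂ ∧ u = pqk x g₁ / pqk x g₂ := by
  have h1 : pqk x (1 : k[X]) = 1 := by
    apply Units.ext
    rw [pqk_val hx one_ne_zero, map_one, Units.val_one]
  have hP1 : ¬ P ∣ (1 : k[X]) := fun h => hP.not_isUnit (isUnit_of_dvd_one h)
  unfold ktrnG at hu
  induction hu using Subgroup.closure_induction with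
  | mem u hu =>
    obtain ⟨g, hg, hPg, rfl⟩ := hu
    exact ⟨g, 1, hg, one_ne_zero, hPg, hP1, by rw [h1, div_one]⟩
  | one => exact ⟨1, 1, one_ne_zero, one_ne_zero, hP1, hP1, by rw [h1, div_one]⟩
  | mul u v _ _ hu hv =>
    obtain ⟨g₁, g₂, a1, a2, a3, a4, rfl⟩ := hu
    obtain ⟨f₁, f₂, b1, b2, b3, b4, rfl⟩ := hv
    refine ⟨g₁ * f₁, g₂ * f₂, mul_ne_zero a1 b1, mul_ne_zero a2 b2,
      fun h => (hP.prime.dvd_or_dvd h).elim a3 b3, fun h => (hP.prime.dvd_or_dvd h).elim a4 b4, ?_⟩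
    rw [pqk_mul hx a1 b1, pqk_mul hx a2 b2, div_mul_div_comm]
  | inv u _ hu =>
    obtain ⟨g₁, g₂, a1, a2, a3, a4, rfl⟩ := hu
    exact ⟨g₂, g₁, a2, a1, a4, a3, by rw [inv_div]⟩

/-- the combinations of symbols of such quotients -/
private noncomputable def ktrnW (x : K) (P : k[X]) : Submodule ℚ (KMQ K 2) :=
  Submodule.span ℚ {z | ∃ a ∈ ktrnG x P, ∃ b ∈ ktrnG x P, z = sy a b}

private theorem ktrn_aeval (hk : Algebra.IsAlgebraic ℚ k) {O : ValuationSubring K} (hO : IsPl O)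
    {h : K} (hh : h ∈ O) (Q : k[X]) : aeval h Q ∈ O := by
  rw [aeval_eq_sum_range]
  refine O.toSubring.sum_mem fun i _ => ?_
  rw [Algebra.smul_def]
  exact O.mul_mem _ _ (const_mem hk hO _) (O.toSubring.pow_mem hh i)

private theorem ktrn_val (hk : Algebra.IsAlgebraic ℚ k) {O : ValuationSubring K} (hO : IsPl O)
    {x : K} (hxO : x ∈ O) {P : k[X]} (hP : Irreducible P) (hv : O.valuation (aeval x P) < 1)
    {g : k[X]} (hg : ¬ P ∣ g) : O.valuation (aeval x g) = 1 := by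
  refine le_antisymm ((O.valuation_le_one_iff _).2 (ktrn_aeval hk hO hxO g)) ?_
  by_contra hcon
  push Not at hcon
  obtain ⟨a, b, hab⟩ := (hP.coprime_iff_not_dvd).2 hg
  have h5 : aeval x a * aeval x P + aeval x b * aeval x g = 1 := by
    rw [← map_mul, ← map_mul, ← map_add, hab, map_one]
  have h6 : O.valuation (aeval x a * aeval x P + aeval x b * aeval x g) < 1 := by
    apply Valuation.map_add_lt
    · rw [map_mul]
      exact mul_lt_one_of_nonneg_of_lt_one_right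
        ((O.valuation_le_one_iff _).2 (ktrn_aeval hk hO hxO a)) zero_le hv
    · rw [map_mul]
      exact mul_lt_one_of_nonneg_of_lt_one_right
        ((O.valuation_le_one_iff _).2 (ktrn_aeval hk hO hxO b)) zero_le hcon
  rw [h5, map_one] at h6
  exact lt_irrefl _ h6

private theorem ktrn_le (hk : Algebra.IsAlgebraic ℚ k) {O : ValuationSubring K} (hO : IsPl O)
    {x : K} (hx : Transcendental k x) (hxO : x ∈ O) {P : k[X]} (hP : Irreducible P)
    (hv : O.valuation (aeval x P) < 1) : ktrnG x P ≤ O.unitGroup := by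
  unfold ktrnG
  rw [Subgroup.closure_le]
  rintro _ ⟨g, hg, hPg, rfl⟩
  rw [SetLike.mem_coe, ValuationSubring.mem_unitGroup_iff, pqk_val hx hg]
  exact ktrn_val hk hO hxO hP hv hPg

omit [CharZero K] in
private theorem ktrn_unr {O : ValuationSubring K} {a b : Kˣ} (ha : a ∈ O.unitGroup)
    (hb : b ∈ O.unitGroup) : sy a b ∈ unrM O 2 := by
  refine Submodule.subset_span ⟨![a, b], fun i => ?_, rfl⟩
  fin_cases i
  · exact ha
  · exact hb

private theorem ktrn_Wle (hk : Algebra.IsAlgebraic ℚ k) {O : ValuationSubring K} (hO : IsPl O)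
    {x : K} (hx : Transcendental k x) (hxO : x ∈ O) {P : k[X]} (hP : Irreducible P)
    (hv : O.valuation (aeval x P) < 1) : ktrnW x P ≤ unrM O 2 := by
  unfold ktrnW
  rw [Submodule.span_le]
  rintro _ ⟨a, ha, b, hb, rfl⟩
  exact ktrn_unr (ktrn_le hk hO hx hxO hP hv ha) (ktrn_le hk hO hx hxO hP hv hb)

omit [CharZero k] [CharZero K] in
private theorem ktrn_one_left (u : Kˣ) : sy 1 u = 0 := by
  rw [sy_anti, sy_one_right, neg_zero]

omit [CharZero k] [CharZero K] in
private theorem ktrn_pow_right (u v : Kˣ) (n : ℕ) : sy u (v ^ n) = (n : ℚ) • sy u v := by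
  have h := sy_zpow_right u v (n : ℤ)
  rw [zpow_natCast, Int.cast_natCast] at h
  exact h

omit [CharZero k] [CharZero K] in
private theorem ktrn_pow_left (u v : Kˣ) (n : ℕ) : sy (v ^ n) u = (n : ℚ) • sy v u := by
  have h := sy_zpow_left u v (n : ℤ)
  rw [zpow_natCast, Int.cast_natCast] at h
  exact h

/-- the decomposition -/
private theorem ktrn_dec {x : K} (hx : Transcendental k x) {P : k[X]} (hP : Irreducible P)
    {β : KMQ K 2} (hβ : β ∈ LPk k x) :
    ∃ N : ℕ, N ≠ 0 ∧ ∃ g ∈ ktrnG x P, (N : ℚ) • β - sy (pqk x P) g ∈ ktrnW x P := by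
  have hfac : ∀ p : k[X], p ≠ 0 → ∃ (i : ℕ) (a : k[X]), a ≠ 0 ∧ ¬ P ∣ a ∧
      pqk x p = pqk x P ^ i * pqk x a := by
    intro p hp
    obtain ⟨i, a, hPa, hpa⟩ := WfDvdMonoid.max_power_factor hp hP
    have ha : a ≠ 0 := by
      rintro rfl
      exact hp (by rw [hpa, mul_zero])
    exact ⟨i, a, ha, hPa, by rw [hpa, pqk_mul hx (pow_ne_zero _ hP.ne_zero) ha, pqk_pow hx hP.ne_zero]⟩
  unfold LPk at hβ
  induction hβ using Submodule.span_induction with
  | mem y hy =>
    obtain ⟨p, q, hp, hq, rfl⟩ := hy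
    obtain ⟨i, a, ha, hPa, e1⟩ := hfac p hp
    obtain ⟨j, b, hb, hPb, e2⟩ := hfac q hq
    refine ⟨1, one_ne_zero, pqk x b ^ i / pqk x a ^ j,
      div_mem (pow_mem (ktrn_mem hb hPb) _) (pow_mem (ktrn_mem ha hPa) _), ?_⟩
    have h1 : ((1 : ℕ) : ℚ) • sy (pqk x p) (pqk x q) -
        sy (pqk x P) (pqk x b ^ i / pqk x a ^ j) = sy (pqk x a) (pqk x b) := by
      rw [e1, e2, sy_mul_left, sy_mul_right, sy_mul_right, ktrn_pow_left, ktrn_pow_left,
        ktrn_pow_right, ktrn_pow_right, sy_self, sy_div_right, ktrn_pow_right, ktrn_pow_right,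
        sy_anti (pqk x a) (pqk x P), Nat.cast_one, one_smul, smul_zero, smul_zero, smul_neg]
      abel
    rw [h1]
    exact Submodule.subset_span ⟨_, ktrn_mem ha hPa, _, ktrn_mem hb hPb, rfl⟩
  | zero =>
    refine ⟨1, one_ne_zero, 1, one_mem _, ?_⟩
    rw [smul_zero, sy_one_right, sub_zero]
    exact zero_mem _
  | add y z _ _ hy hz =>
    obtain ⟨N, hN, g, hg, h1⟩ := hy
    obtain ⟨M, hM, f, hf, h2⟩ := hz
    refine ⟨N * M, mul_ne_zero hN hM, g ^ M * f ^ N, mul_mem (pow_mem hg _) (pow_mem hf _), ?_⟩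
    have h3 : ((N * M : ℕ) : ℚ) • (y + z) - sy (pqk x P) (g ^ M * f ^ N) =
        (M : ℚ) • ((N : ℚ) • y - sy (pqk x P) g) + (N : ℚ) • ((M : ℚ) • z - sy (pqk x P) f) := by
      rw [sy_mul_right, ktrn_pow_right, ktrn_pow_right, Nat.cast_mul]
      module
    rw [h3]
    exact add_mem (Submodule.smul_mem _ _ h1) (Submodule.smul_mem _ _ h2)
  | smul c y _ hy =>
    obtain ⟨N, hN, g, hg, h1⟩ := hy
    refine ⟨c.den * N, mul_ne_zero c.den_nz hN, g ^ c.num, zpow_mem hg _, ?_⟩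
    have h3 : ((c.den * N : ℕ) : ℚ) • (c • y) - sy (pqk x P) (g ^ c.num) =
        (c.num : ℚ) • ((N : ℚ) • y - sy (pqk x P) g) := by
      have h4 : (c.den : ℚ) * c = c.num := by
        rw [mul_comm]
        exact Rat.mul_den_eq_num c
      rw [sy_zpow_right, Nat.cast_mul, smul_sub, ← h4]
      module
    rw [h3]
    exact Submodule.smul_mem _ _ h1

end

theorem unr_transferK {k K : Type} [Field k] [CharZero k] [FiniteDimensional ℚ k] [Field K]
    [CharZero K] [Algebra k K] {x : K} (hx : Transcendental k x) {P : k[X]}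
    (hP : P.Monic) (hP' : Irreducible P) {O O' : ValuationSubring K} (hO : IsPl O) (hO' : IsPl O')
    (hxO : x ∈ O) (hxO' : x ∈ O') (hv : O.valuation (aeval x P) < 1)
    (hv' : O'.valuation (aeval x P) < 1) {β : KMQ K 2} (hβ : β ∈ LPk k x) (h : β ∈ unrM O 2) :
    β ∈ unrM O' 2 := by
  have hk : Algebra.IsAlgebraic ℚ k := Algebra.IsAlgebraic.of_finite ℚ k
  obtain ⟨N, hN, g, hg, hW⟩ := ktrn_dec hx hP' hβ
  have hNQ : (N : ℚ) ≠ 0 := by exact_mod_cast hN
  -- the symbol `{P, g}` at `O`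
  have h1 : sy (pqk x P) g ∈ unrM O 2 := by
    have h2 := sub_mem (Submodule.smul_mem _ (N : ℚ) h) (ktrn_Wle hk hO hx hxO hP' hv hW)
    rwa [sub_sub_cancel] at h2
  have hdvr := hO.1
  obtain ⟨V, _, _, χ, τ, ord, p, hord, t1, t2, t3⟩ := exists_tameT O
  have hgO : g ∈ O.unitGroup := ktrn_le hk hO hx hxO hP' hv hg
  have hgO' : g ∈ O'.unitGroup := ktrn_le hk hO' hx hxO' hP' hv' hg
  have h4 := t2 _ h1
  rw [t1 _ g hgO] at h4
  have h5 : 0 < ord (pqk x P) := (hord.lt_one_iff _).1 (by rw [pqk_val hx hP'.ne_zero]; exact hv)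
  have h6 : χ g = 0 := by
    rcases smul_eq_zero.1 h4 with h6 | h6
    · exfalso
      have h7 : ord (pqk x P) = 0 := by exact_mod_cast h6
      omega
    · exact h6
  obtain ⟨m, hm, h7⟩ := t3 g hgO h6
  have hmQ : (m : ℚ) ≠ 0 := by exact_mod_cast hm
  obtain ⟨g₁, g₂, a1, a2, a3, a4, hgq⟩ := ktrn_quot hx hP' hg
  -- it suffices to treat `{P, g}` at `O'`
  suffices hs : sy (pqk x P) g ∈ unrM O' 2 by
    have h8 := add_mem (ktrn_Wle hk hO' hx hxO' hP' hv' hW) hs
    rw [sub_add_cancel] at h8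
    have h9 := Submodule.smul_mem _ (N : ℚ)⁻¹ h8
    rwa [smul_smul, inv_mul_cancel₀ hNQ, one_smul] at h9
  by_cases heq : g₁ ^ m = g₂ ^ m
  · have h8 : g ^ m = 1 := by
      rw [hgq, div_pow, ← pqk_pow hx a1, ← pqk_pow hx a2, heq, div_self']
    rw [sy_torsion (Nat.pos_of_ne_zero hm) h8]
    exact zero_mem _
  · have hD : g₁ ^ m - g₂ ^ m ≠ 0 := sub_ne_zero.2 heq
    have hg2 : (pqk x g₂ : K) ≠ 0 := (pqk x g₂).ne_zero
    have hgm : ((g : Kˣ) : K) ^ m * (aeval x g₂) ^ m = (aeval x g₁) ^ m := by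
      rw [hgq, Units.val_div_eq_div_val, pqk_val hx a1, pqk_val hx a2, div_pow,
        div_mul_cancel₀ _ (pow_ne_zero _ (aeval_nek hx a2))]
    have hdvd : P ∣ g₁ ^ m - g₂ ^ m := by
      by_contra hcon
      have h8 := ktrn_val hk hO hxO hP' hv hcon
      have h9 : aeval x (g₁ ^ m - g₂ ^ m) = (((g : Kˣ) : K) ^ m - 1) * (aeval x g₂) ^ m := by
        rw [map_sub, map_pow, map_pow, ← hgm]
        ring
      rw [h9, map_mul, map_pow, ktrn_val hk hO hxO hP' hv a4, one_pow, mul_one] at h8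
      rw [h8] at h7
      exact lt_irrefl _ h7
    obtain ⟨e, s, hPs, hes⟩ := WfDvdMonoid.max_power_factor hD hP'
    have hs0 : s ≠ 0 := by
      rintro rfl
      exact hD (by rw [hes, mul_zero])
    have he : e ≠ 0 := by
      rintro rfl
      rw [pow_zero, one_mul] at hes
      exact hPs (hes ▸ hdvd)
    have heQ : (e : ℚ) ≠ 0 := by exact_mod_cast he
    -- the Steinberg relation
    set b : Kˣ := -1 * pqk x s / pqk x g₂ ^ m with hb
    have hst : sy (pqk x P ^ e * b) (g ^ m) = 0 := by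
      apply sy_steinberg
      have hA : aeval x g₁ ^ m - aeval x g₂ ^ m = aeval x P ^ e * aeval x s := by
        rw [← map_pow, ← map_pow, ← map_sub, hes, map_mul, map_pow]
      have hne : (aeval x g₂ : K) ^ m ≠ 0 := pow_ne_zero _ (aeval_nek hx a2)
      rw [hb, Units.val_mul, Units.val_pow_eq_pow_val, Units.val_div_eq_div_val, Units.val_mul,
        Units.val_neg, Units.val_one, Units.val_pow_eq_pow_val, Units.val_pow_eq_pow_val,
        pqk_val hx hP'.ne_zero, pqk_val hx hs0, pqk_val hx a2]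
      have hgm' : ((g : Kˣ) : K) ^ m = aeval x g₁ ^ m / aeval x g₂ ^ m :=
        eq_div_of_mul_eq hne hgm
      rw [hgm']
      field_simp
      linear_combination hA
    rw [sy_mul_left, ktrn_pow_left] at hst
    have hbO : b ∈ O'.unitGroup := by
      rw [hb]
      refine div_mem (mul_mem ?_ ?_) (pow_mem ?_ _)
      · rw [ValuationSubring.mem_unitGroup_iff, Units.val_neg, Units.val_one, Valuation.map_neg,
          map_one]
      · exact ktrn_le hk hO' hx hxO' hP' hv' (ktrn_mem hs0 hPs)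
      · exact ktrn_le hk hO' hx hxO' hP' hv' (ktrn_mem a2 a4)
    have h8 : (e : ℚ) • sy (pqk x P) (g ^ m) ∈ unrM O' 2 := by
      rw [eq_neg_of_add_eq_zero_left hst]
      exact neg_mem (ktrn_unr hbO (pow_mem hgO' _))
    rw [ktrn_pow_right, smul_smul] at h8
    have h9 := Submodule.smul_mem _ ((e : ℚ) * m)⁻¹ h8
    rwa [smul_smul, inv_mul_cancel₀ (mul_ne_zero heQ hmQ), one_smul] at h9

end Pool.Agent.ETU
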