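import Pool.Agent.ETU.KDef
import Pool.Agent.ETU.KTrn
import Pool.Agent.ETU.Sup

/-!
# The support of the corrected functions over `k`

If `∑ i, {u i, h i} + β` is unramified, `β` is a combination of symbols of polynomials in `x` over `k`,
and the `h i` are units at one place over `P`, then at another place over `P` either all `h i` are
units or the tame symbol shows that a monomial in the `u i` is a root of unity there.
-/

open scoped BigOperators Polynomial
open Polynomial

namespace Pool.Agent.ETU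

open Pool.Agent.CST Pool.Agent.Helper11 Pool.Agent.ISI Pool.Agent.CSG

private theorem KSup_map {k K : Type} [Field k] [Field K] [Algebra k K] (x : K) (p : ℤ[X]) :
    aeval x (p.map (Int.castRingHom k)) = aeval x p := by
  have h : Int.castRingHom k = algebraMap ℤ k := rfl
  rw [h, aeval_map_algebraMap]

private theorem KSup_mem {k K : Type} [Field k] [CharZero k] [FiniteDimensional ℚ k] [Field K]
    [CharZero K] [Algebra k K] {O : ValuationSubring K} (hO : IsPl O)
    {x : K} (hx : x ∈ O) (R : k[X]) : aeval x R ∈ O := by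
  induction R using Polynomial.induction_on' with
  | add p q hp hq =>
    rw [map_add]
    exact O.add_mem _ _ hp hq
  | monomial n a =>
    rw [aeval_monomial]
    exact O.mul_mem _ _ (const_mem (Algebra.IsAlgebraic.of_finite ℚ k) hO a) (pow_mem hx n)

private theorem KSup_unit {k K : Type} [Field k] [CharZero k] [FiniteDimensional ℚ k] [Field K]
    [CharZero K] [Algebra k K] {O : ValuationSubring K} (hO : IsPl O)
    {x : K} (hx : x ∈ O) {P R : k[X]} (hP : Irreducible P) (hv : O.valuation (aeval x P) < 1)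
    (hR : ¬ P ∣ R) : O.valuation (aeval x R) = 1 := by
  obtain ⟨a, b, hab⟩ := (hP.coprime_iff_not_dvd).2 hR
  refine le_antisymm ((O.valuation_le_one_iff _).2 (KSup_mem hO hx R)) (not_lt.1 fun h => ?_)
  have h1 : aeval x a * aeval x P + aeval x b * aeval x R = 1 := by
    rw [← map_mul, ← map_mul, ← map_add, hab, map_one]
  have key : ∀ s t : K, s ∈ O → O.valuation t < 1 → O.valuation (s * t) < 1 := by
    intro s t hs ht
    rw [map_mul]
    exact lt_of_le_of_lt (mul_le_of_le_one_left' ((O.valuation_le_one_iff _).2 hs)) ht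
  have h2 : O.valuation (aeval x a * aeval x P + aeval x b * aeval x R) < 1 :=
    Valuation.map_add_lt _ (key _ _ (KSup_mem hO hx a) hv) (key _ _ (KSup_mem hO hx b) h)
  rw [h1, map_one] at h2
  exact lt_irrefl _ h2

private theorem KSup_sy {K : Type} [Field K] {O : ValuationSubring K} {u h : Kˣ}
    (hu : O.valuation (u : K) = 1) (hh : O.valuation (h : K) = 1) : sy u h ∈ unrM O 2 := by
  refine Submodule.subset_span ⟨![u, h], ?_, rfl⟩
  intro i
  fin_cases i
  · exact (O.mem_unitGroup_iff u).2 hu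
  · exact (O.mem_unitGroup_iff h).2 hh

private theorem KSup_zpow {G : Type} [CommGroup G] (g : G) (d a : ℤ) :
    g ^ (d * a) = (g ^ a.toNat / g ^ (-a).toNat) ^ d := by
  have h1 : g ^ a = g ^ a.toNat / g ^ (-a).toNat := by
    rw [← zpow_natCast, ← zpow_natCast, div_eq_mul_inv, ← zpow_sub]
    congr 1
    omega
  rw [← h1, ← zpow_mul, mul_comm]

private theorem KSup_Ap {k K : Type} [Field k] [Field K] [Algebra k K] {x : K} {r : ℕ}
    {f : Fin r → ℤ[X]} {u : Fin r → Kˣ} (hu : ∀ i, (u i : K) = aeval x (f i)) (a : Fin r → ℤ) :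
    ((∏ i, u i ^ (a i).toNat : Kˣ) : K) =
      aeval x ((Ap f a).map (Int.castRingHom k)) := by
  rw [KSup_map, Ap, map_prod, Units.coe_prod]
  refine Finset.prod_congr rfl fun i _ => ?_
  rw [Units.val_pow_eq_pow_val, hu i, map_pow]

theorem supportK {k K : Type} [Field k] [CharZero k] [FiniteDimensional ℚ k] [Field K]
    [CharZero K] [Algebra k K] {x : K} (hx : Transcendental k x) {r : ℕ}
    {f : Fin r → ℤ[X]} (hf : ∀ i, f i ≠ 0) {u : Fin r → Kˣ} (hu : ∀ i, (u i : K) = aeval x (f i))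
    {z β : KMQ K 2} {N : ℕ} {h : Fin r → Kˣ} (hN : (N : ℚ) • z = ∑ i, sy (u i) (h i) + β)
    (hz : z ∈ geomM K) (hβ : β ∈ LPk k x) {P : k[X]} (hP : P.Monic) (hP' : Irreducible P)
    (hPf : ∀ i, ¬ P ∣ (f i).map (Int.castRingHom k)) {Q O' : ValuationSubring K} (hQ : IsPl Q)
    (hxQ : x ∈ Q) (hQv : Q.valuation (aeval x P) < 1) (hQh : ∀ i, vo Q (h i) = 0)
    (hO' : IsPl O') (hxO' : x ∈ O') (hv' : O'.valuation (aeval x P) < 1)
    (hne : ∃ i, vo O' (h i) ≠ 0) : ∃ a : Fin r → ℤ, Prim a ∧ RelK f a P := by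
  classical
  have _ := hf
  have hzu : ∀ O : ValuationSubring K, IsPl O → z ∈ unrM O 2 := by
    intro O hO
    unfold geomM at hz
    rw [Submodule.mem_iInf] at hz
    have h1 := hz O
    rw [Submodule.mem_iInf] at h1
    exact h1 hO
  have huu : ∀ O : ValuationSubring K, IsPl O → x ∈ O → O.valuation (aeval x P) < 1 →
      ∀ i, O.valuation (u i : K) = 1 := by
    intro O hO hxO hvO i
    rw [hu i, ← KSup_map (k := k)]
    exact KSup_unit hO hxO hP' hvO (hPf i)
  -- `β` is unramified at `Q`, hence at `O'`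
  have hβQ : β ∈ unrM Q 2 := by
    have h1 : β = (N : ℚ) • z - ∑ i, sy (u i) (h i) := by rw [hN]; abel
    rw [h1]
    refine Submodule.sub_mem _ (Submodule.smul_mem _ _ (hzu Q hQ)) (Submodule.sum_mem _ ?_)
    intro i _
    exact KSup_sy (huu Q hQ hxQ hQv i) ((vo_eq_zero_iff hQ (h i)).1 (hQh i))
  have hβO : β ∈ unrM O' 2 := unr_transferK hx hP hP' hQ hO' hxQ hxO' hQv hv' hβ hβQ
  have hy : ∑ i, sy (u i) (h i) ∈ unrM O' 2 := by
    have h1 : ∑ i, sy (u i) (h i) = (N : ℚ) • z - β := by rw [hN]; abel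
    rw [h1]
    exact Submodule.sub_mem _ (Submodule.smul_mem _ _ (hzu O' hO')) hβO
  -- the tame symbol at `O'`
  have hdvr := hO'.1
  obtain ⟨V, _, _, χ, τ, ord, p, hord, h1, h2, h3⟩ := exists_tameT O'
  have huO := huu O' hO' hxO' hv'
  have hug : ∀ i, u i ∈ O'.unitGroup := fun i => (O'.mem_unitGroup_iff _).2 (huO i)
  have hp1 : ord p = 1 := by
    apply hord.zpow_inj
    rw [← hord.eq p, zpow_one]
  have hχ : ∀ g ∈ O'.unitGroup, χ g = τ (sy p g) := by
    intro g hg
    rw [h1 p g hg, hp1, Int.cast_one, one_smul]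
  have hsum : ∑ i, (ord (h i) : ℚ) • χ (u i) = 0 := by
    have h4 := h2 _ hy
    rw [map_sum] at h4
    have h5 : ∀ i, τ (sy (u i) (h i)) = -((ord (h i) : ℚ) • χ (u i)) := by
      intro i
      rw [sy_anti, map_neg, h1 (h i) (u i) (hug i)]
    rw [Finset.sum_congr rfl fun i _ => h5 i, Finset.sum_neg_distrib, neg_eq_zero] at h4
    exact h4
  let g : Kˣ := ∏ i, u i ^ ord (h i)
  have hg : g ∈ O'.unitGroup := Subgroup.prod_mem _ fun i _ => zpow_mem (hug i) _
  have hχg : χ g = 0 := by
    have h6 : ∀ w : Kˣ, τ (sy p w) = (τ.toAddMonoidHom.comp (syR p)) (Additive.ofMul w) :=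
      fun w => rfl
    rw [hχ g hg, h6]
    change (τ.toAddMonoidHom.comp (syR p)) (Additive.ofMul (∏ i, u i ^ ord (h i))) = 0
    rw [ofMul_prod, map_sum, ← hsum]
    refine Finset.sum_congr rfl fun i _ => ?_
    rw [ofMul_zpow, map_zsmul, ← h6, ← hχ (u i) (hug i), Int.cast_smul_eq_zsmul]
  obtain ⟨m, hm, hm1⟩ := h3 g hg hχg
  -- the primitive vector
  have hv0 : (fun i => ord (h i)) ≠ 0 := by
    intro h0
    obtain ⟨i, hi⟩ := hne
    apply hi
    rw [vo_eq_zero_iff hO']
    exact (hord.eq_one_iff (h i)).2 (congrFun h0 i)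
  obtain ⟨d, a, hd, ha, hda⟩ := exists_prim _ hv0
  refine ⟨a, ha, d * m, Nat.mul_pos hd (Nat.pos_of_ne_zero hm), ?_⟩
  by_contra hnd
  have hA : ∀ b : Fin r → ℤ, O'.valuation (aeval x ((Ap f b).map (Int.castRingHom k))) = 1 := by
    intro b
    rw [← KSup_Ap (k := k) hu b]
    exact (O'.mem_unitGroup_iff _).1 (Subgroup.prod_mem _ fun i _ => pow_mem (hug i) _)
  have hval := KSup_unit hO' hxO' hP' hv' hnd
  have hgAB : (g : K) = (aeval x ((Ap f a).map (Int.castRingHom k)) /
      aeval x ((Ap f (-a)).map (Int.castRingHom k))) ^ d := by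
    have h7 : g = ((∏ i, u i ^ (a i).toNat) / ∏ i, u i ^ ((-a) i).toNat) ^ d := by
      change ∏ i, u i ^ ord (h i) = _
      rw [← Finset.prod_div_distrib, ← Finset.prod_pow]
      refine Finset.prod_congr rfl fun i _ => ?_
      have h8 : ord (h i) = (d : ℤ) * a i := hda i
      rw [h8, KSup_zpow, zpow_natCast]
      rfl
    rw [h7, Units.val_pow_eq_pow_val, Units.val_div_eq_div_val, KSup_Ap (k := k) hu a, KSup_Ap (k := k) hu (-a)]
  have hB := hA (-a)
  have hBne : aeval x ((Ap f (-a)).map (Int.castRingHom k)) ≠ 0 := by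
    intro h0
    rw [h0, map_zero] at hB
    exact zero_ne_one hB
  have h9 : aeval x (((Ap f a) ^ (d * m) - (Ap f (-a)) ^ (d * m)).map (Int.castRingHom k)) =
      ((g : K) ^ m - 1) * (aeval x ((Ap f (-a)).map (Int.castRingHom k))) ^ (d * m) := by
    rw [hgAB, Polynomial.map_sub, Polynomial.map_pow, Polynomial.map_pow, map_sub, map_pow,
      map_pow, ← pow_mul, div_pow, sub_mul, one_mul, div_mul_cancel₀ _ (pow_ne_zero _ hBne)]
  rw [h9, map_mul, map_pow, hB, one_pow, mul_one] at hval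
  rw [hval] at hm1
  exact lt_irrefl _ hm1

end Pool.Agent.ETU
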