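import Pool.Agent.ETU.TaB

/-!
# Adjoining a root of unity of order prime to `p` does not change the value group

`t ∈ L(ζ)` is `∑ c_i ζ^i`, and `‖t‖ = max ‖c_i‖`, by Lagrange interpolation at the conjugates of `ζ`: their differences
have norm one.
-/

open scoped BigOperators Polynomial
open Polynomial

namespace Pool.Agent.ETU

variable {p : ℕ} [Fact p.Prime]

private theorem tad_max (x y : PadicAlgCl p) : ‖x - y‖ ≤ max ‖x‖ ‖y‖ := by
  rw [sub_eq_add_neg, ← norm_neg y]
  exact IsUltrametricDist.norm_add_le_max x (-y)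

private theorem tad_natCast {n : ℕ} (hn : ¬ p ∣ n) : ‖((n : ℕ) : PadicAlgCl p)‖ = 1 := by
  have h1 : ((n : ℕ) : PadicAlgCl p) = algebraMap ℚ_[p] (PadicAlgCl p) ((n : ℕ) : ℚ_[p]) := by
    rw [map_natCast]
  rw [h1]
  refine (PadicAlgCl.norm_extends p _).trans ?_
  rw [Padic.norm_natCast_eq_one_iff]
  exact ((Fact.out : p.Prime).coprime_iff_not_dvd).2 hn

private theorem tad_norm_root {n : ℕ} (hn : n ≠ 0) {ξ : PadicAlgCl p} (h : ξ ^ n = 1) :
    ‖ξ‖ = 1 := by
  have h1 : ‖ξ‖ ^ n = 1 := by rw [← norm_pow, h, norm_one]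
  exact (pow_eq_one_iff_of_nonneg (norm_nonneg _) hn).1 h1

private theorem tad_sub_one {n : ℕ} (hn : ¬ p ∣ n) {ξ : PadicAlgCl p} (h : ξ ^ n = 1)
    (h1 : ξ ≠ 1) : ‖ξ - 1‖ = 1 := by
  have hn0 : n ≠ 0 := fun h0 => hn (h0 ▸ dvd_zero p)
  have hξ : ‖ξ‖ = 1 := tad_norm_root hn0 h
  refine le_antisymm ?_ (not_lt.1 fun hlt => ?_)
  · have h2 := tad_max ξ 1
    rwa [hξ, norm_one, max_self] at h2
  · have h2 : ∀ i : ℕ, ‖ξ ^ i - 1‖ ≤ ‖ξ - 1‖ := by
      intro i
      rw [← geom_sum_mul, norm_mul]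
      refine mul_le_of_le_one_left (norm_nonneg _) ?_
      refine IsUltrametricDist.norm_sum_le_of_forall_le_of_nonneg zero_le_one fun j _ => ?_
      rw [norm_pow, hξ, one_pow]
    have h3 : ∑ i ∈ Finset.range n, ξ ^ i = 0 := by
      have h4 := geom_sum_mul ξ n
      rw [h, sub_self] at h4
      exact (mul_eq_zero.1 h4).resolve_right (sub_ne_zero.2 h1)
    have h4 : ∑ i ∈ Finset.range n, (ξ ^ i - 1) = -((n : ℕ) : PadicAlgCl p) := by
      rw [Finset.sum_sub_distrib, h3, Finset.sum_const, Finset.card_range, nsmul_eq_mul, mul_one,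
        zero_sub]
    have h5 : ‖∑ i ∈ Finset.range n, (ξ ^ i - 1)‖ ≤ ‖ξ - 1‖ :=
      IsUltrametricDist.norm_sum_le_of_forall_le_of_nonneg (norm_nonneg _) fun i _ => h2 i
    rw [h4, norm_neg, tad_natCast hn] at h5
    exact absurd hlt (not_lt.2 h5)

private theorem tad_sub {n : ℕ} (hn : ¬ p ∣ n) {ξ η : PadicAlgCl p} (h : ξ ^ n = 1)
    (h' : η ^ n = 1) (hne : ξ ≠ η) : ‖ξ - η‖ = 1 := by
  have hn0 : n ≠ 0 := fun h0 => hn (h0 ▸ dvd_zero p)
  have hη : η ≠ 0 := by
    intro h0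
    rw [h0, zero_pow hn0] at h'
    exact zero_ne_one h'
  have h1 : ξ - η = (ξ / η - 1) * η := by
    rw [sub_mul, div_mul_cancel₀ _ hη, one_mul]
  rw [h1, norm_mul, tad_norm_root hn0 h', mul_one]
  refine tad_sub_one hn (by rw [div_pow, h, h', div_one]) ?_
  intro h2
  exact hne ((div_eq_one_iff_eq hη).1 h2)

private theorem tad_prod {ι : Type*} (s : Finset ι) (v : ι → PadicAlgCl p)
    (hv : ∀ j ∈ s, ‖v j‖ ≤ 1) (i : ℕ) :
    ‖(∏ j ∈ s, (X - C (v j)) : (PadicAlgCl p)[X]).coeff i‖ ≤ 1 := by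
  classical
  induction s using Finset.induction_on generalizing i with
  | empty =>
    rw [Finset.prod_empty, coeff_one]
    split_ifs
    · rw [norm_one]
    · rw [norm_zero]
      exact zero_le_one
  | insert a s ha ih =>
    have hv' : ∀ j ∈ s, ‖v j‖ ≤ 1 := fun j hj => hv j (Finset.mem_insert_of_mem hj)
    have hva : ‖v a‖ ≤ 1 := hv a (Finset.mem_insert_self _ _)
    rw [Finset.prod_insert ha, sub_mul, coeff_sub, coeff_C_mul]
    refine (tad_max _ _).trans (max_le ?_ ?_)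
    · cases i with
      | zero =>
        rw [coeff_X_mul_zero, norm_zero]
        exact zero_le_one
      | succ i =>
        rw [coeff_X_mul]
        exact ih hv' i
    · rw [norm_mul]
      exact mul_le_one₀ hva (norm_nonneg _) (ih hv' i)

private theorem tad_coeff {ι : Type*} [DecidableEq ι] (s : Finset ι) (v : ι → PadicAlgCl p)
    (hv : ∀ j ∈ s, ‖v j‖ ≤ 1) (hd : ∀ i ∈ s, ∀ j ∈ s, i ≠ j → ‖v i - v j‖ = 1)
    (F : (PadicAlgCl p)[X]) (hF : F.degree < s.card) {c : ℝ} (hc : 0 ≤ c)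
    (hFv : ∀ i ∈ s, ‖F.eval (v i)‖ ≤ c) (k : ℕ) : ‖F.coeff k‖ ≤ c := by
  have hinj : Set.InjOn v s := by
    intro i hi j hj hij
    by_contra hne
    have h1 := hd i hi j hj hne
    rw [hij, sub_self, norm_zero] at h1
    exact zero_ne_one h1
  rw [Lagrange.eq_interpolate hinj hF, Lagrange.interpolate_eq_sum, finsetSum_coeff]
  refine IsUltrametricDist.norm_sum_le_of_forall_le_of_nonneg hc fun i hi => ?_
  rw [coeff_C_mul, norm_mul, norm_div, norm_prod]
  have h1 : ∏ j ∈ s.erase i, ‖v i - v j‖ = 1 :=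
    Finset.prod_eq_one fun j hj =>
      hd i hi j (Finset.mem_of_mem_erase hj) (Finset.ne_of_mem_erase hj).symm
  rw [h1, div_one]
  have h2 := tad_prod (s.erase i) v (fun j hj => hv j (Finset.mem_of_mem_erase hj)) k
  exact (mul_le_of_le_one_right (norm_nonneg _) h2).trans (hFv i hi)

theorem Vp_adjoin_root {m : ℕ} {L : IntermediateField ℚ_[p] (PadicAlgCl p)} (hL : Vp m L)
    {ζ : PadicAlgCl p} {n : ℕ} (hn : ¬ p ∣ n) (hζ : ζ ^ n = 1) :
    Vp m ((IntermediateField.adjoin L {ζ}).restrictScalars ℚ_[p]) := by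
  classical
  have hn0 : n ≠ 0 := fun h0 => hn (h0 ▸ dvd_zero p)
  intro t ht ht0
  rw [IntermediateField.mem_restrictScalars] at ht
  have hint : IsIntegral L ζ :=
    ⟨X ^ n - 1, monic_X_pow_sub_C (1 : L) hn0, by
      rw [eval₂_sub, eval₂_X_pow, eval₂_one, hζ, sub_self]⟩
  obtain ⟨f, hf, hft⟩ := (IntermediateField.adjoin.powerBasis hint).exists_eq_aeval ⟨t, ht⟩
  rw [IntermediateField.adjoin.powerBasis_dim] at hf
  have hft' : t = aeval ζ f := by
    have h1 := congrArg (algebraMap (IntermediateField.adjoin L {ζ}) (PadicAlgCl p)) hft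
    rw [← aeval_algebraMap_apply, IntermediateField.adjoin.powerBasis_gen] at h1
    exact h1
  set q := minpoly L ζ with hq
  have hqm : q.Monic := minpoly.monic hint
  have hsep : q.Separable := (minpoly.irreducible hint).separable
  have hcard : Fintype.card (q.rootSet (PadicAlgCl p)) = q.natDegree :=
    card_rootSet_eq_natDegree hsep (IsAlgClosed.splits _)
  set s : Finset (PadicAlgCl p) := (q.rootSet (PadicAlgCl p)).toFinset with hs
  have hscard : s.card = q.natDegree := by rw [hs, Set.toFinset_card, hcard]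
  have hroot : ∀ z ∈ s, aeval z q = 0 := by
    intro z hz
    rw [hs, Set.mem_toFinset] at hz
    exact aeval_eq_zero_of_mem_rootSet hz
  have hzn : ∀ z ∈ s, z ^ n = 1 := by
    intro z hz
    have h1 : q ∣ (X ^ n - 1 : L[X]) := minpoly.dvd L ζ (by
      rw [map_sub, map_pow, aeval_X, map_one, hζ, sub_self])
    obtain ⟨g, hg⟩ := h1
    have h2 := congrArg (aeval z) hg
    rw [map_mul, hroot z hz, zero_mul, map_sub, map_pow, aeval_X, map_one] at h2
    exact sub_eq_zero.1 h2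
  have hval : ∀ z ∈ s, ‖(f.map (algebraMap L (PadicAlgCl p))).eval z‖ ≤ ‖t‖ := by
    intro z hz
    rw [eval_map_algebraMap]
    have h1 : q ∣ (minpoly L t).comp f := minpoly.dvd L ζ (by
      rw [aeval_comp, ← hft', minpoly.aeval])
    obtain ⟨g, hg⟩ := h1
    have h2 := congrArg (aeval z) hg
    rw [map_mul, hroot z hz, zero_mul, aeval_comp] at h2
    exact (norm_conj L h2).le
  have hdeg : (f.map (algebraMap L (PadicAlgCl p))).degree < s.card := by
    rw [hscard]
    refine (degree_map_le).trans_lt ?_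
    refine (degree_le_natDegree).trans_lt ?_
    exact_mod_cast hf
  have hco : ∀ k, ‖((f.coeff k : L) : PadicAlgCl p)‖ ≤ ‖t‖ := by
    intro k
    have h1 := tad_coeff s (fun z => z) (fun z hz => (tad_norm_root hn0 (hzn z hz)).le)
      (fun z hz z' hz' hne => tad_sub hn (hzn z hz) (hzn z' hz') hne)
      (f.map (algebraMap L (PadicAlgCl p))) hdeg (norm_nonneg t) hval k
    rw [coeff_map] at h1
    exact h1
  have hsum : t = ∑ k ∈ Finset.range (f.natDegree + 1),
      ((f.coeff k : L) : PadicAlgCl p) * ζ ^ k := by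
    rw [hft', aeval_eq_sum_range]
    refine Finset.sum_congr rfl fun k _ => ?_
    rw [Algebra.smul_def]
    rfl
  obtain ⟨k, _, hk⟩ := IsUltrametricDist.exists_norm_finsetSum_le_of_nonempty
    (t := Finset.range (f.natDegree + 1)) ⟨0, Finset.mem_range.2 (Nat.succ_pos _)⟩
    (fun k => ((f.coeff k : L) : PadicAlgCl p) * ζ ^ k)
  rw [← hsum, norm_mul, norm_pow, tad_norm_root hn0 hζ, one_pow, mul_one] at hk
  have hkt : ‖((f.coeff k : L) : PadicAlgCl p)‖ = ‖t‖ := le_antisymm (hco k) hk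
  rw [← hkt]
  refine hL _ (f.coeff k).2 ?_
  intro h0
  rw [h0, norm_zero] at hkt
  exact ht0 (norm_eq_zero.1 hkt.symm)

theorem root_mem {m : ℕ} {L : IntermediateField ℚ_[p] (PadicAlgCl p)} (hL : Vp m L)
    (hmax : ∀ L', L ≤ L' → Vp m L' → L' = L)
    {ζ : PadicAlgCl p} {n : ℕ} (hn : ¬ p ∣ n) (hζ : ζ ^ n = 1) : ζ ∈ L := by
  have h1 := hmax ((IntermediateField.adjoin L {ζ}).restrictScalars ℚ_[p]) ?_
    (Vp_adjoin_root hL hn hζ)
  · rw [← h1]
    exact IntermediateField.mem_adjoin_simple_self L ζ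
  · intro z hz
    rw [IntermediateField.mem_restrictScalars]
    exact (IntermediateField.adjoin L {ζ}).algebraMap_mem ⟨z, hz⟩

end Pool.Agent.ETU
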