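import Pool.Agent.ETU.Defs

/-!
# MODULE EVT-TaE : an element of norm one is close to a root of unity

`‖t‖ = 1` in `PadicAlgCl p`. The minimal polynomial of `t` has coefficients in `ℤ_[p]`; modulo `p` it divides some
`X ^ i - X ^ j`, `i < j`, so `‖t ^ i - t ^ j‖ < 1` and `‖t ^ (j - i) - 1‖ < 1`. Removing the powers of `p` from the
exponent gives `‖t ^ n - 1‖ < 1`, `p ∤ n`, and `X ^ n - 1` splits.
-/

open scoped BigOperators Polynomial
open Polynomial

namespace Pool.Agent.ETU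

variable {p : ℕ} [Fact p.Prime]

private noncomputable def tae_phi (p : ℕ) [Fact p.Prime] : ℤ_[p] →+* PadicAlgCl p :=
  (algebraMap ℚ_[p] (PadicAlgCl p)).comp PadicInt.Coe.ringHom

private lemma tae_phi_norm (a : ℤ_[p]) : ‖tae_phi p a‖ ≤ 1 := by
  have h : ‖tae_phi p a‖ = ‖(a : ℚ_[p])‖ := PadicAlgCl.norm_extends p (a : ℚ_[p])
  rw [h]
  exact PadicInt.norm_le_one a

private lemma tae_eval (R : ℤ_[p][X]) {w : PadicAlgCl p} (hw : ‖w‖ ≤ 1) :
    ‖eval₂ (tae_phi p) w R‖ ≤ 1 := by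
  induction R using Polynomial.induction_on' with
  | add f g hf hg =>
    rw [eval₂_add]
    exact (PadicAlgCl.isNonarchimedean p _ _).trans (max_le hf hg)
  | monomial n a =>
    rw [eval₂_monomial, norm_mul, norm_pow]
    exact mul_le_one₀ (tae_phi_norm a) (by positivity) (pow_le_one₀ (norm_nonneg _) hw)

private lemma tae_p : ‖((p : ℕ) : PadicAlgCl p)‖ < 1 := by
  have h : ‖((p : ℕ) : PadicAlgCl p)‖ = ‖((p : ℕ) : ℚ_[p])‖ := by
    rw [← PadicAlgCl.norm_extends p]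
    simp [PadicAlgCl.coe_eq]
  rw [h]
  exact Padic.norm_p_lt_one

private lemma tae_lt {R : ℤ_[p][X]} (hR : R.map (PadicInt.toZMod (p := p)) = 0)
    {w : PadicAlgCl p} (hw : ‖w‖ ≤ 1) : ‖eval₂ (tae_phi p) w R‖ < 1 := by
  have h1 : (C ((p : ℕ) : ℤ_[p])) ∣ R := by
    rw [C_dvd_iff_dvd_coeff]
    intro i
    have h2 : PadicInt.toZMod (p := p) (R.coeff i) = 0 := by
      rw [← coeff_map, hR, coeff_zero]
    have h3 : R.coeff i ∈ RingHom.ker (PadicInt.toZMod (p := p)) := h2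
    rw [PadicInt.ker_toZMod, PadicInt.maximalIdeal_eq_span_p, Ideal.mem_span_singleton] at h3
    exact h3
  obtain ⟨R', rfl⟩ := h1
  rw [eval₂_mul, eval₂_C, norm_mul]
  have h4 : tae_phi p ((p : ℕ) : ℤ_[p]) = ((p : ℕ) : PadicAlgCl p) := map_natCast _ _
  rw [h4]
  have h5 := tae_eval R' hw
  have h6 := tae_p (p := p)
  nlinarith [norm_nonneg (eval₂ (tae_phi p) w R'), norm_nonneg ((p : ℕ) : PadicAlgCl p)]

private lemma tae_pow {y : PadicAlgCl p} (hy : ‖y‖ ≤ 1) (l : ℕ) (h : ‖y ^ p ^ l - 1‖ < 1) :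
    ‖y - 1‖ < 1 := by
  obtain ⟨r, hr⟩ := exists_add_pow_prime_pow_eq (Fact.out : p.Prime) (X : ℤ_[p][X]) 1 l
  have hw : ‖y - 1‖ ≤ 1 := by
    have := PadicAlgCl.isNonarchimedean p y (-1)
    rw [norm_neg, norm_one] at this
    rw [sub_eq_add_neg]
    exact this.trans (max_le hy le_rfl)
  have h1 := congrArg (eval₂ (tae_phi p) (y - 1)) hr
  simp only [eval₂_pow, eval₂_add, eval₂_X, eval₂_one, eval₂_mul, one_pow, eval₂_natCast,
    sub_add_cancel, mul_one] at h1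
  have h2 : (y - 1) ^ p ^ l =
      (y ^ p ^ l - 1) + -(((p : ℕ) : PadicAlgCl p) * (y - 1) * eval₂ (tae_phi p) (y - 1) r) := by
    rw [h1]; ring
  have h3 : ‖(y - 1) ^ p ^ l‖ < 1 := by
    rw [h2]
    refine lt_of_le_of_lt (PadicAlgCl.isNonarchimedean p _ _) (max_lt h ?_)
    rw [norm_neg, norm_mul, norm_mul]
    have h5 := tae_eval r hw
    have h6 := tae_p (p := p)
    have h7 : ‖((p : ℕ) : PadicAlgCl p)‖ * ‖y - 1‖ < 1 := by
      nlinarith [norm_nonneg (y - 1), norm_nonneg ((p : ℕ) : PadicAlgCl p)]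
    have h8 : 0 ≤ ‖((p : ℕ) : PadicAlgCl p)‖ * ‖y - 1‖ := by positivity
    nlinarith [norm_nonneg (eval₂ (tae_phi p) (y - 1) r)]
  by_contra hcon
  rw [not_lt] at hcon
  rw [norm_pow] at h3
  exact absurd (one_le_pow₀ hcon) (not_le.mpr h3)

private lemma tae_powers (t : PadicAlgCl p) (ht : ‖t‖ = 1) :
    ∃ k : ℕ, 0 < k ∧ ‖t ^ k - 1‖ < 1 := by
  have hint : IsIntegral ℚ_[p] t := Algebra.IsIntegral.isIntegral t
  have hmon : (minpoly ℚ_[p] t).Monic := minpoly.monic hint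
  have hcoef : ∀ n : ℕ, ‖(minpoly ℚ_[p] t).coeff n‖ ≤ 1 := by
    rw [← spectralValue_le_one_iff hmon]
    have : spectralValue (minpoly ℚ_[p] t) = ‖t‖ := rfl
    rw [this, ht]
  have hlift : minpoly ℚ_[p] t ∈ lifts (PadicInt.Coe.ringHom (p := p)) := by
    rw [lifts_iff_coeff_lifts]
    intro n
    exact ⟨⟨_, hcoef n⟩, rfl⟩
  obtain ⟨g, hg, -, hgm⟩ := lifts_and_natDegree_eq_and_monic hlift hmon
  have hgt : eval₂ (tae_phi p) t g = 0 := by
    unfold tae_phi
    rw [← eval₂_map, hg]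
    exact minpoly.aeval ℚ_[p] t
  set G : (ZMod p)[X] := g.map (PadicInt.toZMod (p := p)) with hG
  have hGm : G.Monic := hgm.map _
  haveI : Module.Finite (ZMod p) (AdjoinRoot G) := hGm.finite_adjoinRoot
  haveI : Finite (AdjoinRoot G) := Module.finite_of_finite (ZMod p)
  obtain ⟨i, j, hij, he⟩ :=
    Finite.exists_ne_map_eq_of_infinite (fun i : ℕ => (AdjoinRoot.root G) ^ i)
  have key : ∀ i j : ℕ, i < j → (AdjoinRoot.root G) ^ i = (AdjoinRoot.root G) ^ j →
      ∃ k : ℕ, 0 < k ∧ ‖t ^ k - 1‖ < 1 := by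
    intro i j hij he
    have hd : G ∣ (X ^ j - X ^ i : (ZMod p)[X]) := by
      rw [← AdjoinRoot.mk_eq_zero, map_sub, map_pow, map_pow, AdjoinRoot.mk_X, he, sub_self]
    obtain ⟨H, hH⟩ := hd
    obtain ⟨h, rfl⟩ := Polynomial.map_surjective (PadicInt.toZMod (p := p))
      (ZMod.ringHom_surjective _) H
    have hz : (X ^ j - X ^ i - g * h : ℤ_[p][X]).map (PadicInt.toZMod (p := p)) = 0 := by
      rw [Polynomial.map_sub, Polynomial.map_sub, Polynomial.map_pow, Polynomial.map_pow,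
        Polynomial.map_mul, Polynomial.map_X, hH, sub_self]
    have h1 := tae_lt hz (w := t) ht.le
    rw [eval₂_sub, eval₂_sub, eval₂_mul, hgt, zero_mul, sub_zero, eval₂_X_pow,
      eval₂_X_pow] at h1
    refine ⟨j - i, by omega, ?_⟩
    have h2 : t ^ j - t ^ i = t ^ i * (t ^ (j - i) - 1) := by
      rw [mul_sub, mul_one, ← pow_add]
      congr 2
      omega
    rw [h2, norm_mul, norm_pow, ht, one_pow, one_mul] at h1
    exact h1
  rcases lt_or_gt_of_ne hij with h | h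
  · exact key i j h he
  · exact key j i h he.symm

theorem near_root (t : PadicAlgCl p) (ht : ‖t‖ = 1) :
    ∃ (ζ : PadicAlgCl p) (n : ℕ), ¬ p ∣ n ∧ ζ ^ n = 1 ∧ ‖t - ζ‖ < 1 := by
  obtain ⟨k, hk, hk1⟩ := tae_powers t ht
  obtain ⟨l, n, hn, rfl⟩ := Nat.exists_eq_pow_mul_and_not_dvd hk.ne' p
    (Fact.out : p.Prime).ne_one
  have h1 : ‖t ^ n - 1‖ < 1 := by
    apply tae_pow (l := l)
    · rw [norm_pow, ht, one_pow]
    · rw [← pow_mul, mul_comm n]
      exact hk1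
  have hn0 : n ≠ 0 := by
    rintro rfl
    exact hn (dvd_zero p)
  have hmon : (X ^ n - 1 : (PadicAlgCl p)[X]).Monic := by
    have := monic_X_pow_sub_C (1 : PadicAlgCl p) hn0
    rwa [C_1] at this
  have hs : Splits (X ^ n - 1 : (PadicAlgCl p)[X]) := IsAlgClosed.splits _
  have h2 := hs.eval_eq_prod_roots_of_monic hmon t
  simp only [eval_sub, eval_pow, eval_X, eval_one] at h2
  by_contra hcon
  push Not at hcon
  have h3 : ∀ ζ ∈ (X ^ n - 1 : (PadicAlgCl p)[X]).roots, 1 ≤ ‖t - ζ‖ := by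
    intro ζ hζ
    have h4 : ζ ^ n = 1 := by
      have := (mem_roots'.mp hζ).2
      rw [IsRoot.def, eval_sub, eval_pow, eval_X, eval_one, sub_eq_zero] at this
      exact this
    exact hcon ζ n hn h4
  have h5 : ∀ s : Multiset (PadicAlgCl p), (∀ ζ ∈ s, 1 ≤ ‖t - ζ‖) →
      1 ≤ ‖(s.map (fun a => t - a)).prod‖ := by
    intro s
    induction s using Multiset.induction_on with
    | empty => intro _; simp
    | cons a s ih =>
      intro hs
      rw [Multiset.map_cons, Multiset.prod_cons, norm_mul]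
      have h6 := ih (fun ζ hζ => hs ζ (Multiset.mem_cons_of_mem hζ))
      have h7 := hs a (Multiset.mem_cons_self a s)
      nlinarith
  have h8 := h5 _ h3
  rw [← h2] at h8
  linarith

end Pool.Agent.ETU
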