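import Pool.Agent.ETU.TaC
import Pool.Agent.ETU.TaD
import Pool.Agent.ETU.TaE

/-!
# The group of automorphisms over a maximal field whose value group has no `m` in the denominators

`L` is a maximal field with `Vp m L`. Its group of automorphisms acts trivially on the residue field
(all roots of unity of order prime to `p` lie in `L`), by elements of `m`-power order, and the fixed
field is `L`.
-/

open scoped BigOperators Polynomial
open Polynomial

namespace Pool.Agent.ETU

variable {p : ℕ} [Fact p.Prime]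

private theorem taf_sub (x y : PadicAlgCl p) : ‖x - y‖ ≤ max ‖x‖ ‖y‖ := by
  rw [sub_eq_add_neg, ← norm_neg y]
  exact IsUltrametricDist.norm_add_le_max x (-y)

private theorem taf_norm_p : ‖((p : ℕ) : PadicAlgCl p)‖ < 1 := by
  have h := PadicAlgCl.norm_extends (p := p) ((p : ℕ) : ℚ_[p])
  have h2 : ‖((p : ℕ) : PadicAlgCl p)‖ = ‖((p : ℕ) : ℚ_[p])‖ := by
    rw [← h]
    congr 1
  rw [h2]
  exact Padic.norm_p_lt_one

/-- the automorphisms which fix the elements of `L` -/
private def tafG (L : IntermediateField ℚ_[p] (PadicAlgCl p)) :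
    Subgroup (PadicAlgCl p ≃+* PadicAlgCl p) where
  carrier := {σ | ∀ x ∈ L, σ x = x}
  mul_mem' := by
    intro a b ha hb x hx
    change a (b x) = x
    rw [hb x hx, ha x hx]
  one_mem' := fun x _ => rfl
  inv_mem' := by
    intro a ha x hx
    change a.symm x = x
    rw [RingEquiv.symm_apply_eq, ha x hx]

private noncomputable def taf_alg {L : IntermediateField ℚ_[p] (PadicAlgCl p)}
    {σ : PadicAlgCl p ≃+* PadicAlgCl p} (hσ : σ ∈ tafG L) : PadicAlgCl p ≃ₐ[L] PadicAlgCl p :=
  AlgEquiv.ofRingEquiv (f := σ) fun x => hσ x x.2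

private theorem taf_alg_pow {L : IntermediateField ℚ_[p] (PadicAlgCl p)}
    {σ : PadicAlgCl p ≃+* PadicAlgCl p} (hσ : σ ∈ tafG L) (n : ℕ) (t : PadicAlgCl p) :
    ((taf_alg hσ) ^ n) t = (σ ^ n) t := by
  induction n generalizing t with
  | zero => rfl
  | succ n ih =>
    rw [pow_succ, pow_succ]
    change ((taf_alg hσ) ^ n) ((taf_alg hσ) t) = (σ ^ n) (σ t)
    rw [ih]
    rfl

theorem exists_tame {m : ℕ} (hm : m.Prime) (hmp : m ≠ p) :
    ∃ G : Subgroup (PadicAlgCl p ≃+* PadicAlgCl p), TameG p m (PadicAlgCl p) G := by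
  obtain ⟨L, hL, hmax⟩ := exists_maximal_Vp (p := p) hm
  have halg : Algebra.IsAlgebraic L (PadicAlgCl p) :=
    Algebra.IsAlgebraic.tower_top (K := ℚ_[p]) L
  have hcl : IsAlgClosed (PadicAlgCl p) := inferInstance
  have hnormal : Normal L (PadicAlgCl p) := normal_iff.2 fun x =>
    ⟨(Algebra.IsAlgebraic.isAlgebraic (R := L) x).isIntegral, IsAlgClosed.splits _⟩
  have hgal : IsGalois L (PadicAlgCl p) := ⟨⟩
  have hnorm : ∀ σ ∈ tafG L, ∀ t : PadicAlgCl p, ‖σ t‖ = ‖t‖ := by
    intro σ hσ t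
    exact norm_aut L (taf_alg hσ) t
  refine ⟨tafG L, ⟨⟨fun x y => IsUltrametricDist.norm_add_le_max x y, taf_norm_p⟩, ?_, ?_, ?_⟩⟩
  · intro σ hσ t ht
    rcases lt_or_eq_of_le ht with hlt | heq
    · refine (taf_sub _ _).trans_lt (max_lt ?_ hlt)
      rw [hnorm σ hσ]
      exact hlt
    · obtain ⟨ζ, n, hn, hζ, hd⟩ := near_root t heq
      have hmem : ζ ∈ L := root_mem hL hmax hn hζ
      have h1 : σ t - t = σ (t - ζ) - (t - ζ) := by
        rw [map_sub, hσ ζ hmem]
        ring
      rw [h1]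
      refine (taf_sub _ _).trans_lt (max_lt ?_ hd)
      rw [hnorm σ hσ]
      exact hd
  · intro σ hσ t
    obtain ⟨j, hj⟩ := pow_fix hm (fun t ht => ⟨⟨t, mem_of_degree hm hL hmax ht⟩, rfl⟩)
      (taf_alg hσ) t
    refine ⟨j, ?_⟩
    rw [← taf_alg_pow hσ]
    exact hj
  · intro t ht0 ht
    apply hL t _ ht0
    have h1 : t ∈ (⊥ : IntermediateField L (PadicAlgCl p)) := by
      rw [InfiniteGalois.mem_bot_iff_fixed]
      intro f
      exact ht f.toRingEquiv fun x hx => f.commutes ⟨x, hx⟩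
    obtain ⟨x, rfl⟩ := IntermediateField.mem_bot.1 h1
    exact x.2

end Pool.Agent.ETU
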