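import Pool.Agent.ETU.KDef
import Pool.Agent.ETU.TaF

/-!
# The tame group fixing the image of a number field

`L₀ = ℚ_p(τ k)` has degree `≤ [k : ℚ] < m` over `ℚ_[p]`, so its value group has no `m` in the denominators. `L` is a
maximal such field above `L₀`, and the group is the group of automorphisms over `L`, as in `exists_tame`.
-/

open scoped BigOperators Polynomial
open Polynomial

namespace Pool.Agent.ETU

private theorem kta_sub {p : ℕ} [Fact p.Prime] (x y : PadicAlgCl p) : ‖x - y‖ ≤ max ‖x‖ ‖y‖ := by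
  rw [sub_eq_add_neg, ← norm_neg y]
  exact IsUltrametricDist.norm_add_le_max x (-y)

private theorem kta_norm_p' {p : ℕ} [Fact p.Prime] : ‖((p : ℕ) : PadicAlgCl p)‖ = (p : ℝ)⁻¹ := by
  have h := PadicAlgCl.norm_extends (p := p) ((p : ℕ) : ℚ_[p])
  rw [Padic.norm_p] at h
  rw [← h]
  congr 1

private theorem kta_norm_p {p : ℕ} [Fact p.Prime] : ‖((p : ℕ) : PadicAlgCl p)‖ < 1 := by
  rw [kta_norm_p', ← Padic.norm_p (p := p)]
  exact Padic.norm_p_lt_one

private theorem kta_bot {p : ℕ} [Fact p.Prime] {m : ℕ} (hm : m.Prime) :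
    Vp m (⊥ : IntermediateField ℚ_[p] (PadicAlgCl p)) := by
  intro t ht ht0
  obtain ⟨x, rfl⟩ := IntermediateField.mem_bot.1 ht
  have hx : x ≠ 0 := by
    rintro rfl
    exact ht0 (map_zero _)
  refine ⟨1, fun h => hm.one_lt.ne' (Nat.dvd_one.1 h), x.valuation, ?_⟩
  have h1 : ‖(algebraMap ℚ_[p] (PadicAlgCl p)) x‖ = ‖x‖ := PadicAlgCl.norm_extends (p := p) x
  rw [pow_one, h1, Padic.norm_eq_zpow_neg_valuation hx, kta_norm_p', inv_zpow', zpow_neg]

/-- fields of degree `< m` over `ℚ_[p]` -/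
private theorem kta_small {p : ℕ} [Fact p.Prime] {m : ℕ} (hm : m.Prime)
    (L : IntermediateField ℚ_[p] (PadicAlgCl p)) [FiniteDimensional ℚ_[p] L]
    (hL : Module.finrank ℚ_[p] L < m) : Vp m L := by
  intro s hs hs0
  set B : IntermediateField ℚ_[p] (PadicAlgCl p) := ⊥ with hB
  have hint : IsIntegral B s := (Algebra.IsIntegral.isIntegral (R := ℚ_[p]) s).tower_top
  have h1 : (minpoly B s).natDegree ≤ (minpoly ℚ_[p] s).natDegree := by
    have h2 := minpoly.dvd_map_of_isScalarTower ℚ_[p] B s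
    have h3 := natDegree_le_of_dvd h2
      ((minpoly.monic (Algebra.IsIntegral.isIntegral (R := ℚ_[p]) s)).map _).ne_zero
    rwa [natDegree_map] at h3
  have h2 : (minpoly ℚ_[p] s).natDegree ≤ Module.finrank ℚ_[p] L := by
    have h3 : minpoly ℚ_[p] s = minpoly ℚ_[p] (⟨s, hs⟩ : L) :=
      (IntermediateField.minpoly_eq (⟨s, hs⟩ : L)).symm
    rw [h3]
    exact minpoly.natDegree_le _
  have h3 : ¬ m ∣ (minpoly B s).natDegree :=
    Nat.not_dvd_of_pos_of_lt (minpoly.natDegree_pos hint) (by omega)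
  have hc0 : (((minpoly B s).coeff 0 : B) : PadicAlgCl p) ≠ 0 := by
    intro h
    exact minpoly.coeff_zero_ne_zero hint hs0 (Subtype.ext h)
  obtain ⟨N, hN, k, hk⟩ := kta_bot (p := p) hm _ ((minpoly B s).coeff 0).2 hc0
  refine ⟨(minpoly B s).natDegree * N, fun h => ?_, k, ?_⟩
  · rcases hm.dvd_mul.1 h with h | h
    · exact h3 h
    · exact hN h
  · rw [pow_mul, ← norm_coeff_zero B s]
    exact hk

private theorem kta_max {p : ℕ} [Fact p.Prime] {m : ℕ}
    (L₀ : IntermediateField ℚ_[p] (PadicAlgCl p)) (h0 : Vp m L₀) :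
    ∃ L : IntermediateField ℚ_[p] (PadicAlgCl p), L₀ ≤ L ∧ Vp m L ∧
      ∀ L', L ≤ L' → Vp m L' → L' = L := by
  obtain ⟨L, hle0, hL⟩ := zorn_le_nonempty₀
    {L : IntermediateField ℚ_[p] (PadicAlgCl p) | Vp m L} (by
      intro c hc hchain y hy
      refine ⟨sSup c, ?_, fun z hz => le_sSup hz⟩
      intro t ht ht0
      have : Nonempty c := ⟨⟨y, hy⟩⟩
      have hdir : Directed (· ≤ ·) (fun L : c => (L : IntermediateField ℚ_[p] (PadicAlgCl p))) :=
        hchain.directedOn.directed_val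
      have h1 : t ∈ ⨆ L : c, (L : IntermediateField ℚ_[p] (PadicAlgCl p)) := by
        rwa [← sSup_eq_iSup']
      have h2 := IntermediateField.coe_iSup_of_directed hdir
      have h3 : t ∈ ((⨆ L : c, (L : IntermediateField ℚ_[p] (PadicAlgCl p)) :
          IntermediateField ℚ_[p] (PadicAlgCl p)) : Set (PadicAlgCl p)) := h1
      rw [h2, Set.mem_iUnion] at h3
      obtain ⟨L, hL⟩ := h3
      exact hc L.2 t hL ht0) L₀ h0
  refine ⟨L, hle0, hL.prop, fun L' hle hL' => ?_⟩
  exact le_antisymm (hL.2 hL' hle) hle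

/-- the automorphisms which fix the elements of `L` -/
private def ktaG {p : ℕ} [Fact p.Prime] (L : IntermediateField ℚ_[p] (PadicAlgCl p)) :
    Subgroup (PadicAlgCl p ≃+* PadicAlgCl p) where
  carrier := {σ | ∀ x ∈ L, σ x = x}
  mul_mem' := by
    intro a b ha hb x hx
    change a (b x) = x
    rw [hb x hx, ha x hx]
  one_mem' := fun x _ => rfl
  inv_mem' := by
    intro a ha x hx
    change a.symm x = x
    rw [RingEquiv.symm_apply_eq, ha x hx]

private noncomputable def kta_alg {p : ℕ} [Fact p.Prime]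
    {L : IntermediateField ℚ_[p] (PadicAlgCl p)}
    {σ : PadicAlgCl p ≃+* PadicAlgCl p} (hσ : σ ∈ ktaG L) : PadicAlgCl p ≃ₐ[L] PadicAlgCl p :=
  AlgEquiv.ofRingEquiv (f := σ) fun x => hσ x x.2

private theorem kta_alg_pow {p : ℕ} [Fact p.Prime] {L : IntermediateField ℚ_[p] (PadicAlgCl p)}
    {σ : PadicAlgCl p ≃+* PadicAlgCl p} (hσ : σ ∈ ktaG L) (n : ℕ) (t : PadicAlgCl p) :
    ((kta_alg hσ) ^ n) t = (σ ^ n) t := by
  induction n generalizing t with
  | zero => rfl
  | succ n ih =>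
    rw [pow_succ, pow_succ]
    change ((kta_alg hσ) ^ n) ((kta_alg hσ) t) = (σ ^ n) (σ t)
    rw [ih]
    rfl

private theorem kta_tame {p m : ℕ} [Fact p.Prime] (hm : m.Prime)
    (L : IntermediateField ℚ_[p] (PadicAlgCl p)) (hL : Vp m L)
    (hmax : ∀ L', L ≤ L' → Vp m L' → L' = L) : TameG p m (PadicAlgCl p) (ktaG L) := by
  have halg : Algebra.IsAlgebraic L (PadicAlgCl p) :=
    Algebra.IsAlgebraic.tower_top (K := ℚ_[p]) L
  have hcl : IsAlgClosed (PadicAlgCl p) := inferInstance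
  have hnormal : Normal L (PadicAlgCl p) := normal_iff.2 fun x =>
    ⟨(Algebra.IsAlgebraic.isAlgebraic (R := L) x).isIntegral, IsAlgClosed.splits _⟩
  have hgal : IsGalois L (PadicAlgCl p) := ⟨⟩
  have hnorm : ∀ σ ∈ ktaG L, ∀ t : PadicAlgCl p, ‖σ t‖ = ‖t‖ := by
    intro σ hσ t
    exact norm_aut L (kta_alg hσ) t
  refine ⟨⟨fun x y => IsUltrametricDist.norm_add_le_max x y, kta_norm_p⟩, ?_, ?_, ?_⟩
  · intro σ hσ t ht
    rcases lt_or_eq_of_le ht with hlt | heq
    · refine (kta_sub _ _).trans_lt (max_lt ?_ hlt)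
      rw [hnorm σ hσ]
      exact hlt
    · obtain ⟨ζ, n, hn, hζ, hd⟩ := near_root t heq
      have hmem : ζ ∈ L := root_mem hL hmax hn hζ
      have h1 : σ t - t = σ (t - ζ) - (t - ζ) := by
        rw [map_sub, hσ ζ hmem]
        ring
      rw [h1]
      refine (kta_sub _ _).trans_lt (max_lt ?_ hd)
      rw [hnorm σ hσ]
      exact hd
  · intro σ hσ t
    obtain ⟨j, hj⟩ := pow_fix hm (fun t ht => ⟨⟨t, mem_of_degree hm hL hmax ht⟩, rfl⟩)
      (kta_alg hσ) t
    refine ⟨j, ?_⟩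
    rw [← kta_alg_pow hσ]
    exact hj
  · intro t ht0 ht
    apply hL t _ ht0
    have h1 : t ∈ (⊥ : IntermediateField L (PadicAlgCl p)) := by
      rw [InfiniteGalois.mem_bot_iff_fixed]
      intro f
      exact ht f.toRingEquiv fun x hx => f.commutes ⟨x, hx⟩
    obtain ⟨x, rfl⟩ := IntermediateField.mem_bot.1 h1
    exact x.2

theorem exists_tameK {p m : ℕ} [Fact p.Prime] (hm : m.Prime) (hmp : m ≠ p) {k : Type} [Field k]
    [CharZero k] [FiniteDimensional ℚ k] (hk : Module.finrank ℚ k < m) (τ : k →+* PadicAlgCl p) :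
    ∃ G : Subgroup (PadicAlgCl p ≃+* PadicAlgCl p), TameG p m (PadicAlgCl p) G ∧
      ∀ σ ∈ G, ∀ c : k, σ (τ c) = τ c := by
  obtain ⟨α, hα⟩ := Field.exists_primitive_element ℚ k
  have hα' := hα
  rw [Field.primitive_element_iff_minpoly_natDegree_eq] at hα'
  let β : PadicAlgCl p := τ α
  have hβint : IsIntegral ℚ_[p] β := Algebra.IsIntegral.isIntegral β
  let L₀ : IntermediateField ℚ_[p] (PadicAlgCl p) := IntermediateField.adjoin ℚ_[p] {β}
  have hfin : FiniteDimensional ℚ_[p] L₀ := IntermediateField.adjoin.finiteDimensional hβint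
  have hdeg : Module.finrank ℚ_[p] L₀ < m := by
    refine lt_of_le_of_lt ?_ hk
    rw [IntermediateField.adjoin.finrank hβint, ← hα']
    have h1 : minpoly ℚ_[p] β ∣ (minpoly ℚ α).map (algebraMap ℚ ℚ_[p]) := by
      refine minpoly.dvd _ _ ?_
      rw [aeval_def, eval₂_map]
      have h2 : (algebraMap ℚ_[p] (PadicAlgCl p)).comp (algebraMap ℚ ℚ_[p]) =
          τ.comp (algebraMap ℚ k) := RingHom.ext_rat _ _
      rw [h2, ← hom_eval₂, ← aeval_def, minpoly.aeval, map_zero]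
    have h3 := natDegree_le_of_dvd h1
      ((minpoly.monic (Algebra.IsIntegral.isIntegral (R := ℚ) α)).map _).ne_zero
    rwa [natDegree_map] at h3
  obtain ⟨L, hle, hL, hmax⟩ := kta_max L₀ (kta_small hm L₀ hdeg)
  refine ⟨ktaG L, kta_tame hm L hL hmax, fun σ hσ c => hσ _ (hle ?_)⟩
  -- the image of `k` is in `L₀`
  have hc : c ∈ IntermediateField.adjoin ℚ {α} := by
    rw [hα]
    exact IntermediateField.mem_top
  rw [IntermediateField.mem_adjoin_simple_iff] at hc
  obtain ⟨f, g, rfl⟩ := hc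
  have hev : ∀ h : ℚ[X], τ (aeval α h) ∈ L₀ := by
    intro h
    have h2 : (algebraMap ℚ_[p] (PadicAlgCl p)).comp (algebraMap ℚ ℚ_[p]) =
        τ.comp (algebraMap ℚ k) := RingHom.ext_rat _ _
    have h3 : τ (aeval α h) = aeval β (h.map (algebraMap ℚ ℚ_[p])) := by
      rw [aeval_def, hom_eval₂, ← h2, ← eval₂_map]
      rfl
    rw [h3]
    have h4 : aeval β (h.map (algebraMap ℚ ℚ_[p])) =
        algebraMap L₀ (PadicAlgCl p) (aeval (⟨β, IntermediateField.mem_adjoin_simple_self _ β⟩ : L₀)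
          (h.map (algebraMap ℚ ℚ_[p]))) := by
      rw [← aeval_algebraMap_apply]
      rfl
    rw [h4]
    exact (aeval (⟨β, IntermediateField.mem_adjoin_simple_self _ β⟩ : L₀)
      (h.map (algebraMap ℚ ℚ_[p]))).2
  rw [map_div₀]
  exact L₀.div_mem (hev f) (hev g)

end Pool.Agent.ETU
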