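import Pool.Agent.ETU.TaF
import Pool.Agent.ETU.Irr
import Pool.Agent.ETU.Unq
import Pool.Agent.ETU.Exc
import Pool.Agent.ETU.Wgt
import Pool.Agent.ETU.Equ
import Pool.Agent.ETU.Fin

/-!
# Assembly
-/

open scoped BigOperators Polynomial
open Polynomial

namespace Pool.Agent.ETU

open Pool.Agent.CST Pool.Agent.ISG Pool.Agent.Helper11 Pool.Agent.ISI Pool.Agent.CS2

/-- the geometric form over `ℚ(X')` -/
theorem main_geom {K : Type} [Field K] [CharZero K]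
    (hc : ∀ a : K, IsAlgebraic ℚ a → ∃ q : ℚ, (q : K) = a) {X' w : K}
    (hX : Transcendental ℚ X') (hK : FiniteDimensional (IntermediateField.adjoin ℚ {X'}) K)
    {m : ℕ} (hm : m.Prime) {E : ℚ[X][X]} (hE : E.Monic) (hd : E.natDegree = m)
    (hEw : ev2 X' w E = 0) (hgen : IntermediateField.adjoin ℚ {X', w} = ⊤)
    {p₁ p₂ : ℕ} [Fact p₁.Prime] [Fact p₂.Prime] (h12 : p₁ ≠ p₂) (hm₁ : ¬ m ∣ p₁ * (p₁ - 1))
    (hm₂ : ¬ m ∣ p₂ * (p₂ - 1)) (hR₁ : Ram p₁ m E) (hR₂ : Ram p₂ m E) {r : ℕ}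
    {f : Fin r → ℤ[X]} (hf₁ : Fam p₁ f) (hf₂ : Fam p₂ f) {u : Fin r → Kˣ}
    (hu : ∀ i, (u i : K) = aeval X' (f i)) :
    Module.Finite ℚ ↥(((⨆ i, slM (u i)) ⊔ LP X') ⊓ geomM K) := by
  obtain ⟨G₁, hG₁⟩ := exists_tame (p := p₁) hm (by
    rintro rfl
    exact hm₁ (dvd_mul_right _ _))
  obtain ⟨G₂, hG₂⟩ := exists_tame (p := p₂) hm (by
    rintro rfl
    exact hm₂ (dvd_mul_right _ _))
  refine fin_tuple hX hc hK hf₁.mon hu (exc_finite h12 hf₁ hf₂) ?_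
  rintro P hP hP' hPT ⟨a, ha, hrel⟩ O O' hO hO' hv hv'
  have h1 : (∃ α : PadicAlgCl p₁, aeval α P = 0 ∧ Good f a α) ∨
      ∃ α : PadicAlgCl p₂, aeval α P = 0 ∧ Good f a α := by
    by_contra hcon
    push Not at hcon
    exact hPT ⟨hP, hP', a, ha, hrel, hcon.1, hcon.2⟩
  rcases h1 with ⟨α, hα, hg⟩ | ⟨α, hα, hg⟩
  · exact place_eq hX hE hd hEw hgen hP hP' hα
      (fun R hR w' h2 h3 => good_irr hm hm₁ hG₁ hR₁ f a hP' hrel hα hg R hR w' h2 h3) hO hO' hv hv'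
  · exact place_eq hX hE hd hEw hgen hP hP' hα
      (fun R hR w' h2 h3 => good_irr hm hm₂ hG₂ hR₂ f a hP' hrel hα hg R hR w' h2 h3) hO hO' hv hv'

end Pool.Agent.ETU
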