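import Pool.Agent.ETU.Pol
import Pool.Agent.ETU.Res
import Pool.Agent.ETU.Rts

/-!
# MODULE EVT-OrB : the order of the root of unity at a bad point

`pow_residue`: an element of a field of characteristic `p` which is algebraic of degree at most `d` over `ZMod p` is fixed
by the power map `p ^ d!`. `order_bad`: at a point which is not good the root of unity `A / B` has order dividing
`Ebd p f * p ^ k`. `Ap_ne_zero`: the values of `A` and `B` are not zero.
-/

open scoped BigOperators Polynomial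
open Polynomial

namespace Pool.Agent.ETU

variable {r : ℕ}

/-- the exponent -/
def Ebd (p : ℕ) {r : ℕ} (f : Fin r → ℤ[X]) : ℕ :=
  p ^ (∑ i, (f i).natDegree + 1).factorial - 1

theorem pow_residue {p : ℕ} [Fact p.Prime] {κ : Type} [Field κ] [CharP κ p] (β : κ) {q : (ZMod p)[X]}
    (hq : q ≠ 0) {d : ℕ} (hd : q.natDegree ≤ d)
    (h : q.eval₂ (ZMod.castHom (dvd_refl p) κ) β = 0) : β ^ p ^ d.factorial = β := by
  letI : Algebra (ZMod p) κ := ZMod.algebra κ p
  have halg : algebraMap (ZMod p) κ = ZMod.castHom (dvd_refl p) κ := Subsingleton.elim _ _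
  have h1 : aeval β q = 0 := by
    rw [aeval_def, halg]
    exact h
  have hint : IsIntegral (ZMod p) β := IsAlgebraic.isIntegral ⟨q, hq, h1⟩
  have hdeg : (minpoly (ZMod p) β).natDegree ≤ d :=
    (natDegree_le_of_dvd (minpoly.dvd _ _ h1) hq).trans hd
  have hpos : 0 < (minpoly (ZMod p) β).natDegree := minpoly.natDegree_pos hint
  obtain ⟨c, hc⟩ := Nat.dvd_factorial hpos hdeg
  set i := (minpoly (ZMod p) β).natDegree with hi
  have hfr : Module.finrank (ZMod p) (IntermediateField.adjoin (ZMod p) {β}) = i :=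
    IntermediateField.adjoin.finrank hint
  haveI : FiniteDimensional (ZMod p) (IntermediateField.adjoin (ZMod p) {β}) :=
    IntermediateField.adjoin.finiteDimensional hint
  haveI : Finite (IntermediateField.adjoin (ZMod p) {β}) := Module.finite_of_finite (ZMod p)
  letI : Fintype (IntermediateField.adjoin (ZMod p) {β}) := Fintype.ofFinite _
  have hcard : Fintype.card (IntermediateField.adjoin (ZMod p) {β}) = p ^ i := by
    rw [Module.card_eq_pow_finrank (K := ZMod p), hfr, ZMod.card]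
  have hb : β ^ p ^ i = β := by
    have h2 := FiniteField.pow_card (⟨β, IntermediateField.mem_adjoin_simple_self (ZMod p) β⟩ :
      IntermediateField.adjoin (ZMod p) {β})
    rw [hcard] at h2
    exact congrArg Subtype.val h2
  rw [hc]
  clear hc
  induction c with
  | zero => simp
  | succ c ih => rw [Nat.mul_succ, pow_add, pow_mul, ih, hb]

private lemma orb_int {p : ℕ} {M : Type} [NormedField M] (hna : NA p M) (z : ℤ) : ‖(z : M)‖ ≤ 1 := by
  have hnat : ∀ n : ℕ, ‖(n : M)‖ ≤ 1 := by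
    intro n
    induction n with
    | zero => simp
    | succ n ih =>
      rw [Nat.cast_succ]
      exact (hna.na _ _).trans (max_le ih (by simp))
  obtain ⟨n, rfl | rfl⟩ := Int.eq_nat_or_neg z
  · simpa using hnat n
  · simpa using hnat n

private lemma orb_sum {p : ℕ} {M : Type} [NormedField M] (hna : NA p M) {ι : Type} (s : Finset ι)
    (x : ι → M) {c : ℝ} (hc : 0 ≤ c) (h : ∀ i ∈ s, ‖x i‖ ≤ c) : ‖∑ i ∈ s, x i‖ ≤ c := by
  classical
  induction s using Finset.induction_on with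
  | empty => simpa using hc
  | insert i s hi ih =>
    rw [Finset.sum_insert hi]
    exact (hna.na _ _).trans (max_le (h i (Finset.mem_insert_self i s))
      (ih fun j hj => h j (Finset.mem_insert_of_mem hj)))

/-- the value of an integral polynomial outside the unit disc -/
private lemma orb_le {p : ℕ} {M : Type} [NormedField M] (hna : NA p M) {α : M} (hα : 1 ≤ ‖α‖)
    (g : ℤ[X]) {d : ℕ} (hd : g.natDegree ≤ d) : ‖aeval α g‖ ≤ ‖α‖ ^ d := by
  rw [aeval_eq_sum_range]
  refine orb_sum hna _ _ (pow_nonneg (norm_nonneg _) _) fun i hi => ?_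
  rw [zsmul_eq_mul, norm_mul, norm_pow]
  have h1 : i ≤ d := (Nat.lt_succ_iff.mp (Finset.mem_range.mp hi)).trans hd
  calc ‖((g.coeff i : ℤ) : M)‖ * ‖α‖ ^ i ≤ 1 * ‖α‖ ^ d :=
        mul_le_mul (orb_int hna _) (pow_le_pow_right₀ hα h1) (pow_nonneg (norm_nonneg _) _) zero_le_one
    _ = ‖α‖ ^ d := one_mul _

private lemma orb_lt {p : ℕ} {M : Type} [NormedField M] (hna : NA p M) {α : M} (hα : 1 < ‖α‖)
    (g : ℤ[X]) {d : ℕ} (hd : g.degree < d) : ‖aeval α g‖ < ‖α‖ ^ d := by
  by_cases h0 : g = 0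
  · rw [h0, map_zero, norm_zero]
    exact pow_pos (zero_lt_one.trans hα) _
  · have h1 : g.natDegree < d := (natDegree_lt_iff_degree_lt h0).mpr hd
    exact (orb_le hna hα.le g le_rfl).trans_lt (pow_lt_pow_right₀ hα h1)

private lemma orb_monic {p : ℕ} {M : Type} [NormedField M] (hna : NA p M) {α : M} (hα : 1 < ‖α‖)
    {g : ℤ[X]} (hg : g.Monic) : ‖aeval α g‖ = ‖α‖ ^ g.natDegree := by
  have h1 : (g - X ^ g.natDegree).degree < ((g.natDegree : ℕ) : WithBot ℕ) := by
    have h2 := degree_sub_lt (p := g) (q := X ^ g.natDegree) (by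
      rw [degree_X_pow, degree_eq_natDegree hg.ne_zero]) hg.ne_zero (by
      rw [hg.leadingCoeff, leadingCoeff_X_pow])
    rwa [degree_eq_natDegree hg.ne_zero] at h2
  have h3 := orb_lt hna hα _ h1
  rw [map_sub, map_pow, aeval_X] at h3
  have h4 : ‖α ^ g.natDegree‖ = ‖α‖ ^ g.natDegree := norm_pow _ _
  apply le_antisymm
  · have h5 := hna.na (aeval α g - α ^ g.natDegree) (α ^ g.natDegree)
    rw [sub_add_cancel] at h5
    exact h5.trans (max_le h3.le h4.le)
  · by_contra h6
    rw [not_le] at h6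
    have h5 := hna.na (-(aeval α g - α ^ g.natDegree)) (aeval α g)
    rw [norm_neg] at h5
    have h7 : -(aeval α g - α ^ g.natDegree) + aeval α g = α ^ g.natDegree := by ring
    rw [h7, h4] at h5
    exact absurd h5 (not_le.mpr (max_lt h3 h6))

/-- the power map on values of polynomials with coefficients in the prime field -/
private lemma orb_frob {p : ℕ} [Fact p.Prime] {κ : Type} [Field κ] [CharP κ p] (β : κ)
    (g : (ZMod p)[X]) (j : ℕ) :
    (g.eval₂ (ZMod.castHom (dvd_refl p) κ) β) ^ p ^ j =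
      g.eval₂ (ZMod.castHom (dvd_refl p) κ) (β ^ p ^ j) := by
  induction j with
  | zero => simp
  | succ j ih =>
    rw [pow_succ, pow_mul, ih, pow_mul, ← eval₂_pow, ← ZMod.expand_card, expand_eq_comp_X_pow, eval₂_comp,
      eval₂_pow, eval₂_X]

theorem order_bad {p : ℕ} (hp : p.Prime) {M : Type} [NormedField M] [CharZero M] (hna : NA p M)
    {f : Fin r → ℤ[X]} (hf : Fam p f) {a : Fin r → ℤ} (ha : ∃ i, ¬ (p : ℤ) ∣ a i) {α : M}
    {n : ℕ} (hn : 0 < n) (hrel : (aeval α (Ap f a)) ^ n = (aeval α (Ap f (-a))) ^ n)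
    (hbad : ¬ Good f a α) :
    ∃ k : ℕ, (aeval α (Ap f a)) ^ (Ebd p f * p ^ k) =
      (aeval α (Ap f (-a))) ^ (Ebd p f * p ^ k) := by
  haveI : Fact p.Prime := ⟨hp⟩
  have hA := Ap_monic hf a
  have hB := Ap_monic hf (-a)
  have key : ∀ e : ℕ, aeval α (Ap f (-a)) ≠ 0 →
      ‖(aeval α (Ap f a) / aeval α (Ap f (-a))) ^ e - 1‖ < 1 →
      ∃ k : ℕ, (aeval α (Ap f a)) ^ (e * p ^ k) = (aeval α (Ap f (-a))) ^ (e * p ^ k) := by
    intro e h0 h1
    have h2 : ((aeval α (Ap f a) / aeval α (Ap f (-a))) ^ e) ^ n = 1 := by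
      rw [← pow_mul, mul_comm, pow_mul, div_pow, hrel, div_self (pow_ne_zero _ h0), one_pow]
    obtain ⟨k, hk⟩ := root_pow hp hna hn h2 h1
    refine ⟨k, ?_⟩
    rw [← pow_mul, div_pow, div_eq_one_iff_eq (pow_ne_zero _ h0)] at hk
    exact hk
  rcases lt_or_ge 1 ‖α‖ with hα | hα
  · have hnA := orb_monic hna hα hA
    have hnB := orb_monic hna hα hB
    have hdeg : (Ap f a).natDegree = (Ap f (-a)).natDegree := by
      have h1 := congrArg norm hrel
      rw [norm_pow, norm_pow, hnA, hnB, ← pow_mul, ← pow_mul] at h1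
      have h2 := pow_right_injective₀ (zero_lt_one.trans hα) hα.ne' h1
      exact Nat.eq_of_mul_eq_mul_right hn h2
    have hB0 : aeval α (Ap f (-a)) ≠ 0 := by
      intro h0
      rw [h0, norm_zero] at hnB
      exact (pow_pos (zero_lt_one.trans hα) _).ne hnB
    have h3 : ‖(aeval α (Ap f a) / aeval α (Ap f (-a))) ^ 1 - 1‖ < 1 := by
      rw [pow_one, div_sub_one hB0, norm_div, div_lt_one (norm_pos_iff.mpr hB0), hnB, ← map_sub]
      apply orb_lt hna hα
      have h4 := degree_sub_lt (p := Ap f a) (q := Ap f (-a)) (by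
        rw [degree_eq_natDegree hA.ne_zero, degree_eq_natDegree hB.ne_zero, hdeg]) hA.ne_zero (by
        rw [hA.leadingCoeff, hB.leadingCoeff])
      rwa [degree_eq_natDegree hA.ne_zero, hdeg] at h4
    obtain ⟨k, hk⟩ := key 1 hB0 h3
    refine ⟨k, ?_⟩
    rw [one_mul] at hk
    rw [mul_comm, pow_mul, pow_mul, hk]
  · obtain ⟨R, κ, hK, hC, φ, hR, hφ, -⟩ := exists_residue hp hna
    have hxR : α ∈ R := (hR α).mpr hα
    obtain ⟨yA, hyA, hA1⟩ := aeval_residue (p := p) φ ⟨α, hxR⟩ (Ap f a)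
    obtain ⟨yB, hyB, hB1⟩ := aeval_residue (p := p) φ ⟨α, hxR⟩ (Ap f (-a))
    obtain ⟨yN, hyN, hN1⟩ := aeval_residue (p := p) φ ⟨α, hxR⟩ (Np f a)
    set β := φ ⟨α, hxR⟩ with hβ
    have hNp := Np_ne hp hf ha
    have hne : X * (Np f a).map (Int.castRingHom (ZMod p)) ≠ 0 := mul_ne_zero X_ne_zero hNp
    have hr : 0 < ∑ i, (f i).natDegree := by
      obtain ⟨i, -⟩ := ha
      exact Finset.sum_pos (fun i _ => hf.pos i) ⟨i, Finset.mem_univ i⟩
    have hdeg : (X * (Np f a).map (Int.castRingHom (ZMod p))).natDegree ≤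
        ∑ i, (f i).natDegree + 1 := by
      have h1 := Np_natDegree f a hr
      have h2 : ((Np f a).map (Int.castRingHom (ZMod p))).natDegree ≤ (Np f a).natDegree :=
        natDegree_map_le
      have h3 := natDegree_mul_le (p := (X : (ZMod p)[X]))
        (q := (Np f a).map (Int.castRingHom (ZMod p)))
      rw [natDegree_X] at h3
      omega
    have hroot : (X * (Np f a).map (Int.castRingHom (ZMod p))).eval₂
        (ZMod.castHom (dvd_refl p) κ) β = 0 := by
      rw [eval₂_mul, eval₂_X]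
      by_cases h1 : ‖α‖ = 1
      · have h2 : ‖aeval α (Np f a)‖ ≠ 1 := fun h => hbad ⟨h1, h⟩
        have h3 : ‖(yN : M)‖ < 1 := by
          rw [hyN]
          refine lt_of_le_of_ne ?_ h2
          have h4 := (hR (yN : M)).mp yN.2
          rwa [hyN] at h4
        rw [← hN1, (hφ yN).mpr h3, mul_zero]
      · have h3 : β = 0 := (hφ _).mpr (lt_of_le_of_ne hα h1)
        rw [h3, zero_mul]
    have hfix := pow_residue β hne hdeg hroot
    set q := p ^ (∑ i, (f i).natDegree + 1).factorial with hq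
    have hq1 : 1 ≤ q := Nat.one_le_pow _ _ hp.pos
    have huA : φ yA ^ q = φ yA := by
      rw [hA1, hq, orb_frob, ← hq, hfix]
    have huB : φ yB ^ q = φ yB := by
      rw [hB1, hq, orb_frob, ← hq, hfix]
    have hrel' : φ yA ^ n = φ yB ^ n := by
      rw [← map_pow, ← map_pow]
      congr 1
      apply Subtype.ext
      rw [Subring.coe_pow, Subring.coe_pow, hyA, hyB]
      exact hrel
    have hcop : ¬ (φ yA = 0 ∧ φ yB = 0) := by
      rintro ⟨h1, h2⟩
      obtain ⟨s, t, hst⟩ := Ap_coprime hp hf a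
      have h3 := congrArg (eval₂ (ZMod.castHom (dvd_refl p) κ) β) hst
      rw [eval₂_add, eval₂_mul, eval₂_mul, ← hA1, ← hB1, h1, h2, mul_zero, mul_zero, add_zero,
        eval₂_one] at h3
      exact zero_ne_one h3
    have hB2 : φ yB ≠ 0 := by
      intro h0
      rw [h0, zero_pow hn.ne'] at hrel'
      exact hcop ⟨pow_eq_zero_iff hn.ne' |>.mp hrel', h0⟩
    have hA2 : φ yA ≠ 0 := by
      intro h0
      rw [h0, zero_pow hn.ne'] at hrel'
      exact hB2 (pow_eq_zero_iff hn.ne' |>.mp hrel'.symm)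
    have h1A : φ yA ^ (q - 1) = 1 := by
      have h1 : φ yA ^ (q - 1) * φ yA = 1 * φ yA := by
        rw [← pow_succ, Nat.sub_add_cancel hq1, huA, one_mul]
      exact mul_right_cancel₀ hA2 h1
    have h1B : φ yB ^ (q - 1) = 1 := by
      have h1 : φ yB ^ (q - 1) * φ yB = 1 * φ yB := by
        rw [← pow_succ, Nat.sub_add_cancel hq1, huB, one_mul]
      exact mul_right_cancel₀ hB2 h1
    have hnB : ‖aeval α (Ap f (-a))‖ = 1 := by
      have h1 : ¬ ‖(yB : M)‖ < 1 := fun h => hB2 ((hφ yB).mpr h)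
      have h2 := (hR (yB : M)).mp yB.2
      have h3 := le_antisymm h2 (not_lt.mp h1)
      rwa [hyB] at h3
    have hB0 : aeval α (Ap f (-a)) ≠ 0 := by
      intro h0
      rw [h0, norm_zero] at hnB
      exact zero_ne_one hnB
    have hdiff : ‖aeval α (Ap f a) ^ (q - 1) - aeval α (Ap f (-a)) ^ (q - 1)‖ < 1 := by
      have h1 : φ (yA ^ (q - 1) - yB ^ (q - 1)) = 0 := by
        rw [map_sub, map_pow, map_pow, h1A, h1B, sub_self]
      have h2 := (hφ _).mp h1
      change ‖((yA ^ (q - 1) : R) : M) - ((yB ^ (q - 1) : R) : M)‖ < 1 at h2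
      rw [Subring.coe_pow, Subring.coe_pow, hyA, hyB] at h2
      exact h2
    refine key (q - 1) hB0 ?_
    rw [div_pow, div_sub_one (pow_ne_zero _ hB0), norm_div, norm_pow, hnB, one_pow, div_one]
    exact hdiff

/-- `A(α)` and `B(α)` do not vanish -/
theorem Ap_ne_zero {p : ℕ} (hp : p.Prime) {f : Fin r → ℤ[X]} (hf : Fam p f) (a : Fin r → ℤ)
    {M : Type} [Field M] [CharZero M] {α : M} {n : ℕ} (hn : 0 < n)
    (hrel : (aeval α (Ap f a)) ^ n = (aeval α (Ap f (-a))) ^ n) :
    aeval α (Ap f a) ≠ 0 ∧ aeval α (Ap f (-a)) ≠ 0 := by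
  have key : ¬ (aeval α (Ap f a) = 0 ∧ aeval α (Ap f (-a)) = 0) := by
    rintro ⟨h1, h2⟩
    unfold Ap at h1 h2
    rw [map_prod, Finset.prod_eq_zero_iff] at h1 h2
    obtain ⟨i, -, hi⟩ := h1
    obtain ⟨j, -, hj⟩ := h2
    rw [map_pow] at hi hj
    have hi0 : (a i).toNat ≠ 0 := by
      intro h
      rw [h, pow_zero] at hi
      exact one_ne_zero hi
    have hj0 : ((-a) j).toNat ≠ 0 := by
      intro h
      rw [h, pow_zero] at hj
      exact one_ne_zero hj
    have hi1 := (pow_eq_zero_iff hi0).mp hi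
    have hj1 := (pow_eq_zero_iff hj0).mp hj
    have hij : i ≠ j := by
      rintro rfl
      rw [Pi.neg_apply] at hj0
      omega
    obtain ⟨s, t, hst⟩ := fam_coprime hp hf hij
    have h3 := congrArg (aeval α) hst
    have h4 : ∀ g : ℤ[X], aeval α (g.map (Int.castRingHom ℚ)) = aeval α g := by
      intro g
      have h5 := aeval_map_algebraMap ℚ α g
      exact h5
    rw [map_add, map_mul, map_mul, h4, h4, hi1, hj1, mul_zero, mul_zero, add_zero, map_one] at h3
    exact zero_ne_one h3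
  constructor
  · intro h0
    rw [h0, zero_pow hn.ne'] at hrel
    exact key ⟨h0, (pow_eq_zero_iff hn.ne').mp hrel.symm⟩
  · intro h0
    rw [h0, zero_pow hn.ne'] at hrel
    exact key ⟨(pow_eq_zero_iff hn.ne').mp hrel, h0⟩

end Pool.Agent.ETU
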