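import Pool.Agent.CS2.Stm

/-! # Definitions for the statement of EveryTuple -/

namespace Pool.Agent.ETU

open Polynomial Pool.Agent.ISG Pool.Agent.CST Pool.Agent.CS2

/-- `{f_1(cx), K*} + … + {f_r(cx), K*} + K_2(Q(x))` in `K_2(K) ⊗ Q`: the span of the symbols
`{u, h}` of elements `u, h` of `K*` such that `u` is one of the `f_i(cx)` or both `u` and `h` are
in `Q(x)`. -/
noncomputable def tupleSlices {K : Type} [Field K] [CharZero K] (x : Kˣ) (c : ℚ) {r : ℕ}
    (f : Fin r → ℤ[X]) : Submodule ℚ (K2Q K) :=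
  Submodule.span ℚ {z | ∃ u h : Kˣ, ((∃ i, (u : K) = aeval ((c : K) * x) (f i)) ∨
    ((u : K) ∈ IntermediateField.adjoin ℚ {(x : K)} ∧
      (h : K) ∈ IntermediateField.adjoin ℚ {(x : K)})) ∧ z = sb u h}

/-- `f_1, …, f_r ∈ Z[T]` are monic and not constant, and their product is squarefree modulo the
prime numbers `p₁` and `p₂`. -/
def GoodTuple (p₁ p₂ : ℕ) {r : ℕ} (f : Fin r → ℤ[X]) : Prop :=
  (∀ i, (f i).Monic) ∧ (∀ i, 0 < (f i).natDegree) ∧
    Squarefree ((∏ i, f i).map (Int.castRingHom (ZMod p₁))) ∧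
    Squarefree ((∏ i, f i).map (Int.castRingHom (ZMod p₂)))

theorem tupleSlices_eq {K : Type} [Field K] [CharZero K] (x : Kˣ) (c : ℚ) {r : ℕ}
    (f : Fin r → ℤ[X]) : tupleSlices x c f =
      (⨆ (u : Kˣ) (_ : ∃ i, (u : K) = aeval ((c : K) * x) (f i)), slice u) ⊔ ratSlice x := by
  apply le_antisymm
  · refine Submodule.span_le.2 ?_
    rintro z ⟨u, h, h1 | ⟨h1, h2⟩, rfl⟩
    · refine Submodule.mem_sup_left ?_
      refine Submodule.mem_iSup_of_mem u (Submodule.mem_iSup_of_mem h1 ?_)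
      exact Submodule.subset_span ⟨h, rfl⟩
    · refine Submodule.mem_sup_right (Submodule.subset_span ?_)
      exact ⟨u, h, h1, h2, rfl⟩
  · refine sup_le (iSup_le fun u => iSup_le fun h1 => Submodule.span_le.2 ?_)
      (Submodule.span_le.2 ?_)
    · rintro z ⟨h, rfl⟩
      exact Submodule.subset_span ⟨u, h, Or.inl h1, rfl⟩
    · rintro z ⟨u, h, h1, h2, rfl⟩
      exact Submodule.subset_span ⟨u, h, Or.inr ⟨h1, h2⟩, rfl⟩

end Pool.Agent.ETU
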