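import Pool.Agent.ETU.Stm97

/-! # Definitions for the statement of EveryTuple -/

namespace Pool.Agent.ETU

open Polynomial Pool.Agent.ISG Pool.Agent.CST Pool.Agent.CS2

/-- `p` is a prime number, `m` does not divide `p (p - 1)`, and the `p`-adic valuation `v` of `c`
satisfies `s p < v` and `v ≢ ρ p` modulo `m`. -/
def GoodPrime (m : ℕ) (s ρ : ℕ → ℕ) (c : ℚ) (p : ℕ) : Prop :=
  p.Prime ∧ ¬ m ∣ p * (p - 1) ∧ (s p : ℤ) < padicValRat p c ∧
    ¬ padicValRat p c ≡ ρ p [ZMOD m]

/-- The elements of `{f_1(cx), K*} + … + {f_r(cx), K*} + K_2(Q(x))` which are unramified at all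
closed points form a finite-dimensional space, and so do the integral ones. -/
def FinitePart {K : Type} [Field K] [CharZero K] (x : Kˣ) {r : ℕ} (f : Fin r → ℤ[X]) (c : ℚ) :
    Prop :=
  Module.Finite ℚ ↥(tupleSlices x c f ⊓ unramifiedK2 K) ∧
    Module.Finite ℚ ↥(tupleSlices x c f ⊓ integralK2 K)

end Pool.Agent.ETU
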