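import Pool.Agent.ETU.TaA

/-!
# A maximal field whose value group has no `m` in the denominators

`Vp m L`: every value of `L` has a power prime to `m` which is a power of `‖p‖`. A maximal such `L`
exists by the lemma of Zorn, and it contains every element whose degree over `L` is prime to `m`
(norms of minimal polynomials).
-/

open scoped BigOperators Polynomial
open Polynomial

namespace Pool.Agent.ETU

variable {p : ℕ} [Fact p.Prime]

/-- the value group of `L` has no `m` in the denominators -/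
def Vp (m : ℕ) (L : IntermediateField ℚ_[p] (PadicAlgCl p)) : Prop :=
  ∀ t ∈ L, t ≠ 0 → ∃ N : ℕ, ¬ m ∣ N ∧ ∃ k : ℤ, ‖t‖ ^ N = ‖((p : ℕ) : PadicAlgCl p)‖ ^ k

private theorem tab_norm_p : ‖((p : ℕ) : PadicAlgCl p)‖ = (p : ℝ)⁻¹ := by
  have h := PadicAlgCl.norm_extends (p := p) ((p : ℕ) : ℚ_[p])
  rw [Padic.norm_p] at h
  rw [← h]
  congr 1

private theorem tab_bot {m : ℕ} (hm : m.Prime) :
    Vp m (⊥ : IntermediateField ℚ_[p] (PadicAlgCl p)) := by
  intro t ht ht0
  obtain ⟨x, rfl⟩ := IntermediateField.mem_bot.1 ht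
  have hx : x ≠ 0 := by
    rintro rfl
    exact ht0 (map_zero _)
  refine ⟨1, fun h => hm.one_lt.ne' (Nat.dvd_one.1 h), x.valuation, ?_⟩
  have h1 : ‖(algebraMap ℚ_[p] (PadicAlgCl p)) x‖ = ‖x‖ := PadicAlgCl.norm_extends (p := p) x
  rw [pow_one, h1, Padic.norm_eq_zpow_neg_valuation hx, tab_norm_p, inv_zpow', zpow_neg]

theorem exists_maximal_Vp {m : ℕ} (hm : m.Prime) :
    ∃ L : IntermediateField ℚ_[p] (PadicAlgCl p), Vp m L ∧ ∀ L', L ≤ L' → Vp m L' → L' = L := by
  obtain ⟨L, -, hL⟩ := zorn_le_nonempty₀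
    {L : IntermediateField ℚ_[p] (PadicAlgCl p) | Vp m L} (by
      intro c hc hchain y hy
      refine ⟨sSup c, ?_, fun z hz => le_sSup hz⟩
      intro t ht ht0
      have : Nonempty c := ⟨⟨y, hy⟩⟩
      have hdir : Directed (· ≤ ·) (fun L : c => (L : IntermediateField ℚ_[p] (PadicAlgCl p))) :=
        hchain.directedOn.directed_val
      have h1 : t ∈ ⨆ L : c, (L : IntermediateField ℚ_[p] (PadicAlgCl p)) := by
        rwa [← sSup_eq_iSup']
      have h2 := IntermediateField.coe_iSup_of_directed hdir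
      have h3 : t ∈ ((⨆ L : c, (L : IntermediateField ℚ_[p] (PadicAlgCl p)) :
          IntermediateField ℚ_[p] (PadicAlgCl p)) : Set (PadicAlgCl p)) := h1
      rw [h2, Set.mem_iUnion] at h3
      obtain ⟨L, hL⟩ := h3
      exact hc L.2 t hL ht0) ⊥ (tab_bot hm)
  refine ⟨L, hL.prop, fun L' hle hL' => ?_⟩
  exact le_antisymm (hL.2 hL' hle) hle

theorem mem_of_degree {m : ℕ} (hm : m.Prime) {L : IntermediateField ℚ_[p] (PadicAlgCl p)}
    (hL : Vp m L) (hmax : ∀ L', L ≤ L' → Vp m L' → L' = L) {t : PadicAlgCl p}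
    (ht : ¬ m ∣ (minpoly L t).natDegree) : t ∈ L := by
  have hint : ∀ s : PadicAlgCl p, IsIntegral L s := fun s =>
    (Algebra.IsIntegral.isIntegral (R := ℚ_[p]) s).tower_top
  have hle : L ≤ (IntermediateField.adjoin L {t}).restrictScalars ℚ_[p] := by
    intro s hs
    rw [IntermediateField.mem_restrictScalars]
    exact (IntermediateField.adjoin L {t}).algebraMap_mem ⟨s, hs⟩
  have hV : Vp m ((IntermediateField.adjoin L {t}).restrictScalars ℚ_[p]) := by
    intro s hs hs0
    rw [IntermediateField.mem_restrictScalars] at hs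
    have hfin : FiniteDimensional L (IntermediateField.adjoin L {t}) :=
      IntermediateField.adjoin.finiteDimensional (hint t)
    have hd : (minpoly L s).natDegree ∣ (minpoly L t).natDegree := by
      rw [← IntermediateField.adjoin.finrank (hint t)]
      have h1 : minpoly L s = minpoly L (⟨s, hs⟩ : IntermediateField.adjoin L {t}) :=
        (IntermediateField.minpoly_eq (⟨s, hs⟩ : IntermediateField.adjoin L {t})).symm
      rw [h1]
      exact minpoly.degree_dvd (Algebra.IsIntegral.isIntegral _)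
    have hd1 : ¬ m ∣ (minpoly L s).natDegree := fun h => ht (h.trans hd)
    have hc0 : (((minpoly L s).coeff 0 : L) : PadicAlgCl p) ≠ 0 := by
      intro h
      exact minpoly.coeff_zero_ne_zero (hint s) hs0 (Subtype.ext h)
    obtain ⟨N, hN, k, hk⟩ := hL _ ((minpoly L s).coeff 0).2 hc0
    refine ⟨(minpoly L s).natDegree * N, fun h => ?_, k, ?_⟩
    · rcases hm.dvd_mul.1 h with h | h
      · exact hd1 h
      · exact hN h
    · rw [pow_mul, ← norm_coeff_zero L s]
      exact hk
  have h2 := hmax _ hle hV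
  rw [← h2, IntermediateField.mem_restrictScalars]
  exact IntermediateField.subset_adjoin L {t} rfl

end Pool.Agent.ETU
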