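import Pool.Agent.ETU.Defs

/-!
# Automorphisms of `m`-power order

If every element of `Ω` whose degree over `L` is prime to `m` lies in `L`, then every automorphism of
`Ω / L` has `m`-power order on every element (Sylow subgroups of the Galois group of a normal closure).
-/

open scoped BigOperators Polynomial
open Polynomial

namespace Pool.Agent.ETU

private theorem tac_index {L Ω : Type} [Field L] [Field Ω] [CharZero L] [Algebra L Ω] {m : ℕ}
    [Fact m.Prime]
    (H : ∀ t : Ω, ¬ m ∣ (minpoly L t).natDegree → ∃ l : L, algebraMap L Ω l = t)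
    (K : IntermediateField L Ω) [FiniteDimensional L K] [IsGalois L K]
    (S : Sylow m (K ≃ₐ[L] K)) : (S : Subgroup (K ≃ₐ[L] K)) = ⊤ := by
  have h1 : Module.finrank L (IntermediateField.fixedField (S : Subgroup (K ≃ₐ[L] K))) =
      (S : Subgroup (K ≃ₐ[L] K)).index := by
    have h2 := Module.finrank_mul_finrank L
      (IntermediateField.fixedField (S : Subgroup (K ≃ₐ[L] K))) K
    rw [IntermediateField.finrank_fixedField_eq_card, ← IsGalois.card_aut_eq_finrank L K,
      ← Subgroup.index_mul_card (S : Subgroup (K ≃ₐ[L] K))] at h2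
    exact Nat.eq_of_mul_eq_mul_right Nat.card_pos h2
  obtain ⟨α, hα⟩ := Field.exists_primitive_element L
    (IntermediateField.fixedField (S : Subgroup (K ≃ₐ[L] K)))
  rw [Field.primitive_element_iff_minpoly_natDegree_eq] at hα
  have h3 : minpoly L (((α : K) : Ω)) = minpoly L α := by
    rw [← minpoly.algebraMap_eq (FaithfulSMul.algebraMap_injective
      (IntermediateField.fixedField (S : Subgroup (K ≃ₐ[L] K))) K) α,
      ← minpoly.algebraMap_eq (FaithfulSMul.algebraMap_injective K Ω) _]
    rfl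
  have hnd : ¬ m ∣ (S : Subgroup (K ≃ₐ[L] K)).index := S.not_dvd_index
  obtain ⟨l, hl⟩ := H ((α : K) : Ω) (by rw [h3, hα, h1]; exact hnd)
  have h4 : (minpoly L α).natDegree = 1 := by
    rw [← h3, ← hl, minpoly.eq_X_sub_C, natDegree_X_sub_C]
  rw [hα, h1] at h4
  exact Subgroup.index_eq_one.1 h4

theorem pow_fix {L Ω : Type} [Field L] [Field Ω] [CharZero L] [Algebra L Ω] [IsAlgClosed Ω]
    [Algebra.IsAlgebraic L Ω] {m : ℕ} (hm : m.Prime)
    (H : ∀ t : Ω, ¬ m ∣ (minpoly L t).natDegree → ∃ l : L, algebraMap L Ω l = t)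
    (σ : Ω ≃ₐ[L] Ω) (t : Ω) : ∃ j : ℕ, (σ ^ m ^ j) t = t := by
  classical
  have : Fact m.Prime := ⟨hm⟩
  have : IsAlgClosure L Ω := ⟨inferInstance, inferInstance⟩
  have : Normal L Ω := IsAlgClosure.normal L Ω
  have : FiniteDimensional L (IntermediateField.adjoin L {t}) :=
    IntermediateField.adjoin.finiteDimensional (Algebra.IsIntegral.isIntegral t)
  set K : IntermediateField L Ω := IntermediateField.normalClosure L
    (IntermediateField.adjoin L {t}) Ω with hK
  have : FiniteDimensional L K := normalClosure.is_finiteDimensional _ _ _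
  have : Normal L K := normalClosure.normal _ _ _
  have : IsGalois L K := ⟨⟩
  have ht : t ∈ K := IntermediateField.le_normalClosure _ (IntermediateField.mem_adjoin_simple_self L t)
  have hS := tac_index H K (default : Sylow m (K ≃ₐ[L] K))
  have hmem : AlgEquiv.restrictNormalHom K σ ∈
      ((default : Sylow m (K ≃ₐ[L] K)) : Subgroup (K ≃ₐ[L] K)) := by
    rw [hS]; trivial
  obtain ⟨j, hj⟩ := (default : Sylow m (K ≃ₐ[L] K)).isPGroup' ⟨_, hmem⟩
  refine ⟨j, ?_⟩
  have h5 : (AlgEquiv.restrictNormalHom K σ) ^ m ^ j = 1 := congrArg Subtype.val hj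
  rw [← map_pow] at h5
  have h6 := AlgEquiv.restrictNormal_commutes (σ ^ m ^ j) K ⟨t, ht⟩
  have h7 : (σ ^ m ^ j).restrictNormal K ⟨t, ht⟩ = ⟨t, ht⟩ := by
    have := congrArg (fun f : K ≃ₐ[L] K => f ⟨t, ht⟩) h5
    exact this
  rw [h7] at h6
  exact h6.symm

end Pool.Agent.ETU
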